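import Pool.Agent.Lib.H31Z.ADefs

/-!
Definitions for the project H31Y (MP_f5b580_co, part 2: `6 ∣ r`). Everything of
`Pool.Agent.Lib.H31Z.Defs` is used (`Adm`, `ZZ`, `cz`, `pz`, `pn`, `sg`, `mn`, `Star`, `VA`, `Bal`, `ca`).
-/

namespace H31Y

open Finset H31Z

/-- the majorant (integrand) -/
noncomputable def JF {ι : Type*} (σ τ : ℝ) (E : Finset ι) (c : ι → ℝ) (D : ℝ) (t : ℝ) : ℝ :=
  Real.exp (-(σ / 8) * t ^ 2 - τ / 192 * t ^ 4) *
    ((∏ e ∈ E, |Real.cos (t * c e / 2)|) * |Real.cos (t * D / 2)|)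

/-- the majorant integral -/
noncomputable def JJ {ι : Type*} (σ τ : ℝ) (E : Finset ι) (c : ι → ℝ) (D : ℝ) : ℝ :=
  1 / (2 * Real.pi) * ∫ t in (-Real.pi)..Real.pi, JF σ τ E c D t

/-- `∑ w² + D²`, `D = 2s - ∑ w` -/
noncomputable def sgD {ι : Type*} (w : ι → ℤ) (L : Finset ι) (s : ℤ) : ℝ :=
  sg w L + (2 * (s : ℝ) - ∑ j ∈ L, (w j : ℝ)) ^ 2

/-- `∑ w⁴ + D⁴`, `D = 2s - ∑ w` -/
noncomputable def s4D {ι : Type*} (w : ι → ℤ) (L : Finset ι) (s : ℤ) : ℝ :=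
  ∑ j ∈ L, (w j : ℝ) ^ 4 + (2 * (s : ℝ) - ∑ j ∈ L, (w j : ℝ)) ^ 4

/-- number of indices of `J` with value `v` -/
def nv {ι : Type*} (z : ι → ℤ) (J : Finset ι) (v : ℤ) : ℕ := (J.filter (fun i => z i = v)).card

/-- number of indices of `J` with `|z| = 1` -/
def n1 {ι : Type*} (z : ι → ℤ) (J : Finset ι) : ℕ := (J.filter (fun i => |z i| = 1)).card

/-- the indices of `J` with `|z| ≥ 2` -/
def bigs {ι : Type*} (z : ι → ℤ) (J : Finset ι) : Finset ι := J.filter (fun i => 2 ≤ |z i|)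

/-- sum of the squares over `bigs` -/
noncomputable def sB {ι : Type*} (z : ι → ℤ) (J : Finset ι) : ℝ := ∑ i ∈ bigs z J, (z i : ℝ) ^ 2

/-- the heavy entries -/
noncomputable def hvy {ι : Type*} (CR : ℝ) (I : Finset ι) (y : ι → ℤ) (L : Finset ι) (g : ℤ) :
    Finset ι :=
  open Classical in
  (I \ L).filter (fun e => 2 * (CR * Real.sqrt (I.card : ℝ)) * |(g : ℝ)| < |(y e : ℝ)|)

/-- the data of `D1_data` -/
structure HV {ι : Type*} [DecidableEq ι] (η CR : ℝ) (I : Finset ι) (y : ι → ℤ) (L : Finset ι)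
    (g : ℤ) (w : ι → ℤ) : Prop where
  sub : L ⊆ I
  g0 : g ≠ 0
  eqn : ∀ j ∈ L, y j = g * w j ∧ w j ≠ 0
  card : (1 - η) * (I.card : ℝ) ≤ (L.card : ℝ)
  sgle : sg w L ≤ 6 * (I.card : ℝ)
  all : ∀ s : ℤ, pz w L s ≤ Real.sqrt (2 / (Real.pi * sg w L)) + η / Real.sqrt (I.card : ℝ)
  far : ∀ s : ℤ, CR * Real.sqrt (I.card : ℝ) < |(s : ℝ) - mn w L| →
    pz w L s ≤ η / Real.sqrt (I.card : ℝ)
  small : ((I \ L).card : ℝ) * (100 * CR) ^ 2 ≤ η ^ 2 * (I.card : ℝ)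

/-- a subset `B` is good: its sum is an integer within `R` of `s` -/
def good {ι : Type*} (x : ι → ℝ) (s R : ℝ) (B : Finset ι) : Prop :=
  |∑ i ∈ B, x i - s| ≤ R ∧ ∃ k : ℤ, ∑ i ∈ B, x i = k

/-- the proportion of the good subsets -/
noncomputable def pg {ι : Type*} (x : ι → ℝ) (E : Finset ι) (s R : ℝ) : ℝ :=
  open Classical in ((E.powerset.filter (fun B => good x s R B)).card : ℝ) / 2 ^ E.card

/-- the heavy structure: `J` the non-heavy nonzero coordinates, `T` the heavy ones. -/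
structure HT (η C : ℝ) {n : ℕ} (z : Fin n → ℤ) (J T : Finset (Fin n)) : Prop where
  disj : Disjoint J T
  nz : ∀ i, z i ≠ 0 ↔ i ∈ J ∪ T
  t1 : 1 ≤ T.card
  t2 : T.card ≤ 2
  ones : (1 - η) * (J.card : ℝ) ≤ (n1 z J : ℝ)
  mean : (n : ℝ) / 20 ≤ ∑ i ∈ J, (z i : ℝ)
  hv : ∀ i ∈ T, |2 * (z i : ℝ) + ∑ j ∈ J, (z j : ℝ)| ≤ η * n
  sq : ∑ i ∈ J, (z i : ℝ) ^ 2 ≤ C * n

/-- the working structure after the second order inequality -/
structure WS (n r : ℕ) (z : Fin n → ℤ) (J T : Finset (Fin n)) (a b c e : ℕ) : Prop where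
  disj : Disjoint J T
  nz : ∀ i, z i ≠ 0 ↔ i ∈ J ∪ T
  t1 : 1 ≤ T.card
  t2 : T.card ≤ 2
  ha : nv z J 1 = a
  hb : nv z J (-1) = b
  hc : c + J.card + T.card = n
  adm : ∀ S : Finset (Fin n), S.card = r → ∑ i ∈ S, z i ≠ 0
  se : sB z J ≤ (n : ℝ) / 1000
  mean : (n : ℝ) / 20 ≤ ∑ i ∈ J, (z i : ℝ)
  hv : ∀ i ∈ T, |2 * (z i : ℝ) + ∑ j ∈ J, (z j : ℝ)| ≤ (n : ℝ) / 1000
  star : (T.card : ℝ) * ((a : ℝ) + b + (1 - 1 / 1000) * sB z J) +
    (1 - 1 / 1000) * ∑ i ∈ T, (2 * (z i : ℝ) + ∑ j ∈ J, (z j : ℝ)) ^ 2 ≤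
      (T.card : ℝ) * (e + 1 / 2 + 1 / 500)

/-- the exponent `e*` -/
def est (n r : ℕ) : ℕ :=
  if 3 * r < n then (if n % 2 = 0 then n - r else n - r - 1)
  else if 2 * r + 3 ≤ n then 2 * r
  else if 2 * r ≤ n + 2 then (if n % 2 = 0 then n - 2 else n - 1)
  else if 3 * r ≤ 2 * n then 2 * (n - r)
  else 2 * (n - r) + 2

/-- the value of the heavy constructions (`0` where it is not needed) -/
def Hval (n r : ℕ) : ℕ :=
  if 3 * r < n then
    if n % 2 = 1 then 2 ^ (r - 1) * (2 * (n - r - 1).choose ((n - r - 1) / 2) + 2)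
    else 2 ^ (r - 1) * ((n - r).choose ((n - r) / 2) + (n - r))
  else if n = 3 * r then 2 ^ (r - 1) * (1 + (2 * r).choose r)
  else if 2 * r + 3 ≤ n then 2 ^ (n - 2 * r) * (1 + (2 * r - 1).choose r)
  else if 2 * r ≤ n + 2 then
    if r % 4 ≠ 0 then 0
    else if n = 2 * r + 2 then 2 * (2 * r).choose r + 2 * (2 * r).choose (r / 2 - 2)
    else if n = 2 * r + 1 then (2 * r).choose r + (2 * r).choose (r / 2)
    else if n = 2 * r then 2 * (2 * r - 2).choose (r - 1) + 2 * (2 * r - 2).choose (r / 2 - 1)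
    else if n + 1 = 2 * r then (2 * r - 2).choose (r - 1) + (2 * r - 2).choose (r / 2 - 1)
    else 2 * (2 * r - 4).choose (r - 2) + 2 * (2 * r - 4).choose (r / 2 - 2)
  else if 3 * r < 2 * n then 2 ^ (2 * r - n - 1) * ((2 * (n - r)).choose (n - r) + 2 * (n - r))
  else if 3 * r = 2 * n then 2 ^ (2 * r - n - 1) * ((2 * (n - r)).choose (n - r) + 1)
  else 0

/-- the arithmetic data for one heavy entry `-m` (no entries of absolute value at least `2` except the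
heavy one), `a` ones, `b` minus ones, `c` zeros. -/
structure Ar1 (n r a b c m : ℕ) : Prop where
  sum : c + (a + b) + 1 = n
  room : m + b ≤ a
  c1 : 2 * b + c < r
  c2 : 1 ≤ c → r ≤ m ∨ m + 2 + 2 * b + c ≤ r
  odd : Odd m → r ≤ m ∨ m + 3 + 2 * b ≤ r
  star : ((a : ℝ) + b) + (1 - 1 / 1000) * (2 * (m : ℝ) - ((a : ℝ) - b)) ^ 2 ≤
    (est n r : ℝ) + 1 / 2 + 1 / 500

/-- the arithmetic data for two heavy entries `-m1`, `-m2` -/
structure Ar2 (n r a b c m1 m2 : ℕ) : Prop where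
  sum : c + (a + b) + 2 = n
  room1 : m1 + b ≤ a
  room2 : m2 + b ≤ a
  c1 : 2 * b + c < r
  c2a : 1 ≤ c → r ≤ m1 ∨ m1 + 2 + 2 * b + c ≤ r
  c2b : 1 ≤ c → r ≤ m2 ∨ m2 + 2 + 2 * b + c ≤ r
  odd1 : Odd m1 → r ≤ m1 ∨ m1 + 3 + 2 * b ≤ r
  odd2 : Odd m2 → r ≤ m2 ∨ m2 + 3 + 2 * b ≤ r
  c3 : ∀ j q : ℕ, j ≤ b → q ≤ c → m1 + m2 + j ≤ a → m1 + m2 + 2 + 2 * j + q ≠ r
  star : 2 * ((a : ℝ) + b) + (1 - 1 / 1000) * ((2 * (m1 : ℝ) - ((a : ℝ) - b)) ^ 2 +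
    (2 * (m2 : ℝ) - ((a : ℝ) - b)) ^ 2) ≤ 2 * ((est n r : ℝ) + 1 / 2 + 1 / 500)

/-- the counts -/
def Z1 (a b c m : ℕ) : ℕ := 2 ^ c * ((a + b).choose b + (a + b).choose (b + m))

/-- the counts -/
def Z2 (a b c m1 m2 : ℕ) : ℕ := 2 ^ c * ((a + b).choose b + (a + b).choose (b + m1) +
  (a + b).choose (b + m2) + (a + b).choose (b + (m1 + m2)))

/-- number of subsets with sum `-s` of the vector with `a` entries `1` and `b` entries `-p`. -/
def latp (p a b s : ℕ) : ℕ := ∑ j ∈ Finset.range (b + 1), a.choose (p * j + s) * b.choose j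

/-- `A3`: the vector `(0, -2, 1^a, (-3)^b)`, `b = n/4 - 1`, `a = n - 2 - b` -/
def A3val (n : ℕ) : ℕ :=
  2 * (latp 3 (n - 1 - n / 4) (n / 4 - 1) 0 + latp 3 (n - 1 - n / 4) (n / 4 - 1) 2)

/-- the sum of `1 - v` over `E_r` -/
def uE (r : ℕ) : ℕ := if r % 5 = 1 then 7 else if r % 5 = 2 then 9 else if r % 5 = 3 then 6 else 8

/-- `A4`: the vector `(E_r, 1^a, (-4)^b)`, `b = (n - uE r)/5`, `a = n - 3 - b` -/
def A4val (n r : ℕ) : ℕ :=
  let b := (n - uE r) / 5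
  let a := n - 3 - b
  if r % 5 = 1 then
    latp 4 a b 0 + 2 * latp 4 a b 1 + 2 * latp 4 a b 2 + 2 * latp 4 a b 3 + latp 4 a b 4
  else if r % 5 = 2 then
    latp 4 a b 0 + 3 * latp 4 a b 2 + 3 * latp 4 a b 4 + latp 4 a b 6
  else if r % 5 = 3 then
    latp 4 a b 0 + 3 * latp 4 a b 1 + 3 * latp 4 a b 2 + latp 4 a b 3
  else
    latp 4 a b 0 + latp 4 a b 1 + 2 * latp 4 a b 2 + 2 * latp 4 a b 3 + latp 4 a b 4 + latp 4 a b 5

/-- the value of the lattice constructions for `6 ∣ r` -/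
def Lval (n r : ℕ) : ℕ := if r % 4 = 2 then A3val n else if r % 5 = 0 then 0 else A4val n r

/-- the exceptional coordinates: neither `0` nor `1` nor `-p` -/
def ExP (p : ℕ) {n : ℕ} (z : Fin n → ℤ) : Finset (Fin n) :=
  Finset.univ.filter (fun i => z i ≠ 0 ∧ z i ≠ 1 ∧ z i ≠ -(p : ℤ))

/-- nearly all entries are `1` and `-p`, nearly balanced -/
def NearP (p : ℕ) {n : ℕ} (η : ℝ) (z : Fin n → ℤ) : Prop :=
  (1 - η) * n ≤ (ca z 1 : ℝ) + (ca z (-(p : ℤ)) : ℝ) ∧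
    |(ca z 1 : ℝ) - p * (ca z (-(p : ℤ)) : ℝ)| ≤ η * n

/-- the fourth order term -/
noncomputable def phi (p : ℕ) : ℝ := ((p : ℝ) ^ 2 - p + 1) / 2

/-- the quadratic cost of a vector: exact form (`η = 0`) -/
noncomputable def QQ (p : ℕ) {n : ℕ} (η : ℝ) (z : Fin n → ℤ) : ℝ :=
  (1 - η) * (∑ e ∈ ExP p z, (z e : ℝ) ^ 2 + DD z ^ 2) -
    (p * (ca z 0 : ℝ) + (p - 1) * DD z + ∑ e ∈ ExP p z, (p - (p - 1) * (z e : ℝ)))

/-- the Fourier products -/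
noncomputable def GK (α β γ δ : ℕ) : ℝ :=
  1 / (2 * Real.pi) * ∫ t in (-Real.pi)..Real.pi,
    Real.cos (t / 2) ^ α * Real.cos t ^ β * Real.cos (3 * t / 2) ^ γ * Real.cos (2 * t) ^ δ

/-- exponents of the champion for `p = 3` -/
def s3 (n : ℕ) : ℕ × ℕ × ℕ × ℕ :=
  let q := n / 4
  if n % 4 = 0 then (3 * q - 1, 1, q - 1, 0)
  else if n % 4 = 1 then (3 * q + 1, 1, q - 1, 0)
  else if n % 4 = 2 then (3 * q + 1, 2, q - 1, 0)
  else (3 * q + 2, 1, q, 0)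

/-- the quadratic cost of the champion for `p = 3` -/
def q3 (n : ℕ) : ℤ := if n % 4 = 0 then -6 else if n % 4 = 1 then -7 else if n % 4 = 2 then -6 else -3

/-- exponents of the champion for `p = 4`: with `b = (n - uE r)/5`, `D = (n - uE r) % 5`,
`a = n - 3 - b`, `(m1, m2)` the numbers of `-1` and `-2` in `E_r`. -/
def s4 (n r : ℕ) : ℕ × ℕ × ℕ × ℕ :=
  let b := (n - uE r) / 5
  let D := (n - uE r) % 5
  let a := n - 3 - b
  let m1 := if r % 5 = 1 then 2 else if r % 5 = 2 then 0 else if r % 5 = 3 then 3 else 1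
  (a + m1 + (if D = 1 then 1 else 0), (3 - m1) + (if D = 2 then 1 else 0),
    (if D = 3 then 1 else 0), b + (if D = 4 then 1 else 0))

/-- the quadratic cost of the champion for `p = 4` -/
def q4 (n r : ℕ) : ℤ :=
  let D := (n - uE r) % 5
  if D = 0 then -18 else if D = 1 then -20 else if D = 2 then -20 else if D = 3 then -18 else -14

/-- the champion for `p = 3` -/
def vec3 (n : ℕ) (i : Fin n) : ℤ :=
  if (i : ℕ) = 0 then 0 else if (i : ℕ) = 1 then -2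
  else if (i : ℕ) < n - (n / 4 - 1) then 1 else -3

/-- the number of entries `-1` in `E_r` -/
def mm1 (r : ℕ) : ℕ := if r % 5 = 1 then 2 else if r % 5 = 2 then 0 else if r % 5 = 3 then 3 else 1

/-- the champion for `p = 4` -/
def vec4 (n r : ℕ) (i : Fin n) : ℤ :=
  if (i : ℕ) < mm1 r then -1 else if (i : ℕ) < 3 then -2
  else if (i : ℕ) < n - (n - uE r) / 5 then 1 else -4

/-- the vector with `c` zeros, `a` ones, `b` minus ones, then entries `-m` -/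
def hvec (n c a b m : ℕ) (i : Fin n) : ℤ :=
  if (i : ℕ) < c then 0 else if (i : ℕ) < c + a then 1 else if (i : ℕ) < c + a + b then -1
  else -(m : ℤ)

end H31Y
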