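import Pool.Agent.Lib.H31Y.Defs
import Pool.Agent.Lib.H31Z.H1
import Pool.Agent.Lib.H31Z.H2
import Pool.Agent.Lib.H31Z.F2

/-!
Chunk EA: no heavy entries: balanced.
-/

namespace H31Y

open Finset H31Z

theorem EA_sg {ι : Type*} (w : ι → ℤ) (L : Finset ι) (h : ∀ j ∈ L, w j ≠ 0) :
    (L.card : ℝ) ≤ sg w L := by
  unfold sg
  have h1 : ∑ _i ∈ L, (1 : ℝ) ≤ ∑ i ∈ L, (w i : ℝ) ^ 2 := by
    refine Finset.sum_le_sum fun i hi => ?_
    have h2 : (1 : ℤ) ≤ w i ^ 2 := by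
      have := sq_nonneg (w i)
      have h3 : w i ^ 2 ≠ 0 := pow_ne_zero _ (h i hi)
      omega
    exact_mod_cast h2
  simpa using h1

theorem EA_cs {ι : Type*} (x : ι → ℝ) (E B : Finset ι) (hB : B ⊆ E) (a σ : ℝ)
    (ha : (E.card : ℝ) ≤ a) (hσ : ∑ e ∈ E, x e ^ 2 ≤ σ) : |∑ i ∈ B, x i| ≤ Real.sqrt (a * σ) := by
  apply Real.le_sqrt_of_sq_le
  rw [sq_abs]
  have h1 : (∑ i ∈ B, x i) ^ 2 ≤ B.card * ∑ i ∈ B, x i ^ 2 := sq_sum_le_card_mul_sum_sq
  have h2 : (B.card : ℝ) ≤ E.card := by exact_mod_cast Finset.card_le_card hB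
  have h3 : ∑ i ∈ B, x i ^ 2 ≤ ∑ i ∈ E, x i ^ 2 :=
    Finset.sum_le_sum_of_subset_of_nonneg hB fun _ _ _ => sq_nonneg _
  have h4 : 0 ≤ ∑ i ∈ B, x i ^ 2 := Finset.sum_nonneg fun _ _ => sq_nonneg _
  have h5 : (0 : ℝ) ≤ E.card := Nat.cast_nonneg _
  calc (∑ i ∈ B, x i) ^ 2 ≤ B.card * ∑ i ∈ B, x i ^ 2 := h1
    _ ≤ a * σ := mul_le_mul (by linarith) (by linarith) h4 (by linarith)

theorem EA_num (N S η : ℝ) (hN : 1 ≤ N) (hη : 0 < η) (hη2 : η ≤ 1 / 100) (hS : (1 - η) * N ≤ S) :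
    Real.sqrt (2 / (Real.pi * S)) + η / Real.sqrt N ≤ 2 / Real.sqrt N := by
  have hr : 0 < Real.sqrt N := Real.sqrt_pos.2 (by linarith)
  have hS0 : 0 < S := by
    have : 0 < (1 - η) * N := mul_pos (by linarith) (by linarith)
    linarith
  have hπ3 : 3.14 < Real.pi := Real.pi_gt_d2
  have h1 : Real.sqrt (2 / (Real.pi * S)) ≤ 1 / Real.sqrt N := by
    have h2 : (1 : ℝ) / Real.sqrt N = Real.sqrt (1 / N) := by
      rw [Real.sqrt_div (by norm_num), Real.sqrt_one]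
    rw [h2]
    apply Real.sqrt_le_sqrt
    rw [div_le_div_iff₀ (by positivity) (by linarith)]
    have h3 : N * (99 / 100) ≤ S := by nlinarith
    nlinarith
  have h2 : η / Real.sqrt N ≤ 1 / Real.sqrt N := div_le_div_of_nonneg_right (by linarith) hr.le
  have h3 : (2 : ℝ) / Real.sqrt N = 1 / Real.sqrt N + 1 / Real.sqrt N := by ring
  linarith

/-- PROOF (steps (2), (3), (4) of `D2_data`). `N = |I|`, `E = I \ L`, `x = y/g` (real, `= w` on `L`),
`A = sqrt (2/(π sg)) + η/√N ≤ 0.82/√N` (`sg ≥ |L| ≥ 0.99 N`, nonzero integers), `B' = η/√N`,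
`R = CR √N`, `M = mn w L`, `|x e| ≤ 2R` on `E`. The bounds for real `s`: `F2_cast`, `F2_zero`.
`pz y I 0 = pn x I 0` (`F2_cast`, `F2_scale`). Let `σ = ∑_E x²`. If `σ > (100 CR)² N`: `H1_split`, `H2_esseen`:
`pz y I 0 ≤ 6 CR √N/(100 CR √N) · A + B' ≤ 0.06 A + B' < 0.39/√N`, contradiction. If `|∑_B x + M| > R` for
all `B ⊆ E`, `H1_split` gives `pz y I 0 ≤ B'`, contradiction; so `|M| ≤ R + |∑_B x| ≤ R + sqrt (|E| σ) ≤ R + θN`.
`pz y I 0 ≤ A` by `F2_le`. -/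
theorem EA_light {ι : Type*} [DecidableEq ι] (η θ CR : ℝ) (hη : 0 < η) (hη' : η ≤ 1 / 100)
    (hθ : 0 < θ) (hCR : 1 ≤ CR) (I : Finset ι) (y : ι → ℤ) (L : Finset ι) (g : ℤ) (w : ι → ℤ)
    (hI : 1 ≤ I.card) (hV : HV η CR I y L g w)
    (hs : ((I \ L).card : ℝ) * (100 * CR) ^ 2 ≤ θ ^ 2 * (I.card : ℝ))
    (hl : hvy CR I y L g = ∅) (hP : (39 / 100) / Real.sqrt (I.card : ℝ) ≤ pz y I 0) :
    |∑ i ∈ L, (w i : ℝ)| ≤ 2 * CR * Real.sqrt (I.card : ℝ) + 2 * θ * (I.card : ℝ) ∧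
      pz y I 0 ≤ Real.sqrt (2 / (Real.pi * sg w L)) + η / Real.sqrt (I.card : ℝ) := by
  obtain ⟨hLI, hg, hw, hLc, hsg, hA, hB, -⟩ := hV
  have hN4 : (1 : ℝ) ≤ I.card := by exact_mod_cast hI
  have hlv : ∀ e ∈ I \ L, |(y e : ℝ)| ≤ 2 * (CR * Real.sqrt (I.card : ℝ)) * |(g : ℝ)| := by
    intro e he
    by_contra hcon
    have h1 : e ∈ hvy CR I y L g := by
      unfold hvy
      rw [Finset.mem_filter]
      exact ⟨(@Finset.mem_sdiff ι (fun a b => Classical.propDecidable (a = b)) I L e).2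
        (Finset.mem_sdiff.1 he), not_le.1 hcon⟩
    rw [hl] at h1
    simp at h1
  obtain ⟨N, hNd⟩ : ∃ N : ℝ, N = (I.card : ℝ) := ⟨_, rfl⟩
  rw [← hNd] at hN4 hLc hsg hA hB hs hP hlv ⊢
  have hr : 0 < Real.sqrt N := Real.sqrt_pos.2 (by linarith)
  have hrr : Real.sqrt N * Real.sqrt N = N := Real.mul_self_sqrt (by linarith)
  have hSL : (L.card : ℝ) ≤ sg w L := EA_sg w L fun j hj => (hw j hj).2
  have hS1 : (1 - η) * N ≤ sg w L := hLc.trans hSL
  obtain ⟨A, hAd⟩ : ∃ A, A = Real.sqrt (2 / (Real.pi * sg w L)) + η / Real.sqrt N := ⟨_, rfl⟩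
  have hAle : A ≤ 2 / Real.sqrt N := by rw [hAd]; exact EA_num N (sg w L) η hN4 hη hη' hS1
  rw [← hAd] at hA ⊢
  have hA0 : 0 ≤ A := by rw [hAd]; positivity
  have hB0 : 0 ≤ η / Real.sqrt N := by positivity
  have hgR : (g : ℝ) ≠ 0 := by exact_mod_cast hg
  obtain ⟨x, hx⟩ : ∃ x : ι → ℝ, x = fun j => (y j : ℝ) / g := ⟨_, rfl⟩
  have hxL : ∀ j ∈ L, x j = (w j : ℝ) := fun j hj => by
    rw [hx]
    simp only
    rw [(hw j hj).1, Int.cast_mul]
    field_simp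
  have hAr : ∀ s : ℝ, pn x L s ≤ A := by
    intro s
    by_cases hs : ∃ k : ℤ, s = k
    · obtain ⟨k, rfl⟩ := hs
      rw [F2_cast _ w L hxL k]
      exact hA k
    · push Not at hs
      rw [F2_zero _ w L hxL s hs]
      exact hA0
  have hBr : ∀ s : ℝ, CR * Real.sqrt N < |s - mn w L| → pn x L s ≤ η / Real.sqrt N := by
    intro s hs1
    by_cases hs : ∃ k : ℤ, s = k
    · obtain ⟨k, rfl⟩ := hs
      rw [F2_cast _ w L hxL k]
      exact hB k hs1
    · push Not at hs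
      rw [F2_zero _ w L hxL s hs]
      exact hB0
  obtain ⟨E, hE⟩ : ∃ E, E = I \ L := ⟨_, rfl⟩
  rw [← hE] at hs hlv
  have hd : Disjoint L E := by rw [hE]; exact Finset.disjoint_sdiff
  have hLE : L ∪ E = I := by rw [hE]; exact Finset.union_sdiff_of_subset hLI
  have hpn : pn x (L ∪ E) 0 = pz y I 0 := by
    rw [hLE]
    have h1 : pn (fun j => (y j : ℝ)) I 0 = pn x I 0 := by
      apply F2_scale x (fun j => (y j : ℝ)) I g hgR
      intro j _
      rw [hx]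
      simp only
      field_simp
    rw [← h1]
    have h2 := F2_cast (fun j => (y j : ℝ)) y I (fun _ _ => rfl) 0
    rw [Int.cast_zero] at h2
    exact h2
  have hR0 : 0 < CR * Real.sqrt N := by positivity
  have hx2 : ∀ e ∈ E, |x e| ≤ 2 * (CR * Real.sqrt N) := by
    intro e he
    rw [hx]
    simp only
    rw [abs_div, div_le_iff₀ (abs_pos.2 hgR)]
    exact hlv e he
  have hsplit := H1_split x L E hd A (η / Real.sqrt N) (CR * Real.sqrt N) (mn w L) hAr hBr hA0 hB0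
  rw [hpn] at hsplit
  have hσ : ∑ e ∈ E, x e ^ 2 ≤ (100 * CR) ^ 2 * N := by
    by_contra hcon
    have hcon' := not_le.1 hcon
    have hC7N : 0 < (100 * CR) ^ 2 * N := by positivity
    have h1 := H2_esseen E x (CR * Real.sqrt N) (-mn w L) hR0 hx2 (hC7N.trans hcon')
    have h2 : Real.sqrt ((100 * CR) ^ 2 * N) ≤ Real.sqrt (∑ e ∈ E, x e ^ 2) := Real.sqrt_le_sqrt hcon'.le
    have h3 : Real.sqrt ((100 * CR) ^ 2 * N) = 100 * CR * Real.sqrt N := by
      rw [Real.sqrt_mul (by positivity), Real.sqrt_sq (by positivity)]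
    rw [h3] at h2
    have h4 : 6 * (CR * Real.sqrt N) / Real.sqrt (∑ e ∈ E, x e ^ 2) ≤ 6 / 100 := by
      rw [div_le_iff₀ (lt_of_lt_of_le (by positivity) h2)]
      linarith
    have h5 : pw x E (-mn w L) (CR * Real.sqrt N) * A ≤ 6 / 100 * (2 / Real.sqrt N) :=
      mul_le_mul (h1.trans h4) hAle hA0 (by norm_num)
    have h6 : (39 / 100) / Real.sqrt N ≤ 6 / 100 * (2 / Real.sqrt N) + η / Real.sqrt N := by
      linarith
    have h7 : 6 / 100 * (2 / Real.sqrt N) + η / Real.sqrt N = (12 / 100 + η) / Real.sqrt N := by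
      ring
    rw [h7, div_le_div_iff_of_pos_right hr] at h6
    linarith
  have hex : ∃ B ⊆ E, |∑ i ∈ B, x i - -mn w L| ≤ CR * Real.sqrt N := by
    by_contra hcon
    push Not at hcon
    have h1 : pw x E (-mn w L) (CR * Real.sqrt N) = 0 := by
      unfold pw
      have h2 : (E.powerset.filter (fun B => |∑ i ∈ B, x i - -mn w L| ≤ CR * Real.sqrt N)) = ∅ := by
        rw [Finset.filter_eq_empty_iff]
        intro B hB
        rw [Finset.mem_powerset] at hB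
        exact not_le.2 (hcon B hB)
      rw [h2]
      simp
    rw [h1, zero_mul, zero_add] at hsplit
    have h6 : (39 / 100) / Real.sqrt N ≤ η / Real.sqrt N := by linarith
    rw [div_le_div_iff_of_pos_right hr] at h6
    linarith
  constructor
  · obtain ⟨B, hBE, hBs⟩ := hex
    have hcs := EA_cs x E B hBE (E.card : ℝ) ((100 * CR) ^ 2 * N) le_rfl hσ
    have hsq : Real.sqrt ((E.card : ℝ) * ((100 * CR) ^ 2 * N)) ≤ θ * N := by
      rw [Real.sqrt_le_left (by positivity)]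
      have h1 : (E.card : ℝ) * ((100 * CR) ^ 2 * N) = ((E.card : ℝ) * (100 * CR) ^ 2) * N := by ring
      rw [h1]
      calc ((E.card : ℝ) * (100 * CR) ^ 2) * N ≤ (θ ^ 2 * N) * N :=
            mul_le_mul_of_nonneg_right hs (by linarith)
        _ = (θ * N) ^ 2 := by ring
    have h1 : ∑ i ∈ L, (w i : ℝ) = 2 * mn w L := by
      unfold mn
      ring
    rw [h1, abs_mul, abs_two]
    have h2 : |mn w L| ≤ |∑ i ∈ B, x i - -mn w L| + |∑ i ∈ B, x i| := by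
      have h3 : mn w L = (∑ i ∈ B, x i - -mn w L) - ∑ i ∈ B, x i := by ring
      calc |mn w L| = |(∑ i ∈ B, x i - -mn w L) - ∑ i ∈ B, x i| := by rw [← h3]
        _ ≤ _ := abs_sub _ _
    linarith
  · have h1 := F2_le x L E hd A 0 hAr
    rw [hpn] at h1
    exact h1

end H31Y
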