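import Pool.Agent.Lib.H31Y.EA
import Pool.Agent.Lib.H31Z.D1
import Pool.Agent.Lib.H31Z.D3

/-!
Chunk EB: the dichotomy balanced / heavy.
-/

namespace H31Y

open Finset H31Z

/-- PROOF (compare `D3_dich`). `K1 = ⌈48/η⌉`, `δ = η/(16 K1²)`; `CR ≥ 1` from `D1_data η` (increase it to `≥ 1`:
the last property of `D1_data` is monotone in `CR`; note `η ≤ 1/100 ≤ 1/50`); `θ ≤ η` positive with
`4 θ ≤ min (η/4) (δ * min δ η/8)`; `ε ≤ 1/2` positive with `ε ≤ η/4` and `ε (100 CR)² ≤ θ²`; `K, N0` from `D1_data`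
for this `ε`, `N0` also from `B1_realise K K1 δ η` and so large that `2 CR √N ≤ θ N`. `D1_data` (as
`0.35 ≤ 0.39`) gives `L, g, w` and `HV η CR`, with `|I \ L| ≤ ε N`. If `hvy = ∅`: `EA_light` with this `θ`:
`|∑_L w| ≤ 3 θ N`, and all fields of `Bal` hold: `vacard`, `vasum` by `D3_va`, `real` by `B1_realise` as in
`D3_dich`. -/
theorem EB_dich (η : ℝ) (hη : 0 < η) (hη' : η ≤ 1 / 100) :
    ∃ (K1 : ℕ) (δ CR : ℝ) (N0 : ℕ), 1 ≤ K1 ∧ 0 < δ ∧ 1 ≤ CR ∧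
      ∀ (ι : Type) [DecidableEq ι] (I : Finset ι) (y : ι → ℤ), N0 ≤ I.card → (∀ j ∈ I, y j ≠ 0) →
      (39 / 100) / Real.sqrt (I.card : ℝ) ≤ pz y I 0 →
      (∃ (L : Finset ι) (g : ℤ) (w : ι → ℤ), Bal η K1 δ I y L g w) ∨
      ∃ (L : Finset ι) (g : ℤ) (w : ι → ℤ), HV η CR I y L g w ∧ (hvy CR I y L g).Nonempty := by
  obtain ⟨CR0, hCR0, hD1⟩ := D1_data η hη (by linarith)
  obtain ⟨CR, hCRd⟩ : ∃ CR, CR = max CR0 1 := ⟨_, rfl⟩
  have hCR1 : 1 ≤ CR := by rw [hCRd]; exact le_max_right _ _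
  have hCR2 : CR0 ≤ CR := by rw [hCRd]; exact le_max_left _ _
  set K1 : ℕ := ⌈48 / η⌉₊ with hK1def
  have hK1 : 1 ≤ K1 := Nat.one_le_iff_ne_zero.2 (Nat.ceil_pos.2 (by positivity)).ne'
  have hK1r : 48 / η ≤ (K1 : ℝ) := Nat.le_ceil _
  have hK1p : (0 : ℝ) < (K1 : ℝ) := by exact_mod_cast hK1
  have h48 : 48 ≤ η * K1 := by
    rw [div_le_iff₀ hη] at hK1r
    linarith
  set δ : ℝ := η / (16 * (K1 : ℝ) ^ 2) with hδdef
  have hδ : 0 < δ := by positivity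
  have hδ2 : δ * (16 * (K1 : ℝ) ^ 2) ≤ η := by
    rw [hδdef, div_mul_cancel₀ _ (by positivity)]
  have hmin : 0 < min δ η := lt_min hδ hη
  obtain ⟨τ, hτdef⟩ : ∃ τ, τ = min (η / 4) (δ * min δ η / 8) := ⟨_, rfl⟩
  have hτ : 0 < τ := by rw [hτdef]; exact lt_min (by positivity) (by positivity)
  have hτ1 : τ ≤ η / 4 := by rw [hτdef]; exact min_le_left _ _
  have hτ2 : τ ≤ δ * min δ η / 8 := by rw [hτdef]; exact min_le_right _ _
  obtain ⟨θ, hθd⟩ : ∃ θ, θ = τ / 4 := ⟨_, rfl⟩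
  have hθ : 0 < θ := by rw [hθd]; positivity
  have hθη : θ ≤ η := by linarith
  obtain ⟨ε, hεdef⟩ : ∃ ε, ε = min (1 / 2) (min (η / 4) (θ ^ 2 / (100 * CR) ^ 2)) := ⟨_, rfl⟩
  have hε : 0 < ε := by
    rw [hεdef]; exact lt_min (by norm_num) (lt_min (by positivity) (by positivity))
  have hε1 : ε ≤ 1 / 2 := by rw [hεdef]; exact min_le_left _ _
  have hε2 : ε ≤ η / 4 := by rw [hεdef]; exact (min_le_right _ _).trans (min_le_left _ _)
  have hε3 : ε * (100 * CR) ^ 2 ≤ θ ^ 2 := by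
    have h1 : ε ≤ θ ^ 2 / (100 * CR) ^ 2 := by
      rw [hεdef]; exact (min_le_right _ _).trans (min_le_right _ _)
    rwa [le_div_iff₀ (by positivity)] at h1
  obtain ⟨K, N1, hK⟩ := hD1 ε hε hε1
  obtain ⟨N2, hB⟩ := B1_realise K K1 δ η hδ hη (by linarith)
  refine ⟨K1, δ, CR, max (max N1 N2) (max 1 ⌈4 * CR ^ 2 / θ ^ 2⌉₊), hK1, hδ, hCR1, ?_⟩
  intro ι _ I y hN hy hP
  have hN1 : N1 ≤ I.card := ((le_max_left _ _).trans (le_max_left _ _)).trans hN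
  have hN2 : N2 ≤ I.card := ((le_max_right _ _).trans (le_max_left _ _)).trans hN
  have hN3 : 1 ≤ I.card := ((le_max_left _ _).trans (le_max_right _ _)).trans hN
  have hN4 : 4 * CR ^ 2 / θ ^ 2 ≤ (I.card : ℝ) :=
    (Nat.le_ceil _).trans (by
      exact_mod_cast ((le_max_right _ _).trans (le_max_right _ _)).trans hN)
  have hN0 : (0 : ℝ) ≤ (I.card : ℝ) := Nat.cast_nonneg _
  have hN5 : (1 : ℝ) ≤ (I.card : ℝ) := by exact_mod_cast hN3
  have hr : 0 < Real.sqrt (I.card : ℝ) := Real.sqrt_pos.2 (by linarith)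
  have hlow : (35 / 100) / Real.sqrt (I.card : ℝ) ≤ pz y I 0 := by
    refine le_trans ?_ hP
    apply div_le_div_of_nonneg_right _ hr.le
    norm_num
  obtain ⟨L, hLI, g, w, hg, hLc, hw, hsg, hA, hfar⟩ := hK ι I y hN1 hy hlow
  have hE1 : ((I \ L).card : ℝ) ≤ ε * I.card := by
    have h1 : (I \ L).card + L.card = I.card := Finset.card_sdiff_add_card_eq_card hLI
    have h2 : ((I \ L).card : ℝ) + L.card = I.card := by exact_mod_cast h1
    linarith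
  have hsmall : ((I \ L).card : ℝ) * (100 * CR) ^ 2 ≤ θ ^ 2 * (I.card : ℝ) := by
    calc ((I \ L).card : ℝ) * (100 * CR) ^ 2 ≤ (ε * I.card) * (100 * CR) ^ 2 :=
          mul_le_mul_of_nonneg_right hE1 (by positivity)
      _ = (ε * (100 * CR) ^ 2) * I.card := by ring
      _ ≤ θ ^ 2 * (I.card : ℝ) := mul_le_mul_of_nonneg_right hε3 hN0
  have hcη : (1 - η) * (I.card : ℝ) ≤ (L.card : ℝ) :=
    le_trans (mul_le_mul_of_nonneg_right (by linarith) hN0) hLc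
  have hV : HV η CR I y L g w := by
    refine ⟨hLI, hg, fun j hj => ⟨(hw j hj).1, (hw j hj).2.1⟩, hcη, hsg, hA, ?_, ?_⟩
    · intro s hs
      refine hfar s (lt_of_le_of_lt ?_ hs)
      exact mul_le_mul_of_nonneg_right hCR2 hr.le
    · refine hsmall.trans (mul_le_mul_of_nonneg_right ?_ hN0)
      exact pow_le_pow_left₀ hθ.le hθη 2
  rcases Finset.eq_empty_or_nonempty (hvy CR I y L g) with hl | hl
  swap
  · exact Or.inr ⟨L, g, w, hV, hl⟩
  left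
  obtain ⟨hsum0, hprob⟩ := EA_light η θ CR hη hη' hθ hCR1 I y L g w hN3 hV hsmall hl hP
  have hbig : 2 * CR * Real.sqrt (I.card : ℝ) ≤ θ * I.card := by
    have h1 : 2 * CR ≤ θ * Real.sqrt (I.card : ℝ) := by
      have h2 : (2 * CR / θ) ≤ Real.sqrt (I.card : ℝ) := by
        apply Real.le_sqrt_of_sq_le
        rw [div_pow]
        refine le_trans (le_of_eq ?_) hN4
        ring
      rw [div_le_iff₀ hθ] at h2
      linarith
    calc 2 * CR * Real.sqrt (I.card : ℝ) ≤ (θ * Real.sqrt (I.card : ℝ)) * Real.sqrt (I.card : ℝ) :=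
          mul_le_mul_of_nonneg_right h1 hr.le
      _ = θ * I.card := by rw [mul_assoc, Real.mul_self_sqrt hN0]
  have hsum' : |∑ i ∈ L, (w i : ℝ)| ≤ τ * I.card := by
    have h1 : 0 ≤ θ * I.card := by positivity
    have h2 : τ * (I.card : ℝ) = 4 * (θ * I.card) := by rw [hθd]; ring
    linarith
  have hs1 : |∑ i ∈ L, (w i : ℝ)| ≤ η / 4 * I.card :=
    hsum'.trans (mul_le_mul_of_nonneg_right hτ1 hN0)
  have hs2 : |∑ i ∈ L, (w i : ℝ)| ≤ δ * min δ η / 8 * I.card :=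
    hsum'.trans (mul_le_mul_of_nonneg_right hτ2 hN0)
  have hc1 : (1 - η / 4) * (I.card : ℝ) ≤ (L.card : ℝ) :=
    le_trans (mul_le_mul_of_nonneg_right (by linarith) hN0) hLc
  have hva := D3_va w L K1 δ η I.card hK1 hδ hη h48 hδ2 (fun j hj => (hw j hj).2.1) hsg hc1 hs1
  refine ⟨L, g, w, ⟨hLI, hg, fun j hj => ⟨(hw j hj).1, (hw j hj).2.1⟩, hcη, hsg, hprob, hva.1,
    hva.2, ?_⟩⟩
  intro i hi j hj hwi hwj m hm hmN
  unfold VA at hi hj
  rw [Finset.mem_filter] at hi hj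
  have ha : ((w i).natAbs : ℤ) = w i := Int.natAbs_of_nonneg hwi.le
  have hb : -((w j).natAbs : ℤ) = w j := by
    rw [Int.ofNat_natAbs_of_nonpos hwj.le, neg_neg]
  refine hB ι L w I.card hN2 (Finset.card_le_card hLI) ?_
    (fun j hj => (hw j hj).2.2) hs2 (w i).natAbs (w j).natAbs ?_ ?_ ?_ ?_ ?_ ?_ m hm hmN
  · exact le_trans (mul_le_mul_of_nonneg_right (by linarith) hN0) hc1
  · omega
  · omega
  · have := hi.2.1
    rw [abs_of_pos hwi] at this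
    omega
  · have := hj.2.1
    rw [abs_of_neg hwj] at this
    omega
  · rw [ha]
    refine hi.2.2.trans (le_of_eq ?_)
    congr 2
  · rw [hb]
    refine hj.2.2.trans (le_of_eq ?_)
    congr 2

end H31Y
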