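import Mathlib

/-!
Chunk FT: the fourth order upper bound for the cosine (pure).
-/

namespace H31Y

theorem ft_tan {u : ℝ} (h0 : 0 ≤ u) (h1 : u < Real.pi / 2) : u + u ^ 3 / 3 ≤ Real.tan u := by
  have hd : ∀ x ∈ Set.Ico 0 (Real.pi / 2), HasDerivAt (fun x : ℝ => Real.tan x - x - x ^ 3 / 3)
      (1 / Real.cos x ^ 2 - 1 - ((3 : ℕ) : ℝ) * x ^ (3 - 1) / 3) x := by
    intro x hx
    have hc : 0 < Real.cos x := Real.cos_pos_of_mem_Ioo ⟨by linarith [hx.1, Real.pi_pos], hx.2⟩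
    exact ((Real.hasDerivAt_tan hc.ne').sub (hasDerivAt_id x)).sub ((hasDerivAt_pow 3 x).div_const 3)
  have hm : MonotoneOn (fun x : ℝ => Real.tan x - x - x ^ 3 / 3) (Set.Ico 0 (Real.pi / 2)) := by
    refine monotoneOn_of_deriv_nonneg (convex_Ico _ _)
      (fun x hx => (hd x hx).continuousAt.continuousWithinAt) ?_ ?_
    · intro x hx
      rw [interior_Ico] at hx
      exact (hd x ⟨hx.1.le, hx.2⟩).differentiableAt.differentiableWithinAt
    · intro x hx
      rw [interior_Ico] at hx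
      rw [(hd x ⟨hx.1.le, hx.2⟩).deriv]
      have hc : 0 < Real.cos x := Real.cos_pos_of_mem_Ioo ⟨by linarith [hx.1, Real.pi_pos], hx.2⟩
      have ht : x ≤ Real.tan x := Real.le_tan hx.1.le hx.2
      have he : 1 / Real.cos x ^ 2 = 1 + Real.tan x ^ 2 := by
        rw [Real.tan_eq_sin_div_cos]
        field_simp
        rw [add_comm]
        exact (Real.sin_sq_add_cos_sq x).symm
      have h2 : x ^ 2 ≤ Real.tan x ^ 2 := pow_le_pow_left₀ hx.1.le ht 2
      rw [he]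
      push_cast
      norm_num
      linarith
  have h2 := hm ⟨le_rfl, by positivity⟩ ⟨h0, h1⟩ h0
  simp only [Real.tan_zero] at h2
  norm_num at h2
  linarith

theorem ft_pos {u : ℝ} (h0 : 0 ≤ u) (h1 : u < Real.pi / 2) :
    Real.log (Real.cos u) + u ^ 2 / 2 + u ^ 4 / 12 ≤ 0 := by
  have hd : ∀ x ∈ Set.Ico 0 (Real.pi / 2), HasDerivAt
      (fun x : ℝ => Real.log (Real.cos x) + x ^ 2 / 2 + x ^ 4 / 12)
      (-Real.sin x / Real.cos x + ((2 : ℕ) : ℝ) * x ^ (2 - 1) / 2 +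
        ((4 : ℕ) : ℝ) * x ^ (4 - 1) / 12) x := by
    intro x hx
    have hc : 0 < Real.cos x := Real.cos_pos_of_mem_Ioo ⟨by linarith [hx.1, Real.pi_pos], hx.2⟩
    exact (((Real.hasDerivAt_cos x).log hc.ne').add ((hasDerivAt_pow 2 x).div_const 2)).add
      ((hasDerivAt_pow 4 x).div_const 12)
  have hm : AntitoneOn (fun x : ℝ => Real.log (Real.cos x) + x ^ 2 / 2 + x ^ 4 / 12)
      (Set.Ico 0 (Real.pi / 2)) := by
    refine antitoneOn_of_deriv_nonpos (convex_Ico _ _)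
      (fun x hx => (hd x hx).continuousAt.continuousWithinAt) ?_ ?_
    · intro x hx
      rw [interior_Ico] at hx
      exact (hd x ⟨hx.1.le, hx.2⟩).differentiableAt.differentiableWithinAt
    · intro x hx
      rw [interior_Ico] at hx
      rw [(hd x ⟨hx.1.le, hx.2⟩).deriv]
      have ht := ft_tan hx.1.le hx.2
      rw [Real.tan_eq_sin_div_cos] at ht
      have he : -Real.sin x / Real.cos x = -(Real.sin x / Real.cos x) := neg_div _ _
      rw [he]
      push_cast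
      norm_num
      linarith
  have h2 := hm ⟨le_rfl, by positivity⟩ ⟨h0, h1⟩ h0
  simp only [Real.cos_zero, Real.log_one] at h2
  norm_num at h2
  linarith

/-- PROOF. `u ≥ 0` by symmetry; at `u = π/2` the left side is `0`. For `0 ≤ u < π/2` put
`f u = log (cos u) + u²/2 + u⁴/12`, `f 0 = 0`, `f' u = -tan u + u + u³/3 ≤ 0`: `g u = tan u - u - u³/3` has
`g 0 = 0`, `g' u = 1/cos² u - 1 - u² = tan² u - u² ≥ 0` (`Real.le_tan`). -/
theorem FT_cos (u : ℝ) (hu : |u| ≤ Real.pi / 2) :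
    |Real.cos u| ≤ Real.exp (-u ^ 2 / 2 - u ^ 4 / 12) := by
  have key : ∀ v : ℝ, 0 ≤ v → v ≤ Real.pi / 2 →
      |Real.cos v| ≤ Real.exp (-v ^ 2 / 2 - v ^ 4 / 12) := by
    intro v h0 h1
    rcases h1.eq_or_lt with h2 | h2
    · rw [h2, Real.cos_pi_div_two, abs_zero]
      exact (Real.exp_pos _).le
    · have hc : 0 < Real.cos v := Real.cos_pos_of_mem_Ioo ⟨by linarith [Real.pi_pos], h2⟩
      rw [abs_of_pos hc, ← Real.log_le_iff_le_exp hc]
      linarith [ft_pos h0 h2]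
  have h := key |u| (abs_nonneg u) hu
  have e2 : |u| ^ 2 = u ^ 2 := sq_abs u
  have e4 : |u| ^ 4 = u ^ 4 := by
    rw [show (4 : ℕ) = 2 * 2 from rfl, pow_mul, e2, ← pow_mul]
  rw [Real.cos_abs, e2, e4] at h
  exact h

/-- PROOF. `cos² (π/8) = (1 + √2/2)/2 ≤ 0.85356`, `exp (-2/13) ≥ 0.857`. -/
theorem FT_pi8 : Real.cos (Real.pi / 8) ≤ Real.exp (-1 / 13) := by
  have h1 := FT_cos (Real.pi / 8) (by
    rw [abs_of_pos (by positivity)]
    linarith [Real.pi_pos])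
  refine (le_abs_self _).trans (h1.trans (Real.exp_le_exp.2 ?_))
  have h2 : (3.14 : ℝ) < Real.pi := Real.pi_gt_d2
  have h3 : (3.14 : ℝ) ^ 2 < Real.pi ^ 2 := pow_lt_pow_left₀ h2 (by norm_num) (by norm_num)
  have h4 : 0 ≤ (Real.pi / 8) ^ 4 := by positivity
  have h5 : (Real.pi / 8) ^ 2 = Real.pi ^ 2 / 64 := by ring
  rw [neg_div, h5]
  norm_num at h3 ⊢
  linarith

end H31Y
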