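import Pool.Agent.Lib.H31Y.GA
import Pool.Agent.Lib.H31Z.F1
import Pool.Agent.Lib.H31Z.F2
import Pool.Agent.Lib.H31Y.FT

/-!
Chunk FAa: Fourier majorant, heavy case
-/

namespace H31Y

open Finset H31Z MeasureTheory

theorem faa_le {ι : Type*} (z : ι → ℤ) (J : Finset ι) (m : ℤ) (F : ℝ → ℝ) (hF : Continuous F)
    (h : ∀ t, |t| ≤ Real.pi →
      (∏ j ∈ J, |Real.cos (t * z j / 2)|) * |Real.cos (t * (m - mn z J))| ≤ F t) :
    pz z J m ≤ 1 / (2 * Real.pi) * ∫ t in (-Real.pi)..Real.pi, F t := by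
  rw [F1_inv]
  have hpi := Real.pi_pos
  refine mul_le_mul_of_nonneg_left ?_ (by positivity)
  refine intervalIntegral.integral_mono_on (by linarith) ((F1_cont z J m).intervalIntegrable _ _)
    (hF.intervalIntegrable _ _) ?_
  intro t ht
  have h1 : |t| ≤ Real.pi := abs_le.2 ⟨by linarith [ht.1], ht.2⟩
  refine (le_abs_self _).trans ?_
  rw [abs_mul, Finset.abs_prod]
  exact h t h1

/-- PROOF. `F1_inv`, absolute values inside the integral (`intervalIntegral.abs_integral_le_integral_abs` or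
monotonicity); the factors with `|z j| = 1` are `|cos (t/2)| ≤ exp (-t²/8)` for `|t| ≤ π` (`T1_cos_le`), the
other ones are those of `bigs z J` (all `z j ≠ 0`); `t (m - mn) = t D/2`. -/
theorem FA_heavy {ι : Type*} (z : ι → ℤ) (J : Finset ι) (hz : ∀ j ∈ J, z j ≠ 0) (m : ℤ) :
    pz z J m ≤ JJ (n1 z J : ℝ) 0 (bigs z J) (fun e => (z e : ℝ))
      (2 * (m : ℝ) - ∑ j ∈ J, (z j : ℝ)) := by
  unfold JJ
  refine faa_le z J m _ (GA_cont _ _ _ _ _) ?_
  intro t ht
  unfold JF
  have e1 : t * (2 * (m : ℝ) - ∑ j ∈ J, (z j : ℝ)) / 2 = t * (m - mn z J) := by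
    unfold mn
    ring
  rw [e1, ← mul_assoc]
  refine mul_le_mul_of_nonneg_right ?_ (abs_nonneg _)
  have e2 : J.filter (fun i => ¬ 2 ≤ |z i|) = J.filter (fun i => |z i| = 1) := by
    ext i
    simp only [Finset.mem_filter, and_congr_right_iff]
    intro hi
    have h1 : 1 ≤ |z i| := Int.one_le_abs (hz i hi)
    omega
  rw [← Finset.prod_filter_mul_prod_filter_not J (fun i => 2 ≤ |z i|), e2, mul_comm]
  refine mul_le_mul_of_nonneg_right ?_ (Finset.prod_nonneg fun _ _ => abs_nonneg _)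
  have h2 : ∀ j ∈ J.filter (fun i => |z i| = 1), |Real.cos (t * z j / 2)| ≤
      Real.exp (-t ^ 2 / 8) := by
    intro j hj
    have hj1 : |z j| = 1 := (Finset.mem_filter.1 hj).2
    have h3 : |Real.cos (t * z j / 2)| = |Real.cos (t / 2)| := by
      rcases (abs_eq (by norm_num)).1 hj1 with h4 | h4
      · rw [h4]
        simp
      · rw [h4]
        push_cast
        rw [show t * (-1) / 2 = -(t / 2) by ring, Real.cos_neg]
    rw [h3]
    have h4 := T1_cos_le (t / 2) (by rw [abs_div, abs_two]; linarith)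
    refine h4.trans (le_of_eq ?_)
    congr 1
    ring
  refine (Finset.prod_le_prod (fun _ _ => abs_nonneg _) h2).trans (le_of_eq ?_)
  rw [Finset.prod_const, ← Real.exp_nat_mul]
  congr 1
  unfold n1
  ring

end H31Y
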