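import Pool.Agent.Lib.H31Y.GA
import Pool.Agent.Lib.H31Z.F1
import Pool.Agent.Lib.H31Z.F2
import Pool.Agent.Lib.H31Y.FT
import Pool.Agent.Lib.H31Y.FAa

/-!
Chunk FAb: Fourier majorant, lattice case
-/

namespace H31Y

open Finset H31Z MeasureTheory

theorem fab_split (p : ℕ) (hp : 2 ≤ p) {n : ℕ} (z : Fin n → ℤ) (f : ℤ → ℝ) (h0 : f 0 = 1) :
    ∏ j, f (z j) = f 1 ^ ca z 1 * f (-(p : ℤ)) ^ ca z (-(p : ℤ)) * ∏ j ∈ ExP p z, f (z j) := by
  have h1 : ∀ v : ℤ, ∏ j ∈ Finset.univ.filter (fun i => z i = v), f (z j) = f v ^ ca z v := by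
    intro v
    unfold ca
    rw [← Finset.prod_const]
    refine Finset.prod_congr rfl fun j hj => ?_
    rw [(Finset.mem_filter.1 hj).2]
  have hp' : (2 : ℤ) ≤ p := by exact_mod_cast hp
  have e1 : ∏ j, f (z j) = ∏ j, ((if z j = 1 then f (z j) else 1) *
      (if z j = -(p : ℤ) then f (z j) else 1) *
      (if z j ≠ 0 ∧ z j ≠ 1 ∧ z j ≠ -(p : ℤ) then f (z j) else 1)) := by
    refine Finset.prod_congr rfl fun j _ => ?_
    by_cases a1 : z j = 1
    · have a2 : z j ≠ -(p : ℤ) := by omega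
      simp [a1]
      omega
    · by_cases a2 : z j = -(p : ℤ)
      · have a4 : -(p : ℤ) ≠ 1 := by omega
        simp [a2, a4]
      · by_cases a3 : z j = 0
        · have a4 : (0 : ℤ) ≠ -(p : ℤ) := by omega
          simp [a3, h0]
        · simp [a1, a2, a3]
  rw [e1, Finset.prod_mul_distrib, Finset.prod_mul_distrib, Finset.prod_ite, Finset.prod_ite,
    Finset.prod_ite, Finset.prod_const_one, Finset.prod_const_one, Finset.prod_const_one, mul_one,
    mul_one, mul_one, h1, h1]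
  rfl

/-- PROOF. `F1_inv` with `s = 0`. With `a = ca z 1`, `b = ca z (-p)`: for `|t| ≤ π/p` `FT_cos` for `t/2` and
`pt/2`: `|cos (t/2)|^a |cos (pt/2)|^b ≤ exp (-(a+p²b)t²/8 - (a+p⁴b)t⁴/192)`. For `π/p ≤ |t| ≤ π`:
`|cos (t/2)| ≤ cos (π/(2p)) ≤ cos (π/8) ≤ exp (-1/13)` (`FT_pi8`), the other factors are at most `1`. -/
theorem FA_lat (p : ℕ) (hp : 2 ≤ p) (hp4 : p ≤ 4) {n : ℕ} (z : Fin n → ℤ) :
    pz z Finset.univ 0 ≤
      JJ ((ca z 1 : ℝ) + (p : ℝ) ^ 2 * ca z (-(p : ℤ))) ((ca z 1 : ℝ) + (p : ℝ) ^ 4 * ca z (-(p : ℤ)))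
        (ExP p z) (fun e => (z e : ℝ)) (DD z) + Real.exp (-(ca z 1 : ℝ) / 13) := by
  have hpi := Real.pi_pos
  have hp2 : (2 : ℝ) ≤ p := by exact_mod_cast hp
  have hp3 : (p : ℝ) ≤ 4 := by exact_mod_cast hp4
  set σ : ℝ := (ca z 1 : ℝ) + (p : ℝ) ^ 2 * ca z (-(p : ℤ)) with hσ
  set τ : ℝ := (ca z 1 : ℝ) + (p : ℝ) ^ 4 * ca z (-(p : ℤ)) with hτ
  have e0 : JJ σ τ (ExP p z) (fun e => (z e : ℝ)) (DD z) + Real.exp (-(ca z 1 : ℝ) / 13) =
      1 / (2 * Real.pi) * ∫ t in (-Real.pi)..Real.pi,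
        (JF σ τ (ExP p z) (fun e => (z e : ℝ)) (DD z) t + Real.exp (-(ca z 1 : ℝ) / 13)) := by
    rw [intervalIntegral.integral_add ((GA_cont _ _ _ _ _).intervalIntegrable _ _)
      (continuous_const.intervalIntegrable _ _), intervalIntegral.integral_const, mul_add]
    unfold JJ
    congr 1
    rw [smul_eq_mul]
    field_simp
    ring
  rw [e0]
  refine faa_le z Finset.univ 0 _ ((GA_cont _ _ _ _ _).add continuous_const) ?_
  intro t ht
  have e1 : |Real.cos (t * (((0 : ℤ) : ℝ) - mn z Finset.univ))| = |Real.cos (t * DD z / 2)| := by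
    have e2 : t * (((0 : ℤ) : ℝ) - mn z Finset.univ) = -(t * DD z / 2) := by
      unfold mn DD
      push_cast
      ring
    rw [e2, Real.cos_neg]
  rw [e1]
  have e3 := fab_split p hp z (fun v => |Real.cos (t * (v : ℝ) / 2)|) (by simp)
  rw [e3]
  have hf := GA_fac (ExP p z) (fun e => (z e : ℝ)) (DD z) t
  have e4 : |Real.cos (t * ((1 : ℤ) : ℝ) / 2)| = |Real.cos (t / 2)| := by simp
  have e5 : |Real.cos (t * ((-(p : ℤ) : ℤ) : ℝ) / 2)| = |Real.cos (p * t / 2)| := by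
    push_cast
    rw [show t * -(p : ℝ) / 2 = -(p * t / 2) by ring, Real.cos_neg]
  rw [e4, e5, mul_assoc (|Real.cos (t / 2)| ^ ca z 1 * |Real.cos (p * t / 2)| ^ ca z (-(p : ℤ)))]
  have hc1 : 0 ≤ |Real.cos (t / 2)| := abs_nonneg _
  have hc2 : 0 ≤ |Real.cos (p * t / 2)| := abs_nonneg _
  have hc3 : |Real.cos (p * t / 2)| ≤ 1 := Real.abs_cos_le_one _
  by_cases hs : |t| ≤ Real.pi / p
  · have h1 := FT_cos (t / 2) (by rw [abs_div, abs_two]; linarith)
    have h2 := FT_cos (p * t / 2) (by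
      rw [abs_div, abs_two, abs_mul, Nat.abs_cast]
      rw [le_div_iff₀ (by linarith)] at hs
      linarith)
    have h3 : |Real.cos (t / 2)| ^ ca z 1 * |Real.cos (p * t / 2)| ^ ca z (-(p : ℤ)) ≤
        Real.exp (-(σ / 8) * t ^ 2 - τ / 192 * t ^ 4) := by
      refine (mul_le_mul (pow_le_pow_left₀ hc1 h1 _) (pow_le_pow_left₀ hc2 h2 _)
        (pow_nonneg hc2 _) (pow_nonneg (Real.exp_pos _).le _)).trans (le_of_eq ?_)
      rw [← Real.exp_nat_mul, ← Real.exp_nat_mul, ← Real.exp_add]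
      congr 1
      rw [hσ, hτ]
      ring
    have h4 := mul_le_mul_of_nonneg_right h3 hf.1
    have h5 := Real.exp_pos (-(ca z 1 : ℝ) / 13)
    unfold JF
    linarith
  · push Not at hs
    have h1 : |Real.cos (t / 2)| ≤ Real.exp (-1 / 13) := by
      rw [← Real.cos_abs, abs_div, abs_two]
      have h2 : Real.pi / 8 ≤ |t| / 2 := by
        have h3 : Real.pi / 4 ≤ Real.pi / p := by
          apply div_le_div_of_nonneg_left hpi.le (by linarith) hp3
        linarith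
      have h3 : Real.cos (|t| / 2) ≤ Real.cos (Real.pi / 8) :=
        Real.cos_le_cos_of_nonneg_of_le_pi (by positivity) (by linarith) h2
      have h4 : 0 ≤ Real.cos (|t| / 2) :=
        Real.cos_nonneg_of_mem_Icc ⟨by linarith [abs_nonneg t], by linarith⟩
      rw [abs_of_nonneg h4]
      exact h3.trans FT_pi8
    have h2 : |Real.cos (t / 2)| ^ ca z 1 ≤ Real.exp (-(ca z 1 : ℝ) / 13) := by
      refine (pow_le_pow_left₀ hc1 h1 _).trans (le_of_eq ?_)
      rw [← Real.exp_nat_mul]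
      congr 1
      ring
    have h3 : |Real.cos (p * t / 2)| ^ ca z (-(p : ℤ)) ≤ 1 := pow_le_one₀ hc2 hc3
    have h4 : |Real.cos (t / 2)| ^ ca z 1 * |Real.cos (p * t / 2)| ^ ca z (-(p : ℤ)) ≤
        Real.exp (-(ca z 1 : ℝ) / 13) * 1 :=
      mul_le_mul h2 h3 (pow_nonneg hc2 _) (Real.exp_pos _).le
    have h5 := mul_le_mul h4 hf.2 hf.1 (by positivity)
    have h6 : 0 ≤ JF σ τ (ExP p z) (fun e => (z e : ℝ)) (DD z) t := by
      unfold JF
      exact mul_nonneg (Real.exp_pos _).le hf.1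
    linarith

end H31Y
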