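import Pool.Agent.Lib.H31Y.GA
import Pool.Agent.Lib.H31Z.F1
import Pool.Agent.Lib.H31Z.F2
import Pool.Agent.Lib.H31Y.FT
import Pool.Agent.Lib.H31Y.FAb

/-!
Chunk FAc: splitting off the heavy entries
-/

namespace H31Y

open Finset H31Z MeasureTheory

/-- PROOF. `F2_union`, `F2_cast` for the real vector `fun i => (z i : ℝ)`. -/
theorem FA_split {ι : Type*} [DecidableEq ι] (z : ι → ℤ) (J T : Finset ι) (hd : Disjoint J T) :
    pz z (J ∪ T) 0 = (∑ U ∈ T.powerset, pz z J (-∑ i ∈ U, z i)) / 2 ^ T.card := by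
  have h1 := F2_union (fun i => (z i : ℝ)) J T hd 0
  have h2 := F2_cast (fun i => (z i : ℝ)) z (J ∪ T) (fun _ _ => rfl) 0
  rw [Int.cast_zero] at h2
  rw [← h2, h1]
  congr 1
  refine Finset.sum_congr rfl fun U _ => ?_
  have h3 := F2_cast (fun i => (z i : ℝ)) z J (fun _ _ => rfl) (-∑ i ∈ U, z i)
  rw [← h3]
  congr 1
  push_cast
  ring

end H31Y
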