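import Pool.Agent.Lib.H31Y.Defs
import Pool.Agent.Lib.H31Z.T1
import Pool.Agent.Lib.H31Z.G1

/-!
Chunk GAa: basic facts on the majorant integral
-/

namespace H31Y

open Finset H31Z MeasureTheory

/-- PROOF. `fun_prop`, products of continuous functions (`continuous_finset_prod`). -/
theorem GA_cont {ι : Type*} (σ τ : ℝ) (E : Finset ι) (c : ι → ℝ) (D : ℝ) :
    Continuous (JF σ τ E c D) := by
  unfold JF
  refine Continuous.mul (by fun_prop) (Continuous.mul ?_ (by fun_prop))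
  exact continuous_finset_prod _ (fun e _ => by fun_prop)

/-- the cosine factor lies in `[0,1]` -/
theorem GA_fac {ι : Type*} (E : Finset ι) (c : ι → ℝ) (D t : ℝ) :
    0 ≤ (∏ e ∈ E, |Real.cos (t * c e / 2)|) * |Real.cos (t * D / 2)| ∧
      (∏ e ∈ E, |Real.cos (t * c e / 2)|) * |Real.cos (t * D / 2)| ≤ 1 := by
  have h0 : 0 ≤ ∏ e ∈ E, |Real.cos (t * c e / 2)| := Finset.prod_nonneg (fun e _ => abs_nonneg _)
  have h1 : ∏ e ∈ E, |Real.cos (t * c e / 2)| ≤ 1 :=
    Finset.prod_le_one (fun e _ => abs_nonneg _) (fun e _ => Real.abs_cos_le_one _)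
  refine ⟨mul_nonneg h0 (abs_nonneg _), ?_⟩
  exact mul_le_one₀ h1 (abs_nonneg _) (Real.abs_cos_le_one _)

/-- PROOF. `JF ≥ 0` is continuous; the integral over `[-π,π]` is at most the one of `g` over `[-π,π]`, at
most the one over `ℝ` (`g ≥ 0` integrable, `intervalIntegral.integral_of_le`,
`MeasureTheory.setIntegral_mono_on`, `setIntegral_le_integral`). -/
theorem GA_dom {ι : Type*} (σ τ : ℝ) (E : Finset ι) (c : ι → ℝ) (D : ℝ) (g : ℝ → ℝ)
    (hg : Integrable g) (hg0 : ∀ t, 0 ≤ g t) (h : ∀ t, |t| ≤ Real.pi → JF σ τ E c D t ≤ g t) :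
    JJ σ τ E c D ≤ 1 / (2 * Real.pi) * ∫ t, g t := by
  unfold JJ
  have hpi := Real.pi_pos
  refine mul_le_mul_of_nonneg_left ?_ (by positivity)
  rw [intervalIntegral.integral_of_le (by linarith)]
  have hc : IntegrableOn (JF σ τ E c D) (Set.Ioc (-Real.pi) Real.pi) :=
    ((GA_cont σ τ E c D).integrableOn_Icc).mono_set Set.Ioc_subset_Icc_self
  refine le_trans (setIntegral_mono_on hc hg.integrableOn measurableSet_Ioc ?_) ?_
  · intro t ht
    exact h t (abs_le.2 ⟨ht.1.le, ht.2⟩)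
  · exact setIntegral_le_integral hg (Filter.Eventually.of_forall hg0)

end H31Y
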