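import Pool.Agent.Lib.H31Y.Defs
import Pool.Agent.Lib.H31Z.T1
import Pool.Agent.Lib.H31Z.G1
import Pool.Agent.Lib.H31Y.GAa

/-!
Chunk GAb: Gaussian moments
-/

namespace H31Y

open Finset H31Z MeasureTheory

theorem GA_sq (σ : ℝ) (hσ : 0 < σ) :
    1 / (2 * Real.pi) * Real.sqrt (Real.pi / (σ / 8)) = Real.sqrt (2 / (Real.pi * σ)) := by
  have hpi := Real.pi_pos
  rw [eq_comm, Real.sqrt_eq_iff_mul_self_eq (by positivity) (by positivity)]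
  have h : Real.sqrt (Real.pi / (σ / 8)) * Real.sqrt (Real.pi / (σ / 8)) = Real.pi / (σ / 8) :=
    Real.mul_self_sqrt (by positivity)
  symm
  calc 1 / (2 * Real.pi) * Real.sqrt (Real.pi / (σ / 8)) *
        (1 / (2 * Real.pi) * Real.sqrt (Real.pi / (σ / 8)))
      = (1 / (2 * Real.pi)) ^ 2 * (Real.sqrt (Real.pi / (σ / 8)) * Real.sqrt (Real.pi / (σ / 8))) := by
        ring
    _ = 2 / (Real.pi * σ) := by
        rw [h]
        field_simp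
        ring

/-- the Gaussian moments. PROOF. `G1_cos` with `l = 0`, `G1_two`, `G1_four`, `G1_six`, `b = σ/8`:
`(1/2π) sqrt (8π/σ) = sqrt (2/(πσ))`. -/
theorem GA_mom (σ : ℝ) (hσ : 0 < σ) :
    (Integrable (fun t : ℝ => Real.exp (-(σ / 8) * t ^ 2)) ∧
      1 / (2 * Real.pi) * ∫ t : ℝ, Real.exp (-(σ / 8) * t ^ 2) = Real.sqrt (2 / (Real.pi * σ))) ∧
    (Integrable (fun t : ℝ => t ^ 2 * Real.exp (-(σ / 8) * t ^ 2)) ∧
      1 / (2 * Real.pi) * ∫ t : ℝ, t ^ 2 * Real.exp (-(σ / 8) * t ^ 2) =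
        Real.sqrt (2 / (Real.pi * σ)) * (4 / σ)) ∧
    (Integrable (fun t : ℝ => t ^ 4 * Real.exp (-(σ / 8) * t ^ 2)) ∧
      1 / (2 * Real.pi) * ∫ t : ℝ, t ^ 4 * Real.exp (-(σ / 8) * t ^ 2) =
        Real.sqrt (2 / (Real.pi * σ)) * (48 / σ ^ 2)) ∧
    (Integrable (fun t : ℝ => t ^ 6 * Real.exp (-(σ / 8) * t ^ 2)) ∧
      1 / (2 * Real.pi) * ∫ t : ℝ, t ^ 6 * Real.exp (-(σ / 8) * t ^ 2) =
        Real.sqrt (2 / (Real.pi * σ)) * (960 / σ ^ 3)) := by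
  have hb : 0 < σ / 8 := by positivity
  have hpi := Real.pi_pos
  obtain ⟨a0, b0⟩ := G1_cos (σ / 8) 0 hb
  obtain ⟨a2, b2⟩ := G1_two (σ / 8) hb
  obtain ⟨a4, b4⟩ := G1_four (σ / 8) hb
  obtain ⟨a6, b6⟩ := G1_six (σ / 8) hb
  have hs := GA_sq σ hσ
  simp only [zero_mul, Real.cos_zero, mul_one] at a0 b0
  refine ⟨⟨a0, ?_⟩, ⟨a2, ?_⟩, ⟨a4, ?_⟩, ⟨a6, ?_⟩⟩
  · rw [b0, ← hs]
    simp
  · rw [b2, ← hs]
    field_simp
    try ring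
  · rw [b4, ← hs]
    field_simp
    try ring
  · rw [b6, ← hs]
    field_simp
    try ring

/-- PROOF. `GA_dom` with `g t = exp (-(σ/8) t^2)`, `GA_fac`, `GA_mom`. -/
theorem GA_le {ι : Type*} (σ τ : ℝ) (hσ : 0 < σ) (hτ : 0 ≤ τ) (E : Finset ι) (c : ι → ℝ) (D : ℝ) :
    JJ σ τ E c D ≤ Real.sqrt (2 / (Real.pi * σ)) := by
  obtain ⟨⟨a0, b0⟩, -⟩ := GA_mom σ hσ
  rw [← b0]
  refine GA_dom σ τ E c D _ a0 (fun t => (Real.exp_pos _).le) ?_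
  intro t _
  unfold JF
  obtain ⟨f0, f1⟩ := GA_fac E c D t
  have h1 : Real.exp (-(σ / 8) * t ^ 2 - τ / 192 * t ^ 4) ≤ Real.exp (-(σ / 8) * t ^ 2) := by
    apply Real.exp_le_exp.2
    have : 0 ≤ τ / 192 * t ^ 4 := by positivity
    linarith
  calc Real.exp (-(σ / 8) * t ^ 2 - τ / 192 * t ^ 4) *
        ((∏ e ∈ E, |Real.cos (t * c e / 2)|) * |Real.cos (t * D / 2)|)
      ≤ Real.exp (-(σ / 8) * t ^ 2) * 1 :=
        mul_le_mul h1 f1 f0 (Real.exp_pos _).le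
    _ = Real.exp (-(σ / 8) * t ^ 2) := mul_one _

end H31Y
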