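import Pool.Agent.Lib.H31Y.GA

/-!
Chunk GB: one large frequency costs a constant factor.
-/

namespace H31Y

open Finset H31Z MeasureTheory

theorem GB_fac {ι : Type*} (E : Finset ι) (c : ι → ℝ) (D : ℝ)
    (v : ℝ) (hv : v = D ∨ ∃ e ∈ E, v = c e) (t : ℝ) :
    (∏ e ∈ E, |Real.cos (t * c e / 2)|) * |Real.cos (t * D / 2)| ≤ |Real.cos (t * v / 2)| := by
  classical
  have h0 : 0 ≤ ∏ e ∈ E, |Real.cos (t * c e / 2)| := Finset.prod_nonneg (fun e _ => abs_nonneg _)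
  have h1 : ∏ e ∈ E, |Real.cos (t * c e / 2)| ≤ 1 :=
    Finset.prod_le_one (fun e _ => abs_nonneg _) (fun e _ => Real.abs_cos_le_one _)
  rcases hv with hv | ⟨e, he, hv⟩
  · rw [hv]
    exact mul_le_of_le_one_left (abs_nonneg _) h1
  · have h2 : ∏ e ∈ E, |Real.cos (t * c e / 2)| ≤ |Real.cos (t * v / 2)| := by
      rw [← Finset.mul_prod_erase E _ he, hv]
      refine mul_le_of_le_one_right (abs_nonneg _) ?_
      exact Finset.prod_le_one (fun e _ => abs_nonneg _) (fun e _ => Real.abs_cos_le_one _)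
    calc (∏ e ∈ E, |Real.cos (t * c e / 2)|) * |Real.cos (t * D / 2)|
        ≤ (∏ e ∈ E, |Real.cos (t * c e / 2)|) * 1 :=
          mul_le_mul_of_nonneg_left (Real.abs_cos_le_one _) h0
      _ ≤ |Real.cos (t * v / 2)| := by rw [mul_one]; exact h2

/-- PROOF. Drop all the factors except `|cos (t v/2)|` (all lie in `[0,1]`) and the term with `τ`;
`|cos (t v/2)| ≤ 3/4 + cos (t v)/4` (`T1_abs`). `GA_dom` with
`g t = exp (-(σ/8) t^2) (3/4 + cos (t v)/4)` (it is `≥ 0`), `G1_cos` with `b = σ/8`, `l = v`. -/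
theorem GB_one {ι : Type*} (σ τ : ℝ) (hσ : 0 < σ) (hτ : 0 ≤ τ) (E : Finset ι) (c : ι → ℝ) (D : ℝ)
    (v : ℝ) (hv : v = D ∨ ∃ e ∈ E, v = c e) :
    JJ σ τ E c D ≤ Real.sqrt (2 / (Real.pi * σ)) * (3 / 4 + Real.exp (-2 * v ^ 2 / σ) / 4) := by
  have hb : 0 < σ / 8 := by positivity
  obtain ⟨⟨a0, b0⟩, -⟩ := GA_mom σ hσ
  obtain ⟨a1, b1⟩ := G1_cos (σ / 8) v hb
  have hg : Integrable (fun t : ℝ => 3 / 4 * Real.exp (-(σ / 8) * t ^ 2) +
      1 / 4 * (Real.exp (-(σ / 8) * t ^ 2) * Real.cos (v * t))) :=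
    (a0.const_mul _).add (a1.const_mul _)
  have hcos : ∀ t : ℝ, 0 ≤ 3 / 4 + Real.cos (v * t) / 4 := by
    intro t
    have := Real.neg_one_le_cos (v * t)
    linarith
  have h := GA_dom σ τ E c D _ hg ?_ ?_
  · refine h.trans (le_of_eq ?_)
    rw [integral_add (a0.const_mul _) (a1.const_mul _), integral_const_mul, integral_const_mul, b1,
      ← GA_sq σ hσ]
    have e1 : -v ^ 2 / (4 * (σ / 8)) = -2 * v ^ 2 / σ := by
      field_simp
      ring
    rw [e1]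
    have b0' : ∫ t : ℝ, Real.exp (-(σ / 8) * t ^ 2) = Real.sqrt (Real.pi / (σ / 8)) := by
      have := G1_cos (σ / 8) 0 hb
      simpa using this.2
    rw [b0']
    ring
  · intro t
    have e1 : 3 / 4 * Real.exp (-(σ / 8) * t ^ 2) +
      1 / 4 * (Real.exp (-(σ / 8) * t ^ 2) * Real.cos (v * t)) =
        Real.exp (-(σ / 8) * t ^ 2) * (3 / 4 + Real.cos (v * t) / 4) := by ring
    rw [e1]
    exact mul_nonneg (Real.exp_pos _).le (hcos t)
  · intro t _
    have e1 : 3 / 4 * Real.exp (-(σ / 8) * t ^ 2) +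
      1 / 4 * (Real.exp (-(σ / 8) * t ^ 2) * Real.cos (v * t)) =
        Real.exp (-(σ / 8) * t ^ 2) * (3 / 4 + Real.cos (v * t) / 4) := by ring
    rw [e1]
    unfold JF
    obtain ⟨f0, f1⟩ := GA_fac E c D t
    have h1 : Real.exp (-(σ / 8) * t ^ 2 - τ / 192 * t ^ 4) ≤ Real.exp (-(σ / 8) * t ^ 2) := by
      apply Real.exp_le_exp.2
      have : 0 ≤ τ / 192 * t ^ 4 := by positivity
      linarith
    have h2 := T1_abs (t * v / 2)
    rw [show 2 * (t * v / 2) = v * t by ring] at h2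
    exact mul_le_mul h1 ((GB_fac E c D v hv t).trans h2) f0 (Real.exp_pos _).le

end H31Y
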