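import Pool.Agent.Lib.H31Y.GA

/-!
Chunk GC: a large sum of squares costs a constant factor.
-/

namespace H31Y

open Finset H31Z MeasureTheory

theorem gc_fac {ι : Type*} {σ t : ℝ} (ht : σ * t ^ 2 ≤ 4) (E : Finset ι) (c : ι → ℝ)
    (D : ℝ) (hE : ∀ e ∈ E, c e ^ 2 ≤ σ) (hD : D ^ 2 ≤ σ) :
    (∏ e ∈ E, |Real.cos (t * c e / 2)|) * |Real.cos (t * D / 2)| ≤
      Real.exp (-(∑ e ∈ E, c e ^ 2 + D ^ 2) * t ^ 2 / 8) := by
  have h0 : ∀ v : ℝ, v ^ 2 ≤ σ → |Real.cos (t * v / 2)| ≤ Real.exp (-(v ^ 2 * t ^ 2 / 8)) := by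
    intro v hv
    have h1 : (t * v / 2) ^ 2 ≤ 1 := by
      have h2 : t ^ 2 * v ^ 2 ≤ t ^ 2 * σ := mul_le_mul_of_nonneg_left hv (sq_nonneg t)
      nlinarith
    have h2 : |t * v / 2| ≤ Real.pi / 2 := by
      have h3 : |t * v / 2| ≤ 1 := by
        rw [← sq_le_one_iff_abs_le_one]
        exact h1
      linarith [Real.pi_gt_three]
    refine (T1_cos_le _ h2).trans (le_of_eq ?_)
    congr 1
    ring
  have h1 : ∏ e ∈ E, |Real.cos (t * c e / 2)| ≤ ∏ e ∈ E, Real.exp (-(c e ^ 2 * t ^ 2 / 8)) :=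
    Finset.prod_le_prod (fun _ _ => abs_nonneg _) fun e he => h0 _ (hE e he)
  refine (mul_le_mul h1 (h0 _ hD) (abs_nonneg _)
    (Finset.prod_nonneg fun _ _ => (Real.exp_pos _).le)).trans (le_of_eq ?_)
  rw [← Real.exp_sum, ← Real.exp_add]
  congr 1
  rw [Finset.sum_neg_distrib, ← Finset.sum_div, ← Finset.sum_mul]
  ring

theorem gc_const {η : ℝ} (hη : 0 < η) (hη1 : η ≤ 1) :
    0 ≤ Real.exp (-1 / 2) * (1 - Real.exp (-(η / 8))) ∧
      Real.exp (-1 / 2) * (1 - Real.exp (-(η / 8))) ≤ Real.exp (-1 / 2) ∧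
      (51 / 1000) * η ≤ Real.exp (-1 / 2) * (1 - Real.exp (-(η / 8))) := by
  have h1 : (1 : ℝ) / 2 ≤ Real.exp (-1 / 2) := by
    have := Real.add_one_le_exp (-1 / 2 : ℝ)
    linarith
  have h2 := T1_exp2 (η / 8) (by positivity)
  have h3 : (15 / 128) * η ≤ 1 - Real.exp (-(η / 8)) := by nlinarith
  have h4 : 0 < Real.exp (-(η / 8)) := Real.exp_pos _
  have h5 : 0 < Real.exp (-1 / 2 : ℝ) := Real.exp_pos _
  refine ⟨mul_nonneg h5.le (by nlinarith), by nlinarith, ?_⟩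
  have h6 : (1 / 2) * ((15 / 128) * η) ≤ Real.exp (-1 / 2) * (1 - Real.exp (-(η / 8))) :=
    mul_le_mul h1 h3 (by positivity) h5.le
  linarith

/-- PROOF. Let `S = ∑ c² + D² > ησ`. For `|t| ≤ 2/√σ` (`≤ 2 ≤ π`) `|t c_e/2| ≤ 1 ≤ π/2`, `|t D/2| ≤ 1`, so by
`T1_cos_le` the cosine factor is at most `exp (-S t²/8)`. Let
`g t = exp (-(σ/8) t²) - 1_{1/√σ ≤ |t| ≤ 2/√σ} exp (-1/2) (1 - exp (-η/8))`; for `1/√σ ≤ |t| ≤ 2/√σ`:
`exp (-(σ/8) t²) exp (-S t²/8) ≤ exp (-(σ/8) t²) exp (-η/8) ≤ exp (-(σ/8)t²) - exp (-1/2) (1 - exp (-η/8))` (as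
`exp (-(σ/8)t²) ≥ exp (-1/2)`), so `JF ≤ g` and `g ≥ 0`. `GA_dom`: the loss is
`(1/2π) (2/√σ) exp (-1/2) (1 - exp (-η/8)) ≥ (1/π)(1/√σ)(0.6065)(η/16) ≥ 0.0120 η/√σ` (`1 - exp (-x) ≥ x/2`
for `0 ≤ x ≤ 1`), and `(η/100) sqrt (2/(πσ)) ≤ 0.0080 η/√σ`. -/
theorem GC_sum {ι : Type*} (η : ℝ) (hη : 0 < η) (hη1 : η ≤ 1) (σ τ : ℝ) (hσ : 1 ≤ σ) (hτ : 0 ≤ τ)
    (E : Finset ι) (c : ι → ℝ) (D : ℝ) (hE : ∀ e ∈ E, c e ^ 2 ≤ σ) (hD : D ^ 2 ≤ σ)
    (h : η * σ < ∑ e ∈ E, c e ^ 2 + D ^ 2) :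
    JJ σ τ E c D ≤ (1 - η / 100) * Real.sqrt (2 / (Real.pi * σ)) := by
  have hσp : 0 < σ := by linarith
  have hpi := Real.pi_pos
  obtain ⟨r, hr⟩ : ∃ r, r = 1 / Real.sqrt σ := ⟨_, rfl⟩
  have hsp : 0 < Real.sqrt σ := Real.sqrt_pos.2 hσp
  have hrp : 0 < r := by rw [hr]; positivity
  have hr2 : σ * r ^ 2 = 1 := by
    rw [hr, div_pow, one_pow, Real.sq_sqrt hσp.le]
    field_simp
  obtain ⟨c0, hc0⟩ : ∃ c0, c0 = Real.exp (-1 / 2) * (1 - Real.exp (-(η / 8))) := ⟨_, rfl⟩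
  obtain ⟨k1, k2, k3⟩ := gc_const hη hη1
  rw [← hc0] at k1 k2 k3
  obtain ⟨m1, m2⟩ := (GA_mom σ hσp).1
  have hA : MeasurableSet (Set.Icc r (2 * r)) := measurableSet_Icc
  have hint : Integrable ((Set.Icc r (2 * r)).indicator fun _ : ℝ => c0) :=
    (integrable_indicator_iff hA).2 (integrableOn_const (by simp))
  have hin : ∀ t ∈ Set.Icc r (2 * r), 1 ≤ σ * t ^ 2 ∧ σ * t ^ 2 ≤ 4 := by
    intro t ht
    have h1 : r ^ 2 ≤ t ^ 2 := pow_le_pow_left₀ hrp.le ht.1 2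
    have h2 : t ^ 2 ≤ (2 * r) ^ 2 := pow_le_pow_left₀ (hrp.le.trans ht.1) ht.2 2
    constructor
    · nlinarith
    · nlinarith
  have hdom := GA_dom σ τ E c D
    (fun t => Real.exp (-(σ / 8) * t ^ 2) - (Set.Icc r (2 * r)).indicator (fun _ : ℝ => c0) t)
    (m1.sub hint) (fun t => ?_) (fun t _ => ?_)
  · have h1 : ∫ t : ℝ, (Real.exp (-(σ / 8) * t ^ 2) -
        (Set.Icc r (2 * r)).indicator (fun _ : ℝ => c0) t) =
        (∫ t : ℝ, Real.exp (-(σ / 8) * t ^ 2)) - r * c0 := by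
      rw [integral_sub m1 hint, integral_indicator_const _ hA, smul_eq_mul, Real.volume_real_Icc,
        max_eq_left (by linarith)]
      ring
    rw [h1, mul_sub, m2] at hdom
    refine hdom.trans ?_
    have h2 : Real.sqrt (2 / (Real.pi * σ)) ≤ (4 / 5) * r := by
      rw [Real.sqrt_le_left (by positivity)]
      rw [mul_pow, div_le_iff₀ (by positivity)]
      have h3 : (4 / 5 : ℝ) ^ 2 * r ^ 2 * (Real.pi * σ) = (16 / 25) * Real.pi * (σ * r ^ 2) := by ring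
      rw [h3, hr2]
      linarith [Real.pi_gt_d2]
    have h3 : η / 100 * Real.sqrt (2 / (Real.pi * σ)) ≤ η / 100 * ((4 / 5) * r) :=
      mul_le_mul_of_nonneg_left h2 (by positivity)
    have h4 : η / 100 * ((4 / 5) * r) ≤ 1 / (2 * Real.pi) * (r * c0) := by
      rw [one_div, inv_mul_eq_div, le_div_iff₀ (by positivity)]
      have h5 : η / 100 * ((4 / 5) * r) * (2 * Real.pi) = r * (η * (Real.pi * 2 / 125)) := by ring
      rw [h5]
      refine mul_le_mul_of_nonneg_left ?_ hrp.le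
      have h6 : Real.pi < 3.15 := Real.pi_lt_d2
      nlinarith
    linarith
  · show 0 ≤ Real.exp (-(σ / 8) * t ^ 2) - (Set.Icc r (2 * r)).indicator (fun _ : ℝ => c0) t
    by_cases ht : t ∈ Set.Icc r (2 * r)
    · rw [Set.indicator_of_mem ht]
      have h1 : Real.exp (-1 / 2) ≤ Real.exp (-(σ / 8) * t ^ 2) :=
        Real.exp_le_exp.2 (by linarith [(hin t ht).2])
      linarith
    · rw [Set.indicator_of_notMem ht, sub_zero]
      exact (Real.exp_pos _).le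
  · show JF σ τ E c D t ≤
      Real.exp (-(σ / 8) * t ^ 2) - (Set.Icc r (2 * r)).indicator (fun _ : ℝ => c0) t
    have hfac := GA_fac E c D t
    have h0 : JF σ τ E c D t ≤ Real.exp (-(σ / 8) * t ^ 2) *
        ((∏ e ∈ E, |Real.cos (t * c e / 2)|) * |Real.cos (t * D / 2)|) := by
      unfold JF
      refine mul_le_mul_of_nonneg_right (Real.exp_le_exp.2 ?_) hfac.1
      have : 0 ≤ τ / 192 * t ^ 4 := by positivity
      linarith
    by_cases ht : t ∈ Set.Icc r (2 * r)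
    · rw [Set.indicator_of_mem ht]
      obtain ⟨ha, hb⟩ := hin t ht
      have h1 : Real.exp (-1 / 2) ≤ Real.exp (-(σ / 8) * t ^ 2) :=
        Real.exp_le_exp.2 (by linarith)
      have h2 := gc_fac hb E c D hE hD
      have h3 : Real.exp (-(∑ e ∈ E, c e ^ 2 + D ^ 2) * t ^ 2 / 8) ≤ Real.exp (-(η / 8)) := by
        refine Real.exp_le_exp.2 ?_
        have h4 : η * σ * t ^ 2 ≤ (∑ e ∈ E, c e ^ 2 + D ^ 2) * t ^ 2 :=
          mul_le_mul_of_nonneg_right h.le (sq_nonneg t)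
        have h5 : η * 1 ≤ η * (σ * t ^ 2) := mul_le_mul_of_nonneg_left ha hη.le
        linarith
      have h4 : JF σ τ E c D t ≤ Real.exp (-(σ / 8) * t ^ 2) * Real.exp (-(η / 8)) :=
        h0.trans (mul_le_mul_of_nonneg_left (h2.trans h3) (Real.exp_pos _).le)
      have h5 : 0 ≤ 1 - Real.exp (-(η / 8)) := by
        have := Real.exp_le_one_iff.2 (by linarith : -(η / 8) ≤ 0)
        linarith
      have h6 := mul_le_mul_of_nonneg_right h1 h5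
      rw [← hc0] at h6
      linarith
    · rw [Set.indicator_of_notMem ht, sub_zero]
      refine h0.trans (mul_le_of_le_one_right (Real.exp_pos _).le hfac.2)

end H31Y
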