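import Pool.Agent.Lib.H31Y.GA

/-!
Chunk GD: the second order inequality for `JJ`.
-/

namespace H31Y

open Finset H31Z MeasureTheory

theorem gd_int (f0 f2 f4 f6 : ℝ → ℝ) (a b c : ℝ) (i0 : Integrable f0) (i2 : Integrable f2)
    (i4 : Integrable f4) (i6 : Integrable f6) :
    Integrable (fun t => f0 t + a * f2 t + b * f4 t + c * f6 t) ∧
    ∫ t, (f0 t + a * f2 t + b * f4 t + c * f6 t) =
      (∫ t, f0 t) + a * (∫ t, f2 t) + b * (∫ t, f4 t) + c * ∫ t, f6 t := by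
  have j2 : Integrable (fun t => f0 t + a * f2 t) := i0.add (i2.const_mul a)
  have j4 : Integrable (fun t => f0 t + a * f2 t + b * f4 t) := j2.add (i4.const_mul b)
  have j6 : Integrable (fun t => f0 t + a * f2 t + b * f4 t + c * f6 t) := j4.add (i6.const_mul c)
  refine ⟨j6, ?_⟩
  have e1 : ∫ t, (f0 t + a * f2 t + b * f4 t + c * f6 t) =
      (∫ t, (f0 t + a * f2 t + b * f4 t)) + ∫ t, c * f6 t := integral_add j4 (i6.const_mul c)
  have e2 : ∫ t, (f0 t + a * f2 t + b * f4 t) = (∫ t, (f0 t + a * f2 t)) + ∫ t, b * f4 t :=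
    integral_add j2 (i4.const_mul b)
  have e3 : ∫ t, (f0 t + a * f2 t) = (∫ t, f0 t) + ∫ t, a * f2 t :=
    integral_add i0 (i2.const_mul a)
  rw [e1, e2, e3, integral_const_mul, integral_const_mul, integral_const_mul]

theorem gd_prod {ι : Type} (E : Finset ι) (c : ι → ℝ) (t : ℝ) (h : ∀ e ∈ E, |t * c e / 2| ≤ 1) :
    ∏ e ∈ E, |Real.cos (t * c e / 2)| ≤ Real.exp (-(t ^ 2 * ∑ e ∈ E, c e ^ 2 / 8)) := by
  classical
  have h1 : ∏ e ∈ E, |Real.cos (t * c e / 2)| ≤ ∏ e ∈ E, Real.exp (-(t ^ 2 * (c e ^ 2 / 8))) := by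
    apply Finset.prod_le_prod
    · intro e _
      exact abs_nonneg _
    · intro e he
      have h2 := T1_cos_le (t * c e / 2) ((h e he).trans (by linarith [Real.pi_gt_three]))
      refine h2.trans (le_of_eq ?_)
      congr 1
      ring
  refine h1.trans (le_of_eq ?_)
  rw [← Real.exp_sum]
  congr 1
  rw [Finset.sum_neg_distrib, Finset.mul_sum]

/-- PROOF. Let `S = ∑ c² + D²`, `X t = S t²/8 + τ t⁴/192`, `K = 16/√η` (so `K² = 256/η ≥ 160/η`),
`η' = η/(8 K²)`, `σ0` with `K/√σ0 ≤ π`, and `C K⁴/(192 σ0) ≤ η/16`. For `|t| ≤ K/√σ`: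
`|t c_e/2| ≤ K √η'/2 ≤ 1`, so `JF ≤ exp (-(σ/8)t²) exp (-X t)` (`T1_cos_le`), `X t ≤ η' K²/8 + C K⁴/(192 σ) ≤ η/8`,
`exp (-X) ≤ 1 - X + X²/2 ≤ 1 - (1 - η/8) X`. So for all `t`
`JF t ≤ exp (-(σ/8)t²) (1 - (1-η/8) X t) + 1_{|t| > K/√σ} exp (-(σ/8)t²) X t`; the indicator term is at
most `exp (-(σ/8)t²) (S t²/8 · (σ t²/K²) + τ t⁴/192 · (σ t²/K²))`. So `JF ≤ g`,
`g t = exp (-(σ/8)t²) (1 - (1-η/8) X t + (σ/K²)(S t⁴/8 + τ t⁶/192))` (`≥ 0`: it dominates `JF ≥ 0` — for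
`|t| > π` the same estimate holds, `g ≥ exp (-(σ/8)t²) (1 - X + X) ≥ 0`). `GA_dom`, `GA_mom`:
`JJ ≤ G (1 - (1-η/8)(S/(2σ) + τ/(4σ²)) + (6 S/(K² σ) + 5 τ/(K² σ²)))`, `G = sqrt (2/(πσ))`, and
`6/K² ≤ η/16`, `5/K² ≤ η/32`. -/
theorem GD_second (η C : ℝ) (hη : 0 < η) (hη1 : η ≤ 1) (hC : 0 ≤ C) :
    ∃ η' : ℝ, 0 < η' ∧ ∃ σ0 : ℝ, 1 ≤ σ0 ∧ ∀ (σ τ : ℝ), σ0 ≤ σ → 0 ≤ τ → τ ≤ C * σ →
      ∀ (ι : Type) (E : Finset ι) (c : ι → ℝ) (D : ℝ), ∑ e ∈ E, c e ^ 2 + D ^ 2 ≤ η' * σ →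
      JJ σ τ E c D ≤ Real.sqrt (2 / (Real.pi * σ)) *
        (1 - (1 - η) * ((∑ e ∈ E, c e ^ 2 + D ^ 2) / (2 * σ) + τ / (4 * σ ^ 2))) := by
  set K2 : ℝ := 256 / η with hK2
  have hK2pos : 0 < K2 := by positivity
  refine ⟨η / (8 * K2), by positivity, 1 + 16 * C * K2 ^ 2 / (192 * η), by
    have : 0 ≤ 16 * C * K2 ^ 2 / (192 * η) := by positivity
    linarith, ?_⟩
  intro σ τ hσ hτ hτC ι E c D hS
  have h00 : 0 ≤ 16 * C * K2 ^ 2 / (192 * η) := by positivity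
  have hσ1 : 1 ≤ σ := by linarith
  have hσ0 : 0 < σ := by linarith
  set S : ℝ := ∑ e ∈ E, c e ^ 2 + D ^ 2 with hSdef
  have hc0 : 0 ≤ ∑ e ∈ E, c e ^ 2 := Finset.sum_nonneg fun e _ => sq_nonneg _
  have hS0 : 0 ≤ S := by positivity
  set X : ℝ → ℝ := fun t => S * t ^ 2 / 8 + τ * t ^ 4 / 192 with hX
  have hX0 : ∀ t, 0 ≤ X t := by
    intro t
    simp only [hX]
    positivity
  set g : ℝ → ℝ := fun t => Real.exp (-(σ / 8) * t ^ 2) +
    (-(1 - η / 8) * (S / 8)) * (t ^ 2 * Real.exp (-(σ / 8) * t ^ 2)) +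
    (-(1 - η / 8) * (τ / 192) + σ / K2 * (S / 8)) * (t ^ 4 * Real.exp (-(σ / 8) * t ^ 2)) +
    (σ / K2 * (τ / 192)) * (t ^ 6 * Real.exp (-(σ / 8) * t ^ 2)) with hg
  have hgX : ∀ t, g t = Real.exp (-(σ / 8) * t ^ 2) *
      (1 - (1 - η / 8) * X t + σ * t ^ 2 / K2 * X t) := by
    intro t
    simp only [hg, hX]
    field_simp
    ring
  -- small `t`
  have hXsmall : ∀ t, t ^ 2 ≤ K2 / σ → X t ≤ η / 8 := by
    intro t ht
    have h1 : S * t ^ 2 / 8 ≤ η / 64 := by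
      have h2 : S * t ^ 2 ≤ (η / (8 * K2) * σ) * (K2 / σ) :=
        mul_le_mul hS ht (sq_nonneg t) (by positivity)
      have h3 : (η / (8 * K2) * σ) * (K2 / σ) = η / 8 := by field_simp
      linarith
    have h2 : τ * t ^ 4 / 192 ≤ η / 16 := by
      have h3 : t ^ 4 ≤ (K2 / σ) ^ 2 := by
        calc t ^ 4 = (t ^ 2) ^ 2 := by ring
          _ ≤ (K2 / σ) ^ 2 := pow_le_pow_left₀ (sq_nonneg t) ht 2
      have h4 : τ * t ^ 4 ≤ (C * σ) * (K2 / σ) ^ 2 :=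
        mul_le_mul hτC h3 (by positivity) (by positivity)
      have h5 : (C * σ) * (K2 / σ) ^ 2 = C * K2 ^ 2 / σ := by field_simp
      have h6 : C * K2 ^ 2 / σ ≤ 12 * η := by
        rw [div_le_iff₀ hσ0]
        have h7 : 16 * C * K2 ^ 2 / (192 * η) ≤ σ := by linarith
        rw [div_le_iff₀ (by positivity)] at h7
        linarith
      linarith
    have : X t = S * t ^ 2 / 8 + τ * t ^ 4 / 192 := rfl
    linarith
  have hg0 : ∀ t, 0 ≤ g t := by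
    intro t
    rw [hgX]
    apply mul_nonneg (Real.exp_pos _).le
    have h0 := hX0 t
    have h1 : 0 ≤ σ * t ^ 2 / K2 * X t := by positivity
    rcases le_or_gt (t ^ 2) (K2 / σ) with ht | ht
    · have := hXsmall t ht
      nlinarith
    · have h2 : 1 ≤ σ * t ^ 2 / K2 := by
        rw [le_div_iff₀ hK2pos]
        rw [div_lt_iff₀ hσ0] at ht
        linarith
      have h3 : 1 * X t ≤ σ * t ^ 2 / K2 * X t := mul_le_mul_of_nonneg_right h2 h0
      nlinarith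
  have hdom : ∀ t, |t| ≤ Real.pi → JF σ τ E c D t ≤ g t := by
    intro t _
    rw [hgX]
    have h0 := hX0 t
    obtain ⟨f0, f1⟩ := GA_fac E c D t
    rcases le_or_gt (t ^ 2) (K2 / σ) with ht | ht
    · have hXs := hXsmall t ht
      have hcs : ∀ d : ℝ, d ^ 2 ≤ S → |t * d / 2| ≤ 1 := by
        intro d hd
        rw [abs_le_one_iff_mul_self_le_one]
        have h2 : t ^ 2 * d ^ 2 ≤ (K2 / σ) * (η / (8 * K2) * σ) :=
          mul_le_mul ht (hd.trans hS) (sq_nonneg d) (by positivity)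
        have h3 : (K2 / σ) * (η / (8 * K2) * σ) = η / 8 := by field_simp
        nlinarith
      have hE : ∀ e ∈ E, |t * c e / 2| ≤ 1 := by
        intro e he
        apply hcs
        have h2 : c e ^ 2 ≤ ∑ e ∈ E, c e ^ 2 :=
          Finset.single_le_sum (f := fun e => c e ^ 2) (fun i _ => sq_nonneg _) he
        nlinarith [sq_nonneg D]
      have hD : |t * D / 2| ≤ 1 := by
        apply hcs
        linarith
      have hp := gd_prod E c t hE
      have hq := T1_cos_le (t * D / 2) (hD.trans (by linarith [Real.pi_gt_three]))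
      have hpq : (∏ e ∈ E, |Real.cos (t * c e / 2)|) * |Real.cos (t * D / 2)| ≤
          Real.exp (-(S * t ^ 2 / 8)) := by
        calc _ ≤ Real.exp (-(t ^ 2 * ∑ e ∈ E, c e ^ 2 / 8)) * Real.exp (-(t * D / 2) ^ 2 / 2) :=
              mul_le_mul hp hq (abs_nonneg _) (Real.exp_pos _).le
          _ = Real.exp (-(S * t ^ 2 / 8)) := by
              rw [← Real.exp_add]
              congr 1
              rw [hSdef, ← Finset.sum_div]
              ring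
      have hJ : JF σ τ E c D t ≤ Real.exp (-(σ / 8) * t ^ 2) * Real.exp (-(X t)) := by
        unfold JF
        calc _ ≤ Real.exp (-(σ / 8) * t ^ 2 - τ / 192 * t ^ 4) * Real.exp (-(S * t ^ 2 / 8)) :=
              mul_le_mul_of_nonneg_left hpq (Real.exp_pos _).le
          _ = _ := by
              rw [← Real.exp_add, ← Real.exp_add]
              congr 1
              simp only [hX]
              ring
      refine hJ.trans ?_
      apply mul_le_mul_of_nonneg_left _ (Real.exp_pos _).le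
      have h2 := T1_exp2 (X t) h0
      have h3 : 0 ≤ σ * t ^ 2 / K2 * X t := by positivity
      nlinarith
    · have h2 : 1 ≤ σ * t ^ 2 / K2 := by
        rw [le_div_iff₀ hK2pos]
        rw [div_lt_iff₀ hσ0] at ht
        linarith
      have h3 : 1 * X t ≤ σ * t ^ 2 / K2 * X t := mul_le_mul_of_nonneg_right h2 h0
      have hJ : JF σ τ E c D t ≤ Real.exp (-(σ / 8) * t ^ 2) * 1 := by
        unfold JF
        apply mul_le_mul _ f1 f0 (Real.exp_pos _).le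
        apply Real.exp_le_exp.2
        have : 0 ≤ τ / 192 * t ^ 4 := by positivity
        linarith
      refine hJ.trans ?_
      apply mul_le_mul_of_nonneg_left _ (Real.exp_pos _).le
      nlinarith
  obtain ⟨⟨i0, m0⟩, ⟨i2, m2⟩, ⟨i4, m4⟩, ⟨i6, m6⟩⟩ := GA_mom σ hσ0
  obtain ⟨hgi, hgint⟩ := gd_int (fun t => Real.exp (-(σ / 8) * t ^ 2))
    (fun t => t ^ 2 * Real.exp (-(σ / 8) * t ^ 2)) (fun t => t ^ 4 * Real.exp (-(σ / 8) * t ^ 2))
    (fun t => t ^ 6 * Real.exp (-(σ / 8) * t ^ 2)) (-(1 - η / 8) * (S / 8))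
    (-(1 - η / 8) * (τ / 192) + σ / K2 * (S / 8)) (σ / K2 * (τ / 192)) i0 i2 i4 i6
  have hJJ := GA_dom σ τ E c D g hgi hg0 hdom
  set G := Real.sqrt (2 / (Real.pi * σ)) with hG
  have hG0 : 0 ≤ G := Real.sqrt_nonneg _
  have hint : 1 / (2 * Real.pi) * ∫ t, g t = G * (1 +
      (-(1 - η / 8) * (S / 8)) * (4 / σ) +
      (-(1 - η / 8) * (τ / 192) + σ / K2 * (S / 8)) * (48 / σ ^ 2) +
      (σ / K2 * (τ / 192)) * (960 / σ ^ 3)) := by
    have hgg : ∫ t, g t = ∫ t, ((fun t => Real.exp (-(σ / 8) * t ^ 2)) t +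
      (-(1 - η / 8) * (S / 8)) * (fun t => t ^ 2 * Real.exp (-(σ / 8) * t ^ 2)) t +
      (-(1 - η / 8) * (τ / 192) + σ / K2 * (S / 8)) *
        (fun t => t ^ 4 * Real.exp (-(σ / 8) * t ^ 2)) t +
      (σ / K2 * (τ / 192)) * (fun t => t ^ 6 * Real.exp (-(σ / 8) * t ^ 2)) t) := rfl
    rw [hgg, hgint]
    calc _ = 1 / (2 * Real.pi) * (∫ t : ℝ, Real.exp (-(σ / 8) * t ^ 2)) +
          (-(1 - η / 8) * (S / 8)) * (1 / (2 * Real.pi) *
            ∫ t : ℝ, t ^ 2 * Real.exp (-(σ / 8) * t ^ 2)) +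
          (-(1 - η / 8) * (τ / 192) + σ / K2 * (S / 8)) * (1 / (2 * Real.pi) *
            ∫ t : ℝ, t ^ 4 * Real.exp (-(σ / 8) * t ^ 2)) +
          (σ / K2 * (τ / 192)) * (1 / (2 * Real.pi) *
            ∫ t : ℝ, t ^ 6 * Real.exp (-(σ / 8) * t ^ 2)) := by ring
      _ = _ := by
          rw [m0, m2, m4, m6]
          ring
  rw [hint] at hJJ
  refine hJJ.trans ?_
  apply mul_le_mul_of_nonneg_left _ hG0
  have e1 : 1 / K2 = η / 256 := by
    rw [hK2]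
    field_simp
  have e2 : (-(1 - η / 8) * (S / 8)) * (4 / σ) +
      (-(1 - η / 8) * (τ / 192) + σ / K2 * (S / 8)) * (48 / σ ^ 2) +
      (σ / K2 * (τ / 192)) * (960 / σ ^ 3) =
      -(1 - η / 8) * (S / (2 * σ) + τ / (4 * σ ^ 2)) +
        (12 * (η / 256)) * (S / (2 * σ)) + (20 * (η / 256)) * (τ / (4 * σ ^ 2)) := by
    rw [← e1]
    field_simp
    ring
  have hA : 0 ≤ S / (2 * σ) := by positivity
  have hB : 0 ≤ τ / (4 * σ ^ 2) := by positivity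
  have e3 : 1 + (-(1 - η / 8) * (S / 8)) * (4 / σ) +
      (-(1 - η / 8) * (τ / 192) + σ / K2 * (S / 8)) * (48 / σ ^ 2) +
      (σ / K2 * (τ / 192)) * (960 / σ ^ 3) =
      1 + ((-(1 - η / 8) * (S / 8)) * (4 / σ) +
      (-(1 - η / 8) * (τ / 192) + σ / K2 * (S / 8)) * (48 / σ ^ 2) +
      (σ / K2 * (τ / 192)) * (960 / σ ^ 3)) := by ring
  rw [e3, e2]
  generalize S / (2 * σ) = A at hA
  generalize τ / (4 * σ ^ 2) = B at hB
  nlinarith [mul_nonneg hη.le hA, mul_nonneg hη.le hB]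

end H31Y
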