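import Pool.Agent.Lib.H31Y.GB
import Pool.Agent.Lib.H31Y.GC
import Pool.Agent.Lib.H31Y.GD

/-!
Chunk GE: the final form.
-/

namespace H31Y

open Finset H31Z MeasureTheory

/-- PROOF. `η', σ0` from `GD_second`, `η2 = min η η'` (and `≤ 1`), `κ = min (η2/200) (1/10)`. If some
`v² > σ` for `v = D` or `v = c e`: `GB_one` gives `JJ ≤ G (3/4 + exp (-2)/4) ≤ 0.79 G < (1-κ) G`,
contradiction (`G > 0`). So `GC_sum` with `η2` gives `∑ c² + D² ≤ η2 σ`, and `GD_second` applies. -/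
theorem GE_final (η C : ℝ) (hη : 0 < η) (hη1 : η ≤ 1) (hC : 0 ≤ C) :
    ∃ κ : ℝ, 0 < κ ∧ κ ≤ 1 / 10 ∧ ∃ σ0 : ℝ, 1 ≤ σ0 ∧ ∀ (σ τ : ℝ), σ0 ≤ σ → 0 ≤ τ → τ ≤ C * σ →
      ∀ (ι : Type) (E : Finset ι) (c : ι → ℝ) (D : ℝ),
      (1 - κ) * Real.sqrt (2 / (Real.pi * σ)) ≤ JJ σ τ E c D →
      ∑ e ∈ E, c e ^ 2 + D ^ 2 ≤ η * σ ∧
      JJ σ τ E c D ≤ Real.sqrt (2 / (Real.pi * σ)) *
        (1 - (1 - η) * ((∑ e ∈ E, c e ^ 2 + D ^ 2) / (2 * σ) + τ / (4 * σ ^ 2))) := by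
  obtain ⟨η', hη', σ0, hσ0, hG⟩ := GD_second η C hη hη1 hC
  have hη2 : 0 < min (min η η') 1 := lt_min (lt_min hη hη') one_pos
  have hη21 : min (min η η') 1 ≤ 1 := min_le_right _ _
  have hη2a : min (min η η') 1 ≤ η := (min_le_left _ _).trans (min_le_left _ _)
  have hη2b : min (min η η') 1 ≤ η' := (min_le_left _ _).trans (min_le_right _ _)
  generalize min (min η η') 1 = η2 at hη2 hη21 hη2a hη2b
  refine ⟨min (η2 / 200) (1 / 10), lt_min (by positivity) (by norm_num), min_le_right _ _, σ0, hσ0,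
    fun σ τ hσ hτ hτC ι E c D hJ => ?_⟩
  have hk1 : min (η2 / 200) (1 / 10) ≤ η2 / 200 := min_le_left _ _
  have hk2 : min (η2 / 200) (1 / 10) ≤ 1 / 10 := min_le_right _ _
  generalize min (η2 / 200) (1 / 10) = κ at hk1 hk2 hJ
  have hσ1 : 1 ≤ σ := hσ0.trans hσ
  have hσp : 0 < σ := by linarith
  have hpi := Real.pi_pos
  have hGp : 0 < Real.sqrt (2 / (Real.pi * σ)) := Real.sqrt_pos.2 (by positivity)
  have hv : ∀ v : ℝ, (v = D ∨ ∃ e ∈ E, v = c e) → v ^ 2 ≤ σ := by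
    intro v hv
    by_contra h0
    push Not at h0
    have h1 := GB_one σ τ hσp hτ E c D v hv
    have h2 : Real.exp (-2 * v ^ 2 / σ) ≤ 1 / 3 := by
      have h3 : -2 * v ^ 2 / σ ≤ -2 := by
        rw [div_le_iff₀ hσp]
        linarith
      have h4 : Real.exp (-2) ≤ 1 / 3 := by
        rw [Real.exp_neg, ← one_div]
        apply one_div_le_one_div_of_le (by norm_num)
        have := Real.add_one_le_exp (2 : ℝ)
        linarith
      exact (Real.exp_le_exp.2 h3).trans h4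
    have h3 : Real.sqrt (2 / (Real.pi * σ)) * (3 / 4 + Real.exp (-2 * v ^ 2 / σ) / 4) <
        (1 - κ) * Real.sqrt (2 / (Real.pi * σ)) := by
      rw [mul_comm]
      exact mul_lt_mul_of_pos_right (by linarith) hGp
    linarith
  have hS : ∑ e ∈ E, c e ^ 2 + D ^ 2 ≤ η2 * σ := by
    by_contra h0
    push Not at h0
    have h1 := GC_sum η2 hη2 hη21 σ τ hσ1 hτ E c D (fun e he => hv _ (Or.inr ⟨e, he, rfl⟩))
      (hv _ (Or.inl rfl)) h0
    have h3 : (1 - η2 / 100) * Real.sqrt (2 / (Real.pi * σ)) <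
        (1 - κ) * Real.sqrt (2 / (Real.pi * σ)) :=
      mul_lt_mul_of_pos_right (by linarith) hGp
    linarith
  exact ⟨hS.trans (mul_le_mul_of_nonneg_right hη2a hσp.le),
    hG σ τ hσ hτ hτC ι E c D (hS.trans (mul_le_mul_of_nonneg_right hη2b hσp.le))⟩

end H31Y
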