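import Pool.Agent.Lib.H31Y.Defs

/-!
Chunk HAa: max V H against the central binomial coefficient
-/

namespace H31Y

open Finset H31Z

theorem haa_one {n e x C y : ℕ} (h : n = 1 + e + x) : 2 ^ n * C ≤ 2 * 2 ^ e * (2 ^ x * (C + y)) := by
  rw [h, pow_add, pow_add, pow_one]
  calc 2 * 2 ^ e * 2 ^ x * C ≤ 2 * 2 ^ e * 2 ^ x * (C + y) :=
        Nat.mul_le_mul_left _ (Nat.le_add_right _ _)
    _ = 2 * 2 ^ e * (2 ^ x * (C + y)) := by ring

theorem haa_two {n e x C y : ℕ} (h : n = 2 + e + x) :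
    2 ^ n * C ≤ 2 * 2 ^ e * (2 ^ x * (2 * C + y)) := by
  rw [h, pow_add, pow_add]
  calc 2 ^ 2 * 2 ^ e * 2 ^ x * C = 2 * 2 ^ e * 2 ^ x * (2 * C) := by ring
    _ ≤ 2 * 2 ^ e * 2 ^ x * (2 * C + y) := Nat.mul_le_mul_left _ (Nat.le_add_right _ _)
    _ = 2 * 2 ^ e * (2 ^ x * (2 * C + y)) := by ring

theorem haa_half {k : ℕ} (hk : 1 ≤ k) : (2 * k).choose k = 2 * (2 * k - 1).choose k := by
  obtain ⟨m, rfl⟩ : ∃ m, k = m + 1 := ⟨k - 1, by omega⟩
  have e1 : 2 * (m + 1) - 1 = 2 * m + 1 := by omega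
  have e2 : 2 * (m + 1) = (2 * m + 1) + 1 := by omega
  rw [e1, e2, Nat.choose_succ_succ, Nat.choose_symm_half]
  ring

/-- `2 C(2k-1, k) = C(2k, k)` -/
theorem haa_three {n x k y : ℕ} (hk : 1 ≤ k) (h : n = 2 * k + x) :
    2 ^ n * (2 * k).choose k ≤ 2 * 2 ^ (2 * k) * (2 ^ x * (y + (2 * k - 1).choose k)) := by
  rw [haa_half hk, h, pow_add]
  calc 2 ^ (2 * k) * 2 ^ x * (2 * (2 * k - 1).choose k) =
        2 * 2 ^ (2 * k) * 2 ^ x * (2 * k - 1).choose k := by ring
    _ ≤ 2 * 2 ^ (2 * k) * 2 ^ x * (y + (2 * k - 1).choose k) :=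
        Nat.mul_le_mul_left _ (Nat.le_add_left _ _)
    _ = 2 * 2 ^ (2 * k) * (2 ^ x * (y + (2 * k - 1).choose k)) := by ring

theorem haa_maxH {n e C V H : ℕ} (h : 2 ^ n * C ≤ 2 * 2 ^ e * H) :
    2 ^ n * C ≤ 2 * 2 ^ e * max V H :=
  h.trans (Nat.mul_le_mul_left _ (le_max_right _ _))

theorem haa_maxV {n e C V H : ℕ} (h : 2 ^ n * C ≤ 2 * 2 ^ e * V) :
    2 ^ n * C ≤ 2 * 2 ^ e * max V H :=
  h.trans (Nat.mul_le_mul_left _ (le_max_left _ _))

/-- PROOF. Case by case; all are `2 C(2h-1,h) = C(2h,h)` and powers of `2`; `e = est n r`: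
`3r < n` odd: `Hval ≥ 2^(r-1) 2 C(e,e/2)`, `n = r + 1 + e`; even: `Hval ≥ 2^(r-1) C(e,e/2)`, `n = r + e`;
`n = 3r`, `e = 2r`; `2r+3 ≤ n < 3r`: `2 C(2r-1,r) = C(2r,r)`; window: `n = 2r+2` (`e = 2r`), `2r+1` (`2r`),
`2r` (`2r-2`), `2r-1` (`2r-2`), `2r-2` (`2r-4`); `n+3 ≤ 2r`, `3r ≤ 2n`: `e = 2(n-r)`,
`n + n + 1 = (2r-n-1) + ... `: `2^(2r-n-1) 2^(e+1) = 2^n` as `2r - n - 1 + 2(n-r) + 1 = n`;
`3r > 2n`: `Vval`, `k = n-r+1`, `e = 2k`, `2k ≤ n`, `2 C(2k-1,k) = C(2k,k)`. -/
theorem HA_ge (n r : ℕ) (hn : 100 ≤ n) (hr6 : 6 ≤ r) (hr : Even r) (hr9 : 9 * r ≤ 8 * n)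
    (hw : r % 4 = 0 ∨ 2 * r + 3 ≤ n ∨ n + 3 ≤ 2 * r) :
    2 ^ n * (est n r).choose (est n r / 2) ≤ 2 * 2 ^ est n r * max (Vval n r) (Hval n r) := by
  obtain ⟨s, hs⟩ := hr
  by_cases c1 : 3 * r < n
  · by_cases c2 : n % 2 = 0
    · have he : est n r = n - r := by
        unfold est
        rw [if_pos c1, if_pos c2]
      have hH : Hval n r = 2 ^ (r - 1) * ((n - r).choose ((n - r) / 2) + (n - r)) := by
        unfold Hval
        rw [if_pos c1, if_neg (by omega)]
      rw [he, hH]
      exact haa_maxH (haa_one (by omega))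
    · have he : est n r = n - r - 1 := by
        unfold est
        rw [if_pos c1, if_neg c2]
      have hH : Hval n r = 2 ^ (r - 1) * (2 * (n - r - 1).choose ((n - r - 1) / 2) + 2) := by
        unfold Hval
        rw [if_pos c1, if_pos (by omega)]
      rw [he, hH]
      exact haa_maxH (haa_two (by omega))
  by_cases c3 : 2 * r + 3 ≤ n
  · have he : est n r = 2 * r := by
      unfold est
      rw [if_neg c1, if_pos c3]
    have h2 : 2 * r / 2 = r := by omega
    rw [he, h2]
    by_cases c4 : n = 3 * r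
    · have hH : Hval n r = 2 ^ (r - 1) * (1 + (2 * r).choose r) := by
        unfold Hval
        rw [if_neg c1, if_pos c4]
      rw [hH, add_comm 1]
      exact haa_maxH (haa_one (by omega))
    · have hH : Hval n r = 2 ^ (n - 2 * r) * (1 + (2 * r - 1).choose r) := by
        unfold Hval
        rw [if_neg c1, if_neg c4, if_pos c3]
      rw [hH]
      exact haa_maxH (haa_three (by omega) (by omega))
  by_cases c5 : 2 * r ≤ n + 2
  · have c6 : r % 4 = 0 := by omega
    have c4 : n ≠ 3 * r := by omega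
    have hH0 : Hval n r = if n = 2 * r + 2 then 2 * (2 * r).choose r + 2 * (2 * r).choose (r / 2 - 2)
      else if n = 2 * r + 1 then (2 * r).choose r + (2 * r).choose (r / 2)
      else if n = 2 * r then 2 * (2 * r - 2).choose (r - 1) + 2 * (2 * r - 2).choose (r / 2 - 1)
      else if n + 1 = 2 * r then (2 * r - 2).choose (r - 1) + (2 * r - 2).choose (r / 2 - 1)
      else 2 * (2 * r - 4).choose (r - 2) + 2 * (2 * r - 4).choose (r / 2 - 2) := by
      unfold Hval
      rw [if_neg c1, if_neg c4, if_neg c3, if_pos c5, if_neg (by omega)]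
    have he0 : est n r = if n % 2 = 0 then n - 2 else n - 1 := by
      unfold est
      rw [if_neg c1, if_neg c3, if_pos c5]
    by_cases d1 : n = 2 * r + 2
    · have he : est n r = 2 * r := by
        rw [he0, if_pos (by omega)]
        omega
      rw [if_pos d1] at hH0
      have h2 : 2 * r / 2 = r := by omega
      rw [he, h2, hH0]
      have h3 := haa_two (n := n) (e := 2 * r) (x := 0) (C := (2 * r).choose r)
        (y := 2 * (2 * r).choose (r / 2 - 2)) (by omega)
      rw [pow_zero, one_mul] at h3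
      exact haa_maxH h3
    by_cases d2 : n = 2 * r + 1
    · have he : est n r = 2 * r := by
        rw [he0, if_neg (by omega)]
        omega
      rw [if_neg d1, if_pos d2] at hH0
      have h2 : 2 * r / 2 = r := by omega
      rw [he, h2, hH0]
      have h3 := haa_one (n := n) (e := 2 * r) (x := 0) (C := (2 * r).choose r)
        (y := (2 * r).choose (r / 2)) (by omega)
      rw [pow_zero, one_mul] at h3
      exact haa_maxH h3
    by_cases d3 : n = 2 * r
    · have he : est n r = 2 * r - 2 := by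
        rw [he0, if_pos (by omega)]
        omega
      rw [if_neg d1, if_neg d2, if_pos d3] at hH0
      have h2 : (2 * r - 2) / 2 = r - 1 := by omega
      rw [he, h2, hH0]
      have h3 := haa_two (n := n) (e := 2 * r - 2) (x := 0) (C := (2 * r - 2).choose (r - 1))
        (y := 2 * (2 * r - 2).choose (r / 2 - 1)) (by omega)
      rw [pow_zero, one_mul] at h3
      exact haa_maxH h3
    by_cases d4 : n + 1 = 2 * r
    · have he : est n r = 2 * r - 2 := by
        rw [he0, if_neg (by omega)]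
        omega
      rw [if_neg d1, if_neg d2, if_neg d3, if_pos d4] at hH0
      have h2 : (2 * r - 2) / 2 = r - 1 := by omega
      rw [he, h2, hH0]
      have h3 := haa_one (n := n) (e := 2 * r - 2) (x := 0) (C := (2 * r - 2).choose (r - 1))
        (y := (2 * r - 2).choose (r / 2 - 1)) (by omega)
      rw [pow_zero, one_mul] at h3
      exact haa_maxH h3
    · have d5 : n + 2 = 2 * r := by omega
      have he : est n r = 2 * r - 4 := by
        rw [he0, if_pos (by omega)]
        omega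
      rw [if_neg d1, if_neg d2, if_neg d3, if_neg d4] at hH0
      have h2 : (2 * r - 4) / 2 = r - 2 := by omega
      rw [he, h2, hH0]
      have h3 := haa_two (n := n) (e := 2 * r - 4) (x := 0) (C := (2 * r - 4).choose (r - 2))
        (y := 2 * (2 * r - 4).choose (r / 2 - 2)) (by omega)
      rw [pow_zero, one_mul] at h3
      exact haa_maxH h3
  by_cases c7 : 3 * r ≤ 2 * n
  · have he : est n r = 2 * (n - r) := by
      unfold est
      rw [if_neg c1, if_neg c3, if_neg c5, if_pos c7]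
    have h2 : 2 * (n - r) / 2 = n - r := by omega
    rw [he, h2]
    by_cases c8 : 3 * r < 2 * n
    · have hH : Hval n r = 2 ^ (2 * r - n - 1) * ((2 * (n - r)).choose (n - r) + 2 * (n - r)) := by
        unfold Hval
        rw [if_neg c1, if_neg (by omega), if_neg c3, if_neg c5, if_pos c8]
      rw [hH]
      exact haa_maxH (haa_one (by omega))
    · have hH : Hval n r = 2 ^ (2 * r - n - 1) * ((2 * (n - r)).choose (n - r) + 1) := by
        unfold Hval
        rw [if_neg c1, if_neg (by omega), if_neg c3, if_neg c5, if_neg c8, if_pos (by omega)]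
      rw [hH]
      exact haa_maxH (haa_one (by omega))
  · have he : est n r = 2 * (n - r + 1) := by
      unfold est
      rw [if_neg c1, if_neg c3, if_neg c5, if_neg c7]
      omega
    have hV : Vval n r = 2 ^ (n - 2 * (n - r + 1)) * (1 + (2 * (n - r + 1) - 1).choose (n - r + 1)) := by
      unfold Vval
      rw [if_pos (by omega)]
    have h2 : 2 * (n - r + 1) / 2 = n - r + 1 := by omega
    rw [he, h2, hV]
    exact haa_maxV (haa_three (by omega) (by omega))

end H31Y
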