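import Pool.Agent.Lib.H31Y.Defs
import Pool.Agent.Lib.H31Y.HAa

/-!
Chunk HAb: the noncrossing bound
-/

namespace H31Y

open Finset H31Z

private lemma hab_ge (m : ℕ) : m + 1 ≤ Nat.centralBinom m := by
  induction m with
  | zero => simp
  | succ m ih =>
    have h := Nat.succ_mul_centralBinom_succ m
    have h2 : (m + 1) * (m + 2) ≤ (m + 1) * Nat.centralBinom (m + 1) := by
      rw [h]
      nlinarith
    exact Nat.le_of_mul_le_mul_left h2 (Nat.succ_pos m)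

private lemma hab_step (m : ℕ) : Nat.centralBinom (m + 1) + 2 ≤ 4 * Nat.centralBinom m := by
  have h := Nat.succ_mul_centralBinom_succ m
  have h1 := hab_ge m
  have h2 : (m + 1) * (Nat.centralBinom (m + 1) + 2) ≤ (m + 1) * (4 * Nat.centralBinom m) := by
    rw [mul_add, h]
    nlinarith
  exact Nat.le_of_mul_le_mul_left h2 (Nat.succ_pos m)

private lemma hab_main (h k : ℕ) (hk : h + 1 ≤ k) :
    4 ^ h * (2 + Nat.centralBinom k) ≤ 4 ^ k * Nat.centralBinom h := by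
  induction k, hk using Nat.le_induction with
  | base =>
    have := hab_step h
    rw [pow_succ]
    calc 4 ^ h * (2 + Nat.centralBinom (h + 1)) ≤ 4 ^ h * (4 * Nat.centralBinom h) :=
          Nat.mul_le_mul_left _ (by omega)
      _ = _ := by ring
  | succ k hk ih =>
    have := hab_step k
    calc 4 ^ h * (2 + Nat.centralBinom (k + 1)) ≤ 4 ^ h * (4 * (2 + Nat.centralBinom k)) :=
          Nat.mul_le_mul_left _ (by omega)
      _ = 4 * (4 ^ h * (2 + Nat.centralBinom k)) := by ring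
      _ ≤ 4 * (4 ^ k * Nat.centralBinom h) := Nat.mul_le_mul_left _ ih
      _ = _ := by ring

private lemma hab_cb (k : ℕ) (hk : 1 ≤ k) : 2 * (2 * k - 1).choose k = Nat.centralBinom k := by
  obtain ⟨m, rfl⟩ : ∃ m, k = m + 1 := ⟨k - 1, by omega⟩
  rw [Nat.centralBinom_eq_two_mul_choose]
  have e1 : 2 * (m + 1) - 1 = 2 * m + 1 := by omega
  have e2 : 2 * (m + 1) = (2 * m + 1) + 1 := by ring
  rw [e1, e2, Nat.choose_succ_succ (2 * m + 1) m, Nat.succ_eq_add_one, Nat.choose_symm_half m]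
  ring

/-- PROOF. Let `u(h) = C(2h,h)/4^h` (decreasing), `h = est n r/2 ≤ k - 1` (`n ≥ 2r - 1`; `est` is even).
`N/2^n ≤ 4^(-k) + u(k)/2 ≤ u(k-1)/2 ≤ u(h)/2 ≤ Hval/2^n`: `u(k-1) - u(k) = u(k-1)/(2k) ≥ 2/4^k` as
`C(2k-2,k-1) ≥ k`; the last step is `HA_ge` (`Vval = 0` as `2k > n`). -/
theorem HA_non (n r k N : ℕ) (hn : 100 ≤ n) (hr6 : 6 ≤ r) (hr : Even r) (hr9 : 9 * r ≤ 8 * n)
    (hw : r % 4 = 0 ∨ 2 * r + 3 ≤ n) (hk : r + k = n + 1) (h2k : n < 2 * k)
    (h : 4 ^ k * N ≤ 2 ^ n * (1 + (2 * k - 1).choose k)) : N ≤ Hval n r := by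
  have hg := HA_ge n r hn hr6 hr hr9 (by omega)
  have hV : Vval n r = 0 := by
    unfold Vval
    rw [if_neg (by omega)]
  rw [hV, Nat.zero_max] at hg
  obtain ⟨q, hq⟩ := hr
  obtain ⟨e, he, hek⟩ : ∃ e, est n r = 2 * e ∧ e + 1 ≤ k := by
    refine ⟨est n r / 2, ?_, ?_⟩
    · unfold est
      split_ifs <;> omega
    · unfold est
      split_ifs <;> omega
  rw [he, Nat.mul_div_cancel_left _ (by norm_num : 0 < 2)] at hg
  rw [← Nat.centralBinom_eq_two_mul_choose, pow_mul] at hg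
  norm_num only at hg
  have hm := hab_main e k hek
  have hc := hab_cb k (by omega)
  have h1 : 2 * (4 ^ k * N) ≤ 2 ^ n * (2 + Nat.centralBinom k) := by
    rw [← hc]
    calc 2 * (4 ^ k * N) ≤ 2 * (2 ^ n * (1 + (2 * k - 1).choose k)) := Nat.mul_le_mul_left _ h
      _ = _ := by ring
  have h2 : 4 ^ k * (2 * 4 ^ e * N) ≤ 4 ^ k * (2 * 4 ^ e * Hval n r) := by
    calc 4 ^ k * (2 * 4 ^ e * N) = 4 ^ e * (2 * (4 ^ k * N)) := by ring
      _ ≤ 4 ^ e * (2 ^ n * (2 + Nat.centralBinom k)) := Nat.mul_le_mul_left _ h1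
      _ = 2 ^ n * (4 ^ e * (2 + Nat.centralBinom k)) := by ring
      _ ≤ 2 ^ n * (4 ^ k * Nat.centralBinom e) := Nat.mul_le_mul_left _ hm
      _ = 4 ^ k * (2 ^ n * Nat.centralBinom e) := by ring
      _ ≤ _ := Nat.mul_le_mul_left _ hg
  have h3 := Nat.le_of_mul_le_mul_left h2 (by positivity)
  exact Nat.le_of_mul_le_mul_left h3 (by positivity)

/-- PROOF. Case by case, `omega` after `unfold est Mval`, `split_ifs`. -/
theorem HA_M (n r : ℕ) (hn : 100 ≤ n) (hr6 : 6 ≤ r) (hr : Even r) (hr9 : 9 * r ≤ 8 * n) :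
    est n r ≤ Mval n r + 2 ∧ n ≤ 10 * est n r ∧ est n r ≤ 2 * n ∧ Mval n r ≤ n ∧
      n ≤ 9 * Mval n r := by
  obtain ⟨q, hq⟩ := hr
  unfold est Mval
  split_ifs <;> omega

end H31Y
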