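import Pool.Agent.Lib.H31Y.Defs
import Pool.Agent.Lib.H31Z.T1
import Pool.Agent.Lib.H31Z.G1
import Pool.Agent.Lib.H31Z.F1

/-!
Chunk KA: pointwise lower bounds for cosine products.
-/

namespace H31Y

open Finset H31Z MeasureTheory

theorem ka_t {ι : Type*} (L : Finset ι) (w : ι → ℤ) (s : ℤ) (t : ℝ) :
    t * (s - mn w L) = t * ((2 * s - ∑ j ∈ L, w j : ℤ) : ℝ) / 2 := by
  unfold mn
  push_cast
  ring

theorem ka_fac (K : ℕ) (hK : 1 ≤ K) (v : ℤ) (hv : |v| ≤ (K : ℤ)) (t : ℝ) (ht : |t| ≤ 1 / (K : ℝ)) :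
    Real.exp (-((v : ℝ) ^ 2 * t ^ 2 / 8 + (v : ℝ) ^ 4 * t ^ 4 / 192 +
      (K : ℝ) ^ 4 * (v : ℝ) ^ 2 * t ^ 6 / 1920)) ≤ Real.cos (t * v / 2) := by
  have hK0 : (0 : ℝ) < K := by exact_mod_cast hK
  have hv' : |(v : ℝ)| ≤ K := by
    have h1 : ((|v| : ℤ) : ℝ) ≤ ((K : ℤ) : ℝ) := by exact_mod_cast hv
    rw [Int.cast_abs] at h1
    simpa using h1
  have h1 : |t * v / 2| ≤ 1 / 2 := by
    rw [abs_div, abs_mul, abs_two]
    have h2 : |t| * |(v : ℝ)| ≤ 1 / (K : ℝ) * K := mul_le_mul ht hv' (abs_nonneg _) (by positivity)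
    rw [one_div, inv_mul_cancel₀ hK0.ne'] at h2
    linarith
  refine le_trans (Real.exp_le_exp.2 ?_) (T1_lower _ h1)
  have h2 : (v : ℝ) ^ 4 ≤ (K : ℝ) ^ 4 := by
    have h3 := pow_le_pow_left₀ (abs_nonneg _) hv' 4
    rwa [Even.pow_abs (by decide : Even 4)] at h3
  have h3 : (v : ℝ) ^ 4 * ((v : ℝ) ^ 2 * t ^ 6) ≤ (K : ℝ) ^ 4 * ((v : ℝ) ^ 2 * t ^ 6) :=
    mul_le_mul_of_nonneg_right h2 (by positivity)
  nlinarith

/-- PROOF. For `|t| ≤ 1/K`: `|t w_j/2| ≤ 1/2`, `|t D/2| ≤ 1/2`, `T1_lower` for every factor (all are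
positive), the product of the exponentials is `exp (-σt²/8 - τt⁴/192 - ρt⁶/1920)` with
`ρ = ∑ w⁶ + D⁶ ≤ K⁴ σ`; `exp (-Y) ≥ 1 - Y`. -/
theorem KA_point {ι : Type*} (K : ℕ) (hK : 1 ≤ K) (L : Finset ι) (w : ι → ℤ) (s : ℤ)
    (hw : ∀ j ∈ L, |w j| ≤ (K : ℤ)) (hD : |2 * s - ∑ j ∈ L, w j| ≤ (K : ℤ)) (t : ℝ)
    (ht : |t| ≤ 1 / (K : ℝ)) :
    Real.exp (-(sgD w L s / 8) * t ^ 2) *
      (1 - s4D w L s / 192 * t ^ 4 - (K : ℝ) ^ 4 * sgD w L s / 1920 * t ^ 6) ≤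
      (∏ j ∈ L, Real.cos (t * w j / 2)) * Real.cos (t * (s - mn w L)) := by
  have h1 : ∏ j ∈ L, Real.exp (-((w j : ℝ) ^ 2 * t ^ 2 / 8 + (w j : ℝ) ^ 4 * t ^ 4 / 192 +
      (K : ℝ) ^ 4 * (w j : ℝ) ^ 2 * t ^ 6 / 1920)) ≤ ∏ j ∈ L, Real.cos (t * w j / 2) :=
    Finset.prod_le_prod (fun _ _ => (Real.exp_pos _).le) fun j hj => ka_fac K hK _ (hw j hj) t ht
  have h2 := ka_fac K hK _ hD t ht
  rw [ka_t]
  refine le_trans ?_ (mul_le_mul h1 h2 (Real.exp_pos _).le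
    ((Finset.prod_nonneg fun _ _ => (Real.exp_pos _).le).trans h1))
  rw [← Real.exp_sum, ← Real.exp_add]
  have h3 : ∑ j ∈ L, -((w j : ℝ) ^ 2 * t ^ 2 / 8 + (w j : ℝ) ^ 4 * t ^ 4 / 192 +
      (K : ℝ) ^ 4 * (w j : ℝ) ^ 2 * t ^ 6 / 1920) +
      -(((2 * s - ∑ j ∈ L, w j : ℤ) : ℝ) ^ 2 * t ^ 2 / 8 +
        ((2 * s - ∑ j ∈ L, w j : ℤ) : ℝ) ^ 4 * t ^ 4 / 192 +
      (K : ℝ) ^ 4 * ((2 * s - ∑ j ∈ L, w j : ℤ) : ℝ) ^ 2 * t ^ 6 / 1920) =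
      -(sgD w L s / 8) * t ^ 2 +
        -(s4D w L s / 192 * t ^ 4 + (K : ℝ) ^ 4 * sgD w L s / 1920 * t ^ 6) := by
    unfold sgD s4D sg
    have e1 : ((2 * s - ∑ j ∈ L, w j : ℤ) : ℝ) = 2 * (s : ℝ) - ∑ j ∈ L, (w j : ℝ) := by
      push_cast
      ring
    rw [e1, Finset.sum_neg_distrib, Finset.sum_add_distrib, Finset.sum_add_distrib]
    have e2 : ∑ j ∈ L, (w j : ℝ) ^ 2 * t ^ 2 / 8 = (∑ j ∈ L, (w j : ℝ) ^ 2) * t ^ 2 / 8 := by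
      rw [Finset.sum_mul, Finset.sum_div]
    have e3 : ∑ j ∈ L, (w j : ℝ) ^ 4 * t ^ 4 / 192 = (∑ j ∈ L, (w j : ℝ) ^ 4) * t ^ 4 / 192 := by
      rw [Finset.sum_mul, Finset.sum_div]
    have e4 : ∑ j ∈ L, (K : ℝ) ^ 4 * (w j : ℝ) ^ 2 * t ^ 6 / 1920 =
        (K : ℝ) ^ 4 * (∑ j ∈ L, (w j : ℝ) ^ 2) * t ^ 6 / 1920 := by
      rw [Finset.mul_sum, Finset.sum_mul, Finset.sum_div]
    rw [e2, e3, e4]
    ring
  rw [h3, Real.exp_add]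
  refine mul_le_mul_of_nonneg_left ?_ (Real.exp_pos _).le
  have h4 := Real.add_one_le_exp
    (-(s4D w L s / 192 * t ^ 4 + (K : ℝ) ^ 4 * sgD w L s / 1920 * t ^ 6))
  linarith

/-- PROOF. All factors are at most `1` in absolute value; keep those with `w j = 1`:
`|cos (t/2)| ≤ cos (1/(2K))` for `1/K ≤ |t| ≤ π`. -/
theorem KA_minor {ι : Type*} (K : ℕ) (hK : 1 ≤ K) (L : Finset ι) (w : ι → ℤ) (s : ℤ) (t : ℝ)
    (ht : 1 / (K : ℝ) ≤ |t|) (ht' : |t| ≤ Real.pi) :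
    |(∏ j ∈ L, Real.cos (t * w j / 2)) * Real.cos (t * (s - mn w L))| ≤
      Real.cos (1 / (2 * K)) ^ nv w L 1 := by
  have hK0 : (0 : ℝ) < K := by exact_mod_cast hK
  have hK1 : (1 : ℝ) ≤ K := by exact_mod_cast hK
  have hc : |Real.cos (t / 2)| ≤ Real.cos (1 / (2 * K)) := by
    rw [← Real.cos_abs (t / 2), abs_div, abs_two]
    have h4 : 0 ≤ Real.cos (|t| / 2) :=
      Real.cos_nonneg_of_mem_Icc ⟨by linarith [abs_nonneg t, Real.pi_pos], by linarith⟩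
    rw [abs_of_nonneg h4]
    apply Real.cos_le_cos_of_nonneg_of_le_pi (by positivity) (by linarith [abs_nonneg t])
    have h5 : 1 / (2 * (K : ℝ)) = 1 / (K : ℝ) / 2 := by
      field_simp
    rw [h5]
    linarith
  rw [abs_mul, Finset.abs_prod]
  have h1 : (∏ j ∈ L, |Real.cos (t * w j / 2)|) * |Real.cos (t * (s - mn w L))| ≤
      ∏ j ∈ L, |Real.cos (t * w j / 2)| :=
    mul_le_of_le_one_right (Finset.prod_nonneg fun _ _ => abs_nonneg _) (Real.abs_cos_le_one _)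
  refine h1.trans ?_
  rw [← Finset.prod_filter_mul_prod_filter_not L (fun i => w i = 1)]
  have h2 : ∏ j ∈ L.filter (fun i => ¬ w i = 1), |Real.cos (t * w j / 2)| ≤ 1 :=
    Finset.prod_le_one (fun _ _ => abs_nonneg _) fun _ _ => Real.abs_cos_le_one _
  refine (mul_le_of_le_one_right (Finset.prod_nonneg fun _ _ => abs_nonneg _) h2).trans ?_
  have h3 : ∏ j ∈ L.filter (fun i => w i = 1), |Real.cos (t * w j / 2)| =
      |Real.cos (t / 2)| ^ nv w L 1 := by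
    unfold nv
    rw [← Finset.prod_const]
    refine Finset.prod_congr rfl fun j hj => ?_
    rw [(Finset.mem_filter.1 hj).2]
    simp
  rw [h3]
  exact pow_le_pow_left₀ (abs_nonneg _) hc _

end H31Y
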