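import Pool.Agent.Lib.H31Y.KA

/-!
Chunk KB: lower bound for the probability of a value near the mean, with the fourth order term.
-/

namespace H31Y

open Finset H31Z MeasureTheory

theorem kb_cos {ι : Type*} (w : ι → ℤ) (L : Finset ι) (s : ℤ) (t : ℝ) :
    |(∏ j ∈ L, Real.cos (t * w j / 2)) * Real.cos (t * (s - mn w L))| ≤ 1 := by
  rw [abs_mul, Finset.abs_prod]
  have h1 : ∏ j ∈ L, |Real.cos (t * w j / 2)| ≤ 1 :=
    Finset.prod_le_one (fun _ _ => abs_nonneg _) (fun _ _ => Real.abs_cos_le_one _)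
  exact mul_le_one₀ h1 (abs_nonneg _) (Real.abs_cos_le_one _)

/-- exponentials beat powers -/
theorem kb_exp (a : ℝ) (ha : 0 < a) (ε : ℝ) (hε : 0 < ε) : ∃ σ0 : ℝ, 1 ≤ σ0 ∧ ∀ σ : ℝ, σ0 ≤ σ →
    Real.exp (-(a * σ)) * σ ^ 2 ≤ ε := by
  have h := Real.tendsto_pow_mul_exp_neg_atTop_nhds_zero 2
  have h2 : Filter.Tendsto (fun σ : ℝ => (a * σ) ^ 2 * Real.exp (-(a * σ))) Filter.atTop (nhds 0) :=
    h.comp (Filter.tendsto_id.const_mul_atTop ha)
  have h3 := h2.eventually (gt_mem_nhds (show 0 < ε * a ^ 2 by positivity))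
  obtain ⟨N, hN⟩ := Filter.eventually_atTop.1 h3
  refine ⟨max 1 N, le_max_left _ _, fun σ hσ => ?_⟩
  have h4 := hN σ (le_trans (le_max_right _ _) hσ)
  have h5 : (a * σ) ^ 2 * Real.exp (-(a * σ)) = a ^ 2 * (Real.exp (-(a * σ)) * σ ^ 2) := by ring
  rw [h5, mul_comm ε] at h4
  exact (lt_of_mul_lt_mul_left h4 (by positivity)).le

theorem kb_int (f0 f4 f6 : ℝ → ℝ) (b c : ℝ) (i0 : Integrable f0)
    (i4 : Integrable f4) (i6 : Integrable f6) :
    Integrable (fun t => f0 t + b * f4 t + c * f6 t) ∧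
    ∫ t, (f0 t + b * f4 t + c * f6 t) =
      (∫ t, f0 t) + b * (∫ t, f4 t) + c * ∫ t, f6 t := by
  have j4 : Integrable (fun t => f0 t + b * f4 t) := i0.add (i4.const_mul b)
  have j6 : Integrable (fun t => f0 t + b * f4 t + c * f6 t) := j4.add (i6.const_mul c)
  refine ⟨j6, ?_⟩
  have e1 : ∫ t, (f0 t + b * f4 t + c * f6 t) =
      (∫ t, (f0 t + b * f4 t)) + ∫ t, c * f6 t := integral_add j4 (i6.const_mul c)
  have e2 : ∫ t, (f0 t + b * f4 t) = (∫ t, f0 t) + ∫ t, b * f4 t :=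
    integral_add i0 (i4.const_mul b)
  rw [e1, e2, integral_const_mul, integral_const_mul]

/-- The comparison of the integrals. -/
theorem kb_compare (f u e : ℝ → ℝ) (T m : ℝ) (hf : Continuous f) (hu : Integrable u)
    (he : Integrable e) (hT : 0 < T) (hTpi : T ≤ Real.pi) (hm : 0 ≤ m)
    (hue : ∀ t, u t ≤ e t) (h1 : ∀ t, |t| ≤ T → u t ≤ f t) (h0 : ∀ t, 0 ≤ e t)
    (h2 : ∀ t, T ≤ |t| → |t| ≤ Real.pi → |f t| ≤ m) :
    (∫ t, u t) - (∫ t in {t : ℝ | T ≤ |t|}, e t) - 2 * Real.pi * m ≤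
      ∫ t in (-Real.pi)..Real.pi, f t := by
  have hpi := Real.pi_pos
  have hms : MeasurableSet {t : ℝ | T ≤ |t|} :=
    measurableSet_le measurable_const continuous_abs.measurable
  have hv : Integrable (Set.indicator {t : ℝ | T ≤ |t|} e) := he.indicator hms
  set F : ℝ → ℝ := fun t => u t - Set.indicator {t : ℝ | T ≤ |t|} e t with hF
  have hFi : Integrable F := hu.sub hv
  have hFtot : ∫ t, F t = (∫ t, u t) - ∫ t in {t : ℝ | T ≤ |t|}, e t := by
    rw [← integral_indicator hms]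
    exact integral_sub hu hv
  have hF0 : ∀ t, T ≤ |t| → F t ≤ 0 := by
    intro t ht
    simp only [hF]
    rw [Set.indicator_of_mem (show t ∈ {t : ℝ | T ≤ |t|} from ht)]
    linarith [hue t]
  have hFs : ∫ t, F t ≤ ∫ t in (-Real.pi)..Real.pi, F t := by
    rw [intervalIntegral.integral_of_le (by linarith)]
    have h3 := integral_add_compl (s := Set.Ioc (-Real.pi) Real.pi) measurableSet_Ioc hFi
    have h4 : ∫ t in (Set.Ioc (-Real.pi) Real.pi)ᶜ, F t ≤ 0 := by
      apply setIntegral_nonpos measurableSet_Ioc.compl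
      intro t ht
      apply hF0
      refine hTpi.trans ?_
      by_contra hc
      push Not at hc
      obtain ⟨h5, h6⟩ := abs_lt.1 hc
      exact ht ⟨h5, h6.le⟩
    linarith
  have hmono : ∫ t in (-Real.pi)..Real.pi, (F t - m) ≤ ∫ t in (-Real.pi)..Real.pi, f t := by
    apply intervalIntegral.integral_mono_on (by linarith)
    · exact (hFi.intervalIntegrable).sub intervalIntegrable_const
    · exact hf.intervalIntegrable _ _
    · intro t ht
      have htp : |t| ≤ Real.pi := abs_le.2 ⟨ht.1, ht.2⟩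
      rcases le_or_gt T |t| with h3 | h3
      · have h4 := hF0 t h3
        have h5 := (abs_le.1 (h2 t h3 htp)).1
        linarith
      · have h4 := h1 t h3.le
        have h5 : 0 ≤ Set.indicator {t : ℝ | T ≤ |t|} e t := Set.indicator_nonneg (fun t _ => h0 t) t
        simp only [hF]
        linarith
  have hsub : ∫ t in (-Real.pi)..Real.pi, (F t - m) =
      (∫ t in (-Real.pi)..Real.pi, F t) - 2 * Real.pi * m := by
    rw [intervalIntegral.integral_sub hFi.intervalIntegrable intervalIntegrable_const,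
      intervalIntegral.integral_const]
    simp only [smul_eq_mul]
    ring
  rw [hsub] at hmono
  rw [← hFtot]
  linarith

/-- PROOF. Let `σ = sgD`, `τ = s4D` (`sg ≤ σ ≤ sg + K²`, `τ ≤ K² σ`). `F1_inv`; split `[-π,π]` at `|t| = 1/K`:
`KA_point` inside, `KA_minor` outside. Inside, `∫_{|t| ≤ 1/K} e (1 - Y) = ∫_ℝ e(1-Y) - ∫_{|t| > 1/K} e(1-Y) ≥
∫_ℝ e (1 - Y) - ∫_{|t| > 1/K} e`, `e = exp (-(σ/8)t²)`, `Y = τt⁴/192 + K⁴σt⁶/1920 ≥ 0`. The first
is `2π G (1 - τ/(4σ²) - K⁴/(2σ²))`, `G = sqrt (2/(πσ))` (moments `1, 4/σ, 48/σ², 960/σ³` as in `GA_mom`, from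
`G1_cos, G1_four, G1_six`), the second is at most `exp (-σ/(16K²)) sqrt (16π/σ)` (`G1_tail`), the outside part at most
`2π cos (1/(2K))^(κ sg)`. All errors are `≤ (η/4)/σ · G` for large `σ`. -/
theorem KB_lower (K : ℕ) (κ η : ℝ) (hK : 1 ≤ K) (hκ : 0 < κ) (hη : 0 < η) :
    ∃ σ0 : ℝ, ∀ (ι : Type) (L : Finset ι) (w : ι → ℤ) (s : ℤ), (∀ j ∈ L, |w j| ≤ (K : ℤ)) →
      |2 * s - ∑ j ∈ L, w j| ≤ (K : ℤ) → σ0 ≤ sg w L → κ * sg w L ≤ (nv w L 1 : ℝ) →
      Real.sqrt (2 / (Real.pi * sgD w L s)) *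
        (1 - s4D w L s / (4 * sgD w L s ^ 2) - η / sgD w L s) ≤ pz w L s := by
  have hKr : (1 : ℝ) ≤ K := by exact_mod_cast hK
  have hK0 : (0 : ℝ) < K := by linarith
  have hpi := Real.pi_pos
  obtain ⟨s1, hs1, h1⟩ := kb_exp (1 / (16 * (K : ℝ) ^ 2)) (by positivity) (η / 8) (by positivity)
  obtain ⟨s2, hs2, h2⟩ := kb_exp (κ / (8 * (K : ℝ) ^ 2)) (by positivity)
    (η / 8 * Real.exp (-(κ / 8))) (by positivity)
  refine ⟨s1 + s2 + 2 * (K : ℝ) ^ 4 / η, ?_⟩
  intro ι L w s hw hD hsg hnv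
  have h00 : 0 ≤ 2 * (K : ℝ) ^ 4 / η := by positivity
  set σ := sgD w L s with hσ
  set τ := s4D w L s with hτ
  have hDr : (2 * (s : ℝ) - ∑ j ∈ L, (w j : ℝ)) ^ 2 ≤ (K : ℝ) ^ 2 := by
    have h3 : |(2 * (s : ℝ) - ∑ j ∈ L, (w j : ℝ))| ≤ K := by
      have := (Int.cast_le (R := ℝ)).2 hD
      push_cast at this
      exact this
    rw [← sq_abs]
    exact pow_le_pow_left₀ (abs_nonneg _) h3 2
  have hσsg : sg w L ≤ σ := by
    rw [hσ]
    unfold sgD
    linarith [sq_nonneg (2 * (s : ℝ) - ∑ j ∈ L, (w j : ℝ))]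
  have hσK : σ ≤ sg w L + (K : ℝ) ^ 2 := by
    rw [hσ]
    unfold sgD
    linarith
  have hσ1 : s1 ≤ σ := by linarith
  have hσ2 : s2 ≤ σ := by linarith
  have hσ3 : 2 * (K : ℝ) ^ 4 / η ≤ σ := by linarith
  have hσone : 1 ≤ σ := hs1.trans hσ1
  have hσ0 : 0 < σ := by linarith
  have hτ0 : 0 ≤ τ := by
    rw [hτ]
    unfold s4D
    have : 0 ≤ ∑ j ∈ L, (w j : ℝ) ^ 4 := Finset.sum_nonneg fun j _ => by positivity
    positivity
  have e1 := h1 σ hσ1
  have e2 := h2 σ hσ2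
  -- the functions
  set e : ℝ → ℝ := fun t => Real.exp (-(σ / 8) * t ^ 2) with he
  set u : ℝ → ℝ := fun t => e t + (-(τ / 192)) * (t ^ 4 * e t) +
    (-((K : ℝ) ^ 4 * σ / 1920)) * (t ^ 6 * e t) with hu
  have b8 : 0 < σ / 8 := by positivity
  obtain ⟨g0, g0'⟩ := G1_cos (σ / 8) 0 b8
  obtain ⟨g4, g4'⟩ := G1_four (σ / 8) b8
  obtain ⟨g6, g6'⟩ := G1_six (σ / 8) b8
  have g0i : Integrable e := by
    refine g0.congr (Filter.Eventually.of_forall fun t => ?_)
    simp [he]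
  have g0v : ∫ t, e t = Real.sqrt (Real.pi / (σ / 8)) := by
    have : ∫ t, e t = ∫ t : ℝ, Real.exp (-(σ / 8) * t ^ 2) * Real.cos (0 * t) := by
      apply integral_congr_ae
      exact Filter.Eventually.of_forall fun t => by simp [he]
    rw [this, g0']
    simp
  obtain ⟨hui, huv⟩ := kb_int e (fun t => t ^ 4 * e t) (fun t => t ^ 6 * e t) (-(τ / 192))
    (-((K : ℝ) ^ 4 * σ / 1920)) g0i g4 g6
  have hY : ∀ t, u t = e t * (1 - τ / 192 * t ^ 4 - (K : ℝ) ^ 4 * σ / 1920 * t ^ 6) := by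
    intro t
    simp only [hu]
    ring
  have hepos : ∀ t, 0 ≤ e t := fun t => (Real.exp_pos _).le
  have hcomp := kb_compare (fun t => (∏ j ∈ L, Real.cos (t * w j / 2)) * Real.cos (t * (s - mn w L)))
    u e (1 / (K : ℝ)) (Real.cos (1 / (2 * K)) ^ nv w L 1) (F1_cont w L s) hui g0i (by positivity)
    (by
      have : 1 / (K : ℝ) ≤ 1 := by
        rw [div_le_one hK0]
        exact hKr
      linarith [Real.pi_gt_three])
    (by
      apply pow_nonneg
      apply Real.cos_nonneg_of_mem_Icc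
      have h3 : 0 ≤ 1 / (2 * (K : ℝ)) := by positivity
      have h4 : 1 / (2 * (K : ℝ)) ≤ 1 := by
        rw [div_le_one (by positivity)]
        linarith
      constructor <;> linarith [Real.pi_gt_three])
    (by
      intro t
      rw [hY]
      have h3 : 0 ≤ τ / 192 * t ^ 4 + (K : ℝ) ^ 4 * σ / 1920 * t ^ 6 := by
        have h6 : 0 ≤ t ^ 6 := by positivity
        positivity
      calc e t * (1 - τ / 192 * t ^ 4 - (K : ℝ) ^ 4 * σ / 1920 * t ^ 6) ≤ e t * 1 :=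
            mul_le_mul_of_nonneg_left (by linarith) (hepos t)
        _ = e t := mul_one _)
    (by
      intro t ht
      rw [hY]
      exact KA_point K hK L w s hw hD t ht)
    hepos
    (by
      intro t ht ht'
      exact KA_minor K hK L w s t ht ht')
  have htail := G1_tail (σ / 8) (1 / (K : ℝ)) b8 (by positivity)
  -- the main constant
  set G := Real.sqrt (2 / (Real.pi * σ)) with hG
  have hG0 : 0 < G := Real.sqrt_pos.2 (by positivity)
  have hGe : Real.sqrt (Real.pi / (σ / 8)) = 2 * Real.pi * G := by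
    rw [hG, show Real.pi / (σ / 8) = (2 * Real.pi) ^ 2 * (2 / (Real.pi * σ)) by field_simp; ring,
      Real.sqrt_mul (by positivity), Real.sqrt_sq (by positivity)]
  have hGt : Real.sqrt (2 * Real.pi / (σ / 8)) ≤ 2 * (2 * Real.pi * G) := by
    rw [← hGe]
    rw [show 2 * Real.pi / (σ / 8) = 2 * (Real.pi / (σ / 8)) by ring,
      Real.sqrt_mul (by norm_num)]
    apply mul_le_mul_of_nonneg_right _ (Real.sqrt_nonneg _)
    rw [Real.sqrt_le_left (by norm_num)]
    norm_num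
  have hGinv : 1 ≤ 2 * σ * G := by
    have h3 : 1 / (2 * σ) ≤ G := by
      rw [hG]
      apply Real.le_sqrt_of_sq_le
      rw [div_pow, div_le_div_iff₀ (by positivity) (by positivity)]
      nlinarith [Real.pi_le_four]
    rw [div_le_iff₀ (by positivity)] at h3
    linarith
  have hmain : ∫ t, u t = 2 * Real.pi * (G * (1 - τ / (4 * σ ^ 2) - (K : ℝ) ^ 4 / (2 * σ ^ 2))) := by
    have huu : ∫ t, u t = ∫ t, (e t + (-(τ / 192)) * (fun t => t ^ 4 * e t) t +
      (-((K : ℝ) ^ 4 * σ / 1920)) * (fun t => t ^ 6 * e t) t) := rfl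
    rw [huu, huv]
    simp only [he] at g0v g4' g6' ⊢
    rw [g0v, g4', g6', hGe]
    field_simp
    ring
  -- the minor part
  have hminor : Real.cos (1 / (2 * K)) ^ nv w L 1 ≤ η / 4 / σ * G := by
    have hu1 : (0 : ℝ) ≤ 1 / (2 * (K : ℝ)) := by positivity
    have hu2 : 1 / (2 * (K : ℝ)) ≤ 1 := by
      rw [div_le_one (by positivity)]
      linarith
    have h3 := T1_cos_le (1 / (2 * (K : ℝ))) (by
      rw [abs_of_nonneg hu1]
      linarith [Real.pi_gt_three])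
    have h4 : Real.cos (1 / (2 * K)) ^ nv w L 1 ≤ Real.exp (-(κ * (σ - (K : ℝ) ^ 2) / (8 * (K : ℝ) ^ 2))) := by
      have hc0 : 0 ≤ Real.cos (1 / (2 * (K : ℝ))) := by
        apply Real.cos_nonneg_of_mem_Icc
        constructor <;> linarith [Real.pi_gt_three]
      calc Real.cos (1 / (2 * K)) ^ nv w L 1 ≤ Real.exp (-(1 / (2 * (K : ℝ))) ^ 2 / 2) ^ nv w L 1 :=
            pow_le_pow_left₀ hc0 ((le_abs_self _).trans h3) _
        _ = Real.exp ((nv w L 1 : ℝ) * (-(1 / (2 * (K : ℝ))) ^ 2 / 2)) := by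
            rw [← Real.exp_nat_mul]
        _ ≤ _ := by
            apply Real.exp_le_exp.2
            have h5 : κ * (σ - (K : ℝ) ^ 2) ≤ nv w L 1 := by
              refine le_trans ?_ hnv
              exact mul_le_mul_of_nonneg_left (by linarith) hκ.le
            have h6 : (nv w L 1 : ℝ) * (-(1 / (2 * (K : ℝ))) ^ 2 / 2) =
                -((nv w L 1 : ℝ) / (8 * (K : ℝ) ^ 2)) := by
              field_simp
              ring
            rw [h6]
            apply neg_le_neg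
            exact div_le_div_of_nonneg_right h5 (by positivity)
    have h5 : Real.exp (-(κ * (σ - (K : ℝ) ^ 2) / (8 * (K : ℝ) ^ 2))) =
        Real.exp (κ / 8) * Real.exp (-(κ / (8 * (K : ℝ) ^ 2) * σ)) := by
      rw [← Real.exp_add]
      congr 1
      field_simp
      ring
    rw [h5] at h4
    have h6 : Real.exp (κ / 8) * Real.exp (-(κ / (8 * (K : ℝ) ^ 2) * σ)) * σ ^ 2 ≤ η / 8 := by
      have h7 := mul_le_mul_of_nonneg_left e2 (Real.exp_pos (κ / 8)).le
      have h8 : Real.exp (κ / 8) * (η / 8 * Real.exp (-(κ / 8))) = η / 8 := by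
        rw [show Real.exp (κ / 8) * (η / 8 * Real.exp (-(κ / 8))) =
          η / 8 * (Real.exp (κ / 8) * Real.exp (-(κ / 8))) by ring, ← Real.exp_add]
        simp
      rw [h8] at h7
      linarith
    have h7 : Real.cos (1 / (2 * K)) ^ nv w L 1 * σ ^ 2 ≤ η / 8 :=
      (mul_le_mul_of_nonneg_right h4 (by positivity)).trans h6
    have h8 : Real.cos (1 / (2 * K)) ^ nv w L 1 ≤ η / 8 / σ ^ 2 := by
      rw [le_div_iff₀ (by positivity)]
      exact h7
    have h9 : η / 8 / σ ^ 2 * 1 ≤ η / 8 / σ ^ 2 * (2 * σ * G) :=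
      mul_le_mul_of_nonneg_left hGinv (by positivity)
    have h10 : η / 8 / σ ^ 2 * (2 * σ * G) = η / 4 / σ * G := by
      field_simp
      ring
    linarith
  have htail2 : ∫ t in {t : ℝ | 1 / (K : ℝ) ≤ |t|}, e t ≤ 2 * Real.pi * (G * (η / 4 / σ)) := by
    refine htail.trans ?_
    have h3 : Real.exp (-(σ / 8) * (1 / (K : ℝ)) ^ 2 / 2) = Real.exp (-(1 / (16 * (K : ℝ) ^ 2) * σ)) := by
      congr 1
      field_simp
      ring
    rw [h3]
    have h4 : Real.exp (-(1 / (16 * (K : ℝ) ^ 2) * σ)) ≤ η / 8 / σ := by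
      rw [le_div_iff₀ hσ0]
      refine le_trans ?_ e1
      apply mul_le_mul_of_nonneg_left _ (Real.exp_pos _).le
      nlinarith
    calc _ ≤ (η / 8 / σ) * (2 * (2 * Real.pi * G)) :=
          mul_le_mul h4 hGt (Real.sqrt_nonneg _) (by positivity)
      _ = _ := by ring
  rw [hmain] at hcomp
  rw [F1_inv]
  have hK4 : (K : ℝ) ^ 4 / (2 * σ ^ 2) ≤ η / 4 / σ := by
    rw [div_div, div_le_div_iff₀ (by positivity) (by positivity)]
    rw [div_le_iff₀ hη] at hσ3
    nlinarith [mul_le_mul_of_nonneg_right hσ3 hσ0.le]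
  have hfin : G * (1 - τ / (4 * σ ^ 2) - (K : ℝ) ^ 4 / (2 * σ ^ 2)) - G * (η / 4 / σ) -
      η / 4 / σ * G ≤ 1 / (2 * Real.pi) * ∫ t in (-Real.pi)..Real.pi,
        (∏ j ∈ L, Real.cos (t * w j / 2)) * Real.cos (t * (s - mn w L)) := by
    have h3 : 2 * Real.pi * (G * (1 - τ / (4 * σ ^ 2) - (K : ℝ) ^ 4 / (2 * σ ^ 2)) -
        G * (η / 4 / σ) - η / 4 / σ * G) ≤ ∫ t in (-Real.pi)..Real.pi,
        (∏ j ∈ L, Real.cos (t * w j / 2)) * Real.cos (t * (s - mn w L)) := by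
      have h4 := mul_le_mul_of_nonneg_left hminor (by positivity : 0 ≤ 2 * Real.pi)
      linarith
    have h5 := mul_le_mul_of_nonneg_left h3 (by positivity : 0 ≤ 1 / (2 * Real.pi))
    refine le_trans (le_of_eq ?_) h5
    field_simp
  refine le_trans ?_ hfin
  have h6 : G * ((K : ℝ) ^ 4 / (2 * σ ^ 2)) ≤ G * (η / 4 / σ) :=
    mul_le_mul_of_nonneg_left hK4 hG0.le
  have h7 : G * (η / σ) = 4 * (G * (η / 4 / σ)) := by ring
  have h8 : 0 ≤ G * (η / 4 / σ) := by positivity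
  nlinarith

end H31Y
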