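import Pool.Agent.Lib.H31Y.KB

/-!
Chunk KC: central binomial coefficients.
-/

namespace H31Y

open Finset H31Z

theorem kc_pz (h : ℕ) : pz (fun _ : Fin (2 * h) => (1 : ℤ)) Finset.univ (h : ℤ) =
    ((2 * h).choose h : ℝ) / 4 ^ h := by
  unfold pz cz
  have h1 : (Finset.univ : Finset (Fin (2 * h))).powerset.filter
      (fun B => ∑ _i ∈ B, (1 : ℤ) = (h : ℤ)) = Finset.powersetCard h Finset.univ := by
    ext B
    rw [Finset.mem_filter, Finset.mem_powersetCard, Finset.mem_powerset, Finset.sum_const,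
      nsmul_eq_mul, mul_one]
    simp
  rw [h1, Finset.card_powersetCard, Finset.card_univ, Fintype.card_fin, pow_mul]
  norm_num

/-- PROOF. `KB_lower 1 1 η'` (`η' = η/8`) for `L = Finset.univ : Finset (Fin (2h))`, `w = 1`, `s = h`:
`pz = C(2h,h)/4^h`, `sgD = s4D = 2h`: `pz ≥ sqrt (2/(π 2h)) (1 - 1/(8h) - η'/(2h))`. Square:
`(1 - 1/(8h) - η'/(2h))² (2h + 1/2 + η) ≥ (1 - 1/(4h) - η'/h)(2h + 1/2 + η) ≥ 2h + η - 2η' - O(1/h) ≥ 2h`. -/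
theorem KC_cb (η : ℝ) (hη : 0 < η) : ∃ h0 : ℕ, ∀ h : ℕ, h0 ≤ h →
    Real.sqrt (2 / (Real.pi * (2 * h + 1 / 2 + η))) ≤ ((2 * h).choose h : ℝ) / 4 ^ h := by
  obtain ⟨σ0, hσ0⟩ := KB_lower 1 1 (η / 8) le_rfl one_pos (by positivity)
  obtain ⟨X, hX⟩ : ∃ X : ℝ, X = (1 / 2 + η) * (1 / 4 + η / 8) / (3 * η / 4) := ⟨_, rfl⟩
  refine ⟨⌈σ0⌉₊ + ⌈X⌉₊ + 1 + ⌈1 / 8 + η / 16⌉₊, fun h hh => ?_⟩
  have a1 : σ0 ≤ (⌈σ0⌉₊ : ℝ) := Nat.le_ceil _
  have a2 : X ≤ (⌈X⌉₊ : ℝ) := Nat.le_ceil _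
  have a3 : 1 / 8 + η / 16 ≤ (⌈1 / 8 + η / 16⌉₊ : ℝ) := Nat.le_ceil _
  have a4 : (⌈σ0⌉₊ : ℝ) + (⌈X⌉₊ : ℝ) + 1 + (⌈1 / 8 + η / 16⌉₊ : ℝ) ≤ h := by exact_mod_cast hh
  have b1 : (0 : ℝ) ≤ (⌈σ0⌉₊ : ℝ) := Nat.cast_nonneg _
  have b2 : (0 : ℝ) ≤ (⌈X⌉₊ : ℝ) := Nat.cast_nonneg _
  have b3 : (0 : ℝ) ≤ (⌈1 / 8 + η / 16⌉₊ : ℝ) := Nat.cast_nonneg _
  have c1 : (1 : ℝ) ≤ h := by linarith
  have c2 : σ0 ≤ 2 * h := by linarith
  have c3 : X ≤ h := by linarith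
  have c4 : 1 / 8 + η / 16 ≤ (h : ℝ) := by linarith
  have hh0 : (0 : ℝ) < h := by linarith
  have hsg : sg (fun _ : Fin (2 * h) => (1 : ℤ)) Finset.univ = 2 * h := by
    unfold sg
    simp
  have hsgD : sgD (fun _ : Fin (2 * h) => (1 : ℤ)) Finset.univ (h : ℤ) = 2 * h := by
    unfold sgD
    rw [hsg]
    simp
  have hs4 : s4D (fun _ : Fin (2 * h) => (1 : ℤ)) Finset.univ (h : ℤ) = 2 * h := by
    unfold s4D
    simp
  have hnv : (nv (fun _ : Fin (2 * h) => (1 : ℤ)) Finset.univ 1 : ℝ) = 2 * h := by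
    unfold nv
    simp
  have h1 := hσ0 (Fin (2 * h)) Finset.univ (fun _ => 1) (h : ℤ) (fun j _ => by simp)
    (by simp) (by rw [hsg]; exact c2) (by rw [hsg, hnv, one_mul])
  rw [hsgD, hs4, kc_pz] at h1
  refine le_trans ?_ h1
  have hpi := Real.pi_pos
  obtain ⟨q, hq⟩ : ∃ q : ℝ, q = 1 / (8 * h) + η / 8 / (2 * h) := ⟨_, rfl⟩
  have e1 : 1 - 2 * (h : ℝ) / (4 * (2 * h) ^ 2) - η / 8 / (2 * h) = 1 - q := by
    rw [hq]
    field_simp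
    ring
  rw [e1]
  have hqh : q * h = 1 / 8 + η / 16 := by
    rw [hq]
    field_simp
    ring
  have hq1 : q ≤ 1 := by
    by_contra h0
    push Not at h0
    nlinarith
  rw [Real.sqrt_le_left (mul_nonneg (Real.sqrt_nonneg _) (by linarith)), mul_pow,
    Real.sq_sqrt (by positivity), div_mul_eq_mul_div, div_le_div_iff₀ (by positivity) (by positivity)]
  have key : 2 * (h : ℝ) ≤ (1 - q) ^ 2 * (2 * h + 1 / 2 + η) := by
    have k1 : (1 - 2 * q) * (2 * h + 1 / 2 + η) ≤ (1 - q) ^ 2 * (2 * h + 1 / 2 + η) := by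
      refine mul_le_mul_of_nonneg_right ?_ (by positivity)
      nlinarith [sq_nonneg q]
    refine le_trans ?_ k1
    have k2 : (1 - 2 * q) * (2 * (h : ℝ) + 1 / 2 + η) =
        2 * h + (1 / 2 + η) - 4 * (q * h) - 2 * q * (1 / 2 + η) := by ring
    rw [k2, hqh]
    have k3 : 2 * q * (1 / 2 + η) ≤ 3 * η / 4 := by
      have k4 : X * (3 * η / 4) = (1 / 2 + η) * (1 / 4 + η / 8) := by
        rw [hX]
        field_simp
      have k5 : X * (3 * η / 4) ≤ h * (3 * η / 4) := mul_le_mul_of_nonneg_right c3 (by positivity)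
      have k6 : 2 * q * (1 / 2 + η) * h ≤ 3 * η / 4 * h := by
        have : 2 * q * (1 / 2 + η) * h = 2 * (q * h) * (1 / 2 + η) := by ring
        rw [this, hqh]
        linarith
      exact le_of_mul_le_mul_right k6 hh0
    linarith
  have k := mul_le_mul_of_nonneg_left key (by positivity : (0 : ℝ) ≤ 2 * Real.pi)
  linarith

end H31Y
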