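import Pool.Agent.Lib.H31Y.Defs
import Pool.Agent.Lib.H31Z.H1
import Pool.Agent.Lib.H31Z.F2

/-!
Chunk PAa: splitting with good subsets
-/

namespace H31Y

open Finset H31Z

/-- PROOF. `F2_union`: `pn x (L ∪ E) 0` is the average over `B ⊆ E` of `pn x L (-∑_B x)`, which is `0` if
`∑_B x` is not an integer (`F2_zero`), at most `B'` if it is an integer `k` with `|-k - M| > R`
(`F2_cast`), at most `A` if `B` is good (`good x (-M) R B`). -/
theorem PA_split {ι : Type*} [DecidableEq ι] (x : ι → ℝ) (w : ι → ℤ) (L E : Finset ι)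
    (hd : Disjoint L E) (hw : ∀ j ∈ L, x j = (w j : ℝ)) (A B' R M : ℝ)
    (hA : ∀ s : ℤ, pz w L s ≤ A) (hB : ∀ s : ℤ, R < |(s : ℝ) - M| → pz w L s ≤ B')
    (hA0 : 0 ≤ A) (hB0 : 0 ≤ B') : pn x (L ∪ E) 0 ≤ pg x E (-M) R * A + B' := by
  classical
  have hpow : (0 : ℝ) < 2 ^ E.card := by positivity
  have hterm : ∀ B ∈ E.powerset, pn x L (0 - ∑ i ∈ B, x i) ≤
      (if good x (-M) R B then A else 0) + B' := by
    intro B _
    by_cases hk : ∃ k : ℤ, ∑ i ∈ B, x i = k
    · obtain ⟨k, hk⟩ := hk
      have e1 : (0 : ℝ) - ∑ i ∈ B, x i = ((-k : ℤ) : ℝ) := by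
        rw [hk]
        push_cast
        ring
      rw [e1, F2_cast x w L hw]
      by_cases hg : good x (-M) R B
      · rw [if_pos hg]
        linarith [hA (-k)]
      · rw [if_neg hg, zero_add]
        apply hB
        by_contra hc
        push Not at hc
        apply hg
        refine ⟨?_, k, hk⟩
        rw [hk]
        rw [abs_sub_comm]
        push_cast at hc
        have e2 : -M - (k : ℝ) = -(k : ℝ) - M := by ring
        rw [e2]
        exact hc
    · have h0 : pn x L (0 - ∑ i ∈ B, x i) = 0 := by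
        apply F2_zero x w L hw
        intro k hk'
        apply hk
        refine ⟨-k, ?_⟩
        push_cast
        linarith
      rw [h0]
      split_ifs <;> linarith
  rw [F2_union x L E hd 0, div_le_iff₀ hpow]
  refine (Finset.sum_le_sum hterm).trans (le_of_eq ?_)
  rw [Finset.sum_add_distrib, ← Finset.sum_filter, Finset.sum_const, Finset.sum_const,
    Finset.card_powerset, nsmul_eq_mul, nsmul_eq_mul]
  unfold pg
  push_cast
  field_simp

end H31Y
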