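import Pool.Agent.Lib.H31Y.Defs
import Pool.Agent.Lib.H31Z.H1
import Pool.Agent.Lib.H31Z.F2
import Pool.Agent.Lib.H31Y.PAa

/-!
Chunk PAb: counting in fibres
-/

namespace H31Y

open Finset H31Z

/-- counting subsets in fibres. PROOF. The map `B ↦ (B \ T, B ∩ T)` is a bijection from the subsets
of `E` to pairs; sum over `B \ T ⊆ E \ T` (`2^(|E| - |T|)` of them). -/
theorem PA_fib {ι : Type*} [DecidableEq ι] (Q : Finset ι → Prop) [DecidablePred Q]
    (E T : Finset ι) (hT : T ⊆ E) (k : ℕ)
    (h : ∀ B' ⊆ E \ T, (T.powerset.filter (fun C => Q (B' ∪ C))).card ≤ k) :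
    (E.powerset.filter Q).card * 2 ^ T.card ≤ k * 2 ^ E.card := by
  have h1 : (E.powerset.filter Q).card =
      ∑ b ∈ (E \ T).powerset, ((E.powerset.filter Q).filter (fun B => B \ T = b)).card := by
    apply Finset.card_eq_sum_card_fiberwise
    intro B hB
    rw [Finset.mem_coe, Finset.mem_filter, Finset.mem_powerset] at hB
    rw [Finset.mem_coe, Finset.mem_powerset]
    exact Finset.sdiff_subset_sdiff hB.1 (Finset.Subset.refl T)
  have h2 : ∀ b ∈ (E \ T).powerset,
      ((E.powerset.filter Q).filter (fun B => B \ T = b)).card ≤ k := by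
    intro b hb
    rw [Finset.mem_powerset] at hb
    refine le_trans ?_ (h b hb)
    apply Finset.card_le_card_of_injOn (fun B => B ∩ T)
    · intro B hB
      rw [Finset.mem_coe, Finset.mem_filter, Finset.mem_filter, Finset.mem_powerset] at hB
      rw [Finset.mem_coe, Finset.mem_filter, Finset.mem_powerset]
      refine ⟨Finset.inter_subset_right, ?_⟩
      rw [← hB.2, Finset.sdiff_union_inter]
      exact hB.1.2
    · intro B hB B2 hB2 he
      rw [Finset.mem_coe, Finset.mem_filter] at hB hB2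
      have he' : B ∩ T = B2 ∩ T := he
      rw [← Finset.sdiff_union_inter B T, ← Finset.sdiff_union_inter B2 T, hB.2, hB2.2, he']
  have h3 : (E.powerset.filter Q).card ≤ 2 ^ (E.card - T.card) * k := by
    rw [h1]
    refine (Finset.sum_le_card_nsmul _ _ k h2).trans (le_of_eq ?_)
    rw [Finset.card_powerset, Finset.card_sdiff_of_subset hT, smul_eq_mul]
  have h4 : 2 ^ (E.card - T.card) * 2 ^ T.card = 2 ^ E.card := by
    rw [← pow_add, Nat.sub_add_cancel (Finset.card_le_card hT)]
  calc (E.powerset.filter Q).card * 2 ^ T.card ≤ (2 ^ (E.card - T.card) * k) * 2 ^ T.card :=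
        Nat.mul_le_mul_right _ h3
    _ = k * (2 ^ (E.card - T.card) * 2 ^ T.card) := by ring
    _ = k * 2 ^ E.card := by rw [h4]

/-- PROOF. `PA_fib` for `Q = good x s R` (classical decidability) and division by `2^(|E|+|T|)`. -/
theorem PA_pg {ι : Type*} [DecidableEq ι] (x : ι → ℝ) (s R : ℝ) (E T : Finset ι) (hT : T ⊆ E) (k : ℕ)
    (h : ∀ B' ⊆ E \ T, ∀ F ⊆ T.powerset, (∀ C ∈ F, good x s R (B' ∪ C)) → F.card ≤ k) :
    pg x E s R ≤ (k : ℝ) / 2 ^ T.card := by
  classical
  have h1 := PA_fib (fun B => good x s R B) E T hT k (by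
    intro B' hB'
    exact h B' hB' _ (Finset.filter_subset _ _) (fun C hC => (Finset.mem_filter.1 hC).2))
  have h2 : ((E.powerset.filter (fun B => good x s R B)).card : ℝ) * 2 ^ T.card ≤
      (k : ℝ) * 2 ^ E.card := by exact_mod_cast h1
  unfold pg
  rw [div_le_div_iff₀ (by positivity) (by positivity)]
  exact h2

end H31Y
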