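import Pool.Agent.Lib.H31Y.PA
import Pool.Agent.Lib.H31Z.H2

/-!
Chunk PBa: Sperner for three heavy entries
-/

namespace H31Y

open Finset H31Z

/-- Two good subsets which differ only on heavy entries are incomparable after flipping: if all
`|x e| > 2R` on `T`, `B'` is disjoint from `T`, and `C1 ≠ C2 ⊆ T` are such that `x ≥ 0` on `C2 \ C1` and
`x ≤ 0` on `C1 \ C2`, then `B' ∪ C1`, `B' ∪ C2` are not both good. PROOF. The difference of the sums is
`∑_{C2 \ C1} |x| + ∑_{C1 \ C2} |x| > 2R`. -/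
theorem PB_pair {ι : Type*} [DecidableEq ι] (x : ι → ℝ) (s R : ℝ) (B' T C1 C2 : Finset ι)
    (hR : 0 ≤ R) (hd : Disjoint B' T) (h1 : C1 ⊆ T) (h2 : C2 ⊆ T) (hne : C1 ≠ C2)
    (hx : ∀ e ∈ T, 2 * R < |x e|) (hp : ∀ e ∈ C2 \ C1, 0 ≤ x e) (hn : ∀ e ∈ C1 \ C2, x e ≤ 0)
    (hg1 : good x s R (B' ∪ C1)) (hg2 : good x s R (B' ∪ C2)) : False := by
  have hd1 : Disjoint B' C1 := hd.mono_right h1
  have hd2 : Disjoint B' C2 := hd.mono_right h2
  have g1 := hg1.1
  have g2 := hg2.1
  rw [Finset.sum_union hd1] at g1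
  rw [Finset.sum_union hd2] at g2
  have e1 : ∑ i ∈ C2 \ C1, x i - ∑ i ∈ C1 \ C2, x i = ∑ i ∈ C2, x i - ∑ i ∈ C1, x i :=
    Finset.sum_sdiff_sub_sum_sdiff
  have p1 : 0 ≤ ∑ i ∈ C2 \ C1, x i := Finset.sum_nonneg hp
  have p2 : ∑ i ∈ C1 \ C2, x i ≤ 0 := Finset.sum_nonpos hn
  have hex : ∃ e, e ∈ C2 \ C1 ∨ e ∈ C1 \ C2 := by
    by_contra hc
    push Not at hc
    apply hne
    ext u
    have h5 := hc u
    rw [Finset.mem_sdiff, Finset.mem_sdiff] at h5
    tauto
  have hbig : 2 * R < ∑ i ∈ C2 \ C1, x i - ∑ i ∈ C1 \ C2, x i := by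
    obtain ⟨e, he | he⟩ := hex
    · have h3 := hx e (h2 (Finset.mem_sdiff.1 he).1)
      rw [abs_of_nonneg (hp e he)] at h3
      have h4 : x e ≤ ∑ i ∈ C2 \ C1, x i := Finset.single_le_sum (f := x) hp he
      linarith
    · have h3 := hx e (h1 (Finset.mem_sdiff.1 he).1)
      rw [abs_of_nonpos (hn e he)] at h3
      have h4 : -x e ≤ ∑ i ∈ C1 \ C2, -x i :=
        Finset.single_le_sum (f := fun i => -x i) (fun i hi => neg_nonneg.2 (hn i hi)) he
      rw [Finset.sum_neg_distrib] at h4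
      linarith
  rw [abs_le] at g1 g2
  linarith

/-- PROOF. `PA_pg` with `k = 3` and `T = T3`: for `B' ⊆ E \ T3` let `F` be the family of `C ⊆ T3` with
`B' ∪ C` good. `C ↦ C ∆ N`, `N = {e ∈ T3 : x e < 0}` maps `F` to an antichain (`PB_pair`), so `|F| ≤ C(3,1) = 3`
(`IsAntichain.sperner` on the subtype `T3`, or transport to `Fin 3` and `decide`). -/
theorem PB_three {ι : Type*} [DecidableEq ι] (x : ι → ℝ) (s R : ℝ) (E T3 : Finset ι) (hT : T3 ⊆ E)
    (h3 : T3.card = 3) (hR : 0 ≤ R) (hx : ∀ e ∈ T3, 2 * R < |x e|) : pg x E s R ≤ 3 / 8 := by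
  classical
  have h4 := PA_pg x s R E T3 hT 3 (by
    intro B' hB' F hF hgood
    have hd : Disjoint B' T3 := by
      rw [Finset.disjoint_left]
      intro u hu
      exact (Finset.mem_sdiff.1 (hB' hu)).2
    set Ng := T3.filter (fun e => x e < 0) with hNg
    set φ : Finset ι → Finset {e // e ∈ T3} :=
      fun C => Finset.univ.filter (fun e => (e.1 ∈ C ∧ ¬ x e.1 < 0) ∨ (e.1 ∉ C ∧ x e.1 < 0)) with hφ
    have hsubset : ∀ C1 ∈ F, ∀ C2 ∈ F, φ C1 ⊆ φ C2 → C1 = C2 := by
      intro C1 hC1 C2 hC2 hs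
      by_contra hne
      have t1 := Finset.mem_powerset.1 (hF hC1)
      have t2 := Finset.mem_powerset.1 (hF hC2)
      refine PB_pair x s R B' T3 C1 C2 hR hd t1 t2 hne hx ?_ ?_ (hgood C1 hC1) (hgood C2 hC2)
      · intro e he
        rw [Finset.mem_sdiff] at he
        by_contra hc
        push Not at hc
        have h5 : (⟨e, t2 he.1⟩ : {e // e ∈ T3}) ∈ φ C1 := by
          rw [hφ]
          simp only [Finset.mem_filter, Finset.mem_univ, true_and]
          exact Or.inr ⟨he.2, hc⟩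
        have h6 := hs h5
        rw [hφ] at h6
        simp only [Finset.mem_filter, Finset.mem_univ, true_and] at h6
        rcases h6 with h6 | h6
        · exact h6.2 hc
        · exact h6.1 he.1
      · intro e he
        rw [Finset.mem_sdiff] at he
        by_contra hc
        push Not at hc
        have h5 : (⟨e, t1 he.1⟩ : {e // e ∈ T3}) ∈ φ C1 := by
          rw [hφ]
          simp only [Finset.mem_filter, Finset.mem_univ, true_and]
          exact Or.inl ⟨he.1, by linarith⟩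
        have h6 := hs h5
        rw [hφ] at h6
        simp only [Finset.mem_filter, Finset.mem_univ, true_and] at h6
        rcases h6 with h6 | h6
        · exact he.2 h6.1
        · linarith [h6.2]
    have hinj : Set.InjOn φ (F : Set (Finset ι)) := by
      intro C1 hC1 C2 hC2 he
      exact hsubset C1 hC1 C2 hC2 (he.subset)
    have hanti : IsAntichain (· ⊆ ·) ((F.image φ : Finset (Finset {e // e ∈ T3})) :
        Set (Finset {e // e ∈ T3})) := by
      intro a ha b hb hab hle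
      rw [Finset.mem_coe, Finset.mem_image] at ha hb
      obtain ⟨C1, hC1, rfl⟩ := ha
      obtain ⟨C2, hC2, rfl⟩ := hb
      exact hab (congrArg φ (hsubset C1 hC1 C2 hC2 hle))
    have hsp := hanti.sperner
    rw [Finset.card_image_of_injOn hinj, Fintype.card_coe, h3] at hsp
    simpa using hsp)
  rw [h3] at h4
  norm_num at h4
  exact h4

end H31Y
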