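import Pool.Agent.Lib.H31Y.PA
import Pool.Agent.Lib.H31Z.H2
import Pool.Agent.Lib.H31Y.PBa

/-!
Chunk PBb: Esseen for the light entries
-/

namespace H31Y

open Finset H31Z

/-- PROOF. Average over `C ⊆ T` of `pw x (E \ T) (s - ∑_C x) R ≤ 6R/sqrt σ` (`H2_esseen`); a good `B` has
`|∑_B x - s| ≤ R`, `∑_B x = ∑_{B \ T} x + ∑_{B ∩ T} x`. -/
theorem PB_ess {ι : Type*} [DecidableEq ι] (x : ι → ℝ) (s R : ℝ) (E T : Finset ι) (hT : T ⊆ E)
    (hR : 0 < R) (hx : ∀ e ∈ E \ T, |x e| ≤ 2 * R) (hσ : 0 < ∑ e ∈ E \ T, x e ^ 2) :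
    pg x E s R ≤ 6 * R / Real.sqrt (∑ e ∈ E \ T, x e ^ 2) := by
  classical
  have hs : 0 < Real.sqrt (∑ e ∈ E \ T, x e ^ 2) := Real.sqrt_pos.2 hσ
  set U := 6 * R / Real.sqrt (∑ e ∈ E \ T, x e ^ 2) with hU
  have hU0 : 0 < U := by rw [hU]; positivity
  have hp : (0 : ℝ) < 2 ^ (E \ T).card := by positivity
  have h1 := PA_pg x s R E (E \ T) Finset.sdiff_subset ⌊U * 2 ^ (E \ T).card⌋₊ (by
    intro B' hB' F hF hgood
    apply Nat.le_floor
    have h2 := H2_esseen (E \ T) x R (s - ∑ i ∈ B', x i) hR hx hσ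
    unfold pw at h2
    rw [div_le_iff₀ hp] at h2
    refine le_trans ?_ h2
    have h3 : F.card ≤ ((E \ T).powerset.filter
        (fun B => |∑ i ∈ B, x i - (s - ∑ i ∈ B', x i)| ≤ R)).card := by
      apply Finset.card_le_card
      intro C hC
      rw [Finset.mem_filter]
      refine ⟨hF hC, ?_⟩
      have hC1 := Finset.mem_powerset.1 (hF hC)
      have h4 := (hgood C hC).1
      have hd : Disjoint B' C := by
        rw [Finset.disjoint_left]
        intro u hu hu'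
        exact (Finset.mem_sdiff.1 (hB' hu)).2 (hC1 hu')
      rw [Finset.sum_union hd] at h4
      have e1 : ∑ i ∈ C, x i - (s - ∑ i ∈ B', x i) = ∑ i ∈ B', x i + ∑ i ∈ C, x i - s := by ring
      rw [e1]
      exact h4
    exact_mod_cast h3)
  refine h1.trans ?_
  rw [div_le_iff₀ hp]
  exact Nat.floor_le (by positivity)

end H31Y
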