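import Pool.Agent.Lib.H31Y.Defs
import Pool.Agent.Lib.H31Z.H1
import Pool.Agent.Lib.H31Z.F2

/-!
Chunk PEa: nearly all weights are plus or minus one
-/

namespace H31Y

open Finset H31Z

open Classical in
theorem pea_mem (CR : ℝ) {ι : Type*} (I : Finset ι) (y : ι → ℤ) (L : Finset ι) (g : ℤ) (e : ι)
    (he : e ∈ hvy CR I y L g) : (e ∈ I ∧ e ∉ L) ∧
      2 * (CR * Real.sqrt (I.card : ℝ)) * |(g : ℝ)| < |(y e : ℝ)| := by
  unfold hvy at he
  rw [Finset.mem_filter, Finset.mem_sdiff] at he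
  exact he


/-- PROOF. `N = |I|`, `x = y/g`; `F2_cast`, `F2_zero`, `F2_scale`, `H1_heavy` (`|x e| > 2 CR √N` for the
heavy entry): `pz y I 0 ≤ (1/2)(sqrt (2/(π sg)) + η/√N + η/√N)`. So
`sqrt (2/(π sg)) ≥ (1-2η) sqrt (2/(πN)) - 2η/√N ≥ (1 - 4.6η) sqrt (2/(πN))` (`1/√N ≤ 1.26 sqrt (2/(πN))`),
`sg ≤ N/(1-4.6η)² ≤ (1+10η) N`. `∑_L (w²-1) ≤ (1+10η)N - (1-η)N = 11ηN`; for `|w| ≥ 2`: `w²-1 ≥ 3` and
`|w| ≤ (2/3)(w²-1)`; so `#{|w| ≥ 2} ≤ 4ηN`, `n1 ≥ |L| - 4ηN ≥ (1-5η)N`, `∑_{|w| ≥ 2} |w| ≤ 8ηN`. -/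
theorem PE_ones {ι : Type*} [DecidableEq ι] (η CR : ℝ) (hη : 0 < η) (hη' : η ≤ 1 / 2000)
    (hCR : 1 ≤ CR) (I : Finset ι) (y : ι → ℤ) (L : Finset ι) (g : ℤ) (w : ι → ℤ) (hI : 1 ≤ I.card)
    (hV : HV η CR I y L g w) (hT : (hvy CR I y L g).Nonempty)
    (hP : (1 / 2 - η) * Real.sqrt (2 / (Real.pi * (I.card : ℝ))) ≤ pz y I 0) :
    sg w L ≤ (1 + 10 * η) * (I.card : ℝ) ∧ (1 - 5 * η) * (I.card : ℝ) ≤ (n1 w L : ℝ) ∧
      ∑ j ∈ bigs w L, |(w j : ℝ)| ≤ 8 * η * (I.card : ℝ) := by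
  classical
  have hN1 : (1 : ℝ) ≤ I.card := by exact_mod_cast hI
  have hN : (0 : ℝ) < I.card := by linarith
  have hg : (g : ℝ) ≠ 0 := by exact_mod_cast hV.g0
  have hs : 0 < Real.sqrt (I.card : ℝ) := Real.sqrt_pos.2 hN
  have hw : ∀ j ∈ L, (y j : ℝ) / g = (w j : ℝ) := by
    intro j hj
    rw [(hV.eqn j hj).1]
    push_cast
    field_simp
  have h1 : pz y I 0 = pn (fun e => (y e : ℝ) / g) (L ∪ (I \ L)) 0 := by
    rw [Finset.union_sdiff_of_subset hV.sub,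
      ← F2_scale (fun e => (y e : ℝ) / g) (fun e => (y e : ℝ)) I g hg (fun j _ => by field_simp)]
    have := F2_cast (fun e => (y e : ℝ)) y I (fun j _ => rfl) 0
    rw [← this]
    simp
  have hw1 : ∀ j ∈ L, (1 : ℝ) ≤ (w j : ℝ) ^ 2 := by
    intro j hj
    have h3 : 1 ≤ |w j| := Int.one_le_abs (hV.eqn j hj).2
    have h4 : (1 : ℝ) ≤ |(w j : ℝ)| := by exact_mod_cast h3
    rw [← sq_abs]
    nlinarith
  have hLsg : (L.card : ℝ) ≤ sg w L := by
    unfold sg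
    have : (L.card : ℝ) = ∑ j ∈ L, (1 : ℝ) := by simp
    rw [this]
    exact Finset.sum_le_sum hw1
  have hsg : (1999 / 2000) * (I.card : ℝ) ≤ sg w L := by
    have h3 := hV.card
    nlinarith
  have hsg0 : 0 < sg w L := lt_of_lt_of_le (by positivity) hsg
  -- the heavy entry
  obtain ⟨e, he⟩ := hT
  have he' : (e ∈ I ∧ e ∉ L) ∧ 2 * (CR * Real.sqrt (I.card : ℝ)) * |(g : ℝ)| < |(y e : ℝ)| := by
    exact pea_mem CR I y L g e he
  have hx : 2 * (CR * Real.sqrt (I.card : ℝ)) < |(y e : ℝ) / g| := by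
    rw [abs_div, lt_div_iff₀ (abs_pos.2 hg)]
    exact he'.2
  have h2 := H1_heavy (fun e => (y e : ℝ) / g) L (I \ L) Finset.disjoint_sdiff
    (Real.sqrt (2 / (Real.pi * sg w L)) + η / Real.sqrt (I.card : ℝ)) (η / Real.sqrt (I.card : ℝ))
    (CR * Real.sqrt (I.card : ℝ)) (mn w L) (by
      intro s
      by_cases hk : ∃ k : ℤ, s = k
      · obtain ⟨k, rfl⟩ := hk
        rw [F2_cast _ w L hw]
        exact hV.all k
      · rw [F2_zero _ w L hw s (fun k hk' => hk ⟨k, hk'⟩)]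
        positivity) (by
      intro s hs'
      by_cases hk : ∃ k : ℤ, s = k
      · obtain ⟨k, rfl⟩ := hk
        rw [F2_cast _ w L hw]
        exact hV.far k hs'
      · rw [F2_zero _ w L hw s (fun k hk' => hk ⟨k, hk'⟩)]
        positivity) e (Finset.mem_sdiff.2 he'.1) hx
  rw [← h1] at h2
  have hp1 := Real.pi_gt_d4
  have hp2 := Real.pi_lt_d4
  have hp0 := Real.pi_pos
  -- the ratio
  set u := Real.sqrt (2 / (Real.pi * (I.card : ℝ))) with hu
  set v := 1 / Real.sqrt (I.card : ℝ) with hv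
  have hv0 : 0 < v := by rw [hv]; positivity
  have hu0 : 0 < u := by rw [hu]; positivity
  have hu2 : u ^ 2 = 2 / (Real.pi * (I.card : ℝ)) := by
    rw [hu]
    exact Real.sq_sqrt (by positivity)
  have hv2 : v ^ 2 = 1 / (I.card : ℝ) := by
    rw [hv, div_pow, one_pow, Real.sq_sqrt hN.le]
  have huv : v ≤ 1.26 * u := by
    apply le_of_sq_le_sq _ (by positivity)
    rw [mul_pow, hu2, hv2, ← mul_div_assoc, div_le_div_iff₀ hN (by positivity)]
    nlinarith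
  have e3 : η / Real.sqrt (I.card : ℝ) = η * v := by rw [hv]; ring
  rw [e3] at h2
  have h3 : (1 - 4.52 * η) * u ≤ Real.sqrt (2 / (Real.pi * sg w L)) := by
    have h4 : η * v ≤ η * (1.26 * u) := mul_le_mul_of_nonneg_left huv hη.le
    linarith
  have hpos : 0 < 1 - 4.52 * η := by linarith
  have h5 : (1 - 4.52 * η) ^ 2 * (2 / (Real.pi * (I.card : ℝ))) ≤ 2 / (Real.pi * sg w L) := by
    have h6 : ((1 - 4.52 * η) * u) ^ 2 ≤ Real.sqrt (2 / (Real.pi * sg w L)) ^ 2 :=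
      pow_le_pow_left₀ (by positivity) h3 2
    rwa [mul_pow, hu2, Real.sq_sqrt (by positivity)] at h6
  have h7 : (1 - 4.52 * η) ^ 2 * sg w L ≤ (I.card : ℝ) := by
    rw [← mul_div_assoc, div_le_div_iff₀ (by positivity) (by positivity)] at h5
    have h8 : ((1 - 4.52 * η) ^ 2 * sg w L) * (2 * Real.pi) ≤ (I.card : ℝ) * (2 * Real.pi) := by
      linarith
    exact le_of_mul_le_mul_right h8 (by positivity)
  have h9 : sg w L ≤ (1 + 10 * η) * (I.card : ℝ) := by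
    have h10 : 1 ≤ (1 - 4.52 * η) ^ 2 * (1 + 10 * η) := by
      have h11 : η ^ 2 ≤ η * (1 / 2000) := by nlinarith
      have h12 : 0 < η ^ 3 := by positivity
      nlinarith
    have h13 : (1 - 4.52 * η) ^ 2 * sg w L ≤ (1 - 4.52 * η) ^ 2 * ((1 + 10 * η) * (I.card : ℝ)) := by
      calc (1 - 4.52 * η) ^ 2 * sg w L ≤ 1 * (I.card : ℝ) := by linarith
        _ ≤ ((1 - 4.52 * η) ^ 2 * (1 + 10 * η)) * (I.card : ℝ) :=
            mul_le_mul_of_nonneg_right h10 hN.le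
        _ = _ := by ring
    exact le_of_mul_le_mul_left h13 (by positivity)
  refine ⟨h9, ?_⟩
  -- the big weights
  have hbs : bigs w L ⊆ L := Finset.filter_subset _ _
  have hsumL : ∑ j ∈ L, ((w j : ℝ) ^ 2 - 1) ≤ 11 * η * (I.card : ℝ) := by
    rw [Finset.sum_sub_distrib]
    simp only [Finset.sum_const, nsmul_eq_mul, mul_one]
    have h3 := hV.card
    have h4 : ∑ j ∈ L, (w j : ℝ) ^ 2 = sg w L := rfl
    rw [h4]
    linarith
  have hsumB : ∑ j ∈ bigs w L, ((w j : ℝ) ^ 2 - 1) ≤ 11 * η * (I.card : ℝ) :=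
    (Finset.sum_le_sum_of_subset_of_nonneg hbs (fun j hj _ => by linarith [hw1 j hj])).trans hsumL
  have hbig : ∀ j ∈ bigs w L, (2 : ℝ) ≤ |(w j : ℝ)| := by
    intro j hj
    have := (Finset.mem_filter.1 hj).2
    exact_mod_cast this
  have hc3 : ((bigs w L).card : ℝ) * 3 ≤ 11 * η * (I.card : ℝ) := by
    refine le_trans ?_ hsumB
    rw [← nsmul_eq_mul]
    apply Finset.card_nsmul_le_sum
    intro j hj
    have := hbig j hj
    rw [← sq_abs]
    nlinarith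
  constructor
  · have hn1 : n1 w L + (bigs w L).card = L.card := by
      unfold n1 bigs
      rw [← Finset.card_union_of_disjoint]
      · congr 1
        ext j
        rw [Finset.mem_union, Finset.mem_filter, Finset.mem_filter]
        constructor
        · rintro (h | h)
          · exact h.1
          · exact h.1
        · intro hj
          have h3 : 1 ≤ |w j| := Int.one_le_abs (hV.eqn j hj).2
          rcases eq_or_lt_of_le h3 with h4 | h4
          · exact Or.inl ⟨hj, h4.symm⟩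
          · exact Or.inr ⟨hj, h4⟩
      · rw [Finset.disjoint_left]
        intro j hj hj'
        have a1 := (Finset.mem_filter.1 hj).2
        have a2 := (Finset.mem_filter.1 hj').2
        omega
    have hn2 : (n1 w L : ℝ) + ((bigs w L).card : ℝ) = (L.card : ℝ) := by exact_mod_cast hn1
    have h3 := hV.card
    nlinarith
  · have h4 : ∑ j ∈ bigs w L, |(w j : ℝ)| ≤ ∑ j ∈ bigs w L, (2 / 3) * ((w j : ℝ) ^ 2 - 1) := by
      apply Finset.sum_le_sum
      intro j hj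
      have := hbig j hj
      rw [← sq_abs (w j : ℝ)]
      nlinarith
    rw [← Finset.mul_sum] at h4
    nlinarith

end H31Y
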