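import Pool.Agent.Lib.H31Y.Defs
import Pool.Agent.Lib.H31Z.H1
import Pool.Agent.Lib.H31Z.F2
import Pool.Agent.Lib.H31Y.PEa

/-!
Chunk PEb: the mean is large
-/

namespace H31Y

open Finset H31Z

/-- PROOF. Let `p = nv w L 1`, `q = nv w L (-1)`, `p + q = n1 w L`. For `j ≤ min p q` take `j` indices of
weight `1` and `j` of weight `-1`: a zero-sum subset of `I` (`y = g w`) of size `2j`; by `Star`
`2j + c < r` or `r < 2j`. As `r` is even, induction on `j` gives `2 min p q + c < r` (if
`2j + c < r` and `r < 2j+2` then `c < 0`...: `2j < r < 2j + 2` contradicts `Even r`; start: `j = 0`, `c < r`).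
So `|p - q| = p + q - 2 min ≥ (1-5η)N - r + c`, `N + c - r ≥ (N+c)/9`, so
`|∑_L w| ≥ |p - q| - 8ηN ≥ (N+c)/9 - 13η(N+c) ≥ (N+c)/10`. -/
theorem PE_mean {ι : Type*} [DecidableEq ι] (η : ℝ) (hη : 0 < η) (hη' : η ≤ 1 / 2000)
    (I : Finset ι) (y : ι → ℤ) (L : Finset ι) (g : ℤ) (w : ι → ℤ) (hL : L ⊆ I)
    (he : ∀ j ∈ L, y j = g * w j ∧ w j ≠ 0) (c r : ℕ) (hS : Star y I c r) (hr : Even r)
    (hr0 : 1 ≤ r) (hr9 : 9 * r ≤ 8 * (I.card + c))
    (h1 : (1 - 5 * η) * (I.card : ℝ) ≤ (n1 w L : ℝ))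
    (h2 : ∑ j ∈ bigs w L, |(w j : ℝ)| ≤ 8 * η * (I.card : ℝ)) :
    ((I.card : ℝ) + c) / 10 ≤ |∑ j ∈ L, (w j : ℝ)| := by
  set p := nv w L 1 with hp
  set q := nv w L (-1) with hq
  -- zero sums
  have hz : ∀ j : ℕ, j ≤ p → j ≤ q → 2 * j + c < r ∨ r < 2 * j := by
    intro j hjp hjq
    obtain ⟨B1, hB1, hc1⟩ := Finset.exists_subset_card_eq (show j ≤ (L.filter (fun i => w i = 1)).card from hjp)
    obtain ⟨B2, hB2, hc2⟩ := Finset.exists_subset_card_eq (show j ≤ (L.filter (fun i => w i = -1)).card from hjq)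
    have m1 : ∀ i ∈ B1, i ∈ L ∧ w i = 1 := fun i hi => Finset.mem_filter.1 (hB1 hi)
    have m2 : ∀ i ∈ B2, i ∈ L ∧ w i = -1 := fun i hi => Finset.mem_filter.1 (hB2 hi)
    have hd : Disjoint B1 B2 := by
      rw [Finset.disjoint_left]
      intro i hi hi'
      have a1 := (m1 i hi).2
      have a2 := (m2 i hi').2
      omega
    have hsub : B1 ∪ B2 ⊆ I := by
      intro i hi
      rw [Finset.mem_union] at hi
      rcases hi with hi | hi
      · exact hL (m1 i hi).1
      · exact hL (m2 i hi).1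
    have hsum : ∑ i ∈ B1 ∪ B2, y i = 0 := by
      rw [Finset.sum_union hd]
      have s1 : ∑ i ∈ B1, y i = ∑ i ∈ B1, g := by
        apply Finset.sum_congr rfl
        intro i hi
        rw [(he i (m1 i hi).1).1, (m1 i hi).2, mul_one]
      have s2 : ∑ i ∈ B2, y i = ∑ i ∈ B2, -g := by
        apply Finset.sum_congr rfl
        intro i hi
        rw [(he i (m2 i hi).1).1, (m2 i hi).2]
        ring
      rw [s1, s2, Finset.sum_const, Finset.sum_const, hc1, hc2]
      simp
    have h3 := hS (B1 ∪ B2) hsub hsum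
    rw [Finset.card_union_of_disjoint hd, hc1, hc2] at h3
    omega
  have hlt : ∀ j : ℕ, j ≤ p → j ≤ q → 2 * j + c < r := by
    intro j
    induction j with
    | zero =>
      intro _ _
      have := hz 0 (Nat.zero_le _) (Nat.zero_le _)
      omega
    | succ j ih =>
      intro h3 h4
      have h5 := ih (by omega) (by omega)
      rcases hz (j + 1) h3 h4 with h6 | h6
      · exact h6
      · exfalso
        obtain ⟨k, hk⟩ := hr
        omega
  have hmin : 2 * min p q + c < r := hlt _ (min_le_left _ _) (min_le_right _ _)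
  -- the counts
  have hn1 : n1 w L = p + q := by
    rw [hp, hq]
    unfold n1 nv
    rw [← Finset.card_union_of_disjoint]
    · congr 1
      ext j
      rw [Finset.mem_union, Finset.mem_filter, Finset.mem_filter, Finset.mem_filter]
      constructor
      · rintro ⟨h3, h4⟩
        rcases (abs_eq (by norm_num)).1 h4 with h5 | h5
        · exact Or.inl ⟨h3, h5⟩
        · exact Or.inr ⟨h3, h5⟩
      · rintro (⟨h3, h4⟩ | ⟨h3, h4⟩)
        · exact ⟨h3, by rw [h4]; norm_num⟩
        · exact ⟨h3, by rw [h4]; norm_num⟩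
    · rw [Finset.disjoint_left]
      intro i hi hi'
      have a1 := (Finset.mem_filter.1 hi).2
      have a2 := (Finset.mem_filter.1 hi').2
      omega
  have hsumL : ∑ j ∈ L, (w j : ℝ) = ((p : ℝ) - q) + ∑ j ∈ bigs w L, (w j : ℝ) := by
    have hLu : L = (L.filter (fun i => w i = 1) ∪ L.filter (fun i => w i = -1)) ∪ bigs w L := by
      ext j
      unfold bigs
      rw [Finset.mem_union, Finset.mem_union, Finset.mem_filter, Finset.mem_filter, Finset.mem_filter]
      constructor
      · intro hj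
        have h3 : 1 ≤ |w j| := Int.one_le_abs (he j hj).2
        rcases eq_or_lt_of_le h3 with h4 | h4
        · rcases (abs_eq (by norm_num)).1 h4.symm with h5 | h5
          · exact Or.inl (Or.inl ⟨hj, h5⟩)
          · exact Or.inl (Or.inr ⟨hj, h5⟩)
        · exact Or.inr ⟨hj, h4⟩
      · rintro ((h | h) | h)
        · exact h.1
        · exact h.1
        · exact h.1
    have d1 : Disjoint (L.filter (fun i => w i = 1)) (L.filter (fun i => w i = -1)) := by
      rw [Finset.disjoint_left]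
      intro i hi hi'
      have a1 := (Finset.mem_filter.1 hi).2
      have a2 := (Finset.mem_filter.1 hi').2
      omega
    have d2 : Disjoint (L.filter (fun i => w i = 1) ∪ L.filter (fun i => w i = -1)) (bigs w L) := by
      rw [Finset.disjoint_left]
      intro i hi hi'
      have a2 := (Finset.mem_filter.1 hi').2
      rw [Finset.mem_union] at hi
      rcases hi with hi | hi
      · have a1 := (Finset.mem_filter.1 hi).2
        rw [a1] at a2
        norm_num at a2
      · have a1 := (Finset.mem_filter.1 hi).2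
        rw [a1] at a2
        norm_num at a2
    conv_lhs => rw [hLu]
    rw [Finset.sum_union d2, Finset.sum_union d1]
    have s1 : ∑ i ∈ L.filter (fun i => w i = 1), (w i : ℝ) = p := by
      rw [Finset.sum_congr rfl (g := fun _ => (1 : ℝ)) (fun i hi => by
        rw [(Finset.mem_filter.1 hi).2]; norm_num)]
      rw [Finset.sum_const, nsmul_eq_mul, mul_one, hp]
      rfl
    have s2 : ∑ i ∈ L.filter (fun i => w i = -1), (w i : ℝ) = -q := by
      rw [Finset.sum_congr rfl (g := fun _ => (-1 : ℝ)) (fun i hi => by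
        rw [(Finset.mem_filter.1 hi).2]; norm_num)]
      rw [Finset.sum_const, nsmul_eq_mul, hq]
      unfold nv
      ring
    rw [s1, s2]
    ring
  have hB : |∑ j ∈ bigs w L, (w j : ℝ)| ≤ 8 * η * (I.card : ℝ) :=
    (Finset.abs_sum_le_sum_abs _ _).trans h2
  have hpq : ((p : ℝ) + q) - 2 * (min p q : ℕ) ≤ |(p : ℝ) - q| := by
    rcases le_total p q with h3 | h3
    · rw [min_eq_left h3]
      have : (p : ℝ) ≤ q := by exact_mod_cast h3
      rw [abs_of_nonpos (by linarith)]
      linarith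
    · rw [min_eq_right h3]
      have : (q : ℝ) ≤ p := by exact_mod_cast h3
      rw [abs_of_nonneg (by linarith)]
      linarith
  have hmin' : 2 * ((min p q : ℕ) : ℝ) + c ≤ r := by exact_mod_cast hmin.le
  have hn1' : (n1 w L : ℝ) = (p : ℝ) + q := by exact_mod_cast hn1
  have hr9' : 9 * (r : ℝ) ≤ 8 * ((I.card : ℝ) + c) := by exact_mod_cast hr9
  have hfin : |(p : ℝ) - q| ≤ |∑ j ∈ L, (w j : ℝ)| + |∑ j ∈ bigs w L, (w j : ℝ)| := by
    have e1 : (p : ℝ) - q = ∑ j ∈ L, (w j : ℝ) - ∑ j ∈ bigs w L, (w j : ℝ) := by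
      rw [hsumL]
      ring
    rw [e1]
    exact abs_sub _ _
  have hN0 : (0 : ℝ) ≤ I.card := Nat.cast_nonneg _
  have hc0 : (0 : ℝ) ≤ c := Nat.cast_nonneg _
  have hηN : η * (I.card : ℝ) ≤ (1 / 2000) * (I.card : ℝ) := mul_le_mul_of_nonneg_right hη' hN0
  rw [hn1'] at h1
  linarith

end H31Y
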