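import Pool.Agent.Lib.H31Y.PB
import Pool.Agent.Lib.H31Y.PE

/-!
Chunk PG: at most two heavy entries, near `-M`; the light ones are small.
-/

namespace H31Y

open Finset H31Z

theorem pg_c (N : ℝ) (hN : 0 < N) : 0.797 / Real.sqrt N ≤ Real.sqrt (2 / (Real.pi * N)) ∧
    Real.sqrt (2 / (Real.pi * N)) ≤ 0.798 / Real.sqrt N := by
  have hs : 0 < Real.sqrt N := Real.sqrt_pos.2 hN
  have hs2 : Real.sqrt N ^ 2 = N := Real.sq_sqrt hN.le
  have hp1 := Real.pi_gt_d4
  have hp2 := Real.pi_lt_d4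
  have hp0 := Real.pi_pos
  constructor
  · rw [Real.le_sqrt' (by positivity), div_pow, hs2, div_le_div_iff₀ hN (by positivity)]
    nlinarith
  · rw [Real.sqrt_le_iff]
    refine ⟨by positivity, ?_⟩
    rw [div_pow, hs2, div_le_div_iff₀ (by positivity) hN]
    nlinarith

theorem pg_low (η CR : ℝ) (hη : 0 < η) (hη' : η ≤ 1 / 2000) (_hCR : 1 ≤ CR)
    {ι : Type} [DecidableEq ι] (I : Finset ι) (y : ι → ℤ) (L : Finset ι) (g : ℤ) (w : ι → ℤ)
    (hI : 1 ≤ I.card) (hV : HV η CR I y L g w)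
    (hP : (1 / 2 - η) * Real.sqrt (2 / (Real.pi * (I.card : ℝ))) ≤ pz y I 0) :
    0.49 ≤ pg (fun e => (y e : ℝ) / g) (I \ L) (-(mn w L)) (CR * Real.sqrt (I.card : ℝ)) := by
  have hN1 : (1 : ℝ) ≤ I.card := by exact_mod_cast hI
  have hN : (0 : ℝ) < I.card := by linarith
  have hg : (g : ℝ) ≠ 0 := by exact_mod_cast hV.g0
  have hs : 0 < Real.sqrt (I.card : ℝ) := Real.sqrt_pos.2 hN
  have hw : ∀ j ∈ L, (y j : ℝ) / g = (w j : ℝ) := by
    intro j hj
    rw [(hV.eqn j hj).1]
    push_cast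
    field_simp
  have h1 : pz y I 0 = pn (fun e => (y e : ℝ) / g) (L ∪ (I \ L)) 0 := by
    rw [Finset.union_sdiff_of_subset hV.sub,
      ← F2_scale (fun e => (y e : ℝ) / g) (fun e => (y e : ℝ)) I g hg (fun j _ => by field_simp)]
    have := F2_cast (fun e => (y e : ℝ)) y I (fun j _ => rfl) 0
    rw [← this]
    simp
  have hsg : (1999 / 2000) * (I.card : ℝ) ≤ sg w L := by
    have h2 : (L.card : ℝ) ≤ sg w L := by
      unfold sg
      have : (L.card : ℝ) = ∑ j ∈ L, (1 : ℝ) := by simp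
      rw [this]
      apply Finset.sum_le_sum
      intro j hj
      have h3 : 1 ≤ |w j| := Int.one_le_abs (hV.eqn j hj).2
      have h4 : (1 : ℝ) ≤ |(w j : ℝ)| := by exact_mod_cast h3
      rw [← sq_abs]
      nlinarith
    have h3 := hV.card
    nlinarith
  have hsg0 : 0 < sg w L := lt_of_lt_of_le (by positivity) hsg
  have hsq : 0.999 * Real.sqrt (I.card : ℝ) ≤ Real.sqrt (sg w L) := by
    apply Real.le_sqrt_of_sq_le
    rw [mul_pow, Real.sq_sqrt hN.le]
    nlinarith
  have hA1 : Real.sqrt (2 / (Real.pi * sg w L)) ≤ 0.7989 / Real.sqrt (I.card : ℝ) := by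
    refine (pg_c _ hsg0).2.trans ?_
    rw [div_le_div_iff₀ (Real.sqrt_pos.2 hsg0) hs]
    nlinarith
  have h2 := PA_split (fun e => (y e : ℝ) / g) w L (I \ L) Finset.disjoint_sdiff hw
    (Real.sqrt (2 / (Real.pi * sg w L)) + η / Real.sqrt (I.card : ℝ)) (η / Real.sqrt (I.card : ℝ))
    (CR * Real.sqrt (I.card : ℝ)) (mn w L) hV.all hV.far (by positivity) (by positivity)
  rw [← h1] at h2
  set pp := pg (fun e => (y e : ℝ) / g) (I \ L) (-(mn w L)) (CR * Real.sqrt (I.card : ℝ)) with hpp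
  have hpp0 : 0 ≤ pp := by
    rw [hpp]
    unfold pg
    positivity
  have h3 := (pg_c _ hN).1
  set v := 1 / Real.sqrt (I.card : ℝ) with hv
  have hv0 : 0 < v := by rw [hv]; positivity
  have e1 : 0.797 / Real.sqrt (I.card : ℝ) = 0.797 * v := by rw [hv]; ring
  have e2 : 0.7989 / Real.sqrt (I.card : ℝ) = 0.7989 * v := by rw [hv]; ring
  have e3 : η / Real.sqrt (I.card : ℝ) = η * v := by rw [hv]; ring
  rw [e1] at h3
  rw [e2] at hA1
  rw [e3] at h2
  have h4 : (1 / 2 - η) * (0.797 * v) ≤ (1 / 2 - η) * Real.sqrt (2 / (Real.pi * (I.card : ℝ))) :=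
    mul_le_mul_of_nonneg_left h3 (by linarith)
  have h5 : pp * (Real.sqrt (2 / (Real.pi * sg w L)) + η * v) ≤ pp * (0.7994 * v) := by
    apply mul_le_mul_of_nonneg_left _ hpp0
    nlinarith
  have h6 : (1 / 2 - η) * (0.797 * v) ≤ pp * (0.7994 * v) + η * v := by linarith
  have h7 : (1 / 2 - η) * 0.797 ≤ pp * 0.7994 + η := by
    have h8 : ((1 / 2 - η) * 0.797) * v ≤ (pp * 0.7994 + η) * v := by linarith
    exact le_of_mul_le_mul_right h8 hv0
  linarith

open Classical in
theorem pg_mem (CR : ℝ) {ι : Type} (I : Finset ι) (y : ι → ℤ) (L : Finset ι) (g : ℤ) (e : ι) :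
    e ∈ hvy CR I y L g ↔ (e ∈ I ∧ e ∉ L) ∧
      2 * (CR * Real.sqrt (I.card : ℝ)) * |(g : ℝ)| < |(y e : ℝ)| := by
  unfold hvy
  rw [Finset.mem_filter, Finset.mem_sdiff]

theorem pg_hv (CR : ℝ) {ι : Type} [DecidableEq ι] (I : Finset ι) (y : ι → ℤ) (L : Finset ι) (g : ℤ)
    (hg : g ≠ 0) (e : ι) (he : e ∈ I \ L) :
    e ∈ hvy CR I y L g ↔ 2 * (CR * Real.sqrt (I.card : ℝ)) < |(y e : ℝ) / g| := by
  have hg1 : 0 < |(g : ℝ)| := abs_pos.2 (by exact_mod_cast hg)
  rw [pg_mem, abs_div, lt_div_iff₀ hg1]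
  rw [Finset.mem_sdiff] at he
  exact ⟨fun h => h.2, fun h => ⟨he, h⟩⟩

theorem pg_hvs (CR : ℝ) {ι : Type} [DecidableEq ι] (I : Finset ι) (y : ι → ℤ) (L : Finset ι) (g : ℤ) :
    hvy CR I y L g ⊆ I \ L := by
  intro e he
  rw [pg_mem] at he
  exact Finset.mem_sdiff.2 he.1

/-- PROOF. `N = |I|`, `E = I \ L`, `x = y/g`, `A = sqrt (2/(π sg)) + η/√N ≤ 0.81/√N` (`sg ≥ |L| ≥ (1-η)N`),
`B' = η/√N`, `R = CR √N`, `M = mn w L`, `T = hvy`, so `|x e| > 2R` on `T` and `|x e| ≤ 2R` on `E \ T`. `PA_split`: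
`pz y I 0 = pn x I 0 ≤ pg x E (-M) R · A + B'` (`F2_cast`, `F2_scale`), while `pz y I 0 ≥ (1/2-η) sqrt (2/(πN)) ≥
0.398/√N`; so `pg x E (-M) R ≥ 0.48`.
(1) `|T| ≥ 3`: `PB_three` on a subset of size `3`: `pg ≤ 3/8`, contradiction.
(2) `σ' = ∑_{E \ T} x² > (100 CR)² N`: `PB_ess`: `pg ≤ 0.06`, contradiction.
(3) So for `B' ⊆ E \ T`: `|∑_{B'} x| ≤ sqrt (|E| σ') ≤ sqrt (η² N²) = ηN` (field `small`); `R + ηN ≤ 2ηN` for
`N ≥ N0`. `|M| ≥ N/20 > 2ηN·2`, so `B'` (that is `C = ∅`) is never good.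
(4) `|T| = 1`, `T = {e}`: `PA_pg` with `k = 0` would give `pg ≤ 0`, so some `B' ∪ {e}` is good:
`|x e + M| ≤ R + ηN ≤ 2ηN`.
(5) `T = {e, f}`: for each `B'` the good `C ⊆ T` are among `{e}, {f}, {e,f}`; `{e}` and `{e,f}` are not both good
(`|x f| > 2R`), nor `{f}` and `{e,f}`. So there are at most two, and if there were at most one for every
`B'`, `PA_pg` with `k = 1`: `pg ≤ 1/4`, contradiction. So for some `B'` both `{e}` and `{f}` are good:
`|x e + M|, |x f + M| ≤ R + ηN ≤ 2ηN`. -/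
theorem PG_locate (η CR : ℝ) (hη : 0 < η) (hη' : η ≤ 1 / 2000) (hCR : 1 ≤ CR) : ∃ N0 : ℕ,
    ∀ (ι : Type) [DecidableEq ι] (I : Finset ι) (y : ι → ℤ) (L : Finset ι) (g : ℤ) (w : ι → ℤ),
      N0 ≤ I.card → HV η CR I y L g w → (hvy CR I y L g).Nonempty →
      (1 / 2 - η) * Real.sqrt (2 / (Real.pi * (I.card : ℝ))) ≤ pz y I 0 →
      (I.card : ℝ) / 20 ≤ |mn w L| →
      (hvy CR I y L g).card ≤ 2 ∧
      ∑ e ∈ (I \ L) \ hvy CR I y L g, ((y e : ℝ) / g) ^ 2 ≤ (100 * CR) ^ 2 * (I.card : ℝ) ∧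
      (∀ B ⊆ (I \ L) \ hvy CR I y L g, |∑ e ∈ B, (y e : ℝ) / g| ≤ η * (I.card : ℝ)) ∧
      ∀ e ∈ hvy CR I y L g, |(y e : ℝ) / g + mn w L| ≤ 2 * η * (I.card : ℝ) := by
  refine ⟨⌈(CR / η) ^ 2⌉₊ + 1, ?_⟩
  intro ι _ I y L g w hI hV hT hP hM
  have hI1 : 1 ≤ I.card := le_trans (by omega) hI
  have hN1 : (1 : ℝ) ≤ I.card := by exact_mod_cast hI1
  have hN : (0 : ℝ) < I.card := by linarith
  have hs : 0 < Real.sqrt (I.card : ℝ) := Real.sqrt_pos.2 hN
  have hNN : (CR / η) ^ 2 ≤ (I.card : ℝ) := by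
    have h1 : (CR / η) ^ 2 ≤ (⌈(CR / η) ^ 2⌉₊ : ℝ) := Nat.le_ceil _
    have h2 : ((⌈(CR / η) ^ 2⌉₊ + 1 : ℕ) : ℝ) ≤ (I.card : ℝ) := by exact_mod_cast hI
    push_cast at h2
    linarith
  have hR : CR * Real.sqrt (I.card : ℝ) ≤ η * (I.card : ℝ) := by
    have h1 : CR / η ≤ Real.sqrt (I.card : ℝ) := Real.le_sqrt_of_sq_le hNN
    rw [div_le_iff₀ hη] at h1
    have h2 : Real.sqrt (I.card : ℝ) * Real.sqrt (I.card : ℝ) = (I.card : ℝ) :=
      Real.mul_self_sqrt hN.le
    calc CR * Real.sqrt (I.card : ℝ) ≤ (Real.sqrt (I.card : ℝ) * η) * Real.sqrt (I.card : ℝ) :=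
          mul_le_mul_of_nonneg_right h1 hs.le
      _ = η * (Real.sqrt (I.card : ℝ) * Real.sqrt (I.card : ℝ)) := by ring
      _ = _ := by rw [h2]
  have hR0 : 0 < CR * Real.sqrt (I.card : ℝ) := by positivity
  have hlow := pg_low η CR hη hη' hCR I y L g w hI1 hV hP
  have hsub := pg_hvs CR I y L g
  have hheavy : ∀ e ∈ hvy CR I y L g, 2 * (CR * Real.sqrt (I.card : ℝ)) < |(y e : ℝ) / g| :=
    fun e he => (pg_hv CR I y L g hV.g0 e (hsub he)).1 he
  have hlight : ∀ e ∈ (I \ L) \ hvy CR I y L g,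
      |(y e : ℝ) / g| ≤ 2 * (CR * Real.sqrt (I.card : ℝ)) := by
    intro e he
    rw [Finset.mem_sdiff] at he
    by_contra hc
    push Not at hc
    exact he.2 ((pg_hv CR I y L g hV.g0 e he.1).2 hc)
  have h1 : (hvy CR I y L g).card ≤ 2 := by
    by_contra hc
    push Not at hc
    obtain ⟨T3, hT3, hc3⟩ := Finset.exists_subset_card_eq (show 3 ≤ (hvy CR I y L g).card by omega)
    have h2 := PB_three (fun e => (y e : ℝ) / g) (-(mn w L)) (CR * Real.sqrt (I.card : ℝ)) (I \ L) T3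
      (hT3.trans hsub) hc3 hR0.le (fun e he => hheavy e (hT3 he))
    linarith
  have h2 : ∑ e ∈ (I \ L) \ hvy CR I y L g, ((y e : ℝ) / g) ^ 2 ≤ (100 * CR) ^ 2 * (I.card : ℝ) := by
    by_contra hc
    push Not at hc
    have h0 : 0 < (100 * CR) ^ 2 * (I.card : ℝ) := by positivity
    have h3 := PB_ess (fun e => (y e : ℝ) / g) (-(mn w L)) (CR * Real.sqrt (I.card : ℝ)) (I \ L)
      (hvy CR I y L g) hsub hR0 hlight (h0.trans hc)
    have h4 : 100 * (CR * Real.sqrt (I.card : ℝ)) ≤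
        Real.sqrt (∑ e ∈ (I \ L) \ hvy CR I y L g, ((y e : ℝ) / g) ^ 2) := by
      apply Real.le_sqrt_of_sq_le
      have h5 : (100 * (CR * Real.sqrt (I.card : ℝ))) ^ 2 = (100 * CR) ^ 2 * (I.card : ℝ) := by
        rw [← mul_assoc, mul_pow, Real.sq_sqrt hN.le]
      rw [h5]
      exact hc.le
    have h6 : 6 * (CR * Real.sqrt (I.card : ℝ)) /
        Real.sqrt (∑ e ∈ (I \ L) \ hvy CR I y L g, ((y e : ℝ) / g) ^ 2) ≤ 0.06 := by
      rw [div_le_iff₀ (lt_of_lt_of_le (by positivity) h4)]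
      linarith
    have h7 := h3.trans h6
    linarith
  have h3 : ∀ B ⊆ (I \ L) \ hvy CR I y L g, |∑ e ∈ B, (y e : ℝ) / g| ≤ η * (I.card : ℝ) := by
    intro B hB
    apply abs_le_of_sq_le_sq _ (by positivity)
    have a1 : (∑ e ∈ B, (y e : ℝ) / g) ^ 2 ≤ (B.card : ℝ) * ∑ e ∈ B, ((y e : ℝ) / g) ^ 2 :=
      sq_sum_le_card_mul_sum_sq
    have a2 : ∑ e ∈ B, ((y e : ℝ) / g) ^ 2 ≤ (100 * CR) ^ 2 * (I.card : ℝ) :=
      (Finset.sum_le_sum_of_subset_of_nonneg hB (fun _ _ _ => sq_nonneg _)).trans h2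
    have a3 : (B.card : ℝ) ≤ ((I \ L).card : ℝ) := by
      exact_mod_cast Finset.card_le_card (hB.trans Finset.sdiff_subset)
    have a4 := hV.small
    calc (∑ e ∈ B, (y e : ℝ) / g) ^ 2 ≤ (B.card : ℝ) * ∑ e ∈ B, ((y e : ℝ) / g) ^ 2 := a1
      _ ≤ ((I \ L).card : ℝ) * ((100 * CR) ^ 2 * (I.card : ℝ)) :=
          mul_le_mul a3 a2 (Finset.sum_nonneg fun _ _ => sq_nonneg _) (by positivity)
      _ = (((I \ L).card : ℝ) * (100 * CR) ^ 2) * (I.card : ℝ) := by ring
      _ ≤ (η ^ 2 * (I.card : ℝ)) * (I.card : ℝ) := mul_le_mul_of_nonneg_right a4 hN.le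
      _ = (η * (I.card : ℝ)) ^ 2 := by ring
  refine ⟨h1, h2, h3, ?_⟩
  -- the empty set is never good
  have hemp : ∀ B ⊆ (I \ L) \ hvy CR I y L g,
      ¬ good (fun e => (y e : ℝ) / g) (-(mn w L)) (CR * Real.sqrt (I.card : ℝ)) B := by
    rintro B hB ⟨hg1, -⟩
    have a1 := h3 B hB
    have a2 : |mn w L| ≤ |∑ i ∈ B, (y i : ℝ) / g - -(mn w L)| + |∑ e ∈ B, (y e : ℝ) / g| := by
      have : mn w L = (∑ i ∈ B, (y i : ℝ) / g - -(mn w L)) - ∑ e ∈ B, (y e : ℝ) / g := by ring
      calc |mn w L| = |(∑ i ∈ B, (y i : ℝ) / g - -(mn w L)) - ∑ e ∈ B, (y e : ℝ) / g| := by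
            rw [← this]
        _ ≤ _ := abs_sub _ _
    nlinarith
  intro e he
  -- some set is good
  have hex : ∃ B ⊆ (I \ L) \ hvy CR I y L g,
      good (fun e => (y e : ℝ) / g) (-(mn w L)) (CR * Real.sqrt (I.card : ℝ)) (B ∪ {e}) := by
    by_contra hc
    push Not at hc
    have hcard : (hvy CR I y L g).card = 1 ∨ (hvy CR I y L g).card = 2 := by
      have := Finset.card_pos.2 hT
      omega
    rcases hcard with hcard | hcard
    · obtain ⟨a, ha⟩ := Finset.card_eq_one.1 hcard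
      have hea : e = a := by
        rw [ha, Finset.mem_singleton] at he
        exact he
      have h4 := PA_pg (fun e => (y e : ℝ) / g) (-(mn w L)) (CR * Real.sqrt (I.card : ℝ)) (I \ L)
        (hvy CR I y L g) hsub 0 (by
          intro B' hB' F hF hgood
          rw [Nat.le_zero, Finset.card_eq_zero, Finset.eq_empty_iff_forall_notMem]
          intro C hC
          have hC1 := Finset.mem_powerset.1 (hF hC)
          have hC2 := hgood C hC
          rw [ha, Finset.subset_singleton_iff] at hC1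
          rcases hC1 with hC1 | hC1
          · rw [hC1, Finset.union_empty] at hC2
            exact hemp B' hB' hC2
          · rw [hC1, ← hea] at hC2
            exact hc B' hB' hC2)
      simp at h4
      linarith
    · have hce : ((hvy CR I y L g).erase e).card = 1 := by
        rw [Finset.card_erase_of_mem he, hcard]
      obtain ⟨f, hf⟩ := Finset.card_eq_one.1 hce
      have hfT : f ∈ hvy CR I y L g := Finset.mem_of_mem_erase (by rw [hf]; exact Finset.mem_singleton_self f)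
      have hfe : f ≠ e := Finset.ne_of_mem_erase (s := hvy CR I y L g) (by rw [hf]; exact Finset.mem_singleton_self f)
      have h4 := PA_pg (fun e => (y e : ℝ) / g) (-(mn w L)) (CR * Real.sqrt (I.card : ℝ)) (I \ L)
        (hvy CR I y L g) hsub 1 (by
          intro B' hB' F hF hgood
          have heB : e ∉ B' := fun h => (Finset.mem_sdiff.1 (hB' h)).2 he
          have hfB : f ∉ B' := fun h => (Finset.mem_sdiff.1 (hB' h)).2 hfT
          have hFs : ∀ C ∈ F, C = {f} ∨ C = {e, f} := by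
            intro C hC
            have hC1 := Finset.mem_powerset.1 (hF hC)
            have hC2 := hgood C hC
            by_cases hfC : f ∈ C
            · by_cases heC : e ∈ C
              · right
                ext u
                rw [Finset.mem_insert, Finset.mem_singleton]
                constructor
                · intro hu
                  by_cases hue : u = e
                  · exact Or.inl hue
                  · have := Finset.mem_erase.2 ⟨hue, hC1 hu⟩
                    rw [hf, Finset.mem_singleton] at this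
                    exact Or.inr this
                · rintro (h | h)
                  · rw [h]; exact heC
                  · rw [h]; exact hfC
              · left
                ext u
                rw [Finset.mem_singleton]
                constructor
                · intro hu
                  have hue : u ≠ e := fun h => heC (h ▸ hu)
                  have := Finset.mem_erase.2 ⟨hue, hC1 hu⟩
                  rwa [hf, Finset.mem_singleton] at this
                · intro h; rw [h]; exact hfC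
            · exfalso
              have hCe : C ⊆ {e} := by
                intro u hu
                rw [Finset.mem_singleton]
                by_contra hue
                have := Finset.mem_erase.2 ⟨hue, hC1 hu⟩
                rw [hf, Finset.mem_singleton] at this
                exact hfC (this ▸ hu)
              rw [Finset.subset_singleton_iff] at hCe
              rcases hCe with hCe | hCe
              · rw [hCe, Finset.union_empty] at hC2
                exact hemp B' hB' hC2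
              · rw [hCe] at hC2
                exact hc B' hB' hC2
          rw [Finset.card_le_one]
          have hno : ¬ ({f} ∈ F ∧ {e, f} ∈ F) := by
            rintro ⟨hf1, hf2⟩
            have g1 := (hgood _ hf1).1
            have g2 := (hgood _ hf2).1
            have hd : B' ∪ {e, f} = insert e (B' ∪ {f}) := by
              ext u
              simp only [Finset.mem_union, Finset.mem_insert, Finset.mem_singleton]
              tauto
            have hne : e ∉ B' ∪ {f} := by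
              rw [Finset.mem_union, Finset.mem_singleton]
              rintro (h | h)
              · exact heB h
              · exact hfe h.symm
            rw [hd, Finset.sum_insert hne] at g2
            have g3 := hheavy e he
            have g4 : (y e : ℝ) / g = ((y e : ℝ) / g + ∑ i ∈ B' ∪ {f}, (y i : ℝ) / g - -(mn w L)) -
                (∑ i ∈ B' ∪ {f}, (y i : ℝ) / g - -(mn w L)) := by ring
            have g5 : |(y e : ℝ) / g| ≤ |(y e : ℝ) / g + ∑ i ∈ B' ∪ {f}, (y i : ℝ) / g - -(mn w L)| +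
                |∑ i ∈ B' ∪ {f}, (y i : ℝ) / g - -(mn w L)| := by
              conv_lhs => rw [g4]
              exact abs_sub _ _
            linarith
          intro C hC C' hC'
          rcases hFs C hC with h5 | h5 <;> rcases hFs C' hC' with h6 | h6
          · rw [h5, h6]
          · exact absurd ⟨h5 ▸ hC, h6 ▸ hC'⟩ hno
          · exact absurd ⟨h6 ▸ hC', h5 ▸ hC⟩ hno
          · rw [h5, h6])
      rw [hcard] at h4
      norm_num at h4
      linarith
  obtain ⟨B, hB, hgB, -⟩ := hex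
  have heB : e ∉ B := fun h => (Finset.mem_sdiff.1 (hB h)).2 he
  have hBs := h3 B hB
  rw [Finset.union_comm, ← Finset.insert_eq, Finset.sum_insert heB] at hgB
  have a1 : (y e : ℝ) / g + mn w L = ((y e : ℝ) / g + ∑ i ∈ B, (y i : ℝ) / g - -(mn w L)) -
      ∑ i ∈ B, (y i : ℝ) / g := by ring
  have a2 : |(y e : ℝ) / g + mn w L| ≤ |(y e : ℝ) / g + ∑ i ∈ B, (y i : ℝ) / g - -(mn w L)| +
      |∑ i ∈ B, (y i : ℝ) / g| := by
    conv_lhs => rw [a1]
    exact abs_sub _ _
  linarith

end H31Y
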