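import Pool.Agent.Lib.H31Y.PG

/-!
Chunk PH: integrality.
-/

namespace H31Y

open Finset H31Z

/-- PROOF. Notation of `PG_locate`. As `|M| ≥ N/20` and `|x e + M| ≤ 2ηN` on `T`, `|∑_{B'} x| ≤ ηN` for
`B' ⊆ E \ T`: if `B' ∪ C` (`C ⊆ T`) is good, then `|C| = 1` (`C = ∅`: `|M| ≤ R + ηN`, false; `|C| = 2`: the sum is
within `5ηN` of `-2M`, so `|M| ≤ R + 5ηN`, false).
(1) Suppose `x f` is not an integer for some `f ∈ E \ T`. `PA_pg` with `T ∪ {f}` in place of `T`: for
`B' ⊆ (E \ T) \ {f}` the good `C ⊆ T ∪ {f}` are `{e}` or `{e, f}` with `e ∈ T`, and for each `e` at most one of them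
is (both sums would be integers, so `x f` too). So `k = |T|`, `pg ≤ |T|/2^(|T|+1) = 1/4` for `|T| ∈ {1, 2}`;
contradiction with `pg ≥ 0.48`.
(2) So `x` is integral on `E \ T` (and on `L`: `x = w`). Suppose `x e` is not an integer, `e ∈ T`. Then
`B' ∪ {e}` is not good; so `k = |T| - 1`, `pg ≤ (|T|-1)/2^|T| ≤ 1/4`, contradiction. -/
theorem PH_int (η CR : ℝ) (hη : 0 < η) (hη' : η ≤ 1 / 2000) (hCR : 1 ≤ CR) : ∃ N0 : ℕ,
    ∀ (ι : Type) [DecidableEq ι] (I : Finset ι) (y : ι → ℤ) (L : Finset ι) (g : ℤ) (w : ι → ℤ),
      N0 ≤ I.card → HV η CR I y L g w → (hvy CR I y L g).Nonempty →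
      (1 / 2 - η) * Real.sqrt (2 / (Real.pi * (I.card : ℝ))) ≤ pz y I 0 →
      (I.card : ℝ) / 20 ≤ |mn w L| →
      (hvy CR I y L g).card ≤ 2 →
      (∀ B ⊆ (I \ L) \ hvy CR I y L g, |∑ e ∈ B, (y e : ℝ) / g| ≤ η * (I.card : ℝ)) →
      (∀ e ∈ hvy CR I y L g, |(y e : ℝ) / g + mn w L| ≤ 2 * η * (I.card : ℝ)) →
      ∀ e ∈ I, ∃ k : ℤ, (y e : ℝ) / g = k := by
  refine ⟨⌈(CR / η) ^ 2⌉₊ + 1, ?_⟩
  intro ι _ I y L g w hI hV hT hP hM hc2 hlight hloc
  have hI1 : 1 ≤ I.card := le_trans (by omega) hI
  have hN1 : (1 : ℝ) ≤ I.card := by exact_mod_cast hI1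
  have hN : (0 : ℝ) < I.card := by linarith
  have hs : 0 < Real.sqrt (I.card : ℝ) := Real.sqrt_pos.2 hN
  have hNN : (CR / η) ^ 2 ≤ (I.card : ℝ) := by
    have h1 : (CR / η) ^ 2 ≤ (⌈(CR / η) ^ 2⌉₊ : ℝ) := Nat.le_ceil _
    have h2 : ((⌈(CR / η) ^ 2⌉₊ + 1 : ℕ) : ℝ) ≤ (I.card : ℝ) := by exact_mod_cast hI
    push_cast at h2
    linarith
  have hR : CR * Real.sqrt (I.card : ℝ) ≤ η * (I.card : ℝ) := by
    have h1 : CR / η ≤ Real.sqrt (I.card : ℝ) := Real.le_sqrt_of_sq_le hNN
    rw [div_le_iff₀ hη] at h1
    have h2 : Real.sqrt (I.card : ℝ) * Real.sqrt (I.card : ℝ) = (I.card : ℝ) :=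
      Real.mul_self_sqrt hN.le
    calc CR * Real.sqrt (I.card : ℝ) ≤ (Real.sqrt (I.card : ℝ) * η) * Real.sqrt (I.card : ℝ) :=
          mul_le_mul_of_nonneg_right h1 hs.le
      _ = η * (Real.sqrt (I.card : ℝ) * Real.sqrt (I.card : ℝ)) := by ring
      _ = _ := by rw [h2]
  have hR0 : 0 < CR * Real.sqrt (I.card : ℝ) := by positivity
  have hlow := pg_low η CR hη hη' hCR I y L g w hI1 hV hP
  have hsub := pg_hvs CR I y L g
  have hg : (g : ℝ) ≠ 0 := by exact_mod_cast hV.g0
  have hc1 : 1 ≤ (hvy CR I y L g).card := Finset.card_pos.2 hT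
  -- a good set contains exactly one heavy entry
  have hone : ∀ B ⊆ (I \ L) \ hvy CR I y L g, ∀ D ⊆ hvy CR I y L g,
      good (fun e => (y e : ℝ) / g) (-(mn w L)) (CR * Real.sqrt (I.card : ℝ)) (B ∪ D) → D.card = 1 := by
    rintro B hB D hD ⟨hg1, -⟩
    have a1 := hlight B hB
    have hdis : Disjoint B D := by
      rw [Finset.disjoint_left]
      intro u hu hu'
      exact (Finset.mem_sdiff.1 (hB hu)).2 (hD hu')
    rw [Finset.sum_union hdis] at hg1
    have hDc := (Finset.card_le_card hD).trans hc2
    by_contra hne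
    have hDc' : D.card = 0 ∨ D.card = 2 := by omega
    rcases hDc' with h0 | h2
    · rw [Finset.card_eq_zero] at h0
      rw [h0, Finset.sum_empty, add_zero] at hg1
      have a2 : mn w L = (∑ i ∈ B, (y i : ℝ) / g - -(mn w L)) - ∑ e ∈ B, (y e : ℝ) / g := by ring
      have a3 : |mn w L| ≤ |∑ i ∈ B, (y i : ℝ) / g - -(mn w L)| + |∑ e ∈ B, (y e : ℝ) / g| := by
        conv_lhs => rw [a2]
        exact abs_sub _ _
      nlinarith
    · obtain ⟨a, b, hab, rfl⟩ := Finset.card_eq_two.1 h2
      have ha := hloc a (hD (Finset.mem_insert_self a {b}))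
      have hb := hloc b (hD (Finset.mem_insert_of_mem (Finset.mem_singleton_self b)))
      rw [Finset.sum_pair hab] at hg1
      have a2 : mn w L = (((y a : ℝ) / g + mn w L) + ((y b : ℝ) / g + mn w L) +
          ∑ i ∈ B, (y i : ℝ) / g) -
          (∑ i ∈ B, (y i : ℝ) / g + ((y a : ℝ) / g + (y b : ℝ) / g) - -(mn w L)) := by ring
      have a3 : |mn w L| ≤ (|(y a : ℝ) / g + mn w L| + |(y b : ℝ) / g + mn w L| +
          |∑ i ∈ B, (y i : ℝ) / g|) +
          |∑ i ∈ B, (y i : ℝ) / g + ((y a : ℝ) / g + (y b : ℝ) / g) - -(mn w L)| := by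
        conv_lhs => rw [a2]
        refine (abs_sub _ _).trans (add_le_add ?_ le_rfl)
        exact abs_add_three _ _ _
      nlinarith
  -- the light entries are integral
  have hintE : ∀ f ∈ (I \ L) \ hvy CR I y L g, ∃ k : ℤ, (y f : ℝ) / g = k := by
    intro f hf
    by_contra hno
    push Not at hno
    have hfT : f ∉ hvy CR I y L g := (Finset.mem_sdiff.1 hf).2
    have hfE : f ∈ I \ L := (Finset.mem_sdiff.1 hf).1
    have hT1 : insert f (hvy CR I y L g) ⊆ I \ L := by
      intro u hu
      rw [Finset.mem_insert] at hu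
      rcases hu with hu | hu
      · rw [hu]; exact hfE
      · exact hsub hu
    have h4 := PA_pg (fun e => (y e : ℝ) / g) (-(mn w L)) (CR * Real.sqrt (I.card : ℝ)) (I \ L)
      (insert f (hvy CR I y L g)) hT1 (hvy CR I y L g).card (by
        intro B' hB' F hF hgood
        have hfB : f ∉ B' := fun h => (Finset.mem_sdiff.1 (hB' h)).2 (Finset.mem_insert_self _ _)
        have hBs : B' ⊆ (I \ L) \ hvy CR I y L g := by
          intro u hu
          have := Finset.mem_sdiff.1 (hB' hu)
          exact Finset.mem_sdiff.2 ⟨this.1, fun h => this.2 (Finset.mem_insert_of_mem h)⟩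
        have hFe : ∀ C ∈ F, C.erase f ⊆ hvy CR I y L g ∧ (C.erase f).card = 1 := by
          intro C hC
          have hC1 := Finset.mem_powerset.1 (hF hC)
          have hsb : C.erase f ⊆ hvy CR I y L g := by
            intro u hu
            rw [Finset.mem_erase] at hu
            exact Finset.mem_of_mem_insert_of_ne (hC1 hu.2) hu.1
          refine ⟨hsb, ?_⟩
          by_cases hfC : f ∈ C
          · have hBf : insert f B' ⊆ (I \ L) \ hvy CR I y L g := by
              intro u hu
              rw [Finset.mem_insert] at hu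
              rcases hu with hu | hu
              · rw [hu]; exact hf
              · exact hBs hu
            apply hone (insert f B') hBf (C.erase f) hsb
            have e1 : insert f B' ∪ C.erase f = B' ∪ C := by
              ext u
              simp only [Finset.mem_union, Finset.mem_insert, Finset.mem_erase]
              by_cases huf : u = f
              · subst huf
                simp [hfC]
              · simp [huf]
            rw [e1]
            exact hgood C hC
          · rw [Finset.erase_eq_of_notMem hfC] at hsb ⊢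
            exact hone B' hBs C hsb (hgood C hC)
        have hpc : (Finset.powersetCard 1 (hvy CR I y L g)).card = (hvy CR I y L g).card := by
          rw [Finset.card_powersetCard, Nat.choose_one_right]
        rw [← hpc]
        apply Finset.card_le_card_of_injOn (fun C => C.erase f)
        · intro C hC
          exact Finset.mem_coe.2 (Finset.mem_powersetCard.2 (hFe C hC))
        · -- one of the two sets contains f and the other one does not
          have hkey : ∀ C ∈ F, ∀ C' ∈ F, C.erase f = C'.erase f → f ∈ C → f ∉ C' → False := by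
            intro C hC C' hC' he hfC hfC'
            rw [Finset.erase_eq_of_notMem hfC'] at he
            have e1 : B' ∪ C = insert f (B' ∪ C') := by
              rw [← he]
              ext u
              simp only [Finset.mem_union, Finset.mem_insert, Finset.mem_erase]
              by_cases huf : u = f
              · subst huf
                simp [hfC]
              · simp [huf]
            have hne : f ∉ B' ∪ C' := by
              rw [Finset.mem_union]
              rintro (h | h)
              · exact hfB h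
              · exact hfC' h
            obtain ⟨k, hk⟩ := (hgood C hC).2
            obtain ⟨k', hk'⟩ := (hgood C' hC').2
            rw [e1, Finset.sum_insert hne, hk'] at hk
            apply hno (k - k')
            push_cast
            linarith
          intro C hC C' hC' he
          have he' : C.erase f = C'.erase f := he
          by_cases hfC : f ∈ C
          · by_cases hfC' : f ∈ C'
            · rw [← Finset.insert_erase hfC, he', Finset.insert_erase hfC']
            · exact (hkey C hC C' hC' he' hfC hfC').elim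
          · by_cases hfC' : f ∈ C'
            · exact (hkey C' hC' C hC he'.symm hfC' hfC).elim
            · rw [Finset.erase_eq_of_notMem hfC, Finset.erase_eq_of_notMem hfC'] at he'
              exact he')
    rw [Finset.card_insert_of_notMem hfT] at h4
    have hcard : (hvy CR I y L g).card = 1 ∨ (hvy CR I y L g).card = 2 := by omega
    rcases hcard with hcard | hcard
    · rw [hcard] at h4
      norm_num at h4
      linarith
    · rw [hcard] at h4
      norm_num at h4
      linarith
  -- the heavy entries are integral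
  have hintT : ∀ e ∈ hvy CR I y L g, ∃ k : ℤ, (y e : ℝ) / g = k := by
    intro e he
    by_contra hno
    push Not at hno
    have h4 := PA_pg (fun e => (y e : ℝ) / g) (-(mn w L)) (CR * Real.sqrt (I.card : ℝ)) (I \ L)
      (hvy CR I y L g) hsub ((hvy CR I y L g).card - 1) (by
        intro B' hB' F hF hgood
        have heB : e ∉ B' := fun h => (Finset.mem_sdiff.1 (hB' h)).2 he
        have hFs : F ⊆ Finset.powersetCard 1 ((hvy CR I y L g).erase e) := by
          intro C hC
          have hC1 := Finset.mem_powerset.1 (hF hC)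
          have hC2 := hone B' hB' C hC1 (hgood C hC)
          rw [Finset.mem_powersetCard]
          refine ⟨?_, hC2⟩
          intro u hu
          rw [Finset.mem_erase]
          refine ⟨?_, hC1 hu⟩
          intro hue
          obtain ⟨a, ha⟩ := Finset.card_eq_one.1 hC2
          rw [ha, Finset.mem_singleton] at hu
          rw [← hu, hue] at ha
          obtain ⟨k, hk⟩ := (hgood C hC).2
          rw [ha, Finset.union_comm, ← Finset.insert_eq, Finset.sum_insert heB] at hk
          have hk' : ∃ k' : ℤ, ∑ i ∈ B', (y i : ℝ) / g = k' := by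
            choose! kk hkk using hintE
            refine ⟨∑ i ∈ B', kk i, ?_⟩
            rw [Int.cast_sum]
            exact Finset.sum_congr rfl fun i hi => hkk i (hB' hi)
          obtain ⟨k', hk'⟩ := hk'
          apply hno (k - k')
          push_cast
          linarith
        have h5 := Finset.card_le_card hFs
        rwa [Finset.card_powersetCard, Nat.choose_one_right, Finset.card_erase_of_mem he] at h5)
    have hcard : (hvy CR I y L g).card = 1 ∨ (hvy CR I y L g).card = 2 := by omega
    rcases hcard with hcard | hcard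
    · rw [hcard] at h4
      norm_num at h4
      linarith
    · rw [hcard] at h4
      norm_num at h4
      linarith
  intro e he
  by_cases heL : e ∈ L
  · refine ⟨w e, ?_⟩
    rw [(hV.eqn e heL).1]
    push_cast
    field_simp
  · by_cases heT : e ∈ hvy CR I y L g
    · exact hintT e heT
    · exact hintE e (Finset.mem_sdiff.2 ⟨Finset.mem_sdiff.2 ⟨he, heL⟩, heT⟩)

end H31Y
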