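import Pool.Agent.Lib.H31Y.PH

/-!
Chunk PI: assembly of the heavy structure.
-/

namespace H31Y

open Finset H31Z

/-- PROOF. `C = (100 CR)² + 2`. `N = |I| > n - r ≥ n/9`, large. `PE_ones`, `PE_mean` (with `c = n - |I|`):
`|∑_L w| ≥ n/10`, so `|mn w L| ≥ n/20 ≥ N/20`. `PG_locate`, `PH_int`: let `x e = y e/g = k e` be the integers.
`z e = ς k e` on `I`, `0` outside, `ς = 1` or `-1` the sign of `∑_L w`. `T = hvy`, `J = I \ T ⊇ L`. Fields of
`HT`: `nz`: `y e ≠ 0` on `I`. `ones`: `n1 z J ≥ n1 w L ≥ (1-5η)N ≥ (1-5η)|J|`. `mean`: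
`∑_J z ≥ |∑_L w| - ηN ≥ n/10 - ηn ≥ n/20`. `hv`: `2 z_e + ∑_J z = ς (2 (x e + mn) + ∑_{E \ T} x)`, at most
`5ηN` in absolute value. `sq`: `sg w L + (100 CR)² N ≤ C n`. Zero sums: `y e = g (ς z e)`, `g ≠ 0`. -/
theorem PI_asm (η CR : ℝ) (hη : 0 < η) (hη' : η ≤ 1 / 2000) (hCR : 1 ≤ CR) : ∃ n0 : ℕ,
    ∀ (n r : ℕ), n0 ≤ n → 1 ≤ r → Even r → 9 * r ≤ 8 * n →
    ∀ (I : Finset (Fin n)) (y : Fin n → ℤ) (L : Finset (Fin n)) (g : ℤ) (w : Fin n → ℤ),
      (∀ j ∈ I, y j ≠ 0) → Star y I (n - I.card) r → n < I.card + r →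
      HV η CR I y L g w → (hvy CR I y L g).Nonempty →
      (1 / 2 - η) * Real.sqrt (2 / (Real.pi * (I.card : ℝ))) ≤ pz y I 0 →
      ∃ (z : Fin n → ℤ) (J T : Finset (Fin n)), HT (5 * η) ((100 * CR) ^ 2 + 2) z J T ∧
        J ∪ T = I ∧ ∀ B ⊆ I, (∑ i ∈ B, y i = 0 ↔ ∑ i ∈ B, z i = 0) := by
  obtain ⟨N1, hN1⟩ := PG_locate η CR hη hη' hCR
  obtain ⟨N2, hN2⟩ := PH_int η CR hη hη' hCR
  refine ⟨9 * (N1 + N2 + 1), ?_⟩
  intro n r hn hr hre hr9 I y L g w hy hS hIr hV hT hP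
  have hIn : I.card ≤ n := by simpa using Finset.card_le_univ I
  have hNn : n ≤ 9 * I.card := by omega
  have hIN1 : N1 ≤ I.card := by omega
  have hIN2 : N2 ≤ I.card := by omega
  have hI1 : 1 ≤ I.card := by omega
  obtain ⟨ho1, ho2, ho3⟩ := PE_ones η CR hη hη' hCR I y L g w hI1 hV hT hP
  have hcc : I.card + (n - I.card) = n := by omega
  have hmean := PE_mean η hη hη' I y L g w hV.sub hV.eqn (n - I.card) r hS hre hr
    (by rw [hcc]; exact hr9) ho2 ho3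
  have hcR : ((I.card : ℝ) + ((n - I.card : ℕ) : ℝ)) = (n : ℝ) := by exact_mod_cast hcc
  rw [hcR] at hmean
  have hINR : (I.card : ℝ) ≤ (n : ℝ) := by exact_mod_cast hIn
  have hI0 : (0 : ℝ) ≤ (I.card : ℝ) := by positivity
  have hmn : (I.card : ℝ) / 20 ≤ |mn w L| := by
    unfold mn
    rw [abs_div, abs_of_pos (by norm_num : (0 : ℝ) < 2)]
    linarith
  obtain ⟨hg1, hg2, hg3, hg4⟩ := hN1 (Fin n) I y L g w hIN1 hV hT hP hmn
  have hint := hN2 (Fin n) I y L g w hIN2 hV hT hP hmn hg1 hg3 hg4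
  have hgR : (g : ℝ) ≠ 0 := by exact_mod_cast hV.g0
  have hdiv : ∀ e ∈ I, ∃ k : ℤ, y e = g * k := by
    intro e he
    obtain ⟨k, hk⟩ := hint e he
    refine ⟨k, ?_⟩
    have h1 : (y e : ℝ) = (g : ℝ) * k := by
      rw [div_eq_iff hgR] at hk
      rw [hk]; ring
    exact_mod_cast h1
  choose! k hk using hdiv
  obtain ⟨ς, hς1, hς2⟩ : ∃ ς : ℤ, (ς = 1 ∨ ς = -1) ∧ (ς : ℝ) * ∑ j ∈ L, (w j : ℝ) = |∑ j ∈ L, (w j : ℝ)| := by
    rcases le_total 0 (∑ j ∈ L, (w j : ℝ)) with h | h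
    · exact ⟨1, Or.inl rfl, by rw [abs_of_nonneg h]; simp⟩
    · exact ⟨-1, Or.inr rfl, by rw [abs_of_nonpos h]; simp⟩
  have hςa : |(ς : ℝ)| = 1 := by rcases hς1 with h | h <;> simp [h]
  have hςz : |ς| = 1 := by rcases hς1 with h | h <;> simp [h]
  have hς0 : ς ≠ 0 := by rcases hς1 with h | h <;> simp [h]
  have hςsq : (ς : ℝ) ^ 2 = 1 := by rcases hς1 with h | h <;> simp [h]
  set T := hvy CR I y L g with hTdef
  have hTI : T ⊆ I \ L := by
    intro a ha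
    rw [hTdef] at ha
    unfold hvy at ha
    have h1 := (Finset.mem_filter.mp ha).1
    have h2 := (@Finset.mem_sdiff _ (fun a b => Classical.propDecidable (a = b)) I L a).mp h1
    exact Finset.mem_sdiff.mpr h2
  have hTI' : T ⊆ I := hTI.trans Finset.sdiff_subset
  have hLT : Disjoint L T := by
    rw [Finset.disjoint_left]
    intro a ha ht
    exact (Finset.mem_sdiff.mp (hTI ht)).2 ha
  have hLJ : L ⊆ I \ T := by
    intro a ha
    exact Finset.mem_sdiff.mpr ⟨hV.sub ha, fun ht => Finset.disjoint_left.mp hLT ha ht⟩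
  have hkw : ∀ j ∈ L, k j = w j := by
    intro j hj
    have h1 := hk j (hV.sub hj)
    have h2 := (hV.eqn j hj).1
    rw [h1] at h2
    exact mul_left_cancel₀ hV.g0 h2
  have hkx : ∀ e ∈ I, (y e : ℝ) / g = (k e : ℝ) := by
    intro e he
    rw [div_eq_iff hgR, hk e he]; push_cast; ring
  let z : Fin n → ℤ := fun e => if e ∈ I then ς * k e else 0
  have hzI : ∀ e ∈ I, z e = ς * k e := by
    intro e he; simp [z, he]
  have hJsplit : ∀ f : Fin n → ℝ, ∑ j ∈ I \ T, f j = ∑ j ∈ L, f j + ∑ j ∈ (I \ L) \ T, f j := by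
    intro f
    have h1 : I \ T = L ∪ ((I \ L) \ T) := by
      ext a
      simp only [Finset.mem_sdiff, Finset.mem_union]
      constructor
      · rintro ⟨h1, h2⟩
        by_cases h3 : a ∈ L
        · exact Or.inl h3
        · exact Or.inr ⟨⟨h1, h3⟩, h2⟩
      · rintro (h | ⟨⟨h1, _⟩, h2⟩)
        · exact Finset.mem_sdiff.mp (hLJ h)
        · exact ⟨h1, h2⟩
    rw [h1, Finset.sum_union]
    rw [Finset.disjoint_left]
    intro a ha ha2
    exact (Finset.mem_sdiff.mp (Finset.mem_sdiff.mp ha2).1).2 ha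
  have hzJ : ∑ i ∈ I \ T, (z i : ℝ) = (ς : ℝ) * (∑ j ∈ L, (w j : ℝ) + ∑ e ∈ (I \ L) \ T, (y e : ℝ) / g) := by
    rw [hJsplit, mul_add, Finset.mul_sum, Finset.mul_sum]
    congr 1
    · apply Finset.sum_congr rfl
      intro j hj
      rw [hzI j (hV.sub hj), hkw j hj]; push_cast; ring
    · apply Finset.sum_congr rfl
      intro j hj
      have hjI : j ∈ I := (Finset.mem_sdiff.mp (Finset.mem_sdiff.mp hj).1).1
      rw [hzI j hjI, hkx j hjI]; push_cast; ring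
  have hEs := hg3 ((I \ L) \ T) (Finset.Subset.refl _)
  have hςle : ∀ u : ℝ, |(ς : ℝ) * u| = |u| := by
    intro u; rw [abs_mul, hςa, one_mul]
  refine ⟨z, I \ T, T, ⟨?_, ?_, ?_, hg1, ?_, ?_, ?_, ?_⟩, ?_, ?_⟩
  · exact Finset.sdiff_disjoint
  · intro i
    rw [Finset.sdiff_union_of_subset hTI']
    constructor
    · intro h
      by_contra hi
      exact h (by simp [z, hi])
    · intro h
      rw [hzI i h]
      refine mul_ne_zero hς0 ?_
      intro h0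
      exact hy i h (by rw [hk i h, h0, mul_zero])
  · exact Finset.card_pos.mpr hT
  · -- ones
    have h1 : n1 w L ≤ n1 z (I \ T) := by
      unfold n1
      apply Finset.card_le_card
      intro a ha
      rw [Finset.mem_filter] at ha ⊢
      refine ⟨hLJ ha.1, ?_⟩
      rw [hzI a (hV.sub ha.1), hkw a ha.1, abs_mul, hςz, one_mul]
      exact ha.2
    have h2 : ((I \ T).card : ℝ) ≤ (I.card : ℝ) := by
      exact_mod_cast Finset.card_le_card Finset.sdiff_subset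
    have h3 : (n1 w L : ℝ) ≤ (n1 z (I \ T) : ℝ) := by exact_mod_cast h1
    have h4 : (1 - 5 * η) * ((I \ T).card : ℝ) ≤ (1 - 5 * η) * (I.card : ℝ) := by
      apply mul_le_mul_of_nonneg_left h2; linarith
    linarith
  · -- mean
    rw [hzJ, mul_add, hς2]
    have h1 : -(η * (I.card : ℝ)) ≤ (ς : ℝ) * ∑ e ∈ (I \ L) \ T, (y e : ℝ) / g := by
      have h2 := hςle (∑ e ∈ (I \ L) \ T, (y e : ℝ) / g)
      have h3 := neg_abs_le ((ς : ℝ) * ∑ e ∈ (I \ L) \ T, (y e : ℝ) / g)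
      linarith
    have h5 : η * (I.card : ℝ) ≤ 1 / 2000 * (n : ℝ) := by
      apply mul_le_mul hη' hINR hI0 (by norm_num)
    linarith
  · -- hv
    intro i hi
    have hiI := hTI' hi
    have h1 : 2 * (z i : ℝ) + ∑ j ∈ I \ T, (z j : ℝ) =
        (ς : ℝ) * (2 * ((y i : ℝ) / g + mn w L) + ∑ e ∈ (I \ L) \ T, (y e : ℝ) / g) := by
      rw [hzJ, hzI i hiI, hkx i hiI]
      unfold mn
      push_cast; ring
    rw [h1, hςle]
    have h2 := abs_add_le (2 * ((y i : ℝ) / g + mn w L)) (∑ e ∈ (I \ L) \ T, (y e : ℝ) / g)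
    rw [abs_mul, abs_of_pos (by norm_num : (0 : ℝ) < 2)] at h2
    have h3 := hg4 i hi
    have h4 : η * (I.card : ℝ) ≤ η * (n : ℝ) := mul_le_mul_of_nonneg_left hINR hη.le
    linarith
  · -- sq
    have h1 : ∑ i ∈ I \ T, (z i : ℝ) ^ 2 = sg w L + ∑ e ∈ (I \ L) \ T, ((y e : ℝ) / g) ^ 2 := by
      rw [hJsplit]
      unfold sg
      congr 1
      · apply Finset.sum_congr rfl
        intro j hj
        rw [hzI j (hV.sub hj), hkw j hj]; push_cast; rw [mul_pow, hςsq, one_mul]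
      · apply Finset.sum_congr rfl
        intro j hj
        have hjI : j ∈ I := (Finset.mem_sdiff.mp (Finset.mem_sdiff.mp hj).1).1
        rw [hzI j hjI, hkx j hjI]; push_cast; rw [mul_pow, hςsq, one_mul]
    rw [h1]
    have h2 : (1 + 10 * η) * (I.card : ℝ) ≤ 2 * (n : ℝ) := by
      apply mul_le_mul (by linarith) hINR hI0 (by norm_num)
    have h3 : (100 * CR) ^ 2 * (I.card : ℝ) ≤ (100 * CR) ^ 2 * (n : ℝ) :=
      mul_le_mul_of_nonneg_left hINR (by positivity)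
    nlinarith
  · exact Finset.sdiff_union_of_subset hTI'
  · intro B hB
    have h1 : ∑ i ∈ B, y i = g * ∑ i ∈ B, k i := by
      rw [Finset.mul_sum]
      exact Finset.sum_congr rfl (fun i hi => hk i (hB hi))
    have h2 : ∑ i ∈ B, z i = ς * ∑ i ∈ B, k i := by
      rw [Finset.mul_sum]
      exact Finset.sum_congr rfl (fun i hi => hzI i (hB hi))
    rw [h1, h2]
    simp [hV.g0, hς0]

end H31Y
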