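import Pool.Agent.Lib.H31Y.GE
import Pool.Agent.Lib.H31Y.FA

/-!
Chunk QA: the heavy second order inequality.
-/

namespace H31Y

open Finset H31Z

/-- PROOF. `FA_heavy` and `GE_final η 0` with `τ = 0`, `σ = n1 z J`. -/
theorem QA_second (η : ℝ) (hη : 0 < η) (hη1 : η ≤ 1) :
    ∃ κ : ℝ, 0 < κ ∧ κ ≤ 1 / 10 ∧ ∃ A0 : ℝ, 1 ≤ A0 ∧ ∀ (ι : Type) (J : Finset ι) (z : ι → ℤ) (m : ℤ),
      (∀ j ∈ J, z j ≠ 0) → A0 ≤ (n1 z J : ℝ) →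
      (1 - κ) * Real.sqrt (2 / (Real.pi * n1 z J)) ≤ pz z J m →
      sB z J + (2 * (m : ℝ) - ∑ j ∈ J, (z j : ℝ)) ^ 2 ≤ η * n1 z J ∧
      pz z J m ≤ Real.sqrt (2 / (Real.pi * n1 z J)) *
        (1 - (1 - η) * ((sB z J + (2 * (m : ℝ) - ∑ j ∈ J, (z j : ℝ)) ^ 2) / (2 * n1 z J))) := by
  obtain ⟨κ, hκ0, hκ1, σ0, hσ0, h⟩ := GE_final η 0 hη hη1 le_rfl
  refine ⟨κ, hκ0, hκ1, σ0, hσ0, fun ι J z m hz hA hp => ?_⟩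
  have h1 := FA_heavy z J hz m
  have h2 := h (n1 z J : ℝ) 0 hA le_rfl (by rw [zero_mul]) ι (bigs z J) (fun e => (z e : ℝ))
    (2 * (m : ℝ) - ∑ j ∈ J, (z j : ℝ)) (hp.trans h1)
  refine ⟨h2.1, h1.trans (h2.2.trans (le_of_eq ?_))⟩
  rw [zero_div, add_zero]
  rfl

end H31Y
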