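import Pool.Agent.Lib.H31Y.Defs
import Pool.Agent.Lib.H31Z.R1

/-!
Chunk QB: the Hoeffding bound for a single value.
-/

namespace H31Y

open Finset H31Z

theorem QB_mgf {ι : Type*} (z : ι → ℤ) (J : Finset ι) (θ : ℝ) :
    ∑ B ∈ J.powerset, Real.exp (θ * (2 * ∑ j ∈ B, (z j : ℝ) - ∑ j ∈ J, (z j : ℝ))) ≤
      2 ^ J.card * Real.exp (θ ^ 2 * (∑ j ∈ J, (z j : ℝ) ^ 2) / 2) := by
  classical
  have h1 : ∑ B ∈ J.powerset, Real.exp (θ * (2 * ∑ j ∈ B, (z j : ℝ) - ∑ j ∈ J, (z j : ℝ))) =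
      ∏ j ∈ J, (Real.exp (θ * z j) + Real.exp (-(θ * z j))) := by
    rw [Finset.prod_add]
    refine Finset.sum_congr rfl fun B hB => ?_
    have hBJ := Finset.mem_powerset.1 hB
    rw [← Real.exp_sum, ← Real.exp_sum, ← Real.exp_add]
    congr 1
    rw [Finset.sum_neg_distrib, ← Finset.mul_sum, ← Finset.mul_sum]
    have h2 := Finset.sum_sdiff (f := fun j => (z j : ℝ)) hBJ
    rw [← h2]
    ring
  rw [h1]
  have h3 : ∏ j ∈ J, (Real.exp (θ * z j) + Real.exp (-(θ * z j))) ≤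
      ∏ j ∈ J, (2 * Real.exp ((θ * z j) ^ 2 / 2)) := by
    refine Finset.prod_le_prod (fun j _ => by positivity) fun j _ => ?_
    have h3 := Real.cosh_le_exp_half_sq (θ * z j)
    rw [Real.cosh_eq] at h3
    linarith
  refine h3.trans (le_of_eq ?_)
  rw [Finset.prod_mul_distrib, Finset.prod_const, ← Real.exp_sum]
  congr 2
  rw [Finset.mul_sum, Finset.sum_div]
  refine Finset.sum_congr rfl fun j _ => ?_
  ring

/-- PROOF. For real `θ`: `∑_{B ⊆ J} exp (θ (2 ∑_B z - ∑_J z)) = ∏ (exp (θ z_j) + exp (-θ z_j)) ≤ 2^|J| exp (θ² ∑ z²/2)`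
(`Real.cosh_le_exp_half_sq`; compare `R1_mgf`). So `pz z J v ≤ exp (θ² Σ2/2 - θ (2v - ∑_J z))`,
`Σ2 = ∑_J z²`; take `θ = (2v - ∑_J z)/Σ2`. -/
theorem QB_hoeff {ι : Type*} (z : ι → ℤ) (J : Finset ι) (v : ℤ) (S : ℝ) (hS : 0 < S)
    (h : ∑ j ∈ J, (z j : ℝ) ^ 2 ≤ S) :
    pz z J v ≤ Real.exp (-(2 * (v : ℝ) - ∑ j ∈ J, (z j : ℝ)) ^ 2 / (2 * S)) := by
  classical
  obtain ⟨D, hD⟩ : ∃ D, D = 2 * (v : ℝ) - ∑ j ∈ J, (z j : ℝ) := ⟨_, rfl⟩
  rw [← hD]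
  have h1 := QB_mgf z J (D / S)
  have h2 : (cz z J v : ℝ) * Real.exp (D / S * D) ≤
      ∑ B ∈ J.powerset, Real.exp (D / S * (2 * ∑ j ∈ B, (z j : ℝ) - ∑ j ∈ J, (z j : ℝ))) := by
    unfold cz
    rw [← nsmul_eq_mul, ← Finset.sum_const]
    have h3 : ∑ B ∈ J.powerset.filter (fun B => ∑ i ∈ B, z i = v), Real.exp (D / S * D) =
        ∑ B ∈ J.powerset.filter (fun B => ∑ i ∈ B, z i = v),
          Real.exp (D / S * (2 * ∑ j ∈ B, (z j : ℝ) - ∑ j ∈ J, (z j : ℝ))) := by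
      refine Finset.sum_congr rfl fun B hB => ?_
      have h4 := (Finset.mem_filter.1 hB).2
      have h5 : ∑ j ∈ B, (z j : ℝ) = (v : ℝ) := by exact_mod_cast h4
      rw [h5, ← hD]
    rw [h3]
    exact Finset.sum_le_sum_of_subset_of_nonneg (Finset.filter_subset _ _)
      fun _ _ _ => (Real.exp_pos _).le
  have h3 : Real.exp ((D / S) ^ 2 * (∑ j ∈ J, (z j : ℝ) ^ 2) / 2) ≤ Real.exp (D ^ 2 / (2 * S)) := by
    apply Real.exp_le_exp.2
    have h4 : (D / S) ^ 2 * (∑ j ∈ J, (z j : ℝ) ^ 2) ≤ (D / S) ^ 2 * S :=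
      mul_le_mul_of_nonneg_left h (sq_nonneg _)
    have h5 : (D / S) ^ 2 * S = D ^ 2 / S := by
      field_simp
    have h6 : D ^ 2 / (2 * S) = D ^ 2 / S / 2 := by
      field_simp
    rw [h6]
    linarith
  have h4 : (cz z J v : ℝ) * Real.exp (D / S * D) ≤ 2 ^ J.card * Real.exp (D ^ 2 / (2 * S)) :=
    h2.trans (h1.trans (mul_le_mul_of_nonneg_left h3 (by positivity)))
  unfold pz
  rw [div_le_iff₀ (by positivity)]
  have h5 : Real.exp (D ^ 2 / (2 * S)) = Real.exp (-D ^ 2 / (2 * S)) * Real.exp (D / S * D) := by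
    rw [← Real.exp_add]
    congr 1
    field_simp
    ring
  rw [h5] at h4
  have h6 : 0 < Real.exp (D / S * D) := Real.exp_pos _
  have h7 : (cz z J v : ℝ) * Real.exp (D / S * D) ≤
      (Real.exp (-D ^ 2 / (2 * S)) * 2 ^ J.card) * Real.exp (D / S * D) := by
    linarith
  exact le_of_mul_le_mul_right h7 h6

end H31Y
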