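import Pool.Agent.Lib.H31Z.U1

/-!
Chunk SAa: pairs of abundant values
-/

namespace H31Y

open Finset H31Z

/-- PROOF. As `U1_pairs` (copy): `U1b_star` gives for every multiple `m ≤ (1-η)N` of
`h = (a+b)/gcd a b` that `m + c < r` or `r < m`. If `h ∣ r`: `m = r` if `r ≤ (1-η) N`, otherwise `U1b_large`
(`h ≤ 5 ≤ η N`). -/
theorem SA_pairs {ι : Type*} (η : ℝ) (hη : 0 < η) (hη1 : η ≤ 1 / 100) (K1 : ℕ) (δ : ℝ)
    (I : Finset ι) (y : ι → ℤ) (L : Finset ι) (g : ℤ) (w : ι → ℤ) (hB : Bal η K1 δ I y L g w)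
    (hI : 5 ≤ η * I.card) (c r : ℕ) (hS : Star y I c r) (hr : 9 * r ≤ 8 * (I.card + c)) :
    ∀ i ∈ VA w L K1 δ I.card, ∀ j ∈ VA w L K1 δ I.card, 0 < w i → w j < 0 →
      ((w i).natAbs + (w j).natAbs) / Nat.gcd (w i).natAbs (w j).natAbs ≤ 5 →
      ¬ ((w i).natAbs + (w j).natAbs) / Nat.gcd (w i).natAbs (w j).natAbs ∣ r := by
  intro i hi j hj hip hjn h5 hdvd
  have hst := U1b_star η K1 δ I y L g w hB c r hS hi hj hip hjn
  set a : ℕ := (w i).natAbs with ha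
  set b : ℕ := (w j).natAbs with hb
  have ha1 : 0 < a := by omega
  have hb1 : 0 < b := by omega
  have he : 0 < Nat.gcd a b := Nat.gcd_pos_of_pos_left b ha1
  have hh0 : 0 < (a + b) / Nat.gcd a b := by
    apply Nat.div_pos _ he
    exact (Nat.le_of_dvd ha1 (Nat.gcd_dvd_left a b)).trans (by omega)
  by_cases hrN : (r : ℝ) ≤ (1 - η) * (I.card : ℝ)
  · rcases hst r hdvd hrN with h6 | h6 <;> omega
  · push Not at hrN
    refine U1b_large hη hη1 (N := I.card) (c := c) (r := r) hh0 ?_ hr hrN hst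
    have h6 : (((a + b) / Nat.gcd a b : ℕ) : ℝ) ≤ 5 := by
      exact_mod_cast h5
    linarith

end H31Y
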