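import Pool.Agent.Lib.H31Z.U1
import Pool.Agent.Lib.H31Y.SAa

/-!
Chunk SAb: products of abundant values
-/

namespace H31Y

open Finset H31Z

/-- PROOF. `SA_pairs`. Let `a = w i`, `b = -w j`. If `ab ≤ 2`: `(1,1)` (`h = 2`), `(1,2)`, `(2,1)` (`h = 3`); both
divide `6 ∣ r`. If `4 ∣ r` (so `12 ∣ r`): `ab = 3`: `h = 4`; `ab = 4`: `(2,2)` has `h = 2`. If `5 ∣ r` too: `(1,4)`,
`(4,1)` have `h = 5`. -/
theorem SA_prod {ι : Type*} (η : ℝ) (hη : 0 < η) (hη1 : η ≤ 1 / 100) (K1 : ℕ) (δ : ℝ)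
    (I : Finset ι) (y : ι → ℤ) (L : Finset ι) (g : ℤ) (w : ι → ℤ) (hB : Bal η K1 δ I y L g w)
    (hI : 5 ≤ η * I.card) (c r : ℕ) (hS : Star y I c r) (hr : 9 * r ≤ 8 * (I.card + c))
    (h6 : 6 ∣ r) :
    ∀ i ∈ VA w L K1 δ I.card, ∀ j ∈ VA w L K1 δ I.card, 0 < w i → w j < 0 →
      3 ≤ w i * (-w j) ∧
      (w i * (-w j) = 3 → w i = 1 ∨ w j = -1) ∧
      (4 ∣ r → 4 ≤ w i * (-w j) ∧ (w i * (-w j) = 4 → w i = 1 ∨ w j = -1)) ∧
      (4 ∣ r → 5 ∣ r → 5 ≤ w i * (-w j)) := by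
  intro i hi j hj hip hjn
  have key := SA_pairs η hη hη1 K1 δ I y L g w hB hI c r hS hr i hi j hj hip hjn
  obtain ⟨a, ha⟩ : ∃ a : ℕ, w i = a := ⟨(w i).natAbs, by omega⟩
  obtain ⟨b, hb⟩ : ∃ b : ℕ, w j = -(b : ℤ) := ⟨(w j).natAbs, by omega⟩
  rw [ha] at hip
  rw [hb] at hjn
  rw [ha, hb] at key ⊢
  have ha1 : 1 ≤ a := by omega
  have hb1 : 1 ≤ b := by omega
  rw [Int.natAbs_neg, Int.natAbs_natCast, Int.natAbs_natCast] at key
  have hab : (a : ℤ) * (- -(b : ℤ)) = ((a * b : ℕ) : ℤ) := by push_cast; ring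
  rw [hab]
  have hsmall : ∀ n : ℕ, a * b ≤ n → a ≤ n ∧ b ≤ n := by
    intro n hn
    constructor
    · exact (Nat.le_mul_of_pos_right a hb1).trans hn
    · exact (Nat.le_mul_of_pos_left b ha1).trans hn
  have h1 : 3 ≤ a * b := by
    by_contra hlt
    have hle : a * b ≤ 2 := by omega
    obtain ⟨h2, h3⟩ := hsmall 2 hle
    interval_cases a <;> interval_cases b <;> simp at key <;> omega
  have h2 : a * b = 3 → a = 1 ∨ b = 1 := by
    intro h
    obtain ⟨h3, h4⟩ := hsmall 3 h.le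
    interval_cases a <;> interval_cases b <;> omega
  have h3 : 4 ∣ r → 4 ≤ a * b ∧ (a * b = 4 → a = 1 ∨ b = 1) := by
    intro h4
    constructor
    · by_contra hlt
      have hle : a * b = 3 := by omega
      obtain ⟨h5, h7⟩ := hsmall 3 hle.le
      interval_cases a <;> interval_cases b <;> simp at key hle <;> omega
    · intro h
      obtain ⟨h5, h7⟩ := hsmall 4 h.le
      interval_cases a <;> interval_cases b <;> simp at key h ⊢ <;> omega
  have h4 : 4 ∣ r → 5 ∣ r → 5 ≤ a * b := by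
    intro h4 h5
    by_contra hlt
    have hle : a * b = 4 := by have := (h3 h4).1; omega
    obtain ⟨h7, h8⟩ := hsmall 4 hle.le
    have h9 := (h3 h4).2 hle
    interval_cases a <;> interval_cases b <;> simp at key hle h9 <;> omega
  refine ⟨by exact_mod_cast h1, fun h => ?_, fun h => ⟨by exact_mod_cast (h3 h).1, fun h' => ?_⟩,
    fun h h' => by exact_mod_cast h4 h h'⟩
  · have := h2 (by exact_mod_cast h)
    omega
  · have := (h3 h).2 (by exact_mod_cast h')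
    omega

end H31Y
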