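import Pool.Agent.Lib.H31Y.FT
import Pool.Agent.Lib.H31Z.T1
import Pool.Agent.Lib.H31Z.G1
import Pool.Agent.Lib.H31Z.F1
import Pool.Agent.Lib.H31Z.F2
import Pool.Agent.Lib.H31Z.H1

/-!
Chunk SCa: maximal probability for p = 3, 4
-/

namespace H31Y

open Finset H31Z MeasureTheory

theorem SC_major (p : ℕ) (hp3 : 3 ≤ p) (hp4 : p ≤ 4) (a b : ℕ) (t : ℝ) (ht : |t| ≤ Real.pi) :
    |Real.cos (t / 2)| ^ a * |Real.cos (p * t / 2)| ^ b ≤
      Real.exp (-((a + (p : ℝ) ^ 2 * b : ℝ) / 8) * t ^ 2) + Real.exp (-(a : ℝ) / 13) := by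
  have hπ : 0 < Real.pi := Real.pi_pos
  have hp3' : (3 : ℝ) ≤ p := by exact_mod_cast hp3
  have hp4' : (p : ℝ) ≤ 4 := by exact_mod_cast hp4
  by_cases h : |t| ≤ Real.pi / p
  · have h0 : p * |t| ≤ Real.pi := by
      rw [le_div_iff₀ (by linarith)] at h
      linarith
    have h1 := T1_cos_le (t / 2) (by
      rw [abs_div, abs_two]
      linarith)
    have h2 := T1_cos_le (p * t / 2) (by
      rw [abs_div, abs_two, abs_mul, abs_of_nonneg (by linarith : (0 : ℝ) ≤ p)]
      linarith)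
    have h3 : |Real.cos (t / 2)| ^ a * |Real.cos (p * t / 2)| ^ b ≤
        Real.exp (-(t / 2) ^ 2 / 2) ^ a * Real.exp (-(p * t / 2) ^ 2 / 2) ^ b :=
      mul_le_mul (pow_le_pow_left₀ (abs_nonneg _) h1 a) (pow_le_pow_left₀ (abs_nonneg _) h2 b)
        (by positivity) (by positivity)
    have h4 : Real.exp (-(t / 2) ^ 2 / 2) ^ a * Real.exp (-(p * t / 2) ^ 2 / 2) ^ b =
        Real.exp (-((a + (p : ℝ) ^ 2 * b : ℝ) / 8) * t ^ 2) := by
      rw [← Real.exp_nat_mul, ← Real.exp_nat_mul, ← Real.exp_add]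
      congr 1
      ring
    rw [h4] at h3
    have := Real.exp_pos (-(a : ℝ) / 13)
    linarith
  · push Not at h
    have h1 : |Real.cos (t / 2)| ≤ Real.exp (-1 / 13) := by
      have h2 : |Real.cos (t / 2)| = Real.cos (|t| / 2) := by
        rw [← Real.cos_abs (t / 2), abs_div, abs_two]
        exact abs_of_nonneg (Real.cos_nonneg_of_mem_Icc ⟨by linarith [abs_nonneg t], by linarith⟩)
      have h3 : Real.cos (|t| / 2) ≤ Real.cos (Real.pi / 8) := by
        refine Real.cos_le_cos_of_nonneg_of_le_pi (by linarith) (by linarith) ?_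
        have h4 : Real.pi / 4 ≤ Real.pi / p := div_le_div_of_nonneg_left hπ.le (by linarith) hp4'
        linarith
      rw [h2]
      exact h3.trans FT_pi8
    have h2 : |Real.cos (t / 2)| ^ a * |Real.cos (p * t / 2)| ^ b ≤ Real.exp (-1 / 13) ^ a * 1 :=
      mul_le_mul (pow_le_pow_left₀ (abs_nonneg _) h1 a) (pow_le_one₀ (abs_nonneg _) (Real.abs_cos_le_one _))
        (by positivity) (by positivity)
    have h3 : Real.exp (-1 / 13) ^ a * 1 = Real.exp (-(a : ℝ) / 13) := by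
      rw [mul_one, ← Real.exp_nat_mul]
      congr 1
      ring
    rw [h3] at h2
    have := Real.exp_pos (-((a + (p : ℝ) ^ 2 * b : ℝ) / 8) * t ^ 2)
    linarith

/-- PROOF (port of `A2_max`). `F1_bound`; for `|t| ≤ π/p`: `T1_cos_le` for `t/2`, `pt/2`; for `π/p ≤ |t| ≤ π`
`|cos (t/2)| ≤ cos (π/8) ≤ exp (-1/13)` (`FT_pi8`). -/
theorem SC_max {ι : Type*} (p : ℕ) (hp3 : 3 ≤ p) (hp4 : p ≤ 4) (w : ι → ℤ) (L : Finset ι) (a b : ℕ)
    (hab : 1 ≤ a + b)
    (h1 : (L.filter (fun j => w j = 1)).card = a)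
    (h2 : (L.filter (fun j => w j = -(p : ℤ))).card = b)
    (h3 : ∀ j ∈ L, w j = 1 ∨ w j = -(p : ℤ)) (s : ℤ) :
    pz w L s ≤ Real.sqrt (2 / (Real.pi * (a + (p : ℝ) ^ 2 * b))) + Real.exp (-(a : ℝ) / 13) := by
  classical
  have hπ : 0 < Real.pi := Real.pi_pos
  have hp3' : (3 : ℝ) ≤ p := by exact_mod_cast hp3
  have hprod : ∀ t : ℝ, ∏ j ∈ L, |Real.cos (t * w j / 2)| =
      |Real.cos (t / 2)| ^ a * |Real.cos (p * t / 2)| ^ b := by
    intro t
    rw [← Finset.prod_filter_mul_prod_filter_not L (fun j => w j = 1)]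
    have e1 : L.filter (fun j => ¬ w j = 1) = L.filter (fun j => w j = -(p : ℤ)) := by
      refine Finset.filter_congr fun j hj => ?_
      rcases h3 j hj with h | h
      · rw [h]
        omega
      · rw [h]
        omega
    rw [e1]
    congr 1
    · rw [← h1, Finset.prod_congr rfl fun j hj => ?_, Finset.prod_const]
      rw [(Finset.mem_filter.1 hj).2, Int.cast_one, mul_one]
    · rw [← h2, Finset.prod_congr rfl fun j hj => ?_, Finset.prod_const]
      rw [(Finset.mem_filter.1 hj).2]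
      have e2 : t * ((-(p : ℤ) : ℤ) : ℝ) / 2 = -(p * t / 2) := by
        push_cast
        ring
      rw [e2, Real.cos_neg]
  refine (F1_bound w L s).trans ?_
  simp only [hprod]
  obtain ⟨σ, hσ⟩ : ∃ σ : ℝ, σ = a + (p : ℝ) ^ 2 * b := ⟨_, rfl⟩
  have hab' : (1 : ℝ) ≤ a + b := by exact_mod_cast hab
  have hb0 : (0 : ℝ) ≤ b := Nat.cast_nonneg b
  have hσ0 : 0 < σ := by
    have : (1 : ℝ) ≤ (p : ℝ) ^ 2 := by nlinarith
    nlinarith
  have hgi : Integrable fun t : ℝ => Real.exp (-(σ / 8) * t ^ 2) := integrable_exp_neg_mul_sq (by positivity)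
  have hle : ∫ t in (-Real.pi)..Real.pi, |Real.cos (t / 2)| ^ a * |Real.cos (p * t / 2)| ^ b ≤
      ∫ t in (-Real.pi)..Real.pi, (Real.exp (-(σ / 8) * t ^ 2) + Real.exp (-(a : ℝ) / 13)) := by
    refine intervalIntegral.integral_mono_on (by linarith) ?_ ?_ ?_
    · apply Continuous.intervalIntegrable
      fun_prop
    · apply Continuous.intervalIntegrable
      fun_prop
    · intro t ht
      rw [hσ]
      exact SC_major p hp3 hp4 a b t (abs_le.2 ht)
  have heq : ∫ t in (-Real.pi)..Real.pi, (Real.exp (-(σ / 8) * t ^ 2) + Real.exp (-(a : ℝ) / 13)) =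
      (∫ t in (-Real.pi)..Real.pi, Real.exp (-(σ / 8) * t ^ 2)) + 2 * Real.pi * Real.exp (-(a : ℝ) / 13) := by
    rw [intervalIntegral.integral_add hgi.intervalIntegrable (by apply Continuous.intervalIntegrable; fun_prop),
      intervalIntegral.integral_const, smul_eq_mul]
    ring
  have hG : ∫ t in (-Real.pi)..Real.pi, Real.exp (-(σ / 8) * t ^ 2) ≤ Real.sqrt (Real.pi / (σ / 8)) := by
    rw [intervalIntegral.integral_of_le (by linarith), ← integral_gaussian (σ / 8)]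
    exact setIntegral_le_integral hgi (Filter.Eventually.of_forall fun t => (Real.exp_pos _).le)
  have hval : 1 / (2 * Real.pi) * Real.sqrt (Real.pi / (σ / 8)) = Real.sqrt (2 / (Real.pi * σ)) := by
    rw [← Real.sqrt_sq (by positivity : 0 ≤ 1 / (2 * Real.pi)), ← Real.sqrt_mul (by positivity)]
    congr 1
    field_simp
    ring
  rw [← hσ, ← hval]
  have h4 : 1 / (2 * Real.pi) * (2 * Real.pi * Real.exp (-(a : ℝ) / 13)) = Real.exp (-(a : ℝ) / 13) := by
    field_simp
  calc 1 / (2 * Real.pi) * ∫ t in (-Real.pi)..Real.pi, |Real.cos (t / 2)| ^ a * |Real.cos (p * t / 2)| ^ b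
      ≤ 1 / (2 * Real.pi) * (Real.sqrt (Real.pi / (σ / 8)) + 2 * Real.pi * Real.exp (-(a : ℝ) / 13)) := by
        apply mul_le_mul_of_nonneg_left _ (by positivity)
        linarith
    _ = _ := by rw [mul_add, h4]

end H31Y
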