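import Pool.Agent.Lib.H31Y.FT
import Pool.Agent.Lib.H31Z.T1
import Pool.Agent.Lib.H31Z.G1
import Pool.Agent.Lib.H31Z.F1
import Pool.Agent.Lib.H31Z.F2
import Pool.Agent.Lib.H31Z.H1
import Pool.Agent.Lib.H31Y.SCa

/-!
Chunk SCb: integrality for p = 3, 4
-/

namespace H31Y

open Finset H31Z MeasureTheory

theorem sc_exp_le {x : ℝ} (hx : 0 < x) : Real.exp (-x) ≤ 1 / x := by
  rw [Real.exp_neg, ← one_div]
  exact one_div_le_one_div_of_le hx (by linarith [Real.add_one_le_exp x])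

theorem sc_num (p n a b : ℝ) (hp3 : 3 ≤ p) (hp4 : p ≤ 4) (hn : 20000 ≤ n)
    (h1 : (98 / 100) * (p * n) ≤ a + p ^ 2 * b) (h2 : n / 2 ≤ a) :
    Real.sqrt (2 / (Real.pi * (a + p ^ 2 * b))) + Real.exp (-a / 13) <
      2 * (9 / 10 * Real.sqrt (2 / (Real.pi * p * n))) := by
  have hπ : 0 < Real.pi := Real.pi_pos
  have hπ4 : Real.pi < 3.15 := Real.pi_lt_d2
  have hn0 : 0 < n := by linarith
  have hpn : 0 < p * n := by positivity
  obtain ⟨q, hq⟩ : ∃ q, q = Real.sqrt (2 / (Real.pi * p * n)) := ⟨_, rfl⟩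
  have hq2 : q ^ 2 = 2 / (Real.pi * p * n) := by
    rw [hq]
    exact Real.sq_sqrt (by positivity)
  have hq0 : 0 < q := by
    rw [hq]
    exact Real.sqrt_pos.2 (by positivity)
  rw [← hq]
  have e1 : Real.sqrt (2 / (Real.pi * (a + p ^ 2 * b))) ≤ 11 / 10 * q := by
    have hσp : 0 < a + p ^ 2 * b := by linarith
    rw [Real.sqrt_le_left (by positivity), mul_pow, hq2]
    have h3 : (11 / 10 : ℝ) ^ 2 * (2 / (Real.pi * p * n)) = (121 / 50) / (Real.pi * p * n) := by
      ring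
    rw [h3, div_le_div_iff₀ (by positivity) (by positivity)]
    have h4 : Real.pi * ((98 / 100) * (p * n)) ≤ Real.pi * (a + p ^ 2 * b) :=
      mul_le_mul_of_nonneg_left h1 hπ.le
    have h5 : 0 ≤ Real.pi * p * n := by positivity
    nlinarith
  have e2 : Real.exp (-a / 13) ≤ 6 / 10 * q := by
    have e3 : Real.exp (-a / 13) ≤ Real.exp (-(n / 26)) := by
      rw [Real.exp_le_exp]
      linarith
    refine e3.trans ((sc_exp_le (by positivity)).trans ?_)
    have e4 : (1 / (n / 26)) ^ 2 ≤ (6 / 10 * q) ^ 2 := by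
      rw [mul_pow, hq2]
      have h3 : (6 / 10 : ℝ) ^ 2 * (2 / (Real.pi * p * n)) = (72 / 100) / (Real.pi * p * n) := by
        ring
      have h4 : (1 / (n / 26)) ^ 2 = 676 / n ^ 2 := by
        field_simp
        norm_num
      rw [h3, h4, div_le_div_iff₀ (by positivity) (by positivity)]
      have h5 : Real.pi * p ≤ 3.15 * 4 := mul_le_mul hπ4.le hp4 (by linarith) (by norm_num)
      have h6 : Real.pi * p * n ≤ 3.15 * 4 * n := mul_le_mul_of_nonneg_right h5 hn0.le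
      nlinarith
    exact (abs_le_of_sq_le_sq' e4 (by positivity)).2
  linarith

/-- PROOF (port of `A2_int`). `L = {i : x i ∈ {1,-p}}`, `E` its complement; `a + p² b = p(a+b) - (p-1)(a - pb) ≥
0.98 p n`, `A = sqrt (2/(π(a+p²b))) + exp (-a/13) ≤ 1.02 sqrt (2/(πpn))` for large `n`. If some `x e` is not an
integer, `H1_nonint` gives `pn x univ 0 ≤ A/2`. -/
theorem SC_int (p : ℕ) (hp3 : 3 ≤ p) (hp4 : p ≤ 4) : ∃ n0 : ℕ, ∀ n : ℕ, n0 ≤ n → ∀ x : Fin n → ℝ,
    (99 / 100) * (n : ℝ) ≤ ((Finset.univ.filter (fun i => x i = 1)).card : ℝ) +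
      ((Finset.univ.filter (fun i => x i = -(p : ℝ))).card : ℝ) →
    |((Finset.univ.filter (fun i => x i = 1)).card : ℝ) -
      p * ((Finset.univ.filter (fun i => x i = -(p : ℝ))).card : ℝ)| ≤ (n : ℝ) / 100 →
    (9 / 10) * Real.sqrt (2 / (Real.pi * p * n)) ≤ pn x Finset.univ 0 →
    ∃ z : Fin n → ℤ, ∀ i, x i = (z i : ℝ) := by
  classical
  refine ⟨20000, fun n hn x hc1 hc2 hP => ?_⟩
  have hp3' : (3 : ℝ) ≤ p := by exact_mod_cast hp3
  have hp4' : (p : ℝ) ≤ 4 := by exact_mod_cast hp4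
  have hnR : (20000 : ℝ) ≤ n := by exact_mod_cast hn
  have hn0 : (0 : ℝ) < n := by linarith
  obtain ⟨a, ha⟩ : ∃ a, a = (Finset.univ.filter (fun i => x i = 1)).card := ⟨_, rfl⟩
  obtain ⟨b, hb⟩ : ∃ b, b = (Finset.univ.filter (fun i => x i = -(p : ℝ))).card := ⟨_, rfl⟩
  rw [← ha, ← hb] at hc1 hc2
  obtain ⟨c3, c4⟩ := abs_le.1 hc2
  have hna : (n : ℝ) / 2 ≤ a := by nlinarith
  have hσ : (98 / 100) * ((p : ℝ) * n) ≤ a + (p : ℝ) ^ 2 * b := by
    have e1 : (a : ℝ) + (p : ℝ) ^ 2 * b = p * (a + b) - (p - 1) * (a - p * b) := by ring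
    rw [e1]
    have e2 : (p : ℝ) * (99 / 100 * n) ≤ p * (a + b) := mul_le_mul_of_nonneg_left hc1 (by linarith)
    have e3 : ((p : ℝ) - 1) * (a - p * b) ≤ (p - 1) * (n / 100) :=
      mul_le_mul_of_nonneg_left c4 (by linarith)
    nlinarith
  have hab : 1 ≤ a + b := by
    have : (1 : ℝ) ≤ a + b := by linarith
    exact_mod_cast this
  obtain ⟨L, hL⟩ : ∃ L : Finset (Fin n), L = Finset.univ.filter (fun i => x i = 1 ∨ x i = -(p : ℝ)) :=
    ⟨_, rfl⟩
  obtain ⟨w, hw⟩ : ∃ w : Fin n → ℤ, ∀ i, w i = if x i = 1 then 1 else -(p : ℤ) := ⟨_, fun _ => rfl⟩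
  have hxw : ∀ j ∈ L, x j = (w j : ℝ) := by
    intro j hj
    rw [hL] at hj
    rw [hw]
    rcases (Finset.mem_filter.1 hj).2 with h | h
    · rw [if_pos h, h]
      norm_num
    · rw [if_neg (by rw [h]; linarith), h]
      push_cast
      rfl
  have hw3 : ∀ j ∈ L, w j = 1 ∨ w j = -(p : ℤ) := by
    intro j _
    rw [hw]
    by_cases h : x j = 1
    · exact Or.inl (if_pos h)
    · exact Or.inr (if_neg h)
  have hf1 : (L.filter (fun j => w j = 1)).card = a := by
    rw [ha]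
    congr 1
    ext j
    rw [hL]
    simp only [Finset.mem_filter, Finset.mem_univ, true_and, hw]
    constructor
    · rintro ⟨_, h⟩
      by_contra h1
      rw [if_neg h1] at h
      omega
    · intro h
      exact ⟨Or.inl h, if_pos h⟩
  have hf2 : (L.filter (fun j => w j = -(p : ℤ))).card = b := by
    rw [hb]
    congr 1
    ext j
    rw [hL]
    simp only [Finset.mem_filter, Finset.mem_univ, true_and, hw]
    constructor
    · rintro ⟨h2, h⟩
      rcases h2 with h2 | h2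
      · rw [if_pos h2] at h
        omega
      · exact h2
    · intro h
      exact ⟨Or.inr h, if_neg (by rw [h]; linarith)⟩
  obtain ⟨A, hA⟩ : ∃ A, A = Real.sqrt (2 / (Real.pi * (a + (p : ℝ) ^ 2 * b))) +
      Real.exp (-(a : ℝ) / 13) := ⟨_, rfl⟩
  have hA0 : 0 ≤ A := by rw [hA]; positivity
  have hmax : ∀ s : ℝ, pn x L s ≤ A := by
    intro s
    by_cases hs : ∃ k : ℤ, s = k
    · obtain ⟨k, rfl⟩ := hs
      rw [F2_cast x w L hxw k, hA]
      exact SC_max p hp3 hp4 w L a b hab hf1 hf2 hw3 k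
    · push Not at hs
      rw [F2_zero x w L hxw s hs]
      exact hA0
  have hA1 := sc_num (p : ℝ) n a b hp3' hp4' hnR hσ hna
  rw [← hA] at hA1
  have hall : ∀ e, ∃ k : ℤ, x e = k := by
    by_contra hcon
    push Not at hcon
    obtain ⟨e, he⟩ := hcon
    have heE : e ∈ Finset.univ \ L := by
      rw [Finset.mem_sdiff]
      refine ⟨Finset.mem_univ _, fun h => ?_⟩
      exact he _ (hxw e h)
    have h1 := H1_nonint x w L (Finset.univ \ L) Finset.disjoint_sdiff hxw A hmax e heE he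
    rw [Finset.union_sdiff_of_subset (Finset.subset_univ L)] at h1
    linarith
  exact ⟨fun e => (hall e).choose, fun e => (hall e).choose_spec⟩

end H31Y
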