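import Pool.Agent.Lib.H31Y.Defs
import Pool.Agent.Lib.H31Y.SA
import Pool.Agent.Lib.H31Y.SB
import Pool.Agent.Lib.H31Y.SC

/-!
Chunk SD: from the balanced structure to an integer vector near `(1^a, (-p)^b)`.
-/

namespace H31Y

open Finset H31Z

/-- PROOF. `ηB = ηS/1000`. `N = |I| > n - r ≥ n/9`. `U1_zeros` (`c = n - |I|`): `n < |I| + 2 K1`, so `|I| ≥ (1-η) n`. `SB_struct`
gives `ς`. Let `x i = y i/(ς g)` on `I`, `0` outside: `x = 1` iff `y = ς g` (on `I`), etc.; `pn x univ 0 = pz y I 0`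
(`F2_zeros`, `F2_scale`, `F2_cast`), `≥ 0.9 sqrt (2/(πpn))`. `SC_int`: `x = z`. `NearP p ηS z` from `SB_struct`
(`200 ηB ≤ ηS`). Admissibility: if `|S| = r`, `∑_S z = 0`, then `B = S ∩ I` has `∑_B y = 0` and `r - |B| ≤ n - |I|`, against
`Star`. -/
theorem SD_red (p : ℕ) (hp3 : 3 ≤ p) (hp4 : p ≤ 4) (ηS : ℝ) (hηS : 0 < ηS) (hηS1 : ηS ≤ 1 / 100) :
    ∃ ηB : ℝ, 0 < ηB ∧ ηB ≤ 1 / 2000 ∧ ∀ η : ℝ, 0 < η → η ≤ ηB → ∀ (K1 : ℕ) (δ : ℝ),
      ∃ n0 : ℕ, ∀ (n r : ℕ), n0 ≤ n → 1 ≤ r → 9 * r ≤ 8 * n →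
      ∀ (I : Finset (Fin n)) (y : Fin n → ℤ), (∀ j ∈ I, y j ≠ 0) →
      Star y I (n - I.card) r → n < I.card + r →
      ∀ (L : Finset (Fin n)) (g : ℤ) (w : Fin n → ℤ), Bal η K1 δ I y L g w →
      (∀ i ∈ VA w L K1 δ I.card, ∀ j ∈ VA w L K1 δ I.card, 0 < w i → w j < 0 →
        (p : ℤ) ≤ w i * (-w j) ∧ (w i * (-w j) = p → w i = 1 ∨ w j = -1)) →
      (1 - η) * Real.sqrt (2 / (Real.pi * p * n)) ≤ pz y I 0 →
      ∃ z : Fin n → ℤ, NearP p ηS z ∧ (∀ S : Finset (Fin n), S.card = r → ∑ i ∈ S, z i ≠ 0) ∧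
        pz z Finset.univ 0 = pz y I 0 := by
  obtain ⟨n1, hn1⟩ := SC_int p hp3 hp4
  refine ⟨ηS / 1000, by positivity, by linarith, ?_⟩
  intro η hη hηB K1 δ
  obtain ⟨n2, hn2⟩ := exists_nat_ge (18 * (K1 : ℝ) / η)
  refine ⟨n1 + n2 + 9, ?_⟩
  intro n r hn hr hr9 I y hy hS hIr L g w hB hpr hP
  classical
  have hIn : I.card ≤ n := by simpa using Finset.card_le_univ I
  have hNn : n ≤ 9 * I.card := by omega
  have hI0 : 0 < I.card := by omega
  have hn0 : 1 ≤ n := by omega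
  have hNnR : (n : ℝ) ≤ 9 * (I.card : ℝ) := by exact_mod_cast hNn
  have hINR : (I.card : ℝ) ≤ (n : ℝ) := by exact_mod_cast hIn
  have hη1 : η ≤ 1 / 100000 := by linarith
  have hK : 2 * (K1 : ℝ) ≤ η * (I.card : ℝ) := by
    have h1 : (n2 : ℝ) ≤ (n : ℝ) := by exact_mod_cast (by omega : n2 ≤ n)
    have h2 : 18 * (K1 : ℝ) / η ≤ (n : ℝ) := hn2.trans h1
    rw [div_le_iff₀ hη] at h2
    nlinarith
  have hKn : 2 * (K1 : ℝ) ≤ η * (n : ℝ) := hK.trans (mul_le_mul_of_nonneg_left hINR hη.le)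
  have hcc : I.card + (n - I.card) = n := by omega
  have hz := U1_zeros η hη (by linarith) K1 δ I y L g w hB hI0 hK (n - I.card) r hS
    (by rw [hcc]; exact hr9)
  obtain ⟨ς, hς, hc1, hc2⟩ := SB_struct p hp3 hp4 η hη (by linarith) K1 δ n I y L g w hB hIn
    (by omega) hKn hn0 hP hpr
  have hς0 : ς ≠ 0 := by rcases hς with h | h <;> rw [h] <;> norm_num
  have hh0 : ς * g ≠ 0 := mul_ne_zero hς0 hB.g0
  obtain ⟨h, hhd⟩ : ∃ h, h = ς * g := ⟨_, rfl⟩
  rw [← hhd] at hc1 hc2 hh0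
  have hhR : (h : ℝ) ≠ 0 := by exact_mod_cast hh0
  have hn1R : (0 : ℝ) < (n : ℝ) := by exact_mod_cast hn0
  let x : Fin n → ℝ := fun i => if i ∈ I then (y i : ℝ) / h else 0
  have hxI : ∀ i ∈ I, x i = (y i : ℝ) / h := by
    intro i hi; simp [x, hi]
  have hxO : ∀ i, i ∉ I → x i = 0 := by
    intro i hi; simp [x, hi]
  have hyx : ∀ i ∈ I, (y i : ℝ) = (h : ℝ) * x i := by
    intro i hi; rw [hxI i hi]; field_simp
  have hkey : ∀ (a : ℤ), a ≠ 0 → ∀ i, x i = (a : ℝ) ↔ i ∈ I ∧ y i = a * h := by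
    intro a ha i
    by_cases hi : i ∈ I
    · rw [hxI i hi, div_eq_iff hhR]
      constructor
      · intro h1
        exact ⟨hi, by exact_mod_cast h1⟩
      · rintro ⟨_, h1⟩
        rw [h1]; push_cast; ring
    · rw [hxO i hi]
      constructor
      · intro h1
        exact absurd h1.symm (by exact_mod_cast ha)
      · rintro ⟨h1, _⟩
        exact absurd h1 hi
  have hf1 : Finset.univ.filter (fun i => x i = 1) = I.filter (fun j => (y j : ℤ) = h) := by
    ext i
    simp only [Finset.mem_filter, Finset.mem_univ, true_and]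
    have h1 := hkey 1 one_ne_zero i
    push_cast at h1
    rw [one_mul] at h1
    exact h1
  have hp0 : (p : ℤ) ≠ 0 := by omega
  have hfp : Finset.univ.filter (fun i => x i = -(p : ℝ)) =
      I.filter (fun j => (y j : ℤ) = -(p : ℤ) * h) := by
    ext i
    simp only [Finset.mem_filter, Finset.mem_univ, true_and]
    have h1 := hkey (-(p : ℤ)) (by omega) i
    push_cast at h1
    exact h1
  have hpn : pn x Finset.univ 0 = pz y I 0 := by
    have h1 : pn x (I ∪ (Finset.univ \ I)) 0 = pn x I 0 :=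
      F2_zeros x I (Finset.univ \ I) Finset.disjoint_sdiff (fun j hj =>
        hxO j (Finset.mem_sdiff.mp hj).2) 0
    rw [Finset.union_sdiff_of_subset (Finset.subset_univ I)] at h1
    rw [h1, ← F2_scale x (fun i => (y i : ℝ)) I h hhR hyx]
    have h2 := F2_cast (fun i => (y i : ℝ)) y I (fun _ _ => rfl) 0
    rw [Int.cast_zero] at h2
    exact h2
  have hηn : 0 < η * n := by positivity
  have hηS' : 200 * η * n ≤ ηS * n := by
    have : 200 * η ≤ ηS := by linarith
    exact mul_le_mul_of_nonneg_right this hn1R.le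
  have hηS2 : 200 * η * n ≤ 1 / 100 * n := by
    have : 200 * η ≤ 1 / 100 := by linarith
    exact mul_le_mul_of_nonneg_right this hn1R.le
  obtain ⟨z, hz⟩ := hn1 n (by omega) x
    (by rw [hf1, hfp]; linarith)
    (by rw [hf1, hfp]; linarith)
    (by
      rw [hpn]
      refine le_trans ?_ hP
      apply mul_le_mul_of_nonneg_right _ (Real.sqrt_nonneg _)
      linarith)
  have hca : ∀ a : ℤ, a ≠ 0 → ca z a = (I.filter (fun j => (y j : ℤ) = a * h)).card := by
    intro a ha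
    unfold ca
    congr 1
    ext i
    simp only [Finset.mem_filter, Finset.mem_univ, true_and]
    rw [← hkey a ha i, hz i]
    constructor
    · intro h1; rw [h1]
    · intro h1; exact_mod_cast h1
  have hca1 := hca 1 one_ne_zero
  rw [one_mul] at hca1
  have hcap := hca (-(p : ℤ)) (by omega)
  refine ⟨z, ⟨?_, ?_⟩, ?_, ?_⟩
  · rw [hca1, hcap]; linarith
  · rw [hca1, hcap]; linarith
  · intro S hSr hS0
    have h1 : ∑ i ∈ S, x i = 0 := by
      have h2 : ∑ i ∈ S, x i = ((∑ i ∈ S, z i : ℤ) : ℝ) := by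
        rw [Int.cast_sum]
        exact Finset.sum_congr rfl fun i _ => hz i
      rw [h2, hS0, Int.cast_zero]
    have h3 : ∑ i ∈ S ∩ I, x i = 0 := by
      rw [← h1]
      apply Finset.sum_subset Finset.inter_subset_left
      intro i hi hni
      apply hxO
      intro hI
      exact hni (Finset.mem_inter.mpr ⟨hi, hI⟩)
    have h4 : ∑ i ∈ S ∩ I, y i = 0 := by
      have h5 : ((∑ i ∈ S ∩ I, y i : ℤ) : ℝ) = h * ∑ i ∈ S ∩ I, x i := by
        rw [Int.cast_sum, Finset.mul_sum]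
        exact Finset.sum_congr rfl fun i hi => hyx i (Finset.mem_inter.mp hi).2
      rw [h3, mul_zero] at h5
      exact_mod_cast h5
    have h6 : (S ∩ I).card ≤ r := by
      rw [← hSr]; exact Finset.card_le_card Finset.inter_subset_left
    have h7 : r ≤ (S ∩ I).card + (n - I.card) := by
      have h8 : (S \ I).card ≤ n - I.card := by
        have h9 : (S \ I).card ≤ (Finset.univ \ I).card :=
          Finset.card_le_card (Finset.sdiff_subset_sdiff (Finset.subset_univ S) (Finset.Subset.refl I))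
        rw [Finset.card_sdiff_of_subset (Finset.subset_univ I), Finset.card_univ, Fintype.card_fin] at h9
        exact h9
      have h10 := Finset.card_inter_add_card_sdiff S I
      omega
    rcases hS (S ∩ I) Finset.inter_subset_right h4 with h11 | h11 <;> omega
  · rw [← hpn]
    have h2 := F2_cast x z Finset.univ (fun i _ => hz i) 0
    rw [Int.cast_zero] at h2
    exact h2.symm

end H31Y
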