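import Pool.Agent.Lib.H31Y.Defs

/-!
Chunk YBa: residues: building sets
-/

namespace H31Y

open Finset H31Z

theorem yb_ext {n : ℕ} (z : Fin n → ℤ) (F : Finset (Fin n)) (v : ℤ) (g : ℕ)
    (hF : ∀ i ∈ F, z i ≠ v) (hg : g ≤ ca z v) :
    ∃ F' : Finset (Fin n), F'.card = F.card + g ∧ ∑ i ∈ F', z i = ∑ i ∈ F, z i + g * v ∧
      ∀ i ∈ F', i ∈ F ∨ z i = v := by
  classical
  unfold ca at hg
  obtain ⟨A, hA, hAc⟩ := Finset.exists_subset_card_eq hg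
  have hAz : ∀ i ∈ A, z i = v := fun i hi => (Finset.mem_filter.1 (hA hi)).2
  have hd : Disjoint F A := Finset.disjoint_left.2 fun i h1 h2 => hF i h1 (hAz i h2)
  refine ⟨F ∪ A, ?_, ?_, ?_⟩
  · rw [Finset.card_union_of_disjoint hd, hAc]
  · rw [Finset.sum_union hd, Finset.sum_congr rfl hAz, Finset.sum_const, hAc, nsmul_eq_mul]
  · intro i hi
    rcases Finset.mem_union.1 hi with h | h
    · exact Or.inl h
    · exact Or.inr (hAz i h)

/-- PROOF. `S = F ∪ (a' indices of value 1) ∪ (b' indices of value -p)` has size `r` and sum `0`, if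
`a' ≤ ca z 1`, `b' ≤ ca z (-p)`: `a' = p b' - ∑_F z ≤ p b' + 20`, `(p+1) b' = r - |F| + ∑_F z ≤ r + 20`; by `NearP`
`ca z 1 ≥ (0.99p - 0.01) n/(p+1)`, `ca z (-p) ≥ 0.98 n/(p+1)`, and `r ≤ 8n/9`, `n ≥ 1000`. -/
theorem YB_key (p : ℕ) (hp3 : 3 ≤ p) (hp4 : p ≤ 4) {n r : ℕ} (hn : 1000 ≤ n) (hr : 9 * r ≤ 8 * n)
    {z : Fin n → ℤ} (hz : NearP p (1 / 100) z)
    (hS : ∀ S : Finset (Fin n), S.card = r → ∑ i ∈ S, z i ≠ 0) (F : Finset (Fin n)) (a' b' : ℕ)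
    (hF : ∀ i ∈ F, z i ≠ 1 ∧ z i ≠ -(p : ℤ)) (hF4 : F.card ≤ 4) (hz5 : |∑ i ∈ F, z i| ≤ 20)
    (hs : ∑ i ∈ F, z i + a' - p * b' = 0) (hc : F.card + a' + b' = r) : False := by
  obtain ⟨h1, h2⟩ := hz
  obtain ⟨c3, c4⟩ := abs_le.1 h2
  obtain ⟨d1, d2⟩ := abs_le.1 hz5
  have hp3' : (3 : ℝ) ≤ p := by exact_mod_cast hp3
  have hp4' : (p : ℝ) ≤ 4 := by exact_mod_cast hp4
  have hnR : (1000 : ℝ) ≤ n := by exact_mod_cast hn
  have hrR : 9 * (r : ℝ) ≤ 8 * n := by exact_mod_cast hr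
  have hsR : ((∑ i ∈ F, z i : ℤ) : ℝ) + a' - p * b' = 0 := by exact_mod_cast hs
  have hcR : (F.card : ℝ) + a' + b' = r := by exact_mod_cast hc
  have d1R : (-20 : ℝ) ≤ ((∑ i ∈ F, z i : ℤ) : ℝ) := by exact_mod_cast d1
  have d2R : ((∑ i ∈ F, z i : ℤ) : ℝ) ≤ 20 := by exact_mod_cast d2
  have hF0 : (0 : ℝ) ≤ (F.card : ℝ) := Nat.cast_nonneg _
  obtain ⟨s, hsd⟩ : ∃ s : ℝ, s = ((∑ i ∈ F, z i : ℤ) : ℝ) := ⟨_, rfl⟩
  rw [← hsd] at hsR d1R d2R
  have hb : (b' : ℝ) ≤ (ca z (-(p : ℤ)) : ℝ) := by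
    have e1 : ((p : ℝ) + 1) * b' ≤ (p + 1) * (ca z (-(p : ℤ)) : ℝ) := by
      have e2 : ((p : ℝ) + 1) * b' = r - F.card + s := by linarith
      have e3 : (98 / 100) * (n : ℝ) ≤ (p + 1) * (ca z (-(p : ℤ)) : ℝ) := by linarith
      linarith
    exact le_of_mul_le_mul_left e1 (by linarith)
  have ha : (a' : ℝ) ≤ (ca z 1 : ℝ) := by
    have e1 : ((p : ℝ) + 1) * a' ≤ (p + 1) * (ca z 1 : ℝ) := by
      have e2 : ((p : ℝ) + 1) * a' = p * (r - F.card) - s := by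
        have e4 : (a' : ℝ) = p * b' - s := by linarith
        have e5 : (b' : ℝ) = r - F.card - a' := by linarith
        have e6 : (p : ℝ) * b' = p * (r - F.card - a') := by rw [← e5]
        linarith
      have e3 : (p * (99 / 100) - 1 / 100) * (n : ℝ) ≤ (p + 1) * (ca z 1 : ℝ) := by
        have e7 : (p : ℝ) * ((1 - 1 / 100) * n) ≤ p * ((ca z 1 : ℝ) + (ca z (-(p : ℤ)) : ℝ)) :=
          mul_le_mul_of_nonneg_left h1 (by linarith)
        linarith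
      have e8 : (p : ℝ) * (r - F.card) ≤ p * (8 / 9 * n) :=
        mul_le_mul_of_nonneg_left (by linarith) (by linarith)
      nlinarith
    exact le_of_mul_le_mul_left e1 (by linarith)
  have ha' : a' ≤ ca z 1 := by exact_mod_cast ha
  have hb' : b' ≤ ca z (-(p : ℤ)) := by exact_mod_cast hb
  obtain ⟨F1, k1, k2, k3⟩ := yb_ext z F 1 a' (fun i hi => (hF i hi).1) ha'
  obtain ⟨F2, l1, l2, -⟩ := yb_ext z F1 (-(p : ℤ)) b' (fun i hi => by
    rcases k3 i hi with h | h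
    · exact (hF i h).2
    · rw [h]
      omega) hb'
  apply hS F2
  · rw [l1, k1]
    exact hc
  · rw [l2, k2]
    linarith

/-- choosing a set with prescribed numbers of entries `0, -1, -2, -3` (and possibly one further
index). -/
theorem YB_choose {n : ℕ} (z : Fin n → ℤ) (g0 g1 g2 g3 : ℕ) (h0 : g0 ≤ ca z 0) (h1 : g1 ≤ ca z (-1))
    (h2 : g2 ≤ ca z (-2)) (h3 : g3 ≤ ca z (-3)) :
    ∃ F : Finset (Fin n), F.card = g0 + g1 + g2 + g3 ∧
      ∑ i ∈ F, z i = -((g1 : ℤ) + 2 * g2 + 3 * g3) ∧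
      ∀ i ∈ F, z i = 0 ∨ z i = -1 ∨ z i = -2 ∨ z i = -3 := by
  obtain ⟨F0, a1, a2, a3⟩ := yb_ext z ∅ 0 g0 (fun i hi => absurd hi (Finset.notMem_empty i)) h0
  have a4 : ∀ i ∈ F0, z i = 0 := fun i hi => (a3 i hi).resolve_left (Finset.notMem_empty i)
  obtain ⟨F1, b1, b2, b3⟩ := yb_ext z F0 (-1) g1 (fun i hi => by rw [a4 i hi]; norm_num) h1
  obtain ⟨F2, c1, c2, c3⟩ := yb_ext z F1 (-2) g2 (fun i hi => by
    rcases b3 i hi with h | h
    · rw [a4 i h]; norm_num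
    · rw [h]; norm_num) h2
  obtain ⟨F3, d1, d2, d3⟩ := yb_ext z F2 (-3) g3 (fun i hi => by
    rcases c3 i hi with h | h
    · rcases b3 i h with h | h
      · rw [a4 i h]; norm_num
      · rw [h]; norm_num
    · rw [h]; norm_num) h3
  refine ⟨F3, ?_, ?_, ?_⟩
  · rw [d1, c1, b1, a1, Finset.card_empty]
    ring
  · rw [d2, c2, b2, a2, Finset.sum_empty]
    ring
  · intro i hi
    rcases d3 i hi with h | h
    · rcases c3 i h with h | h
      · rcases b3 i h with h | h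
        · exact Or.inl (a4 i h)
        · exact Or.inr (Or.inl h)
      · exact Or.inr (Or.inr (Or.inl h))
    · exact Or.inr (Or.inr (Or.inr h))

end H31Y
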