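import Pool.Agent.Lib.H31Y.Defs
import Pool.Agent.Lib.H31Y.YBa

/-!
Chunk YBb: residues: constraints
-/

namespace H31Y

open Finset H31Z

theorem yb_one {n : ℕ} (z : Fin n → ℤ) (v : ℤ) (g : ℕ) (hg : g ≤ ca z v) :
    ∃ F : Finset (Fin n), F.card = g ∧ ∑ i ∈ F, z i = g * v ∧ ∀ i ∈ F, z i = v := by
  obtain ⟨F, h1, h2, h3⟩ := yb_ext z ∅ v g (fun i hi => absurd hi (Finset.notMem_empty i)) hg
  refine ⟨F, by simpa using h1, by simpa using h2, fun i hi =>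
    (h3 i hi).resolve_left (Finset.notMem_empty i)⟩

/-- `p = 3`. PROOF. `YB_key` with `F` = one `-1`: `b' = (r-2)/4`, `a' = 3b' + 1`; two zeros: `b' = (r-2)/4`,
`a' = 3b'`; two `-2`: `b' = (r-6)/4`, `a' = 3b' + 4`. -/
theorem YB_three {n r : ℕ} (hn : 1000 ≤ n) (hr : 9 * r ≤ 8 * n) (hr4 : r % 4 = 2) (hr6 : 6 ≤ r)
    {z : Fin n → ℤ} (hz : NearP 3 (1 / 100) z)
    (hS : ∀ S : Finset (Fin n), S.card = r → ∑ i ∈ S, z i ≠ 0) :
    ca z 0 ≤ 1 ∧ ca z (-1) = 0 ∧ ca z (-2) ≤ 1 := by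
  refine ⟨?_, ?_, ?_⟩
  · by_contra hcon
    obtain ⟨F, h1, h2, h3⟩ := yb_one z 0 2 (by omega)
    obtain ⟨b', hb'⟩ : ∃ b' : ℕ, 4 * b' + 2 = r := ⟨(r - 2) / 4, by omega⟩
    refine YB_key 3 (by norm_num) (by norm_num) hn hr hz hS F (3 * b') b' (fun i hi => by
      rw [h3 i hi]; norm_num) (by omega) (by rw [h2]; norm_num) ?_ (by omega)
    rw [h2]
    push_cast
    ring
  · by_contra hcon
    obtain ⟨F, h1, h2, h3⟩ := yb_one z (-1) 1 (by omega)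
    obtain ⟨b', hb'⟩ : ∃ b' : ℕ, 4 * b' + 2 = r := ⟨(r - 2) / 4, by omega⟩
    refine YB_key 3 (by norm_num) (by norm_num) hn hr hz hS F (3 * b' + 1) b' (fun i hi => by
      rw [h3 i hi]; norm_num) (by omega) (by rw [h2]; norm_num) ?_ (by omega)
    rw [h2]
    push_cast
    ring
  · by_contra hcon
    obtain ⟨F, h1, h2, h3⟩ := yb_one z (-2) 2 (by omega)
    obtain ⟨b', hb'⟩ : ∃ b' : ℕ, 4 * b' + 6 = r := ⟨(r - 6) / 4, by omega⟩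
    refine YB_key 3 (by norm_num) (by norm_num) hn hr hz hS F (3 * b' + 4) b' (fun i hi => by
      rw [h3 i hi]; norm_num) (by omega) (by rw [h2]; norm_num) ?_ (by omega)
    rw [h2]
    push_cast
    ring

/-- `p = 4`. PROOF. `YB_choose`, `YB_key`: if `s = g0 + 2g1 + 3g2 + 4g3 ≡ r (mod 5)`, then `s ≤ r` (`s ≤ 16`; as
`12 ∣ r`, either `r ≥ 24` or `r = 12`, `s ∈ {2,7,12}`), `b' = (r - s)/5`, `a' = 4b' + g1 + 2g2 + 3g3`. -/
theorem YB_four {n r : ℕ} (hn : 1000 ≤ n) (hr : 9 * r ≤ 8 * n) (hr12 : 12 ∣ r) (hr5 : r % 5 ≠ 0)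
    (hr1 : 12 ≤ r) {z : Fin n → ℤ} (hz : NearP 4 (1 / 100) z)
    (hS : ∀ S : Finset (Fin n), S.card = r → ∑ i ∈ S, z i ≠ 0)
    (g0 g1 g2 g3 : ℕ) (h0 : g0 ≤ ca z 0) (h1 : g1 ≤ ca z (-1))
    (h2 : g2 ≤ ca z (-2)) (h3 : g3 ≤ ca z (-3)) (hg : g0 + g1 + g2 + g3 ≤ 4) :
    (g0 + 2 * g1 + 3 * g2 + 4 * g3) % 5 ≠ r % 5 := by
  intro hcon
  obtain ⟨F, k1, k2, k3⟩ := YB_choose z g0 g1 g2 g3 h0 h1 h2 h3
  obtain ⟨b', hb'⟩ : ∃ b' : ℕ, 5 * b' + (g0 + 2 * g1 + 3 * g2 + 4 * g3) = r :=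
    ⟨(r - (g0 + 2 * g1 + 3 * g2 + 4 * g3)) / 5, by omega⟩
  refine YB_key 4 (by norm_num) (by norm_num) hn hr hz hS F (4 * b' + g1 + 2 * g2 + 3 * g3) b'
    (fun i hi => ?_) (by omega) ?_ ?_ (by omega)
  · rcases k3 i hi with h | h | h | h
    · rw [h]; norm_num
    · rw [h]; norm_num
    · rw [h]; norm_num
    · rw [h]; norm_num
  · rw [k2, abs_le]
    constructor <;> omega
  · rw [k2]
    push_cast
    ring

/-- `p = 4` with one further entry `2` or `-5` and entries `-1, -2`. PROOF. As before, with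
`s = (1 - z_e) + 2g1 + 3g2 ≤ 15`; `s ≡ r (mod 5)` and `r = 12` imply `s ≤ 12`; `z_e = 2`: `s ≤ 8 < r`, so `b' ≥ 1` and
`a' = 4b' - 2 + g1 + 2g2 ≥ 0`. -/
theorem YB_four' {n r : ℕ} (hn : 1000 ≤ n) (hr : 9 * r ≤ 8 * n) (hr12 : 12 ∣ r) (hr5 : r % 5 ≠ 0)
    (hr1 : 12 ≤ r) {z : Fin n → ℤ} (hz : NearP 4 (1 / 100) z)
    (hS : ∀ S : Finset (Fin n), S.card = r → ∑ i ∈ S, z i ≠ 0) (e : Fin n)
    (he : z e = 2 ∨ z e = -5)
    (g1 g2 : ℕ) (h1 : g1 ≤ ca z (-1)) (h2 : g2 ≤ ca z (-2)) (hg : g1 + g2 ≤ 3) :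
    ((1 - z e) + 2 * g1 + 3 * g2) % 5 ≠ (r : ℤ) % 5 := by
  intro hcon
  obtain ⟨F1, k1, k2, k3⟩ := yb_ext z {e} (-1) g1 (fun i hi => by
    rw [Finset.mem_singleton.1 hi]
    rcases he with h | h
    · rw [h]; norm_num
    · rw [h]; norm_num) h1
  obtain ⟨F, l1, l2, l3⟩ := yb_ext z F1 (-2) g2 (fun i hi => by
    rcases k3 i hi with h | h
    · rw [Finset.mem_singleton.1 h]
      rcases he with h | h
      · rw [h]; norm_num
      · rw [h]; norm_num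
    · rw [h]; norm_num) h2
  rw [Finset.card_singleton] at k1
  rw [Finset.sum_singleton] at k2
  obtain ⟨b', hb'⟩ : ∃ b' : ℕ, 5 * (b' : ℤ) + ((1 - z e) + 2 * g1 + 3 * g2) = r :=
    ⟨((r - ((1 - z e) + 2 * g1 + 3 * g2)) / 5).toNat, by omega⟩
  obtain ⟨a', ha'⟩ : ∃ a' : ℕ, (a' : ℤ) = 4 * b' - z e + g1 + 2 * g2 :=
    ⟨(4 * b' - z e + g1 + 2 * g2).toNat, by omega⟩
  refine YB_key 4 (by norm_num) (by norm_num) hn hr hz hS F a' b'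
    (fun i hi => ?_) (by omega) ?_ ?_ (by omega)
  · rcases l3 i hi with h | h
    · rcases k3 i h with h | h
      · rw [Finset.mem_singleton.1 h]
        rcases he with h | h
        · rw [h]; norm_num
        · rw [h]; norm_num
      · rw [h]; norm_num
    · rw [h]; norm_num
  · rw [l2, k2, abs_le]
    constructor <;> omega
  · rw [l2, k2]
    push_cast
    omega

end H31Y
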