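import Pool.Agent.Lib.H31Y.Defs
import Pool.Agent.Lib.H31Z.A9

/-!
Chunk ZVa: count of the heavy vectors
-/

namespace H31Y

open Finset H31Z

theorem zva_card (n l u : ℕ) (hu : u ≤ n) (hl : l ≤ u) :
    ((Finset.univ : Finset (Fin n)).filter (fun i : Fin n => l ≤ (i : ℕ) ∧ (i : ℕ) < u)).card = u - l := by
  have h : (((Finset.univ : Finset (Fin n)).filter (fun i : Fin n => l ≤ (i : ℕ) ∧ (i : ℕ) < u)).map
      Fin.valEmbedding) = Finset.Ico l u := by
    ext x
    simp only [Finset.mem_map, Finset.mem_filter, Finset.mem_univ, true_and, Fin.valEmbedding_apply,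
      Finset.mem_Ico]
    constructor
    · rintro ⟨i, hi, rfl⟩
      exact hi
    · intro hx
      exact ⟨⟨x, by omega⟩, hx, rfl⟩
  rw [← Finset.card_map Fin.valEmbedding, h, Nat.card_Ico]

/-- the zeros -/
theorem zva_zero {ι : Type*} [DecidableEq ι] (w : ι → ℤ) (M : Finset ι) (hv : ∀ i ∈ M, w i = 0)
    (s : ℤ) : cz w M s = if s = 0 then 2 ^ M.card else 0 := by
  have h := A9_const w ∅ M (Finset.disjoint_empty_left M) 0 hv s
  rw [Finset.empty_union] at h
  have h2 : ∀ j : ℕ, cz w ∅ (s - j * 0) = if s = 0 then 1 else 0 := by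
    intro j
    unfold cz
    rw [Finset.powerset_empty, mul_zero, sub_zero]
    by_cases hs : s = 0
    · rw [if_pos hs, hs, Finset.filter_true_of_mem, Finset.card_singleton]
      intro B hB
      rw [Finset.mem_singleton.1 hB, Finset.sum_empty]
    · rw [if_neg hs, Finset.filter_false_of_mem, Finset.card_empty]
      intro B hB
      rw [Finset.mem_singleton.1 hB, Finset.sum_empty]
      exact Ne.symm hs
  rw [h]
  simp only [h2]
  split_ifs with hs
  · simp only [mul_one]
    exact Nat.sum_range_choose M.card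
  · simp

/-- zeros and ones -/
theorem zva_ones {ι : Type*} [DecidableEq ι] (w : ι → ℤ) (L M : Finset ι) (hd : Disjoint L M)
    (h0 : ∀ i ∈ L, w i = 0) (h1 : ∀ i ∈ M, w i = 1) (s : ℕ) :
    cz w (L ∪ M) s = 2 ^ L.card * M.card.choose s := by
  rw [A9_const w L M hd 1 h1]
  have h2 : ∀ j : ℕ, M.card.choose j * cz w L ((s : ℤ) - j * 1) =
      if j = s then 2 ^ L.card * M.card.choose s else 0 := by
    intro j
    rw [zva_zero w L h0]
    by_cases hj : j = s
    · rw [if_pos hj, if_pos (by rw [hj]; ring), hj]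
      ring
    · rw [if_neg hj, if_neg, mul_zero]
      intro h
      apply hj
      have : (j : ℤ) = s := by linarith
      exact_mod_cast this
  rw [Finset.sum_congr rfl fun j _ => h2 j, Finset.sum_ite_eq']
  split_ifs with h
  · rfl
  · rw [Finset.mem_range, not_lt] at h
    rw [Nat.choose_eq_zero_of_lt (by omega), mul_zero]

theorem zva_vand (a b s : ℕ) :
    ∑ i ∈ Finset.range (b + 1), b.choose i * a.choose (s + i) = (a + b).choose (b + s) := by
  rw [add_comm a b, Nat.add_choose_eq, Finset.Nat.sum_antidiagonal_eq_sum_range_succ_mk]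
  have h1 : Finset.range (b + 1) ⊆ Finset.range (b + s).succ := by
    intro x
    simp only [Finset.mem_range]
    omega
  rw [← Finset.sum_subset h1, ← Finset.sum_range_reflect]
  · refine Finset.sum_congr rfl fun i hi => ?_
    rw [Finset.mem_range] at hi
    have e1 : b + 1 - 1 - i = b - i := by omega
    have e2 : s + (b - i) = b + s - i := by omega
    rw [e1, e2, Nat.choose_symm (by omega)]
  · intro x _ hx
    rw [Finset.mem_range, not_lt] at hx
    rw [Nat.choose_eq_zero_of_lt (by omega), zero_mul]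

/-- zeros, ones and minus ones -/
theorem zva_pm {ι : Type*} [DecidableEq ι] (w : ι → ℤ) (L M P : Finset ι) (hd : Disjoint L M)
    (hd' : Disjoint (L ∪ M) P) (h0 : ∀ i ∈ L, w i = 0) (h1 : ∀ i ∈ M, w i = 1)
    (h2 : ∀ i ∈ P, w i = -1) (s : ℕ) :
    cz w (L ∪ M ∪ P) s = 2 ^ L.card * (M.card + P.card).choose (P.card + s) := by
  rw [A9_const w (L ∪ M) P hd' (-1) h2, ← zva_vand, Finset.mul_sum]
  refine Finset.sum_congr rfl fun j _ => ?_
  have e : (s : ℤ) - j * -1 = ((s + j : ℕ) : ℤ) := by push_cast; ring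
  rw [e, zva_ones w L M hd h0 h1]
  ring

/-- PROOF. `A9_const` for the four blocks; `#{(u, v) : u - v = s} ` over `a` ones and `b` minus ones is
`C(a+b, b+s)` (Vandermonde, or `Nat.add_choose` / the bijection of `WE_pm`). -/
theorem ZV_count (n c a b m t : ℕ) (h : c + a + b + t = n) :
    cz (hvec n c a b m) Finset.univ 0 =
      2 ^ c * ∑ j ∈ Finset.range (t + 1), t.choose j * (a + b).choose (b + j * m) := by
  obtain ⟨L, hL⟩ : ∃ L : Finset (Fin n), L = Finset.univ.filter (fun i : Fin n => 0 ≤ (i : ℕ) ∧ (i : ℕ) < c) :=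
    ⟨_, rfl⟩
  obtain ⟨M, hM⟩ : ∃ M : Finset (Fin n), M = Finset.univ.filter
    (fun i : Fin n => c ≤ (i : ℕ) ∧ (i : ℕ) < c + a) := ⟨_, rfl⟩
  obtain ⟨P, hP⟩ : ∃ P : Finset (Fin n), P = Finset.univ.filter
    (fun i : Fin n => c + a ≤ (i : ℕ) ∧ (i : ℕ) < c + a + b) := ⟨_, rfl⟩
  obtain ⟨Q, hQ⟩ : ∃ Q : Finset (Fin n), Q = Finset.univ.filter
    (fun i : Fin n => c + a + b ≤ (i : ℕ) ∧ (i : ℕ) < n) := ⟨_, rfl⟩
  have mL : ∀ i, i ∈ L ↔ (i : ℕ) < c := fun i => by rw [hL]; simp
  have mM : ∀ i, i ∈ M ↔ c ≤ (i : ℕ) ∧ (i : ℕ) < c + a := fun i => by rw [hM]; simp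
  have mP : ∀ i, i ∈ P ↔ c + a ≤ (i : ℕ) ∧ (i : ℕ) < c + a + b := fun i => by rw [hP]; simp
  have mQ : ∀ i : Fin n, i ∈ Q ↔ c + a + b ≤ (i : ℕ) := fun i => by rw [hQ]; simp
  have kL : L.card = c := by rw [hL, zva_card n 0 c (by omega) (by omega)]; omega
  have kM : M.card = a := by rw [hM, zva_card n c (c + a) (by omega) (by omega)]; omega
  have kP : P.card = b := by rw [hP, zva_card n (c + a) (c + a + b) (by omega) (by omega)]; omega
  have kQ : Q.card = t := by rw [hQ, zva_card n (c + a + b) n (by omega) (by omega)]; omega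
  have hU : (Finset.univ : Finset (Fin n)) = L ∪ M ∪ P ∪ Q := by
    ext i
    simp only [Finset.mem_univ, Finset.mem_union, mL, mM, mP, mQ, true_iff]
    omega
  have d1 : Disjoint L M := by
    rw [Finset.disjoint_left]
    intro i
    rw [mL, mM]
    omega
  have d2 : Disjoint (L ∪ M) P := by
    rw [Finset.disjoint_left]
    intro i
    rw [Finset.mem_union, mL, mM, mP]
    omega
  have d3 : Disjoint (L ∪ M ∪ P) Q := by
    rw [Finset.disjoint_left]
    intro i
    rw [Finset.mem_union, Finset.mem_union, mL, mM, mP, mQ]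
    omega
  have v0 : ∀ i ∈ L, hvec n c a b m i = 0 := by
    intro i hi
    rw [mL] at hi
    unfold hvec
    rw [if_pos hi]
  have v1 : ∀ i ∈ M, hvec n c a b m i = 1 := by
    intro i hi
    rw [mM] at hi
    unfold hvec
    rw [if_neg (by omega), if_pos hi.2]
  have v2 : ∀ i ∈ P, hvec n c a b m i = -1 := by
    intro i hi
    rw [mP] at hi
    unfold hvec
    rw [if_neg (by omega), if_neg (by omega), if_pos hi.2]
  have v3 : ∀ i ∈ Q, hvec n c a b m i = -(m : ℤ) := by
    intro i hi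
    rw [mQ] at hi
    unfold hvec
    rw [if_neg (by omega), if_neg (by omega), if_neg (by omega)]
  rw [hU, A9_const _ (L ∪ M ∪ P) Q d3 (-(m : ℤ)) v3, kQ, Finset.mul_sum]
  refine Finset.sum_congr rfl fun j _ => ?_
  have e : (0 : ℤ) - j * -(m : ℤ) = ((j * m : ℕ) : ℤ) := by push_cast; ring
  rw [e, zva_pm _ L M P d1 d2 v0 v1 v2, kL, kM, kP]
  ring

end H31Y
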