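import Pool.Agent.Lib.H31Y.YC
import Pool.Agent.Lib.H31Z.A9
import Pool.Agent.Lib.H31Y.ZVa

/-!
Chunk YDa: count of the champion, p = 3
-/

namespace H31Y

open Finset H31Z

/-- PROOF. Choose `j` of the `b` entries `-p`, then `pj + s` ones (`A9_const`, `A9_ones`). -/
theorem YD_latp {ι : Type*} [DecidableEq ι] (p : ℕ) (hp : 1 ≤ p) (w : ι → ℤ) (L M : Finset ι)
    (hd : Disjoint L M) (hL : ∀ i ∈ L, w i = 1) (hM : ∀ i ∈ M, w i = -(p : ℤ)) (s : ℕ) :
    cz w (L ∪ M) s = latp p L.card M.card s := by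
  rw [A9_const w L M hd (-(p : ℤ)) hM]
  unfold latp
  refine Finset.sum_congr rfl fun j _ => ?_
  have e : (s : ℤ) - j * -(p : ℤ) = ((p * j + s : ℕ) : ℤ) := by push_cast; ring
  have h := zva_ones w ∅ L (Finset.disjoint_empty_left L)
    (fun i hi => absurd hi (Finset.notMem_empty i)) hL (p * j + s)
  rw [Finset.empty_union, Finset.card_empty, pow_zero, one_mul] at h
  rw [e, h, mul_comm]

/-- PROOF. `b = n/4 - 1`, `a = n - 2 - b = n - 1 - n/4`. `cz` over `univ`: the zero gives the factor `2`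
(`A9_ins`), the entry `-2` the two terms. -/
theorem YD3_count (n : ℕ) (hn : 8 ≤ n) : cz (vec3 n) Finset.univ 0 = A3val n := by
  obtain ⟨L, hL⟩ : ∃ L : Finset (Fin n), L = Finset.univ.filter
    (fun i : Fin n => 2 ≤ (i : ℕ) ∧ (i : ℕ) < n - (n / 4 - 1)) := ⟨_, rfl⟩
  obtain ⟨M, hM⟩ : ∃ M : Finset (Fin n), M = Finset.univ.filter
    (fun i : Fin n => n - (n / 4 - 1) ≤ (i : ℕ) ∧ (i : ℕ) < n) := ⟨_, rfl⟩
  have mL : ∀ i, i ∈ L ↔ 2 ≤ (i : ℕ) ∧ (i : ℕ) < n - (n / 4 - 1) := fun i => by rw [hL]; simp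
  have mM : ∀ i : Fin n, i ∈ M ↔ n - (n / 4 - 1) ≤ (i : ℕ) := fun i => by rw [hM]; simp
  have kL : L.card = n - 1 - n / 4 := by
    rw [hL, zva_card n 2 (n - (n / 4 - 1)) (by omega) (by omega)]
    omega
  have kM : M.card = n / 4 - 1 := by
    rw [hM, zva_card n (n - (n / 4 - 1)) n (by omega) (by omega)]
    omega
  obtain ⟨i0, hi0⟩ : ∃ i : Fin n, (i : ℕ) = 0 := ⟨⟨0, by omega⟩, rfl⟩
  obtain ⟨i1, hi1⟩ : ∃ i : Fin n, (i : ℕ) = 1 := ⟨⟨1, by omega⟩, rfl⟩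
  have hU : (Finset.univ : Finset (Fin n)) = insert i0 (insert i1 (L ∪ M)) := by
    ext i
    simp only [Finset.mem_univ, Finset.mem_insert, Finset.mem_union, mL, mM, true_iff, Fin.ext_iff,
      hi0, hi1]
    omega
  have d : Disjoint L M := by
    rw [Finset.disjoint_left]
    intro i
    rw [mL, mM]
    omega
  have n1 : i1 ∉ L ∪ M := by
    rw [Finset.mem_union, mL, mM, hi1]
    omega
  have n0 : i0 ∉ insert i1 (L ∪ M) := by
    rw [Finset.mem_insert, Finset.mem_union, mL, mM, Fin.ext_iff, hi0, hi1]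
    omega
  have v0 : vec3 n i0 = 0 := by
    unfold vec3
    rw [if_pos hi0]
  have v1 : vec3 n i1 = -2 := by
    unfold vec3
    rw [if_neg (by omega), if_pos hi1]
  have vL : ∀ i ∈ L, vec3 n i = 1 := by
    intro i hi
    rw [mL] at hi
    unfold vec3
    rw [if_neg (by omega), if_neg (by omega), if_pos hi.2]
  have vM : ∀ i ∈ M, vec3 n i = -((3 : ℕ) : ℤ) := by
    intro i hi
    rw [mM] at hi
    unfold vec3
    rw [if_neg (by omega), if_neg (by omega), if_neg (by omega)]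
    rfl
  have h0 := YD_latp 3 (by norm_num) (vec3 n) L M d vL vM 0
  have h2 := YD_latp 3 (by norm_num) (vec3 n) L M d vL vM 2
  rw [kL, kM] at h0 h2
  have e0 : ((0 : ℕ) : ℤ) = 0 := rfl
  have e2 : ((2 : ℕ) : ℤ) = 2 := rfl
  rw [e0] at h0
  rw [e2] at h2
  rw [hU, A9_ins _ _ n0, A9_ins _ _ n1, A9_ins _ _ n1, v0, v1]
  have e3 : (0 : ℤ) - 0 = 0 := by ring
  have e4 : (0 : ℤ) - -2 = 2 := by ring
  rw [e3, e4, h0, h2]
  unfold A3val
  ring

end H31Y
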