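import Pool.Agent.Lib.H31Y.YC
import Pool.Agent.Lib.H31Z.A9
import Pool.Agent.Lib.H31Y.YDa

/-!
Chunk YDb: the champion, p = 3
-/

namespace H31Y

open Finset H31Z

/-- the number of elements of `S` with index `k` -/
theorem ydb_one (n k : ℕ) (S : Finset (Fin n)) : (S.filter (fun i : Fin n => (i : ℕ) = k)).card ≤ 1 := by
  rw [Finset.card_le_one]
  intro a ha b hb
  rw [Finset.mem_filter] at ha hb
  exact Fin.ext (ha.2.trans hb.2.symm)

/-- PROOF. If `∑_S z = 0` then `|S| = ∑_S (1 - z)`, which is `≡ 0, 1, 3, 4 (mod 4)`: `1 - z` is `1` for the zero, `3` for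
`-2`, `0` for `1`, `4` for `-3`. -/
theorem YD3_adm (n r : ℕ) (hr : r % 4 = 2) :
    ∀ S : Finset (Fin n), S.card = r → ∑ i ∈ S, vec3 n i ≠ 0 := by
  intro S hS h0
  obtain ⟨e0, he0⟩ : ∃ e, e = (S.filter (fun i : Fin n => (i : ℕ) = 0)).card := ⟨_, rfl⟩
  obtain ⟨e1, he1⟩ : ∃ e, e = (S.filter (fun i : Fin n => (i : ℕ) = 1)).card := ⟨_, rfl⟩
  have b0 : e0 ≤ 1 := he0 ▸ ydb_one n 0 S
  have b1 : e1 ≤ 1 := he1 ▸ ydb_one n 1 S
  have hdiv : (4 : ℤ) ∣ ∑ i ∈ S, (1 - vec3 n i - (if (i : ℕ) = 0 then 1 else 0) -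
      3 * (if (i : ℕ) = 1 then 1 else 0)) := by
    refine Finset.dvd_sum fun i _ => ?_
    unfold vec3
    split_ifs <;> first | omega | norm_num
  have hsum : ∑ i ∈ S, (1 - vec3 n i - (if (i : ℕ) = 0 then (1 : ℤ) else 0) -
      3 * (if (i : ℕ) = 1 then (1 : ℤ) else 0)) = (r : ℤ) - e0 - 3 * e1 := by
    rw [Finset.sum_sub_distrib, Finset.sum_sub_distrib, Finset.sum_sub_distrib, h0,
      ← Finset.mul_sum, Finset.sum_boole, Finset.sum_boole, ← he0, ← he1]
    simp [hS]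
  rw [hsum] at hdiv
  have k0 : e0 = 0 ∨ e0 = 1 := by omega
  have k1 : e1 = 0 ∨ e1 = 1 := by omega
  clear he0 he1 hsum
  rcases k0 with rfl | rfl <;> rcases k1 with rfl | rfl <;> omega

/-- the number of coordinates of a given value, for an interval -/
theorem ydb_ca {n : ℕ} (w : Fin n → ℤ) (v : ℤ) (l u : ℕ) (hu : u ≤ n) (hl : l ≤ u)
    (h : ∀ i, w i = v ↔ l ≤ (i : ℕ) ∧ (i : ℕ) < u) : ca w v = u - l := by
  rw [← zva_card n l u hu hl]
  unfold ca
  congr 1
  ext i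
  simp only [Finset.mem_filter, Finset.mem_univ, true_and, h]

theorem ydb_ca0 {n : ℕ} (w : Fin n → ℤ) (v : ℤ) (h : ∀ i, w i ≠ v) : ca w v = 0 := by
  unfold ca
  rw [Finset.filter_false_of_mem (fun i _ => h i), Finset.card_empty]

/-- the counts and the sum of the champion -/
theorem YD3_ca (n : ℕ) (hn : 8 ≤ n) : ca (vec3 n) 0 = 1 ∧ ca (vec3 n) 1 = n - 1 - n / 4 ∧
    ca (vec3 n) (-1) = 0 ∧ ca (vec3 n) (-2) = 1 ∧ ca (vec3 n) (-3) = n / 4 - 1 ∧
    ca (vec3 n) (-4) = 0 ∧ ∑ i, vec3 n i = ((n % 4 : ℕ) : ℤ) := by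
  have c0 : ca (vec3 n) 0 = 1 := by
    rw [ydb_ca (vec3 n) 0 0 1 (by omega) (by omega)]
    intro i
    unfold vec3
    split_ifs <;> simp <;> omega
  have c1 : ca (vec3 n) 1 = n - 1 - n / 4 := by
    rw [ydb_ca (vec3 n) 1 2 (n - (n / 4 - 1)) (by omega) (by omega)]
    · omega
    intro i
    unfold vec3
    split_ifs <;> simp <;> omega
  have c2 : ca (vec3 n) (-2) = 1 := by
    rw [ydb_ca (vec3 n) (-2) 1 2 (by omega) (by omega)]
    intro i
    unfold vec3
    split_ifs <;> simp <;> omega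
  have c3 : ca (vec3 n) (-3) = n / 4 - 1 := by
    rw [ydb_ca (vec3 n) (-3) (n - (n / 4 - 1)) n (by omega) (by omega)]
    · omega
    intro i
    have := i.2
    unfold vec3
    split_ifs <;> simp <;> omega
  refine ⟨c0, c1, ?_, c2, c3, ?_, ?_⟩
  · refine ydb_ca0 _ _ fun i => ?_
    unfold vec3
    split_ifs <;> simp <;> omega
  · refine ydb_ca0 _ _ fun i => ?_
    unfold vec3
    split_ifs <;> simp <;> omega
  · have h1 : ∀ i, vec3 n i = (if vec3 n i = 1 then (1 : ℤ) else 0) -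
        2 * (if vec3 n i = -2 then (1 : ℤ) else 0) - 3 * (if vec3 n i = -3 then (1 : ℤ) else 0) := by
      intro i
      have h2 : vec3 n i = 0 ∨ vec3 n i = 1 ∨ vec3 n i = -2 ∨ vec3 n i = -3 := by
        unfold vec3
        split_ifs <;> simp
      rcases h2 with h | h | h | h <;> rw [h] <;> norm_num
    rw [Finset.sum_congr rfl fun i _ => h1 i, Finset.sum_sub_distrib, Finset.sum_sub_distrib,
      ← Finset.mul_sum, ← Finset.mul_sum, Finset.sum_boole, Finset.sum_boole, Finset.sum_boole]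
    have d1 : ((Finset.univ.filter (fun i => vec3 n i = 1)).card) = n - 1 - n / 4 := c1
    have d2 : ((Finset.univ.filter (fun i => vec3 n i = -2)).card) = 1 := c2
    have d3 : ((Finset.univ.filter (fun i => vec3 n i = -3)).card) = n / 4 - 1 := c3
    rw [d1, d2, d3]
    omega

/-- PROOF. `YC_gk`, `YD3_ca`. -/
theorem YD3_gk (n : ℕ) (hn : 8 ≤ n) :
    pz (vec3 n) Finset.univ 0 = GK (s3 n).1 (s3 n).2.1 (s3 n).2.2.1 (s3 n).2.2.2 := by
  obtain ⟨c0, c1, cm, c2, c3, c4, hs⟩ := YD3_ca n hn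
  have hm : n % 4 < 4 := Nat.mod_lt _ (by norm_num)
  have habs : |∑ i, vec3 n i| = ((n % 4 : ℕ) : ℤ) := by
    rw [hs, abs_of_nonneg (by positivity)]
  rw [YC_gk (vec3 n) ?_ ?_, habs, c1, cm, c2, c3, c4]
  · have h4 : ((n % 4 : ℕ) : ℤ) ≠ 4 := by
      intro h
      have : n % 4 = 4 := by exact_mod_cast h
      omega
    rw [if_neg h4]
    unfold s3
    by_cases k0 : n % 4 = 0
    · simp only [k0, if_true]
      congr 1 <;> simp <;> omega
    by_cases k1 : n % 4 = 1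
    · simp only [k1]
      congr 1 <;> simp <;> omega
    by_cases k2 : n % 4 = 2
    · simp only [k2]
      congr 1 <;> simp <;> omega
    · have k3 : n % 4 = 3 := by omega
      simp only [k3]
      congr 1 <;> simp <;> omega
  · intro i
    unfold vec3
    split_ifs <;> simp
  · rw [habs]
    have : n % 4 ≤ 4 := by omega
    exact_mod_cast this

end H31Y
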