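import Pool.Agent.Lib.H31Y.YD

/-!
Chunk YEa: count of the champion, p = 4
-/

namespace H31Y

open Finset H31Z

/-- three extra elements -/
theorem yea_three {ι : Type*} [DecidableEq ι] (w : ι → ℤ) (X : Finset ι) (i0 i1 i2 : ι)
    (n0 : i0 ∉ insert i1 (insert i2 X)) (n1 : i1 ∉ insert i2 X) (n2 : i2 ∉ X) (u0 u1 u2 : ℕ)
    (h0 : w i0 = -(u0 : ℤ)) (h1 : w i1 = -(u1 : ℤ)) (h2 : w i2 = -(u2 : ℤ)) (f : ℕ → ℕ)
    (hf : ∀ s : ℕ, cz w X s = f s) :
    cz w (insert i0 (insert i1 (insert i2 X))) 0 =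
      f 0 + f u2 + (f u1 + f (u1 + u2)) + (f u0 + f (u0 + u2) + (f (u0 + u1) + f (u0 + u1 + u2))) := by
  have k2 : ∀ s : ℕ, cz w (insert i2 X) s = f s + f (s + u2) := by
    intro s
    have e : (s : ℤ) - -(u2 : ℤ) = ((s + u2 : ℕ) : ℤ) := by push_cast; ring
    rw [A9_ins _ _ n2, h2, e, hf, hf]
  have k1 : ∀ s : ℕ, cz w (insert i1 (insert i2 X)) s =
      f s + f (s + u2) + (f (s + u1) + f (s + u1 + u2)) := by
    intro s
    have e : (s : ℤ) - -(u1 : ℤ) = ((s + u1 : ℕ) : ℤ) := by push_cast; ring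
    rw [A9_ins _ _ n1, h1, e, k2, k2]
  have e0 : (0 : ℤ) = ((0 : ℕ) : ℤ) := rfl
  have e : ((0 : ℕ) : ℤ) - -(u0 : ℤ) = ((0 + u0 : ℕ) : ℤ) := by push_cast; ring
  rw [A9_ins _ _ n0, h0, e0, e, k1, k1]
  simp only [zero_add]

/-- PROOF. `b = (n - uE r)/5`, `a = n - 3 - b`; `A9_union` with the three first indices: the subsets of
`E_r` have sums `0, .., -6` with the multiplicities in `A4val`; `YD_latp` for each. -/
theorem YE4_count (n r : ℕ) (hn : 20 ≤ n) (hr : r % 5 ≠ 0) :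
    cz (vec4 n r) Finset.univ 0 = A4val n r := by
  obtain ⟨b, hb⟩ : ∃ b, b = (n - uE r) / 5 := ⟨_, rfl⟩
  have hb5 : b ≤ n / 5 := by
    rw [hb]
    exact Nat.div_le_div_right (Nat.sub_le _ _)
  obtain ⟨L, hL⟩ : ∃ L : Finset (Fin n), L = Finset.univ.filter
    (fun i : Fin n => 3 ≤ (i : ℕ) ∧ (i : ℕ) < n - b) := ⟨_, rfl⟩
  obtain ⟨M, hM⟩ : ∃ M : Finset (Fin n), M = Finset.univ.filter
    (fun i : Fin n => n - b ≤ (i : ℕ) ∧ (i : ℕ) < n) := ⟨_, rfl⟩
  have mL : ∀ i, i ∈ L ↔ 3 ≤ (i : ℕ) ∧ (i : ℕ) < n - b := fun i => by rw [hL]; simp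
  have mM : ∀ i : Fin n, i ∈ M ↔ n - b ≤ (i : ℕ) := fun i => by rw [hM]; simp
  have kL : L.card = n - 3 - b := by
    rw [hL, zva_card n 3 (n - b) (by omega) (by omega)]
    omega
  have kM : M.card = b := by
    rw [hM, zva_card n (n - b) n (by omega) (by omega)]
    omega
  obtain ⟨i0, hi0⟩ : ∃ i : Fin n, (i : ℕ) = 0 := ⟨⟨0, by omega⟩, rfl⟩
  obtain ⟨i1, hi1⟩ : ∃ i : Fin n, (i : ℕ) = 1 := ⟨⟨1, by omega⟩, rfl⟩
  obtain ⟨i2, hi2⟩ : ∃ i : Fin n, (i : ℕ) = 2 := ⟨⟨2, by omega⟩, rfl⟩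
  have hm3 : mm1 r ≤ 3 := by
    unfold mm1
    split_ifs <;> omega
  have hU : (Finset.univ : Finset (Fin n)) = insert i0 (insert i1 (insert i2 (L ∪ M))) := by
    ext i
    simp only [Finset.mem_univ, Finset.mem_insert, Finset.mem_union, mL, mM, true_iff, Fin.ext_iff,
      hi0, hi1, hi2]
    omega
  have d : Disjoint L M := by
    rw [Finset.disjoint_left]
    intro i
    rw [mL, mM]
    omega
  have n2 : i2 ∉ L ∪ M := by
    rw [Finset.mem_union, mL, mM, hi2]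
    omega
  have n1 : i1 ∉ insert i2 (L ∪ M) := by
    rw [Finset.mem_insert, Finset.mem_union, mL, mM, Fin.ext_iff, hi1, hi2]
    omega
  have n0 : i0 ∉ insert i1 (insert i2 (L ∪ M)) := by
    rw [Finset.mem_insert, Finset.mem_insert, Finset.mem_union, mL, mM, Fin.ext_iff, Fin.ext_iff,
      hi0, hi1, hi2]
    omega
  have vL : ∀ i ∈ L, vec4 n r i = 1 := by
    intro i hi
    rw [mL] at hi
    unfold vec4
    rw [if_neg (by omega), if_neg (by omega), ← hb, if_pos hi.2]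
  have vM : ∀ i ∈ M, vec4 n r i = -((4 : ℕ) : ℤ) := by
    intro i hi
    rw [mM] at hi
    unfold vec4
    rw [if_neg (by omega), if_neg (by omega), ← hb, if_neg (by omega)]
    rfl
  have hf : ∀ s : ℕ, cz (vec4 n r) (L ∪ M) s = latp 4 (n - 3 - b) b s := by
    intro s
    rw [YD_latp 4 (by norm_num) (vec4 n r) L M d vL vM s, kL, kM]
  have hv : ∀ (i : Fin n), (i : ℕ) < 3 → vec4 n r i = -((if (i : ℕ) < mm1 r then 1 else 2 : ℕ) : ℤ) := by
    intro i hi
    unfold vec4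
    by_cases h : (i : ℕ) < mm1 r
    · rw [if_pos h, if_pos h]
      rfl
    · rw [if_neg h, if_neg h, if_pos hi]
      rfl
  have h0 := hv i0 (by omega)
  have h1 := hv i1 (by omega)
  have h2 := hv i2 (by omega)
  rw [hi0] at h0
  rw [hi1] at h1
  rw [hi2] at h2
  rw [hU, yea_three _ _ i0 i1 i2 n0 n1 n2 _ _ _ h0 h1 h2 _ hf]
  unfold A4val
  simp only [← hb]
  by_cases c1 : r % 5 = 1
  · have e : mm1 r = 2 := by unfold mm1; rw [if_pos c1]
    rw [e, if_pos c1]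
    simp only [show (0 < 2) = True by simp, show (1 < 2) = True by simp,
      show (2 < 2) = False by simp, if_true, if_false]
    ring
  by_cases c2 : r % 5 = 2
  · have e : mm1 r = 0 := by unfold mm1; rw [if_neg c1, if_pos c2]
    rw [e, if_neg c1, if_pos c2]
    simp only [show (0 < 0) = False by simp, show (1 < 0) = False by simp,
      show (2 < 0) = False by simp, if_false]
    ring
  by_cases c3 : r % 5 = 3
  · have e : mm1 r = 3 := by unfold mm1; rw [if_neg c1, if_neg c2, if_pos c3]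
    rw [e, if_neg c1, if_neg c2, if_pos c3]
    simp only [show (0 < 3) = True by simp, show (1 < 3) = True by simp,
      show (2 < 3) = True by simp, if_true]
    ring
  · have e : mm1 r = 1 := by unfold mm1; rw [if_neg c1, if_neg c2, if_neg c3]
    rw [e, if_neg c1, if_neg c2, if_neg c3]
    simp only [show (0 < 1) = True by simp, show (1 < 1) = False by simp,
      show (2 < 1) = False by simp, if_true, if_false]
    ring

end H31Y
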