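import Pool.Agent.Lib.H31Y.YD
import Pool.Agent.Lib.H31Y.YEa

/-!
Chunk YEb: the champion, p = 4
-/

namespace H31Y

open Finset H31Z

theorem yeb_mm (r : ℕ) : mm1 r ≤ 3 := by
  unfold mm1
  split_ifs <;> omega

theorem yeb_vals (n r : ℕ) (i : Fin n) : vec4 n r i = 1 ∨ vec4 n r i = -1 ∨ vec4 n r i = -2 ∨
    vec4 n r i = -4 := by
  unfold vec4
  split_ifs <;> simp

/-- PROOF. If `∑_S z = 0` then `|S| = ∑_S (1 - z) ≡ 2i + 3j (mod 5)` with `i ≤ mm1 r`, `j ≤ 3 - mm1 r`; never `r`. -/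
theorem YE4_adm (n r : ℕ) (hr : r % 5 ≠ 0) :
    ∀ S : Finset (Fin n), S.card = r → ∑ i ∈ S, vec4 n r i ≠ 0 := by
  intro S hS h0
  have hm3 := yeb_mm r
  obtain ⟨e0, he0⟩ : ∃ e, e = (S.filter (fun i : Fin n => (i : ℕ) < mm1 r)).card := ⟨_, rfl⟩
  obtain ⟨e1, he1⟩ : ∃ e, e = (S.filter (fun i : Fin n => mm1 r ≤ (i : ℕ) ∧ (i : ℕ) < 3)).card :=
    ⟨_, rfl⟩
  have b0 : e0 ≤ mm1 r := by
    have h1 : ((S.filter (fun i : Fin n => (i : ℕ) < mm1 r)).image (fun i : Fin n => (i : ℕ))) ⊆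
        Finset.range (mm1 r) := by
      intro x hx
      rw [Finset.mem_image] at hx
      obtain ⟨i, hi, rfl⟩ := hx
      rw [Finset.mem_filter] at hi
      exact Finset.mem_range.2 hi.2
    have h2 := Finset.card_le_card h1
    rw [Finset.card_image_of_injective _ Fin.val_injective, Finset.card_range, ← he0] at h2
    exact h2
  have b1 : e1 ≤ 3 - mm1 r := by
    have h1 : ((S.filter (fun i : Fin n => mm1 r ≤ (i : ℕ) ∧ (i : ℕ) < 3)).image
        (fun i : Fin n => (i : ℕ))) ⊆ Finset.Ico (mm1 r) 3 := by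
      intro x hx
      rw [Finset.mem_image] at hx
      obtain ⟨i, hi, rfl⟩ := hx
      rw [Finset.mem_filter] at hi
      exact Finset.mem_Ico.2 hi.2
    have h2 := Finset.card_le_card h1
    rw [Finset.card_image_of_injective _ Fin.val_injective, Nat.card_Ico, ← he1] at h2
    exact h2
  have hdiv : (5 : ℤ) ∣ ∑ i ∈ S, (1 - vec4 n r i - 2 * (if (i : ℕ) < mm1 r then 1 else 0) -
      3 * (if mm1 r ≤ (i : ℕ) ∧ (i : ℕ) < 3 then 1 else 0)) := by
    refine Finset.dvd_sum fun i _ => ?_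
    unfold vec4
    split_ifs <;> first | omega | norm_num
  have hsum : ∑ i ∈ S, (1 - vec4 n r i - 2 * (if (i : ℕ) < mm1 r then (1 : ℤ) else 0) -
      3 * (if mm1 r ≤ (i : ℕ) ∧ (i : ℕ) < 3 then (1 : ℤ) else 0)) = (r : ℤ) - 2 * e0 - 3 * e1 := by
    rw [Finset.sum_sub_distrib, Finset.sum_sub_distrib, Finset.sum_sub_distrib, h0,
      ← Finset.mul_sum, ← Finset.mul_sum, Finset.sum_boole, Finset.sum_boole, ← he0, ← he1]
    simp [hS]
  rw [hsum] at hdiv
  clear he0 he1 hsum hS h0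
  have k0 : e0 = 0 ∨ e0 = 1 ∨ e0 = 2 ∨ e0 = 3 := by omega
  have k1 : e1 = 0 ∨ e1 = 1 ∨ e1 = 2 ∨ e1 = 3 := by omega
  unfold mm1 at b0 b1
  have c : r % 5 = 1 ∨ r % 5 = 2 ∨ r % 5 = 3 ∨ r % 5 = 4 := by omega
  rcases c with c | c | c | c <;> simp only [c] at b0 b1 <;> norm_num at b0 b1 <;>
    rcases k0 with rfl | rfl | rfl | rfl <;> rcases k1 with rfl | rfl | rfl | rfl <;> omega

/-- the counts and the sum of the champion -/
theorem YE4_ca (n r : ℕ) (hn : 20 ≤ n) (hr : r % 5 ≠ 0) :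
    ca (vec4 n r) 0 = 0 ∧ ca (vec4 n r) 1 = n - 3 - (n - uE r) / 5 ∧
    ca (vec4 n r) (-1) = mm1 r ∧ ca (vec4 n r) (-2) = 3 - mm1 r ∧ ca (vec4 n r) (-3) = 0 ∧
    ca (vec4 n r) (-4) = (n - uE r) / 5 ∧ ∑ i, vec4 n r i = (((n - uE r) % 5 : ℕ) : ℤ) := by
  have hm3 := yeb_mm r
  obtain ⟨b, hb⟩ : ∃ b, b = (n - uE r) / 5 := ⟨_, rfl⟩
  have hb5 : b ≤ n / 5 := by
    rw [hb]
    exact Nat.div_le_div_right (Nat.sub_le _ _)
  have c1 : ca (vec4 n r) 1 = n - 3 - (n - uE r) / 5 := by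
    rw [ydb_ca (vec4 n r) 1 3 (n - b) (by omega) (by omega)]
    · omega
    intro i
    unfold vec4
    rw [← hb]
    split_ifs <;> simp <;> omega
  have cm : ca (vec4 n r) (-1) = mm1 r := by
    rw [ydb_ca (vec4 n r) (-1) 0 (mm1 r) (by omega) (by omega)]
    · omega
    intro i
    unfold vec4
    split_ifs <;> simp <;> omega
  have c2 : ca (vec4 n r) (-2) = 3 - mm1 r := by
    rw [ydb_ca (vec4 n r) (-2) (mm1 r) 3 (by omega) (by omega)]
    intro i
    unfold vec4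
    split_ifs <;> simp <;> omega
  have c4 : ca (vec4 n r) (-4) = (n - uE r) / 5 := by
    rw [ydb_ca (vec4 n r) (-4) (n - b) n (by omega) (by omega)]
    · omega
    intro i
    have := i.2
    unfold vec4
    rw [← hb]
    split_ifs <;> simp <;> omega
  refine ⟨?_, c1, cm, c2, ?_, c4, ?_⟩
  · refine ydb_ca0 _ _ fun i => ?_
    unfold vec4
    split_ifs <;> simp
  · refine ydb_ca0 _ _ fun i => ?_
    unfold vec4
    split_ifs <;> simp
  · have h1 : ∀ i, vec4 n r i = (if vec4 n r i = 1 then (1 : ℤ) else 0) -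
        (if vec4 n r i = -1 then (1 : ℤ) else 0) -
        2 * (if vec4 n r i = -2 then (1 : ℤ) else 0) -
        4 * (if vec4 n r i = -4 then (1 : ℤ) else 0) := by
      intro i
      rcases yeb_vals n r i with h | h | h | h <;> rw [h] <;> norm_num
    rw [Finset.sum_congr rfl fun i _ => h1 i, Finset.sum_sub_distrib, Finset.sum_sub_distrib,
      Finset.sum_sub_distrib, ← Finset.mul_sum, ← Finset.mul_sum, Finset.sum_boole,
      Finset.sum_boole, Finset.sum_boole, Finset.sum_boole]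
    have d1 : ((Finset.univ.filter (fun i => vec4 n r i = 1)).card) = n - 3 - (n - uE r) / 5 := c1
    have d0 : ((Finset.univ.filter (fun i => vec4 n r i = -1)).card) = mm1 r := cm
    have d2 : ((Finset.univ.filter (fun i => vec4 n r i = -2)).card) = 3 - mm1 r := c2
    have d4 : ((Finset.univ.filter (fun i => vec4 n r i = -4)).card) = (n - uE r) / 5 := c4
    rw [d1, d0, d2, d4]
    have hu : uE r = 2 * mm1 r + 3 * (3 - mm1 r) := by
      unfold uE mm1
      split_ifs <;> omega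
    rw [hu]
    omega

/-- PROOF. `YC_gk`, `YE4_ca`. -/
theorem YE4_gk (n r : ℕ) (hn : 20 ≤ n) (hr : r % 5 ≠ 0) :
    pz (vec4 n r) Finset.univ 0 =
      GK (s4 n r).1 (s4 n r).2.1 (s4 n r).2.2.1 (s4 n r).2.2.2 := by
  obtain ⟨c0, c1, cm, c2, c3, c4, hs⟩ := YE4_ca n r hn hr
  have hm : (n - uE r) % 5 < 5 := Nat.mod_lt _ (by norm_num)
  have habs : |∑ i, vec4 n r i| = (((n - uE r) % 5 : ℕ) : ℤ) := by
    rw [hs, abs_of_nonneg (by positivity)]
  rw [YC_gk (vec4 n r) ?_ ?_, habs, c1, cm, c2, c3, c4]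
  · unfold s4
    have e1 : ((((n - uE r) % 5 : ℕ) : ℤ) = 1) = ((n - uE r) % 5 = 1) :=
      propext ⟨fun h => by exact_mod_cast h, fun h => by rw [h]; rfl⟩
    have e2 : ((((n - uE r) % 5 : ℕ) : ℤ) = 2) = ((n - uE r) % 5 = 2) :=
      propext ⟨fun h => by exact_mod_cast h, fun h => by rw [h]; rfl⟩
    have e3 : ((((n - uE r) % 5 : ℕ) : ℤ) = 3) = ((n - uE r) % 5 = 3) :=
      propext ⟨fun h => by exact_mod_cast h, fun h => by rw [h]; rfl⟩
    have e4 : ((((n - uE r) % 5 : ℕ) : ℤ) = 4) = ((n - uE r) % 5 = 4) :=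
      propext ⟨fun h => by exact_mod_cast h, fun h => by rw [h]; rfl⟩
    simp only [e1, e2, e3, e4, zero_add]
    rfl
  · intro i
    rcases yeb_vals n r i with h | h | h | h <;> rw [h] <;> simp
  · rw [habs]
    have : (n - uE r) % 5 ≤ 4 := by omega
    exact_mod_cast this

end H31Y
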