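import Pool.Agent.Lib.H31Y.KB
import Pool.Agent.Lib.H31Y.YD
import Pool.Agent.Lib.H31Y.YE

/-!
Chunk YFa: lower bound, general form
-/

namespace H31Y

open Finset H31Z

theorem yfa_sqrt {x : ℝ} (h1 : -1 < x) (h2 : x ≤ 2) : 1 - x / 2 ≤ Real.sqrt (1 / (1 + x)) := by
  apply Real.le_sqrt_of_sq_le
  rw [le_div_iff₀ (by linarith)]
  have h3 : (1 - x / 2) ^ 2 * (1 + x) = 1 - x ^ 2 * (3 - x) / 4 := by ring
  rw [h3]
  have : 0 ≤ x ^ 2 * (3 - x) := mul_nonneg (sq_nonneg _) (by linarith)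
  linarith

theorem yfa_real {φ N σ τ q η : ℝ} (hφ0 : 0 ≤ φ) (hφ : φ ≤ 13 / 2) (hη : 0 < η) (hη1 : η ≤ 1)
    (hN : 1000 ≤ N) (hN2 : 8800 / η ≤ N) (hσ : σ = N + q) (hq : |q| ≤ 20) (hτ0 : 0 ≤ τ)
    (hτ : τ ≤ 2 * φ * N + 2256) :
    1 - (q + φ + η) / (2 * N) ≤
      Real.sqrt (1 / (1 + q / N)) * (1 - τ / (4 * σ ^ 2) - η / 4 / σ) := by
  obtain ⟨q1, q2⟩ := abs_le.1 hq
  have hN0 : 0 < N := by linarith
  obtain ⟨m, hm⟩ : ∃ m, m = N - 20 := ⟨_, rfl⟩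
  have hm0 : 980 ≤ m := by linarith
  have hmpos : 0 < m := by linarith
  have hNm : N = m + 20 := by linarith
  have hσm : m ≤ σ := by linarith
  have hσ0 : 0 < σ := by linarith
  rw [div_le_iff₀ hη] at hN2
  have hηm : 8600 ≤ η * m := by
    have : η * m = N * η - 20 * η := by rw [hm]; ring
    rw [this]
    nlinarith
  -- the main estimate
  obtain ⟨B, hB⟩ : ∃ B, B = τ / (4 * σ ^ 2) + η / 4 / σ := ⟨_, rfl⟩
  have hB0 : 0 ≤ B := by rw [hB]; positivity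
  have hB1 : B ≤ (2 * φ * N + 2256) / (4 * m ^ 2) + η / 4 / m := by
    rw [hB]
    apply add_le_add
    · apply div_le_div₀ (by positivity) hτ (by positivity)
      have : m ^ 2 ≤ σ ^ 2 := pow_le_pow_left₀ hmpos.le hσm 2
      linarith
    · exact div_le_div_of_nonneg_left (by positivity) hmpos hσm
  have hkey : B * (1 + 10 / N) ≤ (φ + η) / (2 * N) := by
    have h1 : B * (1 + 10 / N) ≤ ((2 * φ * N + 2256) / (4 * m ^ 2) + η / 4 / m) * (1 + 10 / N) :=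
      mul_le_mul_of_nonneg_right hB1 (by positivity)
    refine h1.trans ?_
    have h2 : ((2 * φ * N + 2256) / (4 * m ^ 2) + η / 4 / m) * (1 + 10 / N) =
        ((m + 30) * (2 * φ * (m + 20) + 2256) + η * m * (m + 30)) / (2 * m ^ 2) / (2 * N) := by
      rw [hNm]
      field_simp
      ring
    rw [h2]
    apply div_le_div_of_nonneg_right _ (by positivity)
    rw [div_le_iff₀ (by positivity)]
    have h3 : (m + 30) * (2 * φ * (m + 20) + 2256) + η * m * (m + 30) =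
        2 * φ * m ^ 2 + φ * (100 * m + 1200) + 2256 * m + 67680 + η * m ^ 2 + 30 * (η * m) := by ring
    rw [h3]
    have h4 : φ * (100 * m + 1200) ≤ 13 / 2 * (100 * m + 1200) :=
      mul_le_mul_of_nonneg_right hφ (by linarith)
    have h5 : 30 * (η * m) ≤ 30 * m := by nlinarith
    have h6 : 8600 * m ≤ η * m * m := mul_le_mul_of_nonneg_right hηm hmpos.le
    have h7 : η * m * m = η * m ^ 2 := by ring
    rw [h7] at h6
    have h8 : (φ + η) * (2 * m ^ 2) = 2 * φ * m ^ 2 + 2 * (η * m ^ 2) := by ring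
    rw [h8]
    linarith
  have hx1 : |q / N| ≤ 20 / N := by
    rw [abs_div, abs_of_pos hN0]
    exact div_le_div_of_nonneg_right hq hN0.le
  obtain ⟨x, hx⟩ : ∃ x, x = q / N := ⟨_, rfl⟩
  rw [← hx] at hx1 ⊢
  have hxs : 20 / N ≤ 1 / 50 := by
    rw [div_le_div_iff₀ hN0 (by norm_num)]
    linarith
  obtain ⟨x1, x2⟩ := abs_le.1 hx1
  have hs := yfa_sqrt (x := x) (by linarith) (by linarith)
  have hB1' : B ≤ 1 := by
    have h1 : B * 1 ≤ B * (1 + 10 / N) := by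
      apply mul_le_mul_of_nonneg_left _ hB0
      have : 0 ≤ 10 / N := by positivity
      linarith
    have h2 : (φ + η) / (2 * N) ≤ 1 := by
      rw [div_le_one (by positivity)]
      linarith
    linarith
  have e1 : (q + φ + η) / (2 * N) = x / 2 + (φ + η) / (2 * N) := by
    rw [hx]
    field_simp
    ring
  rw [e1]
  have e2 : 1 - τ / (4 * σ ^ 2) - η / 4 / σ = 1 - B := by rw [hB]; ring
  rw [e2]
  have h1 : (1 - x / 2) * (1 - B) ≤ Real.sqrt (1 / (1 + x)) * (1 - B) :=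
    mul_le_mul_of_nonneg_right hs (by linarith)
  refine le_trans ?_ h1
  have h2 : B * (1 - x / 2) ≤ B * (1 + 10 / N) := by
    apply mul_le_mul_of_nonneg_left _ hB0
    have : 20 / N = 2 * (10 / N) := by ring
    linarith
  have h3 : (1 - x / 2) * (1 - B) = 1 - x / 2 - B * (1 - x / 2) := by ring
  rw [h3]
  linarith

theorem yfa_gen1 (p : ℕ) (hp3 : 3 ≤ p) (hp4 : p ≤ 4) (η : ℝ) (hη : 0 < η) (hη1 : η ≤ 1) :
    ∃ n0 : ℕ, ∀ n : ℕ,
    n0 ≤ n → ∀ (z : Fin n → ℤ) (q : ℤ), |q| ≤ 20 → (∀ i, |z i| ≤ 4) → |∑ i, z i| ≤ 4 →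
      ∑ i, z i ^ 2 + (∑ i, z i) ^ 2 = p * n + q → n ≤ 2 * ca z 1 →
      ∑ i, z i ^ 4 ≤ p * (p ^ 2 - p + 1) * (n : ℤ) + 2000 →
      Real.sqrt (2 / (Real.pi * p * n)) * (1 - ((q : ℝ) + phi p + η) / (2 * p * n)) ≤
        pz z Finset.univ 0 := by
  have hpi := Real.pi_pos
  have hP3 : (3 : ℝ) ≤ p := by exact_mod_cast hp3
  have hP4 : (p : ℝ) ≤ 4 := by exact_mod_cast hp4
  obtain ⟨σ0, hKB⟩ := KB_lower 4 (1 / 100) (η / 4) (by norm_num) (by norm_num) (by positivity)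
  refine ⟨⌈σ0⌉₊ + ⌈8800 / η⌉₊ + 1000, ?_⟩
  intro n hn z q hq hz4 hD hsq hca hz
  have hn1 : (1000 : ℝ) ≤ n := by
    have : 1000 ≤ n := by omega
    exact_mod_cast this
  have hnσ : σ0 ≤ n := by
    refine (Nat.le_ceil _).trans ?_
    have : ⌈σ0⌉₊ ≤ n := by omega
    exact_mod_cast this
  have hnη : 8800 / η ≤ n := by
    refine (Nat.le_ceil _).trans ?_
    have : ⌈8800 / η⌉₊ ≤ n := by omega
    exact_mod_cast this
  have hn0 : (0 : ℝ) < n := by linarith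
  -- real versions
  have hsqR : ∑ i, (z i : ℝ) ^ 2 + (∑ i, (z i : ℝ)) ^ 2 = p * n + q := by
    have := congrArg (fun t : ℤ => (t : ℝ)) hsq
    push_cast at this
    exact this
  have hDR : |∑ i, (z i : ℝ)| ≤ 4 := by
    have := (Int.cast_le (R := ℝ)).2 hD
    push_cast at this
    exact this
  have hqR : |(q : ℝ)| ≤ 20 := by
    have := (Int.cast_le (R := ℝ)).2 hq
    push_cast at this
    exact this
  have hzR : ∑ i, (z i : ℝ) ^ 4 ≤ p * ((p : ℝ) ^ 2 - p + 1) * n + 2000 := by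
    have := (Int.cast_le (R := ℝ)).2 hz
    push_cast at this
    exact this
  obtain ⟨D, hDd⟩ : ∃ D, D = ∑ i, (z i : ℝ) := ⟨_, rfl⟩
  rw [← hDd] at hsqR hDR
  have hD2 : D ^ 2 ≤ 16 := by
    rw [← sq_abs]
    nlinarith [abs_nonneg D]
  have hD4 : D ^ 4 ≤ 256 := by
    have : D ^ 4 = D ^ 2 * D ^ 2 := by ring
    rw [this]
    nlinarith [sq_nonneg D]
  obtain ⟨q1, q2⟩ := abs_le.1 hqR
  have hsg : sg z Finset.univ = p * n + q - D ^ 2 := by
    unfold sg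
    linarith
  have hsgD : sgD z Finset.univ 0 = p * n + q := by
    unfold sgD
    rw [hsg, ← hDd]
    push_cast
    ring
  have hs4D : s4D z Finset.univ 0 = ∑ i, (z i : ℝ) ^ 4 + D ^ 4 := by
    unfold s4D
    rw [← hDd]
    push_cast
    ring
  have hpn3 : 3 * (n : ℝ) ≤ p * n := mul_le_mul_of_nonneg_right hP3 hn0.le
  have hpn4 : p * (n : ℝ) ≤ 4 * n := mul_le_mul_of_nonneg_right hP4 hn0.le
  have hcaR : (n : ℝ) ≤ 2 * (ca z 1 : ℝ) := by exact_mod_cast hca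
  have hnv : (nv z Finset.univ 1 : ℝ) = (ca z 1 : ℝ) := rfl
  have hmain := hKB (Fin n) Finset.univ z 0 (fun j _ => by simpa using hz4 j)
    (by
      rw [mul_zero, zero_sub, abs_neg]
      exact_mod_cast hD)
    (by rw [hsg]; linarith)
    (by rw [hsg, hnv]; linarith [sq_nonneg D])
  rw [hsgD, hs4D] at hmain
  refine le_trans ?_ hmain
  have hφ : phi p = ((p : ℝ) ^ 2 - p + 1) / 2 := rfl
  have hφ1 : phi p ≤ 13 / 2 := by
    rw [hφ]
    have : ((p : ℝ) - 4) * (p + 3) ≤ 0 := mul_nonpos_of_nonpos_of_nonneg (by linarith) (by linarith)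
    linarith [show ((p : ℝ) - 4) * (p + 3) = p ^ 2 - p - 12 by ring]
  have hφ0 : 0 ≤ phi p := by
    rw [hφ]
    have : 0 ≤ ((p : ℝ) - 3) * (p + 2) := mul_nonneg (by linarith) (by linarith)
    linarith [show ((p : ℝ) - 3) * (p + 2) = p ^ 2 - p - 6 by ring]
  have hz0 : 0 ≤ ∑ i, (z i : ℝ) ^ 4 := Finset.sum_nonneg fun i _ => by positivity
  have hre := yfa_real (φ := phi p) (N := p * n) (σ := p * n + q) (τ := ∑ i, (z i : ℝ) ^ 4 + D ^ 4)
    (q := q) hφ0 hφ1 hη hη1 (by linarith) (by linarith) rfl hqR (by positivity)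
    (by
      have : 2 * phi p * (p * n) = p * ((p : ℝ) ^ 2 - p + 1) * n := by rw [hφ]; ring
      rw [this]
      linarith)
  have hpn : (0 : ℝ) < p * n := by linarith
  have hσ0 : (0 : ℝ) < p * n + q := by linarith
  have hG : Real.sqrt (2 / (Real.pi * (p * n + q))) =
      Real.sqrt (2 / (Real.pi * p * n)) * Real.sqrt (1 / (1 + q / (p * n))) := by
    rw [← Real.sqrt_mul (by positivity)]
    congr 1
    have h1 : (1 : ℝ) + q / (p * n) = (p * n + q) / (p * n) := by field_simp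
    rw [h1]
    field_simp
  have h2 : ((q : ℝ) + phi p + η) / (2 * p * n) = (q + phi p + η) / (2 * (p * n)) := by
    rw [mul_assoc]
  rw [hG, h2]
  calc _ ≤ Real.sqrt (2 / (Real.pi * p * n)) * (Real.sqrt (1 / (1 + q / (p * n))) *
        (1 - (∑ i, (z i : ℝ) ^ 4 + D ^ 4) / (4 * (p * n + q) ^ 2) - η / 4 / (p * n + q))) :=
        mul_le_mul_of_nonneg_left hre (Real.sqrt_nonneg _)
    _ = _ := (mul_assoc _ _ _).symm

/-- general form. PROOF. `KB_lower 4 (1/100) η'` with `s = 0`, `D = ∑ z`: `sgD = ∑ z² + D² = p n + q` (`hq`), and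
`s4D = a + p⁴ b + O(1) ≤ (p (p²-p+1)) n + C` by `hτ`; `(1+x)^(-1/2) ≥ 1 - x/2` for `x = q/(pn)`;
`τ/(4σ²) ≤ (phi p)/(2pn) + O(1/n²)`. -/
theorem YF_gen (p : ℕ) (hp3 : 3 ≤ p) (hp4 : p ≤ 4) (η : ℝ) (hη : 0 < η) : ∃ n0 : ℕ, ∀ n : ℕ,
    n0 ≤ n → ∀ (z : Fin n → ℤ) (q : ℤ), |q| ≤ 20 → (∀ i, |z i| ≤ 4) → |∑ i, z i| ≤ 4 →
      ∑ i, z i ^ 2 + (∑ i, z i) ^ 2 = p * n + q → n ≤ 2 * ca z 1 →
      ∑ i, z i ^ 4 ≤ p * (p ^ 2 - p + 1) * (n : ℤ) + 2000 →
      Real.sqrt (2 / (Real.pi * p * n)) * (1 - ((q : ℝ) + phi p + η) / (2 * p * n)) ≤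
        pz z Finset.univ 0 := by
  obtain ⟨n0, h⟩ := yfa_gen1 p hp3 hp4 (min η 1) (by positivity) (min_le_right _ _)
  refine ⟨n0, ?_⟩
  intro n hn z q hq hz4 hD hsq hca hz
  refine le_trans ?_ (h n hn z q hq hz4 hD hsq hca hz)
  apply mul_le_mul_of_nonneg_left _ (Real.sqrt_nonneg _)
  have h1 : ((q : ℝ) + phi p + min η 1) / (2 * p * n) ≤ ((q : ℝ) + phi p + η) / (2 * p * n) := by
    apply div_le_div_of_nonneg_right _ (by positivity)
    linarith [min_le_left η 1]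
  linarith

end H31Y
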