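import Pool.Agent.Lib.H31Y.KB
import Pool.Agent.Lib.H31Y.YD
import Pool.Agent.Lib.H31Y.YE
import Pool.Agent.Lib.H31Y.YFa

/-!
Chunk YFb: lower bounds for the champions
-/

namespace H31Y

open Finset H31Z

private lemma yfb_one {n : ℕ} (z : Fin n → ℤ) (v c : ℤ) :
    ∑ i, (if z i = v then c else 0) = (ca z v : ℤ) * c := by
  rw [← Finset.sum_filter, Finset.sum_const, nsmul_eq_mul]
  rfl

private lemma yfb_sum {n : ℕ} (z : Fin n → ℤ)
    (h : ∀ i, z i = 0 ∨ z i = 1 ∨ z i = -1 ∨ z i = -2 ∨ z i = -3 ∨ z i = -4) (f : ℤ → ℤ)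
    (h0 : f 0 = 0) :
    ∑ i, f (z i) = (ca z 1 : ℤ) * f 1 + (ca z (-1) : ℤ) * f (-1) + (ca z (-2) : ℤ) * f (-2) +
      (ca z (-3) : ℤ) * f (-3) + (ca z (-4) : ℤ) * f (-4) := by
  have e : ∀ i, f (z i) = (if z i = 1 then f 1 else 0) + (if z i = -1 then f (-1) else 0) +
      (if z i = -2 then f (-2) else 0) + (if z i = -3 then f (-3) else 0) +
      (if z i = -4 then f (-4) else 0) := by
    intro i
    rcases h i with hi | hi | hi | hi | hi | hi <;> rw [hi] <;> simp [h0]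
  rw [Finset.sum_congr rfl fun i _ => e i]
  simp only [Finset.sum_add_distrib, yfb_one]

private lemma yfb_v3 (n : ℕ) (i : Fin n) : vec3 n i = 0 ∨ vec3 n i = 1 ∨ vec3 n i = -1 ∨
    vec3 n i = -2 ∨ vec3 n i = -3 ∨ vec3 n i = -4 := by
  unfold vec3
  split_ifs <;> simp

private lemma yfb_v4 (n r : ℕ) (i : Fin n) : vec4 n r i = 0 ∨ vec4 n r i = 1 ∨ vec4 n r i = -1 ∨
    vec4 n r i = -2 ∨ vec4 n r i = -3 ∨ vec4 n r i = -4 := by
  unfold vec4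
  split_ifs <;> simp

private lemma yfb_abs {x : ℤ} (h : x = 0 ∨ x = 1 ∨ x = -1 ∨ x = -2 ∨ x = -3 ∨ x = -4) :
    |x| ≤ 4 := by
  rcases h with h | h | h | h | h | h <;> rw [h] <;> simp

/-- PROOF. `YF_gen` and `YD3_ca`. -/
theorem YF_three (η : ℝ) (hη : 0 < η) : ∃ n0 : ℕ, ∀ n : ℕ, n0 ≤ n →
    Real.sqrt (2 / (Real.pi * (3 : ℕ) * n)) *
      (1 - ((q3 n : ℝ) + phi 3 + η) / (2 * (3 : ℕ) * n)) ≤ pz (vec3 n) Finset.univ 0 := by
  obtain ⟨n0, h⟩ := YF_gen 3 (by norm_num) (by norm_num) η hη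
  refine ⟨max n0 100, fun n hn => ?_⟩
  have hn0 : n0 ≤ n := (le_max_left _ _).trans hn
  have hn1 : 100 ≤ n := (le_max_right _ _).trans hn
  obtain ⟨c0, c1, c2, c3, c4, c5, c6⟩ := YD3_ca n (by omega)
  have hs2 := yfb_sum (vec3 n) (yfb_v3 n) (fun x => x ^ 2) (by norm_num)
  have hs4 := yfb_sum (vec3 n) (yfb_v3 n) (fun x => x ^ 4) (by norm_num)
  simp only [c1, c2, c3, c4, c5] at hs2 hs4
  refine h n hn0 (vec3 n) (q3 n) ?_ (fun i => yfb_abs (yfb_v3 n i)) ?_ ?_ ?_ ?_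
  · unfold q3
    split_ifs <;> simp
  · rw [c6, abs_of_nonneg (by positivity)]
    have : n % 4 < 4 := Nat.mod_lt _ (by norm_num)
    omega
  · rw [hs2, c6]
    unfold q3
    obtain ⟨q, s, hs, hnq⟩ : ∃ q s, s < 4 ∧ n = 4 * q + s := ⟨n / 4, n % 4, Nat.mod_lt _ (by norm_num), by omega⟩
    subst hnq
    have e1 : (4 * q + s) / 4 = q := by omega
    have e2 : (4 * q + s) % 4 = s := by omega
    rw [e1, e2]
    have e3 : ((4 * q + s - 1 - q : ℕ) : ℤ) = 3 * q + s - 1 := by omega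
    have e4 : ((q - 1 : ℕ) : ℤ) = q - 1 := by omega
    rw [e3, e4]
    interval_cases s <;> simp <;> ring
  · rw [c1]
    omega
  · rw [hs4]
    have e4 : ((n / 4 - 1 : ℕ) : ℤ) * 4 ≤ n := by omega
    have e3 : ((n - 1 - n / 4 : ℕ) : ℤ) = n - 2 - ((n / 4 - 1 : ℕ) : ℤ) := by omega
    rw [e3]
    norm_num
    linarith

/-- PROOF. `YF_gen` and `YE4_ca`. -/
theorem YF_four (η : ℝ) (hη : 0 < η) : ∃ n0 : ℕ, ∀ n : ℕ, n0 ≤ n → ∀ r : ℕ, r % 5 ≠ 0 →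
    Real.sqrt (2 / (Real.pi * (4 : ℕ) * n)) *
      (1 - ((q4 n r : ℝ) + phi 4 + η) / (2 * (4 : ℕ) * n)) ≤ pz (vec4 n r) Finset.univ 0 := by
  obtain ⟨n0, h⟩ := YF_gen 4 (by norm_num) (by norm_num) η hη
  refine ⟨max n0 100, fun n hn r hr => ?_⟩
  have hn0 : n0 ≤ n := (le_max_left _ _).trans hn
  have hn1 : 100 ≤ n := (le_max_right _ _).trans hn
  obtain ⟨c0, c1, c2, c3, c4, c5, c6⟩ := YE4_ca n r (by omega) hr
  have hs2 := yfb_sum (vec4 n r) (yfb_v4 n r) (fun x => x ^ 2) (by norm_num)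
  have hs4 := yfb_sum (vec4 n r) (yfb_v4 n r) (fun x => x ^ 4) (by norm_num)
  simp only [c1, c2, c3, c4, c5] at hs2 hs4
  have hu : uE r + mm1 r = 9 ∧ mm1 r ≤ 3 := by
    unfold uE mm1
    split_ifs <;> simp
  obtain ⟨hu1, hu2⟩ := hu
  have hm3 : ((3 - mm1 r : ℕ) : ℤ) = 3 - (mm1 r : ℤ) := by omega
  refine h n hn0 (vec4 n r) (q4 n r) ?_ (fun i => yfb_abs (yfb_v4 n r i)) ?_ ?_ ?_ ?_
  · unfold q4
    simp only []
    split_ifs <;> simp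
  · rw [c6, abs_of_nonneg (by positivity)]
    have : (n - uE r) % 5 < 5 := Nat.mod_lt _ (by norm_num)
    omega
  · rw [hs2, c6]
    unfold q4
    simp only []
    obtain ⟨b, D, hD, hnb⟩ : ∃ b D, D < 5 ∧ n - uE r = 5 * b + D :=
      ⟨(n - uE r) / 5, (n - uE r) % 5, Nat.mod_lt _ (by norm_num), by omega⟩
    rw [hnb]
    have e1 : (5 * b + D) / 5 = b := by omega
    have e2 : (5 * b + D) % 5 = D := by omega
    rw [e1, e2, hm3]
    have e3 : ((n - 3 - b : ℕ) : ℤ) = n - 3 - b := by omega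
    rw [e3]
    have e5 : (n : ℤ) = 9 - mm1 r + 5 * b + D := by omega
    rw [e5]
    interval_cases D <;> simp <;> ring
  · rw [c1]
    omega
  · rw [hs4, hm3]
    have e4 : (((n - uE r) / 5 : ℕ) : ℤ) * 5 ≤ n := by omega
    have e3 : ((n - 3 - (n - uE r) / 5 : ℕ) : ℤ) = n - 3 - (((n - uE r) / 5 : ℕ) : ℤ) := by omega
    rw [e3]
    norm_num
    have hm0 : (0 : ℤ) ≤ mm1 r := by positivity
    have hm1 : (mm1 r : ℤ) ≤ 3 := by exact_mod_cast hu2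
    omega

end H31Y
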