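import Pool.Agent.Lib.H31Y.Defs

/-!
Chunk YTa: finite checks
-/

namespace H31Y

open Finset H31Z

/-- PROOF. `c0, c2 ∈ {0,1}`, `D ∈ {-1,..,3}`; `4b = n - c0 - 3c2 - D`; in each of the `20` cases either the
inequality `hq` fails for the residue of `n mod 4` or the exponents agree (`omega`). -/
theorem YT_three (n a b c0 c2 : ℕ) (D : ℤ) (hn : 8 ≤ n) (hc0 : c0 ≤ 1) (hc2 : c2 ≤ 1)
    (hsum : a + b + c0 + c2 = n) (hD : D = (a : ℤ) - 3 * b - 2 * c2) (hD1 : -1 ≤ D) (hD2 : D ≤ 3)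
    (hq : -3 * (c0 : ℤ) - 3 * c2 + D ^ 2 - 2 * D ≤ q3 n) :
    (a + 0 + (if |D| = 1 then 1 else 0), c2 + (if |D| = 2 then 1 else 0),
      b + (if |D| = 3 then 1 else 0), 0 + (if |D| = 4 then 1 else 0)) = s3 n := by
  unfold q3 at hq
  unfold s3
  dsimp only
  have h4 : n % 4 = 0 ∨ n % 4 = 1 ∨ n % 4 = 2 ∨ n % 4 = 3 := by omega
  rcases h4 with h4 | h4 | h4 | h4 <;> rw [h4] at hq ⊢ <;>
    norm_num at hq ⊢ <;> interval_cases c0 <;> interval_cases c2 <;> interval_cases D <;>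
    (try norm_num at hq) <;> (try norm_num) <;> omega

lemma yta_fin : ∀ d0 ∈ range 5, ∀ d1 ∈ range 5, ∀ d2 ∈ range 5, ∀ d3 ∈ range 5,
    d0 + d1 + d2 + d3 = 4 → ∀ ρ ∈ range 5, ∃ g0 ∈ range (d0 + 1), ∃ g1 ∈ range (d1 + 1),
      ∃ g2 ∈ range (d2 + 1), ∃ g3 ∈ range (d3 + 1), (g0 + 2 * g1 + 3 * g2 + 4 * g3) % 5 = ρ := by
  decide +kernel

/-- PROOF. Otherwise choose `g ≤ c` with sum `4`; in each of the `35` cases some sub-multiset has the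
residue `ρ` (`decide` over the bounded variables). -/
theorem YT_le3 (ρ c0 c1 c2 c3 : ℕ) (hρ : 1 ≤ ρ) (hρ4 : ρ ≤ 4)
    (h : ∀ g0 g1 g2 g3 : ℕ, g0 ≤ c0 → g1 ≤ c1 → g2 ≤ c2 → g3 ≤ c3 → g0 + g1 + g2 + g3 ≤ 4 →
      (g0 + 2 * g1 + 3 * g2 + 4 * g3) % 5 ≠ ρ) : c0 + c1 + c2 + c3 ≤ 3 := by
  by_contra hcon
  obtain ⟨d0, d1, d2, d3, h0, h1, h2, h3, hs⟩ : ∃ d0 d1 d2 d3 : ℕ, d0 ≤ c0 ∧ d1 ≤ c1 ∧ d2 ≤ c2 ∧
      d3 ≤ c3 ∧ d0 + d1 + d2 + d3 = 4 := by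
    refine ⟨min c0 4, min c1 (4 - min c0 4), min c2 (4 - min c0 4 - min c1 (4 - min c0 4)),
      4 - min c0 4 - min c1 (4 - min c0 4) - min c2 (4 - min c0 4 - min c1 (4 - min c0 4)),
      ?_, ?_, ?_, ?_, ?_⟩ <;> omega
  obtain ⟨g0, hg0, g1, hg1, g2, hg2, g3, hg3, hg⟩ := yta_fin d0 (mem_range.2 (by omega)) d1
    (mem_range.2 (by omega)) d2 (mem_range.2 (by omega)) d3 (mem_range.2 (by omega)) hs ρ
    (mem_range.2 (by omega))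
  rw [mem_range] at hg0 hg1 hg2 hg3
  exact h g0 g1 g2 g3 (by omega) (by omega) (by omega) (by omega) (by omega) hg

lemma yta_fin2 : ∀ c1 ∈ range 4, ∀ ρ ∈ range 5, ρ ≠ 0 → ∃ g1 ∈ range (c1 + 1),
    ∃ g2 ∈ range (3 - c1 + 1), (2 * g1 + 3 * g2) % 5 = ρ ∨ (4 + 2 * g1 + 3 * g2) % 5 = ρ := by
  decide +kernel

lemma yta_fin3 : ∀ c1 ∈ range 4, ∀ ρ ∈ range 5, ρ ≠ 0 → ∃ g1 ∈ range (c1 + 1),
    ∃ g2 ∈ range (3 - c1 + 1), (2 * g1 + 3 * g2) % 5 = ρ ∨ (6 + 2 * g1 + 3 * g2) % 5 = ρ := by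
  decide +kernel

/-- three entries from `{-1,-2}` and one with residue `1` or `4`. PROOF. Finite check. -/
theorem YT_extra (ρ : ℕ) (c1 c2 : ℕ) (u : ℤ) (hρ : 1 ≤ ρ) (hρ4 : ρ ≤ 4) (hu : u = -1 ∨ u = 6)
    (hc : c1 + c2 = 3) (h1 : ∀ g1 g2 : ℕ, g1 ≤ c1 → g2 ≤ c2 → (2 * g1 + 3 * g2) % 5 ≠ ρ)
    (h2 : ∀ g1 g2 : ℕ, g1 ≤ c1 → g2 ≤ c2 → (u + 2 * g1 + 3 * g2) % 5 ≠ (ρ : ℤ)) : False := by
  rcases hu with rfl | rfl
  · obtain ⟨g1, hg1, g2, hg2, hg⟩ := yta_fin2 c1 (mem_range.2 (by omega)) ρ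
      (mem_range.2 (by omega)) (by omega)
    rw [mem_range] at hg1 hg2
    rcases hg with hg | hg
    · exact h1 g1 g2 (by omega) (by omega) hg
    · exact h2 g1 g2 (by omega) (by omega) (by omega)
  · obtain ⟨g1, hg1, g2, hg2, hg⟩ := yta_fin3 c1 (mem_range.2 (by omega)) ρ
      (mem_range.2 (by omega)) (by omega)
    rw [mem_range] at hg1 hg2
    rcases hg with hg | hg
    · exact h1 g1 g2 (by omega) (by omega) hg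
    · exact h2 g1 g2 (by omega) (by omega) (by omega)

end H31Y
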