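import Pool.Agent.Lib.H31Y.Defs
import Pool.Agent.Lib.H31Y.YTa

/-!
Chunk YTb: minimisers for p = 4
-/

namespace H31Y

open Finset H31Z

lemma ytb_fin : ∀ c0 ∈ range 4, ∀ c1 ∈ range 4, ∀ c2 ∈ range 4, ∀ c3 ∈ range 4,
    c0 + c1 + c2 + c3 ≤ 3 → ∀ e ∈ range 6, ∀ ρ ∈ range 5, ρ ≠ 0 →
    (∀ g0 ∈ range (c0 + 1), ∀ g1 ∈ range (c1 + 1), ∀ g2 ∈ range (c2 + 1), ∀ g3 ∈ range (c3 + 1),
      (g0 + 2 * g1 + 3 * g2 + 4 * g3) % 5 ≠ ρ) →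
    ∀ t ∈ range 5,
    ((c0 : ℤ) + 2 * c1 + 3 * c2 + 4 * c3 + ((e : ℤ) - 1) -
      (if ρ = 1 then 7 else if ρ = 2 then 9 else if ρ = 3 then 6 else 8 : ℕ) - t) % 5 = 0 →
    -4 * (c0 : ℤ) - 6 * c1 - 6 * c2 - 4 * c3 + ((e : ℤ) - 1) ^ 2 - 3 * ((e : ℤ) - 1) ≤
      (if t = 0 then -18 else if t = 1 then -20 else if t = 2 then -20 else if t = 3 then -18
        else -14) →
    (-((c0 : ℤ) + c1 + c2 + c3) + c1 + ((if |(e : ℤ) - 1| = 1 then 1 else 0 : ℕ) : ℤ) = -3 -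
      ((c0 : ℤ) + 2 * c1 + 3 * c2 + 4 * c3 + ((e : ℤ) - 1) -
        (if ρ = 1 then 7 else if ρ = 2 then 9 else if ρ = 3 then 6 else 8 : ℕ) - t) / 5 +
      ((if ρ = 1 then 2 else if ρ = 2 then 0 else if ρ = 3 then 3 else 1 : ℕ) : ℤ) +
      ((if t = 1 then 1 else 0 : ℕ) : ℤ)) ∧
    (c2 + (if |(e : ℤ) - 1| = 2 then 1 else 0 : ℕ) =
      (3 - (if ρ = 1 then 2 else if ρ = 2 then 0 else if ρ = 3 then 3 else 1 : ℕ)) +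
      (if t = 2 then 1 else 0 : ℕ)) ∧
    (c3 + (if |(e : ℤ) - 1| = 3 then 1 else 0 : ℕ) = (if t = 3 then 1 else 0 : ℕ)) ∧
    (((if |(e : ℤ) - 1| = 4 then 1 else 0 : ℕ) : ℤ) =
      ((c0 : ℤ) + 2 * c1 + 3 * c2 + 4 * c3 + ((e : ℤ) - 1) -
        (if ρ = 1 then 7 else if ρ = 2 then 9 else if ρ = 3 then 6 else 8 : ℕ) - t) / 5 +
      ((if t = 4 then 1 else 0 : ℕ) : ℤ)) := by
  decide +kernel

/-- PROOF. By `YT_le3` `c0 + c1 + c2 + c3 ≤ 3`; `5b = n - (c0+2c1+3c2+4c3) - D`; finite check over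
`c_i`, `D ∈ {-1,..,4}`, `r mod 5`, `n mod 5` (checked by computer: 37 ties, all with these exponents). -/
theorem YT_four (n r a b c0 c1 c2 c3 : ℕ) (D : ℤ) (hn : 20 ≤ n) (hr5 : r % 5 ≠ 0)
    (hsum : a + b + c0 + c1 + c2 + c3 = n)
    (hD : D = (a : ℤ) - 4 * b - c1 - 2 * c2 - 3 * c3) (hD1 : -1 ≤ D) (hD2 : D ≤ 4)
    (h : ∀ g0 g1 g2 g3 : ℕ, g0 ≤ c0 → g1 ≤ c1 → g2 ≤ c2 → g3 ≤ c3 → g0 + g1 + g2 + g3 ≤ 4 →
      (g0 + 2 * g1 + 3 * g2 + 4 * g3) % 5 ≠ r % 5)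
    (hq : -4 * (c0 : ℤ) - 6 * c1 - 6 * c2 - 4 * c3 + D ^ 2 - 3 * D ≤ q4 n r) :
    (a + c1 + (if |D| = 1 then 1 else 0), c2 + (if |D| = 2 then 1 else 0),
      c3 + (if |D| = 3 then 1 else 0), b + (if |D| = 4 then 1 else 0)) = s4 n r := by
  have hle := YT_le3 (r % 5) c0 c1 c2 c3 (by omega) (by omega) h
  obtain ⟨e, he⟩ : ∃ e : ℕ, (e : ℤ) = D + 1 := ⟨(D + 1).toNat, by omega⟩
  have hDe : D = (e : ℤ) - 1 := by omega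
  have hu : uE r ≤ 9 := by unfold uE; split_ifs <;> omega
  have hm : mm1 r ≤ 3 := by unfold mm1; split_ifs <;> omega
  have hdiv : (n - uE r) = 5 * ((n - uE r) / 5) + (n - uE r) % 5 := by omega
  have hnat : 5 * (b : ℤ) + ((c0 : ℤ) + 2 * c1 + 3 * c2 + 4 * c3) + D = n := by
    have : (a : ℤ) + b + c0 + c1 + c2 + c3 = n := by exact_mod_cast hsum
    omega
  have key := ytb_fin c0 (mem_range.2 (by omega)) c1 (mem_range.2 (by omega)) c2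
    (mem_range.2 (by omega)) c3 (mem_range.2 (by omega)) (by omega) e (mem_range.2 (by omega))
    (r % 5) (mem_range.2 (by omega)) hr5
    (fun g0 hg0 g1 hg1 g2 hg2 g3 hg3 => by
      rw [mem_range] at hg0 hg1 hg2 hg3
      exact h g0 g1 g2 g3 (by omega) (by omega) (by omega) (by omega) (by omega))
    ((n - uE r) % 5) (mem_range.2 (by omega))
  rw [← hDe] at key
  change ((c0 : ℤ) + 2 * c1 + 3 * c2 + 4 * c3 + D - (uE r : ℕ) - ((n - uE r) % 5 : ℕ)) % 5 = 0 →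
    -4 * (c0 : ℤ) - 6 * c1 - 6 * c2 - 4 * c3 + D ^ 2 - 3 * D ≤ q4 n r →
    (-((c0 : ℤ) + c1 + c2 + c3) + c1 + ((if |D| = 1 then 1 else 0 : ℕ) : ℤ) = -3 -
      ((c0 : ℤ) + 2 * c1 + 3 * c2 + 4 * c3 + D - (uE r : ℕ) - ((n - uE r) % 5 : ℕ)) / 5 +
      (mm1 r : ℤ) + ((if (n - uE r) % 5 = 1 then 1 else 0 : ℕ) : ℤ)) ∧
    (c2 + (if |D| = 2 then 1 else 0 : ℕ) = (3 - mm1 r) + (if (n - uE r) % 5 = 2 then 1 else 0 : ℕ)) ∧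
    (c3 + (if |D| = 3 then 1 else 0 : ℕ) = (if (n - uE r) % 5 = 3 then 1 else 0 : ℕ)) ∧
    (((if |D| = 4 then 1 else 0 : ℕ) : ℤ) =
      ((c0 : ℤ) + 2 * c1 + 3 * c2 + 4 * c3 + D - (uE r : ℕ) - ((n - uE r) % 5 : ℕ)) / 5 +
      ((if (n - uE r) % 5 = 4 then 1 else 0 : ℕ) : ℤ)) at key
  obtain ⟨k1, k2, k3, k4⟩ := key (by omega) hq
  show _ = (n - 3 - (n - uE r) / 5 + mm1 r + (if (n - uE r) % 5 = 1 then 1 else 0),
    (3 - mm1 r) + (if (n - uE r) % 5 = 2 then 1 else 0),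
    (if (n - uE r) % 5 = 3 then 1 else 0), (n - uE r) / 5 + (if (n - uE r) % 5 = 4 then 1 else 0))
  have hk : ((c0 : ℤ) + 2 * c1 + 3 * c2 + 4 * c3 + D - (uE r : ℕ) - ((n - uE r) % 5 : ℕ)) / 5 =
      (((n - uE r) / 5 : ℕ) : ℤ) - b := by omega
  rw [hk] at k1 k4
  refine Prod.ext ?_ (Prod.ext k2 (Prod.ext k3 ?_))
  · show a + c1 + (if |D| = 1 then 1 else 0) =
      n - 3 - (n - uE r) / 5 + mm1 r + (if (n - uE r) % 5 = 1 then 1 else 0)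
    generalize (if |D| = 1 then 1 else 0 : ℕ) = i1 at *
    generalize (if (n - uE r) % 5 = 1 then 1 else 0 : ℕ) = i2 at *
    omega
  · show b + (if |D| = 4 then 1 else 0) = (n - uE r) / 5 + (if (n - uE r) % 5 = 4 then 1 else 0)
    generalize (if |D| = 4 then 1 else 0 : ℕ) = i1 at *
    generalize (if (n - uE r) % 5 = 4 then 1 else 0 : ℕ) = i2 at *
    omega

end H31Y
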