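import Pool.Agent.Lib.H31Y.YA
import Pool.Agent.Lib.H31Y.YB
import Pool.Agent.Lib.H31Y.YT
import Pool.Agent.Lib.H31Y.YF

/-!
Chunk YGa: cost of an integer vector
-/

namespace H31Y

open Finset H31Z

/-- the cost of an integer vector. PROOF. Expand `QQ`; `ExP p z` is the set of `z ∉ {0,1,-p}`. -/
theorem YG_cost (p : ℕ) {n : ℕ} (η : ℝ) (z : Fin n → ℤ) :
    QQ p η z = ∑ e ∈ ExP p z, ((1 - η) * (z e : ℝ) ^ 2 + (p - 1) * (z e : ℝ) - p) +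
      ((1 - η) * DD z ^ 2 - (p - 1) * DD z) - p * (ca z 0 : ℝ) := by
  unfold QQ
  have e1 : ∑ e ∈ ExP p z, ((1 - η) * (z e : ℝ) ^ 2 + ((p : ℝ) - 1) * (z e : ℝ) - p) =
      (1 - η) * ∑ e ∈ ExP p z, (z e : ℝ) ^ 2 - ∑ e ∈ ExP p z, ((p : ℝ) - ((p : ℝ) - 1) * (z e : ℝ)) := by
    rw [Finset.mul_sum, ← Finset.sum_sub_distrib]
    refine Finset.sum_congr rfl fun e _ => ?_
    ring
  rw [e1]
  ring

end H31Y
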