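import Pool.Agent.Lib.H31Y.YA
import Pool.Agent.Lib.H31Y.YB
import Pool.Agent.Lib.H31Y.YT
import Pool.Agent.Lib.H31Y.YF
import Pool.Agent.Lib.H31Y.YGa

/-!
Chunk YGb: final comparison for p = 3
-/

namespace H31Y

open Finset H31Z

/-- the term of the cost -/
noncomputable def ygb_f (v : ℤ) : ℝ := (1 - 1 / 1000) * (v : ℝ) ^ 2 + 2 * (v : ℝ) - 3

lemma ygb_split {n : ℕ} (z : Fin n → ℤ) :
    ∑ e ∈ ExP 3 z, ygb_f (z e) = (ca z (-1) : ℝ) * ygb_f (-1) + (ca z (-2) : ℝ) * ygb_f (-2) +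
      ∑ e ∈ Finset.univ.filter (fun i => z i ≠ 0 ∧ z i ≠ 1 ∧
        z i ≠ -3 ∧ z i ≠ -1 ∧ z i ≠ -2), ygb_f (z e) := by
  have hc : ∀ v : ℤ, (ca z v : ℝ) * ygb_f v = ∑ i, (if z i = v then ygb_f v else 0) := by
    intro v
    unfold ca
    rw [← Finset.sum_filter, Finset.sum_const, nsmul_eq_mul]
  rw [hc, hc]
  unfold ExP
  rw [Finset.sum_filter, Finset.sum_filter, ← Finset.sum_add_distrib, ← Finset.sum_add_distrib]
  refine Finset.sum_congr rfl ?_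
  intro i _
  have h4 : (-((3 : ℕ) : ℤ)) = -3 := by norm_num
  rw [h4]
  by_cases h1 : z i = -1
  · simp [h1]
  by_cases h2 : z i = -2
  · simp [h2]
  simp [h1, h2]

lemma ygb_m2 : ygb_f (-2) = -3 - 4 / 1000 := by unfold ygb_f; norm_num

lemma ygb_ge (v : ℤ) (h0 : v ≠ 0) (h1 : v ≠ 1) (h3 : v ≠ -3) (hm1 : v ≠ -1) (hm2 : v ≠ -2) :
    (49 / 10 : ℝ) ≤ ygb_f v := by
  unfold ygb_f
  rcases (by omega : 2 ≤ v ∨ v ≤ -4) with h | h
  · have h' : (2 : ℝ) ≤ (v : ℝ) := by exact_mod_cast h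
    nlinarith
  · have h' : (v : ℝ) ≤ -4 := by exact_mod_cast h
    nlinarith

lemma ygb_D (D : ℤ) : (-1 - 1 / 1000 : ℝ) ≤ (1 - 1 / 1000) * (D : ℝ) ^ 2 - 2 * (D : ℝ) := by
  rcases (by omega : D ≤ 0 ∨ D = 1 ∨ 2 ≤ D) with h | h | h
  · have h' : (D : ℝ) ≤ 0 := by exact_mod_cast h
    nlinarith
  · rw [h]
    norm_num
  · have h' : (2 : ℝ) ≤ (D : ℝ) := by exact_mod_cast h
    nlinarith

lemma ygb_D' (D : ℤ) (hD : ¬ (-1 ≤ D ∧ D ≤ 3)) :
    (79 / 10 : ℝ) ≤ (1 - 1 / 1000) * (D : ℝ) ^ 2 - 2 * (D : ℝ) := by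
  rcases (by omega : D ≤ -2 ∨ 4 ≤ D) with h | h
  · have h' : (D : ℝ) ≤ -2 := by exact_mod_cast h
    nlinarith
  · have h' : (4 : ℝ) ≤ (D : ℝ) := by exact_mod_cast h
    nlinarith

lemma ygb_card {n : ℕ} (z : Fin n → ℤ)
    (h : ∀ i, z i = 0 ∨ z i = 1 ∨ z i = -2 ∨ z i = -3) :
    ca z 1 + ca z (-3) + ca z 0 + ca z (-2) = n := by
  unfold ca
  simp only [Finset.card_filter]
  rw [← Finset.sum_add_distrib, ← Finset.sum_add_distrib, ← Finset.sum_add_distrib]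
  have : ∀ i ∈ (Finset.univ : Finset (Fin n)), ((((if z i = 1 then 1 else 0) + if z i = -3 then 1 else 0) +
      if z i = 0 then 1 else 0) + if z i = -2 then 1 else 0) = 1 := by
    intro i _
    rcases h i with h | h | h | h <;> simp [h]
  rw [Finset.sum_congr rfl this]
  simp

lemma ygb_sum {n : ℕ} (z : Fin n → ℤ)
    (h : ∀ i, z i = 0 ∨ z i = 1 ∨ z i = -2 ∨ z i = -3) :
    ∑ i, z i = (ca z 1 : ℤ) - 3 * (ca z (-3) : ℤ) - 2 * ca z (-2) := by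
  have hc : ∀ v : ℤ, (ca z v : ℤ) = ∑ i, (if z i = v then (1 : ℤ) else 0) := by
    intro v
    unfold ca
    rw [Finset.card_filter]
    push_cast
    rfl
  rw [hc, hc, hc, Finset.mul_sum, Finset.mul_sum,
    ← Finset.sum_sub_distrib, ← Finset.sum_sub_distrib]
  refine Finset.sum_congr rfl ?_
  intro i _
  rcases h i with h | h | h | h <;> simp [h]

lemma ygb_none {n : ℕ} (z : Fin n → ℤ) (v : ℤ) (h : ∀ i, z i ≠ v) : ca z v = 0 := by
  unfold ca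
  rw [Finset.card_eq_zero, Finset.filter_eq_empty_iff]
  intro i _
  exact h i

lemma ygb_q3 (n : ℕ) : q3 n ≤ -3 := by
  unfold q3
  split_ifs <;> norm_num

/-- PROOF. `η = 1/1000`, `ηS` from `YA_so 3 η`. Suppose `P > pz (vec3 n) univ 0 ≥ G0 (1 - (q3 + 3.5 + η)/(6n))`
(`YF_three`), `G0 = sqrt (2/(3πn))`; so `P ≥ (1-ηS) G0`, and `YB_three`: `c0 = ca z 0 ≤ 1`, no `-1`, `c2 = ca z (-2) ≤ 1`.
`YA_so`: `QQ < q3 n + 2η`. In `YG_cost`: the term of `v = -2` is `-3 - 4η`; of `v ∉ {0,1,-3,-1,-2}` at least `4.9`;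
`(1-η)D² - 2D ≥ -1 - η`, and `≥ 7.9` for `D ∉ {-1,..,3}`. If there is such a `v`: `QQ ≥ 4.9 - 3.004 - 1.001 - 3 > -3 + 2η`,
contradiction (`q3 ≤ -3`). So all `z ∈ {0,1,-2,-3}`, `D ∈ {-1,..,3}`, `-3c0 - 3c2 + D² - 2D ≤ QQ + 13η < q3 + 1`, so
`≤ q3`; `YT_three` (`a = ca z 1`, `b = ca z (-3)`), `YC_gk`, `YD3_gk`: `P = pz (vec3 n) univ 0`, contradiction. -/
theorem YG_three : ∃ ηS : ℝ, 0 < ηS ∧ ηS ≤ 1 / 100 ∧ ∃ n0 : ℕ, ∀ (n r : ℕ), n0 ≤ n → 6 ≤ r →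
    r % 4 = 2 → 9 * r ≤ 8 * n → ∀ z : Fin n → ℤ, NearP 3 ηS z →
      (∀ S : Finset (Fin n), S.card = r → ∑ i ∈ S, z i ≠ 0) →
      pz z Finset.univ 0 ≤ pz (vec3 n) Finset.univ 0 := by
  obtain ⟨ηS, hη0, hη1, n1, hso⟩ := YA_so 3 (by norm_num) (by norm_num) (1 / 1000) (by norm_num)
    (by norm_num)
  obtain ⟨n2, hF⟩ := YF_three (1 / 1000) (by norm_num)
  refine ⟨ηS, hη0, hη1, max (max n1 n2) (1000 + ⌈1 / ηS⌉₊), ?_⟩
  intro n r hn hr6 hr4 hr8 z hz hS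
  by_contra hlt
  push Not at hlt
  have hnn' : 1000 + ⌈1 / ηS⌉₊ ≤ n := le_trans (le_max_right _ _) hn
  have hnn : 1000 ≤ n := by omega
  have hnη : 1 / ηS ≤ n := by
    refine (Nat.le_ceil _).trans ?_
    have : ⌈1 / ηS⌉₊ ≤ n := by omega
    exact_mod_cast this
  have hn1 : n1 ≤ n := le_trans (le_trans (le_max_left _ _) (le_max_left _ _)) hn
  have hn2 : n2 ≤ n := le_trans (le_trans (le_max_right _ _) (le_max_left _ _)) hn
  have hnR : (0 : ℝ) < (n : ℝ) := by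
    have : 0 < n := by omega
    exact_mod_cast this
  have hz' : NearP 3 (1 / 100) z := by
    obtain ⟨ha, hb⟩ := hz
    constructor
    · refine le_trans ?_ ha
      exact mul_le_mul_of_nonneg_right (by linarith) hnR.le
    · refine le_trans hb ?_
      exact mul_le_mul_of_nonneg_right hη1 hnR.le
  obtain ⟨hc0, hcm1, hc2⟩ := YB_three hnn hr8 hr4 hr6 hz' hS
  have hlow := hF n hn2
  set G0 : ℝ := Real.sqrt (2 / (Real.pi * ((3 : ℕ) : ℝ) * n)) with hG0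
  have hG0pos : 0 < G0 := by
    rw [hG0]
    apply Real.sqrt_pos.mpr
    have := Real.pi_pos
    positivity
  have hq3 : q3 n ≤ -3 := ygb_q3 n
  have hq3R : (q3 n : ℝ) ≤ -3 := by exact_mod_cast hq3
  have hphi : phi 3 = 7 / 2 := by
    unfold phi
    norm_num
  have hden : (0 : ℝ) < 2 * ((3 : ℕ) : ℝ) * n := by positivity
  have hP1 : (1 - ηS) * G0 ≤ pz z Finset.univ 0 := by
    have e1 : ((q3 n : ℝ) + phi 3 + 1 / 1000) / (2 * ((3 : ℕ) : ℝ) * n) ≤ 1 / n := by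
      rw [div_le_div_iff₀ hden hnR, hphi]
      push_cast
      nlinarith
    have e2 : 1 / (n : ℝ) ≤ ηS := by
      rw [div_le_iff₀ hη0] at hnη
      rw [div_le_iff₀ hnR]
      linarith
    have e3 : G0 * (1 - ηS) ≤ G0 * (1 - ((q3 n : ℝ) + phi 3 + 1 / 1000) / (2 * ((3 : ℕ) : ℝ) * n)) :=
      mul_le_mul_of_nonneg_left (by linarith) hG0pos.le
    linarith
  have hup := hso n hn1 z hz (by omega) hP1
  have hQ : QQ 3 (1 / 1000) z < (q3 n : ℝ) + 2 / 1000 := by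
    have e1 : G0 * (1 - ((q3 n : ℝ) + phi 3 + 1 / 1000) / (2 * ((3 : ℕ) : ℝ) * n)) <
        G0 * (1 - (QQ 3 (1 / 1000) z + phi 3 - 1 / 1000) / (2 * ((3 : ℕ) : ℝ) * n)) :=
      lt_of_le_of_lt hlow (lt_of_lt_of_le hlt hup)
    have e2 := lt_of_mul_lt_mul_left e1 hG0pos.le
    have e3 : (QQ 3 (1 / 1000) z + phi 3 - 1 / 1000) / (2 * ((3 : ℕ) : ℝ) * n) <
        ((q3 n : ℝ) + phi 3 + 1 / 1000) / (2 * ((3 : ℕ) : ℝ) * n) := by linarith
    rw [div_lt_div_iff_of_pos_right hden] at e3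
    linarith
  -- the cost
  have hcost := YG_cost 3 (1 / 1000) z
  have hcost' : QQ 3 (1 / 1000) z = ∑ e ∈ ExP 3 z, ygb_f (z e) +
      ((1 - 1 / 1000) * ((∑ i, z i : ℤ) : ℝ) ^ 2 - 2 * ((∑ i, z i : ℤ) : ℝ)) -
        3 * (ca z 0 : ℝ) := by
    rw [hcost]
    have e1 : DD z = ((∑ i, z i : ℤ) : ℝ) := by
      unfold DD
      push_cast
      rfl
    rw [e1]
    have e2 : ∀ e ∈ ExP 3 z, ((1 - 1 / 1000) * (z e : ℝ) ^ 2 + (((3 : ℕ) : ℝ) - 1) * (z e : ℝ) -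
        ((3 : ℕ) : ℝ)) = ygb_f (z e) := by
      intro e _
      unfold ygb_f
      push_cast
      ring
    rw [Finset.sum_congr rfl e2]
    push_cast
    ring
  rw [ygb_split z] at hcost'
  set O : Finset (Fin n) := Finset.univ.filter (fun i => z i ≠ 0 ∧ z i ≠ 1 ∧
        z i ≠ -3 ∧ z i ≠ -1 ∧ z i ≠ -2) with hO
  set D : ℤ := ∑ i, z i with hDdef
  rw [ygb_m2, hcm1, Nat.cast_zero, zero_mul, zero_add] at hcost'
  have hOge : ∀ e ∈ O, (49 / 10 : ℝ) ≤ ygb_f (z e) := by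
    intro e he
    rw [hO, Finset.mem_filter] at he
    obtain ⟨_, a0, a1, a2, a3, a4⟩ := he
    exact ygb_ge _ a0 a1 a2 a3 a4
  have hc0R : (ca z 0 : ℝ) ≤ 1 := by exact_mod_cast hc0
  have hc2R : (ca z (-2) : ℝ) ≤ 1 := by exact_mod_cast hc2
  have p0 : (0 : ℝ) ≤ (ca z 0 : ℝ) := Nat.cast_nonneg _
  have p2 : (0 : ℝ) ≤ (ca z (-2) : ℝ) := Nat.cast_nonneg _
  have hDge := ygb_D D
  have hOe : O = ∅ := by
    by_contra hne
    obtain ⟨e, he⟩ := Finset.nonempty_iff_ne_empty.mpr hne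
    have hsum : ygb_f (z e) ≤ ∑ e ∈ O, ygb_f (z e) := by
      apply Finset.single_le_sum (f := fun e => ygb_f (z e)) _ he
      intro i hi
      have := hOge i hi
      show 0 ≤ ygb_f (z i)
      linarith
    have hge := hOge e he
    linarith
  have hnm1 : ∀ i, z i ≠ -1 := by
    intro i hi
    have h1 : i ∈ Finset.univ.filter (fun i => z i = -1) := by simp [hi]
    have h2 : 0 < ca z (-1) := by
      unfold ca
      exact Finset.card_pos.2 ⟨i, h1⟩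
    omega
  have hall : ∀ i, z i = 0 ∨ z i = 1 ∨ z i = -2 ∨ z i = -3 := by
    intro i
    by_contra hcon
    push Not at hcon
    have : i ∈ O := by
      rw [hO, Finset.mem_filter]
      exact ⟨Finset.mem_univ _, hcon.1, hcon.2.1, hcon.2.2.2, hnm1 i, hcon.2.2.1⟩
    rw [hOe] at this
    simp at this
  rw [hOe, Finset.sum_empty] at hcost'
  have hDr : -1 ≤ D ∧ D ≤ 3 := by
    by_contra hcon
    have := ygb_D' D hcon
    linarith
  have hDR1 : (-1 : ℝ) ≤ (D : ℝ) := by exact_mod_cast hDr.1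
  have hDR2 : (D : ℝ) ≤ 3 := by exact_mod_cast hDr.2
  have hD16 : (D : ℝ) ^ 2 ≤ 9 := by nlinarith
  have hqq : -3 * (ca z 0 : ℤ) - 3 * ca z (-2) + D ^ 2 - 2 * D ≤ q3 n := by
    have : (-3 * (ca z 0 : ℤ) - 3 * ca z (-2) + D ^ 2 - 2 * D : ℤ) < q3 n + 1 := by
      have hR : (-3 * (ca z 0 : ℝ) - 3 * ca z (-2) +
          (D : ℝ) ^ 2 - 2 * (D : ℝ)) < (q3 n : ℝ) + 1 := by linarith
      exact_mod_cast hR
    omega
  have hT := YT_three n (ca z 1) (ca z (-3)) (ca z 0) (ca z (-2)) D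
    (by omega) hc0 hc2 (ygb_card z hall) (ygb_sum z hall) hDr.1 hDr.2 hqq
  have hG1 := YC_gk z (fun i => by
    rcases hall i with h | h | h | h <;> simp [h]) (by
    rw [← hDdef, abs_le]
    constructor <;> omega)
  have hG2 := YD3_gk n (by omega)
  rw [← hDdef] at hG1
  rw [← hT] at hG2
  dsimp only at hG2
  rw [hcm1, ygb_none z (-4) (fun i h => by rcases hall i with h' | h' | h' | h' <;> omega)] at hG1
  rw [← hG1] at hG2
  linarith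

end H31Y
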