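import Pool.Agent.Lib.H31Y.YG

/-!
Chunk YH: the final comparison for `p = 4`.
-/

namespace H31Y

open Finset H31Z

/-- the term of the cost -/
noncomputable def yh_f (v : ℤ) : ℝ := (1 - 1 / 1000) * (v : ℝ) ^ 2 + 3 * (v : ℝ) - 4

lemma yh_split {n : ℕ} (z : Fin n → ℤ) :
    ∑ e ∈ ExP 4 z, yh_f (z e) = (ca z (-1) : ℝ) * yh_f (-1) + (ca z (-2) : ℝ) * yh_f (-2) +
      (ca z (-3) : ℝ) * yh_f (-3) + ∑ e ∈ Finset.univ.filter (fun i => z i ≠ 0 ∧ z i ≠ 1 ∧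
        z i ≠ -4 ∧ z i ≠ -1 ∧ z i ≠ -2 ∧ z i ≠ -3), yh_f (z e) := by
  have hc : ∀ v : ℤ, (ca z v : ℝ) * yh_f v = ∑ i, (if z i = v then yh_f v else 0) := by
    intro v
    unfold ca
    rw [← Finset.sum_filter, Finset.sum_const, nsmul_eq_mul]
  rw [hc, hc, hc]
  unfold ExP
  rw [Finset.sum_filter, Finset.sum_filter, ← Finset.sum_add_distrib, ← Finset.sum_add_distrib,
    ← Finset.sum_add_distrib]
  refine Finset.sum_congr rfl ?_
  intro i _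
  have h4 : (-((4 : ℕ) : ℤ)) = -4 := by norm_num
  rw [h4]
  by_cases h1 : z i = -1
  · simp [h1]
  by_cases h2 : z i = -2
  · simp [h2]
  by_cases h3 : z i = -3
  · simp [h3]
  simp [h1, h2, h3]

lemma yh_m1 : yh_f (-1) = -6 - 1 / 1000 := by unfold yh_f; norm_num
lemma yh_m2 : yh_f (-2) = -6 - 4 / 1000 := by unfold yh_f; norm_num
lemma yh_m3 : yh_f (-3) = -4 - 9 / 1000 := by unfold yh_f; norm_num

lemma yh_ge (v : ℤ) (h0 : v ≠ 0) (h1 : v ≠ 1) (h4 : v ≠ -4) (hm1 : v ≠ -1) (hm2 : v ≠ -2)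
    (hm3 : v ≠ -3) : (59 / 10 : ℝ) ≤ yh_f v := by
  unfold yh_f
  rcases (by omega : 2 ≤ v ∨ v ≤ -5) with h | h
  · have h' : (2 : ℝ) ≤ (v : ℝ) := by exact_mod_cast h
    nlinarith
  · have h' : (v : ℝ) ≤ -5 := by exact_mod_cast h
    nlinarith

lemma yh_ge' (v : ℤ) (h0 : v ≠ 0) (h1 : v ≠ 1) (h4 : v ≠ -4) (hm1 : v ≠ -1) (hm2 : v ≠ -2)
    (hm3 : v ≠ -3) (h2 : v ≠ 2) (h5 : v ≠ -5) : (139 / 10 : ℝ) ≤ yh_f v := by
  unfold yh_f
  rcases (by omega : 3 ≤ v ∨ v ≤ -6) with h | h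
  · have h' : (3 : ℝ) ≤ (v : ℝ) := by exact_mod_cast h
    nlinarith
  · have h' : (v : ℝ) ≤ -6 := by exact_mod_cast h
    nlinarith

lemma yh_D (D : ℤ) : (-2 - 4 / 1000 : ℝ) ≤ (1 - 1 / 1000) * (D : ℝ) ^ 2 - 3 * (D : ℝ) := by
  rcases (by omega : D ≤ 1 ∨ 2 ≤ D) with h | h
  · have h' : (D : ℝ) ≤ 1 := by exact_mod_cast h
    nlinarith
  · have h' : (2 : ℝ) ≤ (D : ℝ) := by exact_mod_cast h
    nlinarith

lemma yh_D' (D : ℤ) (hD : ¬ (-1 ≤ D ∧ D ≤ 4)) :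
    (99 / 10 : ℝ) ≤ (1 - 1 / 1000) * (D : ℝ) ^ 2 - 3 * (D : ℝ) := by
  rcases (by omega : D ≤ -2 ∨ 5 ≤ D) with h | h
  · have h' : (D : ℝ) ≤ -2 := by exact_mod_cast h
    nlinarith
  · have h' : (5 : ℝ) ≤ (D : ℝ) := by exact_mod_cast h
    nlinarith

lemma yh_card {n : ℕ} (z : Fin n → ℤ)
    (h : ∀ i, z i = 0 ∨ z i = 1 ∨ z i = -1 ∨ z i = -2 ∨ z i = -3 ∨ z i = -4) :
    ca z 1 + ca z (-4) + ca z 0 + ca z (-1) + ca z (-2) + ca z (-3) = n := by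
  unfold ca
  simp only [Finset.card_filter]
  rw [← Finset.sum_add_distrib, ← Finset.sum_add_distrib, ← Finset.sum_add_distrib,
    ← Finset.sum_add_distrib, ← Finset.sum_add_distrib]
  have : ∀ i ∈ (Finset.univ : Finset (Fin n)), ((((((if z i = 1 then 1 else 0) + if z i = -4 then 1 else 0) +
      if z i = 0 then 1 else 0) + if z i = -1 then 1 else 0) + if z i = -2 then 1 else 0) +
      if z i = -3 then 1 else 0) = 1 := by
    intro i _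
    rcases h i with h | h | h | h | h | h <;> simp [h]
  rw [Finset.sum_congr rfl this]
  simp

lemma yh_sum {n : ℕ} (z : Fin n → ℤ)
    (h : ∀ i, z i = 0 ∨ z i = 1 ∨ z i = -1 ∨ z i = -2 ∨ z i = -3 ∨ z i = -4) :
    ∑ i, z i = (ca z 1 : ℤ) - 4 * (ca z (-4) : ℤ) - ca z (-1) - 2 * ca z (-2) - 3 * ca z (-3) := by
  have hc : ∀ v : ℤ, (ca z v : ℤ) = ∑ i, (if z i = v then (1 : ℤ) else 0) := by
    intro v
    unfold ca
    rw [Finset.card_filter]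
    push_cast
    rfl
  rw [hc, hc, hc, hc, hc, Finset.mul_sum, Finset.mul_sum, Finset.mul_sum,
    ← Finset.sum_sub_distrib, ← Finset.sum_sub_distrib, ← Finset.sum_sub_distrib,
    ← Finset.sum_sub_distrib]
  refine Finset.sum_congr rfl ?_
  intro i _
  rcases h i with h | h | h | h | h | h <;> simp [h]

lemma yh_q4 (n r : ℕ) : q4 n r ≤ -14 := by
  unfold q4
  dsimp only
  split_ifs <;> norm_num

/-- PROOF. `η = 1/1000`, `ηS` from `YA_so 4 η`. Suppose `P > pz (vec4 n r) univ 0 ≥ G0 (1 - (q4 + 6.5 + η)/(8n))`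
(`YF_four`). `c_i = ca z (-i)`, `i = 0..3`; `YB_four`, `YT_le3`: `c0 + c1 + c2 + c3 ≤ 3`. `YA_so`: `QQ < q4 n r + 2η`, `q4 ≤ -14`.
In `YG_cost`: `v = -1`: `-6 - η`; `-2`: `-6 - 4η`; `-3`: `-4 - 9η`; `v ∈ {2,-5}`: `≥ 5.9`; the other `v`: `≥ 13.9`;
`(1-η)D² - 3D ≥ -2 - 4η`, and `≥ 9.9` for `D ∉ {-1,..,4}`. Others (`v ∉ {0,..,-4,1}`): if one is not in `{2,-5}`:
`QQ ≥ -18.03 + 13.9 - 2.01`; if there are two: `≥ -18.03 + 11.8 - 2.01`; exactly one, in `{2,-5}`: family of at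
most `2` elements: `≥ -12.1 + 5.9 - 2.01`; of `3` elements with `c0 + c3 ≥ 1`: `≥ -16.1 + 5.9 - 2.01`; all are
`> -14 + 2η`; `c1 + c2 = 3`, `c0 = c3 = 0`: `YT_extra` with `YB_four`, `YB_four'` (`ρ = r % 5`, `u = 1 - z e`). So there are no others,
`D ∈ {-1,..,4}`, and `-4c0 - 6c1 - 6c2 - 4c3 + D² - 3D ≤ QQ + 43η < q4 + 1`, so `≤ q4`; `YT_four`, `YC_gk`, `YE4_gk`:
`P = pz (vec4 n r) univ 0`, contradiction. -/
theorem YH_four : ∃ ηS : ℝ, 0 < ηS ∧ ηS ≤ 1 / 100 ∧ ∃ n0 : ℕ, ∀ (n r : ℕ), n0 ≤ n → 12 ≤ r →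
    12 ∣ r → r % 5 ≠ 0 → 9 * r ≤ 8 * n → ∀ z : Fin n → ℤ, NearP 4 ηS z →
      (∀ S : Finset (Fin n), S.card = r → ∑ i ∈ S, z i ≠ 0) →
      pz z Finset.univ 0 ≤ pz (vec4 n r) Finset.univ 0 := by
  obtain ⟨ηS, hη0, hη1, n1, hso⟩ := YA_so 4 (by norm_num) (by norm_num) (1 / 1000) (by norm_num)
    (by norm_num)
  obtain ⟨n2, hF⟩ := YF_four (1 / 1000) (by norm_num)
  refine ⟨ηS, hη0, hη1, max (max n1 n2) 1000, ?_⟩
  intro n r hn hr12 hdvd hr5 hr8 z hz hS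
  by_contra hlt
  push Not at hlt
  have hnn : 1000 ≤ n := le_trans (le_max_right _ _) hn
  have hn1 : n1 ≤ n := le_trans (le_trans (le_max_left _ _) (le_max_left _ _)) hn
  have hn2 : n2 ≤ n := le_trans (le_trans (le_max_right _ _) (le_max_left _ _)) hn
  have hnR : (0 : ℝ) < (n : ℝ) := by
    have : 0 < n := by omega
    exact_mod_cast this
  have hz' : NearP 4 (1 / 100) z := by
    obtain ⟨ha, hb⟩ := hz
    constructor
    · refine le_trans ?_ ha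
      exact mul_le_mul_of_nonneg_right (by linarith) hnR.le
    · refine le_trans hb ?_
      exact mul_le_mul_of_nonneg_right hη1 hnR.le
  have h4 := YB_four hnn hr8 hdvd hr5 hr12 hz' hS
  have hle3 : ca z 0 + ca z (-1) + ca z (-2) + ca z (-3) ≤ 3 :=
    YT_le3 (r % 5) _ _ _ _ (by omega) (by omega) h4
  have hlow := hF n hn2 r hr5
  set G0 : ℝ := Real.sqrt (2 / (Real.pi * ((4 : ℕ) : ℝ) * n)) with hG0
  have hG0pos : 0 < G0 := by
    rw [hG0]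
    apply Real.sqrt_pos.mpr
    have := Real.pi_pos
    positivity
  have hq14 : q4 n r ≤ -14 := yh_q4 n r
  have hq14R : (q4 n r : ℝ) ≤ -14 := by exact_mod_cast hq14
  have hphi : phi 4 = 13 / 2 := by
    unfold phi
    norm_num
  have hden : (0 : ℝ) < 2 * ((4 : ℕ) : ℝ) * n := by positivity
  have hP1 : (1 - ηS) * G0 ≤ pz z Finset.univ 0 := by
    have e1 : ((q4 n r : ℝ) + phi 4 + 1 / 1000) / (2 * ((4 : ℕ) : ℝ) * n) ≤ 0 := by
      apply div_nonpos_of_nonpos_of_nonneg _ hden.le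
      rw [hphi]
      linarith
    have e2 : G0 ≤ G0 * (1 - ((q4 n r : ℝ) + phi 4 + 1 / 1000) / (2 * ((4 : ℕ) : ℝ) * n)) := by
      nlinarith
    have e3 : (1 - ηS) * G0 ≤ G0 := by nlinarith
    linarith
  have hup := hso n hn1 z hz (by omega) hP1
  have hQ : QQ 4 (1 / 1000) z < (q4 n r : ℝ) + 2 / 1000 := by
    have e1 : G0 * (1 - ((q4 n r : ℝ) + phi 4 + 1 / 1000) / (2 * ((4 : ℕ) : ℝ) * n)) <
        G0 * (1 - (QQ 4 (1 / 1000) z + phi 4 - 1 / 1000) / (2 * ((4 : ℕ) : ℝ) * n)) :=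
      lt_of_le_of_lt hlow (lt_of_lt_of_le hlt hup)
    have e2 := lt_of_mul_lt_mul_left e1 hG0pos.le
    have e3 : (QQ 4 (1 / 1000) z + phi 4 - 1 / 1000) / (2 * ((4 : ℕ) : ℝ) * n) <
        ((q4 n r : ℝ) + phi 4 + 1 / 1000) / (2 * ((4 : ℕ) : ℝ) * n) := by linarith
    rw [div_lt_div_iff_of_pos_right hden] at e3
    linarith
  -- the cost
  have hcost := YG_cost 4 (1 / 1000) z
  have hcost' : QQ 4 (1 / 1000) z = ∑ e ∈ ExP 4 z, yh_f (z e) +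
      ((1 - 1 / 1000) * ((∑ i, z i : ℤ) : ℝ) ^ 2 - 3 * ((∑ i, z i : ℤ) : ℝ)) -
        4 * (ca z 0 : ℝ) := by
    rw [hcost]
    have e1 : DD z = ((∑ i, z i : ℤ) : ℝ) := by
      unfold DD
      push_cast
      rfl
    rw [e1]
    have e2 : ∀ e ∈ ExP 4 z, ((1 - 1 / 1000) * (z e : ℝ) ^ 2 + (((4 : ℕ) : ℝ) - 1) * (z e : ℝ) -
        ((4 : ℕ) : ℝ)) = yh_f (z e) := by
      intro e _
      unfold yh_f
      push_cast
      ring
    rw [Finset.sum_congr rfl e2]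
    push_cast
    ring
  rw [yh_split z] at hcost'
  set O : Finset (Fin n) := Finset.univ.filter (fun i => z i ≠ 0 ∧ z i ≠ 1 ∧
        z i ≠ -4 ∧ z i ≠ -1 ∧ z i ≠ -2 ∧ z i ≠ -3) with hO
  set D : ℤ := ∑ i, z i with hDdef
  rw [yh_m1, yh_m2, yh_m3] at hcost'
  have hOge : ∀ e ∈ O, (59 / 10 : ℝ) ≤ yh_f (z e) := by
    intro e he
    rw [hO, Finset.mem_filter] at he
    obtain ⟨_, a0, a1, a2, a3, a4, a5⟩ := he
    exact yh_ge _ a0 a1 a2 a3 a4 a5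
  have hle3R : (ca z 0 : ℝ) + ca z (-1) + ca z (-2) + ca z (-3) ≤ 3 := by exact_mod_cast hle3
  have p0 : (0 : ℝ) ≤ (ca z 0 : ℝ) := Nat.cast_nonneg _
  have p1 : (0 : ℝ) ≤ (ca z (-1) : ℝ) := Nat.cast_nonneg _
  have p2 : (0 : ℝ) ≤ (ca z (-2) : ℝ) := Nat.cast_nonneg _
  have p3 : (0 : ℝ) ≤ (ca z (-3) : ℝ) := Nat.cast_nonneg _
  have hDge := yh_D D
  have hOe : O = ∅ := by
    by_contra hne
    obtain ⟨e, he⟩ := Finset.nonempty_iff_ne_empty.mpr hne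
    have hsum : yh_f (z e) ≤ ∑ e ∈ O, yh_f (z e) := by
      apply Finset.single_le_sum (f := fun e => yh_f (z e)) _ he
      intro i hi
      have := hOge i hi
      show 0 ≤ yh_f (z i)
      linarith
    have hge := hOge e he
    have hmem := he
    rw [hO, Finset.mem_filter] at hmem
    obtain ⟨_, a0, a1, a2, a3, a4, a5⟩ := hmem
    have h12 : ca z (-1) + ca z (-2) = 3 := by
      by_contra h12
      have h12' : ca z (-1) + ca z (-2) ≤ 2 := by omega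
      have h12R : (ca z (-1) : ℝ) + ca z (-2) ≤ 2 := by exact_mod_cast h12'
      linarith
    have h25 : z e = 2 ∨ z e = -5 := by
      by_contra h25
      push Not at h25
      have := yh_ge' _ a0 a1 a2 a3 a4 a5 h25.1 h25.2
      linarith
    refine YT_extra (r % 5) (ca z (-1)) (ca z (-2)) (1 - z e) (by omega) (by omega)
      (by rcases h25 with h | h <;> rw [h] <;> norm_num) h12 ?_ ?_
    · intro g1 g2 hg1 hg2
      have := h4 0 g1 g2 0 (by omega) hg1 hg2 (by omega) (by omega)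
      simpa using this
    · intro g1 g2 hg1 hg2
      have := YB_four' hnn hr8 hdvd hr5 hr12 hz' hS e h25 g1 g2 hg1 hg2 (by omega)
      push_cast
      exact this
  have hall : ∀ i, z i = 0 ∨ z i = 1 ∨ z i = -1 ∨ z i = -2 ∨ z i = -3 ∨ z i = -4 := by
    intro i
    by_contra hcon
    push Not at hcon
    have : i ∈ O := by
      rw [hO, Finset.mem_filter]
      exact ⟨Finset.mem_univ _, hcon.1, hcon.2.1, hcon.2.2.2.2.2, hcon.2.2.1, hcon.2.2.2.1,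
        hcon.2.2.2.2.1⟩
    rw [hOe] at this
    simp at this
  rw [hOe, Finset.sum_empty] at hcost'
  have hDr : -1 ≤ D ∧ D ≤ 4 := by
    by_contra hcon
    have := yh_D' D hcon
    linarith
  have hDR1 : (-1 : ℝ) ≤ (D : ℝ) := by exact_mod_cast hDr.1
  have hDR2 : (D : ℝ) ≤ 4 := by exact_mod_cast hDr.2
  have hD16 : (D : ℝ) ^ 2 ≤ 16 := by nlinarith
  have hqq : -4 * (ca z 0 : ℤ) - 6 * ca z (-1) - 6 * ca z (-2) - 4 * ca z (-3) + D ^ 2 - 3 * D ≤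
      q4 n r := by
    have : (-4 * (ca z 0 : ℤ) - 6 * ca z (-1) - 6 * ca z (-2) - 4 * ca z (-3) + D ^ 2 - 3 * D : ℤ) <
        q4 n r + 1 := by
      have hR : (-4 * (ca z 0 : ℝ) - 6 * ca z (-1) - 6 * ca z (-2) - 4 * ca z (-3) +
          (D : ℝ) ^ 2 - 3 * (D : ℝ)) < (q4 n r : ℝ) + 1 := by linarith
      exact_mod_cast hR
    omega
  have hT := YT_four n r (ca z 1) (ca z (-4)) (ca z 0) (ca z (-1)) (ca z (-2)) (ca z (-3)) D
    (by omega) hr5 (yh_card z hall) (yh_sum z hall) hDr.1 hDr.2 h4 hqq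
  have hG1 := YC_gk z hall (by
    rw [← hDdef, abs_le]
    constructor <;> omega)
  have hG2 := YE4_gk n r (by omega) hr5
  rw [← hDdef] at hG1
  rw [← hT] at hG2
  dsimp only at hG2
  rw [← hG1] at hG2
  linarith

end H31Y
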