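import Pool.Agent.Lib.H31Y.SD
import Pool.Agent.Lib.H31Y.YG
import Pool.Agent.Lib.H31Y.YH

/-!
Chunk UAa: balanced case, p = 3, 4
-/

namespace H31Y

open Finset H31Z

theorem uaa_low (p : ℕ) (hp : 3 ≤ p) (q : ℤ) (hq : (q : ℝ) + phi p + 1 ≤ 2) (η : ℝ) (hη : 0 < η)
    (n : ℕ) (hn : 1 / η ≤ (n : ℝ)) (hn0 : 0 < n) (P : ℝ)
    (h : Real.sqrt (2 / (Real.pi * p * n)) * (1 - ((q : ℝ) + phi p + 1) / (2 * p * n)) ≤ P) :
    (1 - η) * Real.sqrt (2 / (Real.pi * p * n)) ≤ P := by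
  have hnR : (0 : ℝ) < n := by exact_mod_cast hn0
  have hp3 : (3 : ℝ) ≤ p := by exact_mod_cast hp
  have h1 : ((q : ℝ) + phi p + 1) / (2 * p * n) ≤ η := by
    rw [div_le_iff₀ hη] at hn
    rw [div_le_iff₀ (by positivity)]
    have h2 : (2 : ℝ) * 3 * (n * η) ≤ 2 * p * (n * η) :=
      mul_le_mul_of_nonneg_right (by linarith) (by linarith)
    linarith
  refine le_trans ?_ h
  rw [mul_comm]
  exact mul_le_mul_of_nonneg_left (by linarith) (Real.sqrt_nonneg _)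

theorem uaa_I (n r : ℕ) (η : ℝ) (hη : 0 < η) (hn : 45 / η ≤ (n : ℝ)) (hr9 : 9 * r ≤ 8 * n)
    (I : Finset (Fin n)) (hI : n < I.card + r) : 5 ≤ η * I.card ∧ I.card + (n - I.card) = n := by
  have hIn : I.card ≤ n := by simpa using Finset.card_le_univ I
  have h1 : n ≤ 9 * I.card := by omega
  have h2 : (n : ℝ) ≤ 9 * (I.card : ℝ) := by exact_mod_cast h1
  rw [div_le_iff₀ hη] at hn
  refine ⟨by nlinarith, by omega⟩

/-- PROOF. `ηS` from `YG_three`, `ηB` from `SD_red 3 ηS`. Suppose `P > pz (vec3 n) univ 0 ≥ (1-η) sqrt (2/(3πn))` (`YF_three`,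
large `n`). The condition on the pairs: `SA_prod` (`5 ≤ η|I|` for large `n`). `SD_red` and `YG_three` (`6 ∣ r`, so
`r ≥ 6`): `P = pz z univ 0 ≤ pz (vec3 n) univ 0`. -/
theorem UA_three : ∃ ηB : ℝ, 0 < ηB ∧ ηB ≤ 1 / 2000 ∧ ∀ η : ℝ, 0 < η → η ≤ ηB → ∀ (K1 : ℕ) (δ : ℝ),
    ∃ n0 : ℕ, ∀ (n r : ℕ), n0 ≤ n → 1 ≤ r → 6 ∣ r → r % 4 = 2 → 9 * r ≤ 8 * n →
      ∀ (I : Finset (Fin n)) (y : Fin n → ℤ), (∀ j ∈ I, y j ≠ 0) →
      Star y I (n - I.card) r → n < I.card + r →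
      ∀ (L : Finset (Fin n)) (g : ℤ) (w : Fin n → ℤ), Bal η K1 δ I y L g w →
      pz y I 0 ≤ pz (vec3 n) Finset.univ 0 := by
  obtain ⟨ηS, hS0, hS1, n1, hG⟩ := YG_three
  obtain ⟨ηB, hB0, hB1, hR⟩ := SD_red 3 (by norm_num) (by norm_num) ηS hS0 hS1
  obtain ⟨n3, hF⟩ := YF_three 1 one_pos
  refine ⟨ηB, hB0, hB1, fun η hη hηB K1 δ => ?_⟩
  obtain ⟨n2, hR⟩ := hR η hη hηB K1 δ
  refine ⟨n1 + n2 + n3 + ⌈1 / η⌉₊ + ⌈45 / η⌉₊ + 1, ?_⟩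
  intro n r hn hr h6 hr4 hr9 I y hy hS hI L g w hB
  by_contra hcon
  have hlt := not_le.1 hcon
  have hc1 : 1 / η ≤ (n : ℝ) := (Nat.le_ceil _).trans (by exact_mod_cast (by omega : ⌈1 / η⌉₊ ≤ n))
  have hc2 : 45 / η ≤ (n : ℝ) := (Nat.le_ceil _).trans (by exact_mod_cast (by omega : ⌈45 / η⌉₊ ≤ n))
  obtain ⟨hI5, hIc⟩ := uaa_I n r η hη hc2 hr9 I hI
  have hprod := SA_prod η hη (by linarith) K1 δ I y L g w hB hI5 (n - I.card) r hS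
    (by rw [hIc]; exact hr9) h6
  have hq : (q3 n : ℝ) + phi 3 + 1 ≤ 2 := by
    have h1 : (q3 n : ℝ) ≤ -3 := by
      have : q3 n ≤ -3 := by
        unfold q3
        split_ifs <;> norm_num
      exact_mod_cast this
    have h2 : phi 3 = 7 / 2 := by
      unfold phi
      norm_num
    rw [h2]
    linarith
  have hlow := uaa_low 3 le_rfl (q3 n) hq η hη n hc1 (by omega) _ (hF n (by omega))
  obtain ⟨z, hz1, hz2, hz3⟩ := hR n r (by omega) hr hr9 I y hy hS hI L g w hB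
    (fun i hi j hj h1 h2 => ⟨by exact_mod_cast (hprod i hi j hj h1 h2).1, fun h => by
      refine (hprod i hi j hj h1 h2).2.1 ?_
      exact_mod_cast h⟩)
    (hlow.trans hlt.le)
  have h1 := hG n r (by omega) (Nat.le_of_dvd (by omega) h6) hr4 hr9 z hz1 hz2
  linarith

/-- PROOF. The same with `YH_four`, `YF_four`. -/
theorem UA_four : ∃ ηB : ℝ, 0 < ηB ∧ ηB ≤ 1 / 2000 ∧ ∀ η : ℝ, 0 < η → η ≤ ηB → ∀ (K1 : ℕ) (δ : ℝ),
    ∃ n0 : ℕ, ∀ (n r : ℕ), n0 ≤ n → 1 ≤ r → 12 ∣ r → r % 5 ≠ 0 → 9 * r ≤ 8 * n →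
      ∀ (I : Finset (Fin n)) (y : Fin n → ℤ), (∀ j ∈ I, y j ≠ 0) →
      Star y I (n - I.card) r → n < I.card + r →
      ∀ (L : Finset (Fin n)) (g : ℤ) (w : Fin n → ℤ), Bal η K1 δ I y L g w →
      pz y I 0 ≤ pz (vec4 n r) Finset.univ 0 := by
  obtain ⟨ηS, hS0, hS1, n1, hG⟩ := YH_four
  obtain ⟨ηB, hB0, hB1, hR⟩ := SD_red 4 (by norm_num) (by norm_num) ηS hS0 hS1
  obtain ⟨n3, hF⟩ := YF_four 1 one_pos
  refine ⟨ηB, hB0, hB1, fun η hη hηB K1 δ => ?_⟩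
  obtain ⟨n2, hR⟩ := hR η hη hηB K1 δ
  refine ⟨n1 + n2 + n3 + ⌈1 / η⌉₊ + ⌈45 / η⌉₊ + 1, ?_⟩
  intro n r hn hr h12 hr5 hr9 I y hy hS hI L g w hB
  by_contra hcon
  have hlt := not_le.1 hcon
  have hc1 : 1 / η ≤ (n : ℝ) := (Nat.le_ceil _).trans (by exact_mod_cast (by omega : ⌈1 / η⌉₊ ≤ n))
  have hc2 : 45 / η ≤ (n : ℝ) := (Nat.le_ceil _).trans (by exact_mod_cast (by omega : ⌈45 / η⌉₊ ≤ n))
  obtain ⟨hI5, hIc⟩ := uaa_I n r η hη hc2 hr9 I hI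
  have hprod := SA_prod η hη (by linarith) K1 δ I y L g w hB hI5 (n - I.card) r hS
    (by rw [hIc]; exact hr9) (by omega)
  have hq : (q4 n r : ℝ) + phi 4 + 1 ≤ 2 := by
    have h1 : (q4 n r : ℝ) ≤ -14 := by
      have : q4 n r ≤ -14 := by
        unfold q4
        simp only []
        split_ifs <;> norm_num
      exact_mod_cast this
    have h2 : phi 4 = 13 / 2 := by
      unfold phi
      norm_num
    rw [h2]
    linarith
  have hlow := uaa_low 4 (by norm_num) (q4 n r) hq η hη n hc1 (by omega) _ (hF n (by omega) r hr5)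
  have h4r : 4 ∣ r := by omega
  obtain ⟨z, hz1, hz2, hz3⟩ := hR n r (by omega) hr hr9 I y hy hS hI L g w hB
    (fun i hi j hj h1 h2 => ⟨by exact_mod_cast ((hprod i hi j hj h1 h2).2.2.1 h4r).1, fun h => by
      refine ((hprod i hi j hj h1 h2).2.2.1 h4r).2 ?_
      exact_mod_cast h⟩)
    (hlow.trans hlt.le)
  have h1 := hG n r (by omega) (Nat.le_of_dvd (by omega) h12) h12 hr5 hr9 z hz1 hz2
  linarith

end H31Y
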