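import Pool.Agent.Lib.H31Y.SD
import Pool.Agent.Lib.H31Y.YG
import Pool.Agent.Lib.H31Y.YH
import Pool.Agent.Lib.H31Y.UAa

/-!
Chunk UAb: balanced case, 60 divides r
-/

namespace H31Y

open Finset H31Z

/-- PROOF. `SA_prod`: all products are at least `5`; `U1_core` with `κ = 5`: `sg ≥ 5 (1-20η) N`; field `prob`:
`pz ≤ sqrt (2/(5π(1-20η)N)) + η/√N ≤ 0.37/√N`. -/
theorem UA_five (η : ℝ) (hη : 0 < η) (hη1 : η ≤ 1 / 2000) (K1 : ℕ) (δ : ℝ) :
    ∃ n0 : ℕ, ∀ (n r : ℕ), n0 ≤ n → 1 ≤ r → 60 ∣ r → 9 * r ≤ 8 * n →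
      ∀ (I : Finset (Fin n)) (y : Fin n → ℤ), (∀ j ∈ I, y j ≠ 0) →
      Star y I (n - I.card) r → n < I.card + r →
      ∀ (L : Finset (Fin n)) (g : ℤ) (w : Fin n → ℤ), Bal η K1 δ I y L g w →
      pz y I 0 < (39 / 100) / Real.sqrt (I.card : ℝ) := by
  refine ⟨⌈45 / η⌉₊ + 1, ?_⟩
  intro n r hn hr h60 hr9 I y hy hS hI L g w hB
  have hc2 : 45 / η ≤ (n : ℝ) := (Nat.le_ceil _).trans (by exact_mod_cast (by omega : ⌈45 / η⌉₊ ≤ n))
  obtain ⟨hI5, hIc⟩ := uaa_I n r η hη hc2 hr9 I hI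
  have hprod := SA_prod η hη (by linarith) K1 δ I y L g w hB hI5 (n - I.card) r hS
    (by rw [hIc]; exact hr9) (by omega)
  have hI0 : 0 < I.card := by omega
  have hN : (0 : ℝ) < I.card := by exact_mod_cast hI0
  have hsg := U1_core η hη (by linarith) K1 δ I y L g w hB hI0 5 (by norm_num)
    (fun i hi j hj h1 h2 => by
      have := (hprod i hi j hj h1 h2).2.2.2 (by omega) (by omega)
      exact_mod_cast this)
  have hπ : 0 < Real.pi := Real.pi_pos
  have hπ3 : 3.14 < Real.pi := Real.pi_gt_d2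
  have hr : 0 < Real.sqrt (I.card : ℝ) := Real.sqrt_pos.2 hN
  have hr2 : Real.sqrt (I.card : ℝ) ^ 2 = I.card := Real.sq_sqrt hN.le
  have hsg1 : (99 / 20) * (I.card : ℝ) ≤ sg w L := by
    refine le_trans ?_ hsg
    push_cast
    nlinarith
  have h1 : Real.sqrt (2 / (Real.pi * sg w L)) ≤ (37 / 100) / Real.sqrt (I.card : ℝ) := by
    rw [Real.sqrt_le_left (by positivity), div_pow, hr2]
    have h2 : 0 < sg w L := by linarith
    rw [div_le_div_iff₀ (by positivity) hN]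
    have h3 : 3.14 * ((99 / 20) * (I.card : ℝ)) ≤ Real.pi * sg w L :=
      mul_le_mul hπ3.le hsg1 (by positivity) hπ.le
    nlinarith
  have h2 := hB.prob
  have h3 : η / Real.sqrt (I.card : ℝ) ≤ (1 / 100) / Real.sqrt (I.card : ℝ) :=
    div_le_div_of_nonneg_right (by linarith) hr.le
  have h4 : (37 / 100 : ℝ) / Real.sqrt (I.card : ℝ) + (1 / 100) / Real.sqrt (I.card : ℝ) <
      (39 / 100) / Real.sqrt (I.card : ℝ) := by
    rw [← add_div]
    apply div_lt_div_of_pos_right _ hr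
    norm_num
  linarith

end H31Y
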