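import Pool.Agent.Lib.H31Y.QA
import Pool.Agent.Lib.H31Y.QB

/-!
Chunk WAa: the trivial terms
-/

namespace H31Y

open Finset H31Z

private lemma waa_exp (C x : ℝ) (hC : 1 ≤ C) {n : ℕ} (hn : 1 ≤ n) (hx : (n : ℝ) / 40 ≤ x) :
    Real.exp (-x ^ 2 / (2 * (C * n))) ≤ Real.exp (-(n : ℝ) / (3200 * C)) := by
  have hn0 : (0 : ℝ) < n := by exact_mod_cast hn
  apply Real.exp_le_exp.mpr
  have h1 : ((n : ℝ) / 40) ^ 2 ≤ x ^ 2 := by
    apply pow_le_pow_left₀ (by positivity) hx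
  have hC0 : 0 < C := by linarith
  rw [neg_div, neg_div, neg_le_neg_iff, div_le_div_iff₀ (by positivity) (by positivity)]
  nlinarith [mul_le_mul_of_nonneg_right h1 (by positivity : (0 : ℝ) ≤ 3200 * C)]

/-- the trivial terms are exponentially small. PROOF. `QB_hoeff` with `S = C n`: for `U = ∅` `(∑_J z)² ≥ (n/20)²`;
for `U = T`, `|T| = 2`: `2 v - ∑_J z = -(2z_1 + Σ) - (2z_2 + Σ) + Σ ≥ n/20 - 2κn ≥ n/40`. So at most
`exp (-(n/40)²/(2Cn))`. -/
theorem WA_tiny (κ C : ℝ) (hκ : κ ≤ 1 / 80) (hC : 1 ≤ C) {n : ℕ} (hn : 1 ≤ n) (z : Fin n → ℤ)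
    (J T : Finset (Fin n)) (h : HT κ C z J T) :
    pz z J 0 ≤ Real.exp (-(n : ℝ) / (3200 * C)) ∧
      (T.card = 2 → pz z J (-∑ i ∈ T, z i) ≤ Real.exp (-(n : ℝ) / (3200 * C))) := by
  classical
  have hn0 : (0 : ℝ) < n := by exact_mod_cast hn
  have hS : (0 : ℝ) < C * n := by positivity
  refine ⟨?_, fun h2 => ?_⟩
  · refine (QB_hoeff z J 0 (C * n) hS h.sq).trans ?_
    have e : -(2 * ((0 : ℤ) : ℝ) - ∑ j ∈ J, (z j : ℝ)) ^ 2 / (2 * (C * n))
        = -(∑ j ∈ J, (z j : ℝ)) ^ 2 / (2 * (C * n)) := by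
      congr 2
      push_cast
      ring
    rw [e]
    apply waa_exp C _ hC hn
    have := h.mean
    linarith
  · refine (QB_hoeff z J (-∑ i ∈ T, z i) (C * n) hS h.sq).trans ?_
    obtain ⟨a, b, hab, rfl⟩ := Finset.card_eq_two.mp h2
    have ha := abs_le.mp (h.hv a (by simp))
    have hb := abs_le.mp (h.hv b (by simp))
    have hm := h.mean
    apply waa_exp C _ hC hn
    rw [Finset.sum_pair hab]
    push_cast
    have : κ * n ≤ 1 / 80 * n := mul_le_mul_of_nonneg_right hκ hn0.le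
    linarith [ha.2, hb.2]

end H31Y
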