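import Pool.Agent.Lib.H31Y.QA
import Pool.Agent.Lib.H31Y.QB
import Pool.Agent.Lib.H31Y.WAa

/-!
Chunk WAb: the inequality (star)
-/

namespace H31Y

open Finset H31Z

theorem wab_exp (C n : ℝ) (hC : 1 ≤ C) (hn : 1 ≤ n) :
    Real.exp (-n / (3200 * C)) ≤ 6 * (3200 * C) ^ 3 / n ^ 3 := by
  have hx : 0 < n / (3200 * C) := by positivity
  have h1 := Real.pow_div_factorial_le_exp (n / (3200 * C)) hx.le 3
  have h2 : (Nat.factorial 3 : ℝ) = 6 := by norm_num [Nat.factorial]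
  rw [h2] at h1
  rw [neg_div, Real.exp_neg]
  have h3 : 0 < (n / (3200 * C)) ^ 3 / 6 := by positivity
  refine (inv_anti₀ h3 h1).trans (le_of_eq ?_)
  field_simp

theorem wab_split {ι : Type*} [DecidableEq ι] (z : ι → ℤ) (J T : Finset ι) (hd : Disjoint J T) :
    (T.card = 1 → ∑ i ∈ T, pz z J (-z i) = 2 * pz z (J ∪ T) 0 - pz z J 0) ∧
    (T.card = 2 → ∑ i ∈ T, pz z J (-z i) = 4 * pz z (J ∪ T) 0 - pz z J 0 -
      pz z J (-∑ i ∈ T, z i)) := by
  have h := FA_split z J T hd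
  constructor
  · intro h1
    obtain ⟨i, rfl⟩ := Finset.card_eq_one.mp h1
    rw [h, h1, ← insert_empty_eq, Finset.sum_powerset_insert (Finset.notMem_empty i)]
    simp only [Finset.powerset_empty, Finset.sum_singleton, Finset.sum_empty, insert_empty_eq, neg_zero]
    ring
  · intro h1
    obtain ⟨i, j, hij, rfl⟩ := Finset.card_eq_two.mp h1
    have hi : i ∉ ({j} : Finset ι) := by
      rw [Finset.mem_singleton]
      exact hij
    rw [h, h1, Finset.sum_powerset_insert hi, ← insert_empty_eq j,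
      Finset.sum_powerset_insert (Finset.notMem_empty j), Finset.sum_powerset_insert (Finset.notMem_empty j)]
    simp only [Finset.powerset_empty, Finset.sum_singleton, Finset.sum_empty, insert_empty_eq, neg_zero,
      Finset.sum_pair hij]
    ring

theorem wab_root (s η ε : ℝ) (hs : 1 ≤ s) (hη : 0 < η) (hε0 : 0 ≤ ε) (hε1 : ε ≤ 1)
    (h : 6 * ε * (s * (s + η)) ≤ η) :
    Real.sqrt (2 / (Real.pi * (s + η))) + ε ≤ Real.sqrt (2 / (Real.pi * s)) := by
  have hpi := Real.pi_pos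
  have hpi3 := Real.pi_gt_three
  have hpi4 := Real.pi_le_four
  have hs0 : 0 < s := by linarith
  have hse : 0 < s + η := by linarith
  apply Real.le_sqrt_of_sq_le
  have hq2 : Real.sqrt (2 / (Real.pi * (s + η))) ^ 2 = 2 / (Real.pi * (s + η)) :=
    Real.sq_sqrt (by positivity)
  have hq0 := Real.sqrt_nonneg (2 / (Real.pi * (s + η)))
  set q := Real.sqrt (2 / (Real.pi * (s + η))) with hq
  have hq1 : q ≤ 1 := by
    have h1 : q ^ 2 ≤ 1 := by
      rw [hq2, div_le_one (by positivity)]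
      nlinarith
    nlinarith
  have h2 : 2 / (Real.pi * s) - 2 / (Real.pi * (s + η)) = 2 * η / (Real.pi * (s * (s + η))) := by
    field_simp
    ring
  have h3 : 3 * ε ≤ 2 * η / (Real.pi * (s * (s + η))) := by
    rw [le_div_iff₀ (by positivity)]
    have h4 : 0 ≤ 3 * ε * (s * (s + η)) := by positivity
    calc 3 * ε * (Real.pi * (s * (s + η))) = Real.pi * (3 * ε * (s * (s + η))) := by ring
      _ ≤ 4 * (3 * ε * (s * (s + η))) := mul_le_mul_of_nonneg_right hpi4 h4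
      _ ≤ 2 * η := by linarith
  nlinarith

theorem wab_final (A S u : ℝ) (hA : 0 < A) (hS : 0 < S) (hu0 : 0 ≤ u) (hu1 : u ≤ 1)
    (h : Real.sqrt (2 / (Real.pi * S)) ≤ Real.sqrt (2 / (Real.pi * A)) * (1 - u)) :
    A * (1 + 2 * u) ≤ S := by
  have hpi := Real.pi_pos
  have h1 : Real.sqrt (2 / (Real.pi * S)) ^ 2 ≤ (Real.sqrt (2 / (Real.pi * A)) * (1 - u)) ^ 2 :=
    pow_le_pow_left₀ (Real.sqrt_nonneg _) h 2
  rw [Real.sq_sqrt (by positivity), mul_pow, Real.sq_sqrt (by positivity)] at h1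
  have h2 : A ≤ S * (1 - u) ^ 2 := by
    rw [div_mul_eq_mul_div, div_le_div_iff₀ (by positivity) (by positivity)] at h1
    have h3 : (2 * Real.pi) * A ≤ (2 * Real.pi) * (S * (1 - u) ^ 2) := by linarith
    exact le_of_mul_le_mul_left h3 (by positivity)
  have h4 : (1 - u) ^ 2 * (1 + 2 * u) ≤ 1 := by nlinarith [mul_nonneg hu0 hu0, mul_nonneg (mul_nonneg hu0 hu0) (sub_nonneg.mpr hu1)]
  calc A * (1 + 2 * u) ≤ S * (1 - u) ^ 2 * (1 + 2 * u) := mul_le_mul_of_nonneg_right h2 (by linarith)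
    _ = S * ((1 - u) ^ 2 * (1 + 2 * u)) := by ring
    _ ≤ S * 1 := mul_le_mul_of_nonneg_left h4 hS.le
    _ = S := mul_one S

theorem wab_QG (κ κ' η A e : ℝ) (hκ0 : 0 < κ) (hκ : κ ≤ κ' / 16) (hκ' : κ' ≤ 1 / 10) (hη : 0 < η)
    (hη' : η ≤ 1 / 100) (he : 8 / κ' ≤ e) (hA0 : 0 < A) (hA : (1 - κ) * e ≤ (1 + κ) * A) :
    (1 - κ' / 4) * Real.sqrt (2 / (Real.pi * A)) ≤ Real.sqrt (2 / (Real.pi * (e + 1 / 2 + η))) := by
  have hpi := Real.pi_pos
  have hκ'0 : 0 < κ' := by linarith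
  have he0 : 0 < e := lt_of_lt_of_le (by positivity) he
  have he8 : 8 ≤ e * κ' := by
    rw [div_le_iff₀ hκ'0] at he
    exact he
  apply Real.le_sqrt_of_sq_le
  rw [mul_pow, Real.sq_sqrt (by positivity), mul_div_assoc', div_le_div_iff₀ (by positivity) (by positivity)]
  have h1 : (1 - κ' / 4) ^ 2 * (e + 1 / 2 + η) ≤ A := by
    have h2 : (1 - κ' / 4) ^ 2 ≤ 1 - κ' / 4 := by nlinarith
    have h3 : (1 - κ' / 4) ^ 2 * (e + 1 / 2 + η) ≤ (1 - κ' / 4) * (e + 1) := by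
      apply mul_le_mul h2 (by linarith) (by positivity) (by linarith)
    have h4 : (1 - κ' / 4) * (e + 1) ≤ (1 - κ' / 8) * e := by nlinarith
    have h5 : (1 - κ' / 8) * e ≤ A := by
      have h6 : (1 - 2 * κ) * e ≤ A := by
        have h7 : (1 + κ) * ((1 - 2 * κ) * e) ≤ (1 + κ) * A := by
          refine le_trans ?_ hA
          nlinarith [mul_pos hκ0 he0, mul_pos (mul_pos hκ0 hκ0) he0]
        exact le_of_mul_le_mul_left h7 (by linarith)
      nlinarith
    linarith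
  calc (1 - κ' / 4) ^ 2 * 2 * (Real.pi * (e + 1 / 2 + η)) = (2 * Real.pi) * ((1 - κ' / 4) ^ 2 * (e + 1 / 2 + η)) := by ring
    _ ≤ (2 * Real.pi) * A := mul_le_mul_of_nonneg_left h1 (by positivity)
    _ = 2 * (Real.pi * A) := by ring

/-- PROOF. Let `ε = exp (-n/(3200 C))`, `Q = sqrt (2/(π(e+1/2+η)))`, `A1 = n1 z J`, `t = |T|`. `FA_split` and `WA_tiny`:
`t = 1`: `pz z J m ≥ 2P - ε ≥ Q - ε` (`m = -z_i`); `t = 2`: `pz z J m_1 + pz z J m_2 ≥ 4P - 2ε ≥ 2Q - 2ε`.
Upper bound `pz z J m ≤ sqrt (2/(π A1)) =: G` (`FA_heavy`, `GA_le`). `A1 ≥ (1-κ)|J| ≥ (1-κ)e/(1+κ)`, so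
`Q ≥ (1 - κ'/4) G` if `κ` is small and `n` large (`κ'` from `QA_second η`); so every `pz z J m_i ≥ 2Q - 2ε - G ≥
(1-κ') G`, and `QA_second` applies to every `m_i` (`A1 ≥ A0` as `e ≥ n/10`): with
`X_i = sB + D_i²`, `X_i ≤ η A1 ≤ ηn` and `Q - ε ≤ avg pz ≤ G (1 - (1-η) avg X/(2A1))`. For `n` large
`Q - ε ≥ sqrt (2/(π(e+1/2+2η)))` (`e ≤ 2n`: the difference of the two roots is at least `c n^(-3/2)`). So with
`u = (1-η) avg X/(2A1) < 1`: `A1 ≤ (1-u)² (e+1/2+2η)`, hence `A1 (1+2u) ≤ e+1/2+2η` (`(1-u)² (1+2u) ≤ 1` for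
`0 ≤ u ≤ 1`). Multiply by `t`. -/
theorem WA_star (η : ℝ) (hη : 0 < η) (hη' : η ≤ 1 / 100) :
    ∃ κ : ℝ, 0 < κ ∧ κ ≤ 1 / 2000 ∧ ∀ C : ℝ, 1 ≤ C → ∃ n0 : ℕ, ∀ n : ℕ, n0 ≤ n →
      ∀ (z : Fin n → ℤ) (J T : Finset (Fin n)), HT κ C z J T → ∀ e : ℕ, (n : ℝ) / 10 ≤ e → e ≤ 2 * n →
      (e : ℝ) ≤ (1 + κ) * (J.card : ℝ) →
      1 / 2 * Real.sqrt (2 / (Real.pi * (e + 1 / 2 + η))) ≤ pz z (J ∪ T) 0 →
      sB z J ≤ η * n ∧ (∀ i ∈ T, (2 * (z i : ℝ) + ∑ j ∈ J, (z j : ℝ)) ^ 2 ≤ η * n) ∧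
      (T.card : ℝ) * ((n1 z J : ℝ) + (1 - η) * sB z J) +
        (1 - η) * ∑ i ∈ T, (2 * (z i : ℝ) + ∑ j ∈ J, (z j : ℝ)) ^ 2 ≤
        (T.card : ℝ) * (e + 1 / 2 + 2 * η) := by
  obtain ⟨κ', hκ0, hκ1, A0, hA0, hQA⟩ := QA_second η hη (by linarith)
  refine ⟨min (κ' / 16) (1 / 2000), by positivity, min_le_right _ _, ?_⟩
  intro C hC
  set κ := min (κ' / 16) (1 / 2000) with hκdef
  have hk0 : 0 < κ := by positivity
  have hk16 : κ ≤ κ' / 16 := min_le_left _ _
  have hk2000 : κ ≤ 1 / 2000 := min_le_right _ _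
  set B : ℝ := 6 * (3200 * C) ^ 3 with hB
  have hB0 : 0 < B := by positivity
  obtain ⟨n0, hn0⟩ := exists_nat_ge (20 * A0 + 80 / κ' + 54 * B / η + 8 * B / κ' + B + 100)
  refine ⟨n0, ?_⟩
  intro n hn z J T hT e he1 he2 he3 hP
  have hnR : 20 * A0 + 80 / κ' + 54 * B / η + 8 * B / κ' + B + 100 ≤ n :=
    hn0.trans (by exact_mod_cast hn)
  have p1 : 0 ≤ 80 / κ' := by positivity
  have p2 : 0 ≤ 54 * B / η := by positivity
  have p3 : 0 ≤ 8 * B / κ' := by positivity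
  have q1 : 20 * A0 ≤ n := by linarith
  have q2 : 80 / κ' ≤ n := by linarith
  have q3 : 54 * B / η ≤ n := by linarith
  have q4 : 8 * B / κ' ≤ n := by linarith
  have q5 : B ≤ n := by linarith
  have q6 : (100 : ℝ) ≤ n := by linarith
  have hn1 : 1 ≤ n := by
    have : (1 : ℝ) ≤ n := by linarith
    exact_mod_cast this
  have hnp : (0 : ℝ) < n := by linarith
  obtain ⟨ht0, ht2⟩ := WA_tiny κ C (by linarith) hC hn1 z J T hT
  have hε := wab_exp C n hC (by linarith)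
  have hε0 : 0 < Real.exp (-(n : ℝ) / (3200 * C)) := Real.exp_pos _
  set ε := Real.exp (-(n : ℝ) / (3200 * C)) with hεdef
  rw [← hB, le_div_iff₀ (by positivity)] at hε
  -- e
  have hA1le : (n1 z J : ℝ) ≤ n := by
    have h1 : n1 z J ≤ J.card := Finset.card_filter_le _ _
    have h2 : J.card ≤ n := by
      have := Finset.card_le_univ J
      rwa [Fintype.card_fin] at this
    exact_mod_cast h1.trans h2
  have hA1ge : (1 - κ) * (e : ℝ) ≤ (1 + κ) * (n1 z J : ℝ) := by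
    have h1 := hT.ones
    calc (1 - κ) * (e : ℝ) ≤ (1 - κ) * ((1 + κ) * (J.card : ℝ)) :=
          mul_le_mul_of_nonneg_left he3 (by linarith)
      _ = (1 + κ) * ((1 - κ) * (J.card : ℝ)) := by ring
      _ ≤ (1 + κ) * (n1 z J : ℝ) := mul_le_mul_of_nonneg_left h1 (by linarith)
  have heR2 : (e : ℝ) ≤ 2 * n := by exact_mod_cast he2
  have hA1e : (e : ℝ) / 2 ≤ (n1 z J : ℝ) := by nlinarith
  have hA0A : A0 ≤ (n1 z J : ℝ) := by linarith
  have hA1p : 0 < (n1 z J : ℝ) := by linarith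
  have he8 : 8 / κ' ≤ (e : ℝ) := by
    have : 80 / κ' = 10 * (8 / κ') := by ring
    linarith
  have hQG := wab_QG κ κ' η (n1 z J : ℝ) e hk0 hk16 hκ1 hη hη' he8 hA1p hA1ge
  -- G bounds
  have hpi := Real.pi_pos
  have hpi3 := Real.pi_gt_three
  have hpi4 := Real.pi_le_four
  have hGge : 1 / (2 * (n : ℝ)) ≤ Real.sqrt (2 / (Real.pi * (n1 z J : ℝ))) := by
    apply Real.le_sqrt_of_sq_le
    rw [div_pow, one_pow, div_le_div_iff₀ (by positivity) (by positivity)]
    nlinarith [mul_pos hpi hA1p]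
  set A : ℝ := (n1 z J : ℝ) with hAdef
  set G := Real.sqrt (2 / (Real.pi * A)) with hG
  have hG0 : 0 ≤ G := Real.sqrt_nonneg _
  set Q := Real.sqrt (2 / (Real.pi * (e + 1 / 2 + η))) with hQ
  have hn3 : (n : ℝ) ^ 3 = n * (n * n) := by ring
  have hεG : ε ≤ κ' / 4 * G := by
    have h1 : 8 * B ≤ n * κ' := by
      rw [div_le_iff₀ hκ0] at q4
      exact q4
    have h2 : ε * (8 * n) ≤ κ' := by
      have h3 : (ε * (8 * n)) * (n * n) ≤ κ' * (n * n) := by
        calc (ε * (8 * n)) * (n * n) = 8 * (ε * n ^ 3) := by ring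
          _ ≤ 8 * B := by linarith
          _ ≤ n * κ' := h1
          _ ≤ κ' * (n * n) := by nlinarith [mul_pos hnp hκ0]
      exact le_of_mul_le_mul_right h3 (by positivity)
    have h4 : ε ≤ κ' / (8 * n) := by
      rw [le_div_iff₀ (by positivity)]
      exact h2
    refine h4.trans ?_
    calc κ' / (8 * n) = κ' / 4 * (1 / (2 * n)) := by
          field_simp
          norm_num
      _ ≤ κ' / 4 * G := mul_le_mul_of_nonneg_left hGge (by positivity)
  have hεQ : Real.sqrt (2 / (Real.pi * (e + 1 / 2 + η + η))) + ε ≤ Q := by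
    apply wab_root _ _ _ (by linarith) hη hε0.le
    · have h3 : ε * n ^ 3 ≤ 1 * n ^ 3 := by
        refine hε.trans ?_
        rw [hn3]
        nlinarith [mul_pos hnp hnp]
      exact le_of_mul_le_mul_right h3 (by positivity)
    · have h1 : 54 * B ≤ n * η := by
        rw [div_le_iff₀ hη] at q3
        exact q3
      have h2 : ((e : ℝ) + 1 / 2 + η) * (e + 1 / 2 + η + η) ≤ 3 * n * (3 * n) :=
        mul_le_mul (by linarith) (by linarith) (by positivity) (by positivity)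
      have h3 : 6 * ε * (((e : ℝ) + 1 / 2 + η) * (e + 1 / 2 + η + η)) ≤ 6 * ε * (3 * n * (3 * n)) :=
        mul_le_mul_of_nonneg_left h2 (by positivity)
      refine h3.trans ?_
      have h4 : (6 * ε * (3 * n * (3 * n))) * n ≤ η * n := by
        calc (6 * ε * (3 * n * (3 * n))) * n = 54 * (ε * n ^ 3) := by ring
          _ ≤ 54 * B := by linarith
          _ ≤ η * n := by linarith
      exact le_of_mul_le_mul_right h4 hnp
  -- the sums
  have hzne : ∀ j ∈ J, z j ≠ 0 := fun j hj => (hT.nz j).mpr (Finset.mem_union_left T hj)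
  have hpG : ∀ m : ℤ, pz z J m ≤ G := by
    intro m
    exact (FA_heavy z J hzne m).trans (GA_le _ _ hA1p le_rfl _ _ _)
  obtain ⟨s1, s2⟩ := wab_split z J T hT.disj
  have hsum : (T.card : ℝ) * (Q - ε) ≤ ∑ i ∈ T, pz z J (-z i) := by
    have hc : T.card = 1 ∨ T.card = 2 := by
      have := hT.t1
      have := hT.t2
      omega
    rcases hc with hc | hc
    · rw [s1 hc, hc, Nat.cast_one]
      linarith
    · have h2 := ht2 hc
      rw [s2 hc, hc, Nat.cast_ofNat]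
      linarith
  have hlow : ∀ i ∈ T, (1 - κ') * G ≤ pz z J (-z i) := by
    intro i hi
    have hc : T.card = 1 ∨ T.card = 2 := by
      have := hT.t1
      have := hT.t2
      omega
    rcases hc with hc | hc
    · obtain ⟨j, hj⟩ := Finset.card_eq_one.mp hc
      rw [hj, Finset.mem_singleton] at hi
      rw [hc, hj, Finset.sum_singleton, Nat.cast_one] at hsum
      rw [hi]
      nlinarith
    · have h1 : ∑ j ∈ T.erase i, pz z J (-z j) ≤ ∑ _j ∈ T.erase i, G :=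
        Finset.sum_le_sum fun j _ => hpG _
      rw [Finset.sum_const, Finset.card_erase_of_mem hi, hc] at h1
      have h2 := Finset.add_sum_erase T (fun j => pz z J (-z j)) hi
      rw [hc, Nat.cast_ofNat, ← h2] at hsum
      rw [show 2 - 1 = 1 by norm_num, one_smul] at h1
      nlinarith
  have hsec := fun i (hi : i ∈ T) => hQA (Fin n) J z (-z i) hzne hA0A (hlow i hi)
  have hD : ∀ i, (2 * ((-z i : ℤ) : ℝ) - ∑ j ∈ J, (z j : ℝ)) ^ 2 = (2 * (z i : ℝ) + ∑ j ∈ J, (z j : ℝ)) ^ 2 := by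
    intro i
    push_cast
    ring
  have hsB0 : 0 ≤ sB z J := Finset.sum_nonneg fun i _ => sq_nonneg _
  have htne : T.Nonempty := Finset.card_pos.mp hT.t1
  obtain ⟨i0, hi0⟩ := htne
  have hX : ∀ i ∈ T, sB z J + (2 * (z i : ℝ) + ∑ j ∈ J, (z j : ℝ)) ^ 2 ≤ η * A := by
    intro i hi
    have h1 := (hsec i hi).1
    rw [hD] at h1
    exact h1
  have hηA : η * A ≤ η * n := mul_le_mul_of_nonneg_left hA1le hη.le
  refine ⟨?_, ?_, ?_⟩
  · have h1 := hX i0 hi0
    nlinarith [sq_nonneg (2 * (z i0 : ℝ) + ∑ j ∈ J, (z j : ℝ))]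
  · intro i hi
    have h1 := hX i hi
    linarith
  · set t : ℝ := (T.card : ℝ) with ht
    have ht1 : 1 ≤ t := by
      rw [ht]
      exact_mod_cast hT.t1
    set X : ℝ := ∑ i ∈ T, (sB z J + (2 * (z i : ℝ) + ∑ j ∈ J, (z j : ℝ)) ^ 2) with hXdef
    have hX0 : 0 ≤ X := Finset.sum_nonneg fun i _ => add_nonneg hsB0 (sq_nonneg _)
    have hXle : X ≤ t * (η * A) := by
      have h1 := Finset.sum_le_sum hX
      rw [Finset.sum_const, nsmul_eq_mul] at h1
      exact h1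
    have hsum2 : ∑ i ∈ T, pz z J (-z i) ≤ G * (t - (1 - η) * (X / (2 * A))) := by
      have h1 : ∑ i ∈ T, pz z J (-z i) ≤
          ∑ i ∈ T, G * (1 - (1 - η) * ((sB z J + (2 * (z i : ℝ) + ∑ j ∈ J, (z j : ℝ)) ^ 2) / (2 * A))) := by
        refine Finset.sum_le_sum fun i hi => ?_
        have h2 := (hsec i hi).2
        rw [hD] at h2
        exact h2
      refine h1.trans (le_of_eq ?_)
      rw [← Finset.mul_sum, Finset.sum_sub_distrib, Finset.sum_const, nsmul_eq_mul, mul_one,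
        ← Finset.mul_sum, ← Finset.sum_div]
    set u : ℝ := (1 - η) * (X / (2 * A)) / t with hu
    have hu0 : 0 ≤ u := by
      have : 0 ≤ 1 - η := by linarith
      positivity
    have htu : t * u = (1 - η) * (X / (2 * A)) := by
      rw [hu]
      field_simp
    have hAu : A * (t * (2 * u)) = (1 - η) * X := by
      have h1 : A * (t * (2 * u)) = 2 * A * (t * u) := by ring
      rw [h1, htu]
      field_simp
    have hu1 : u ≤ 1 := by
      have h1 : (2 * A * t) * u ≤ (2 * A * t) * 1 := by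
        have h2 : (2 * A * t) * u = (1 - η) * X := by rw [← hAu]; ring
        rw [h2]
        have h3 : (1 - η) * X ≤ 1 * X := mul_le_mul_of_nonneg_right (by linarith) hX0
        have h4 : t * (η * A) ≤ t * (1 * A) :=
          mul_le_mul_of_nonneg_left (mul_le_mul_of_nonneg_right (by linarith) hA1p.le) (by linarith)
        nlinarith [mul_pos (show 0 < t by linarith) hA1p]
      exact le_of_mul_le_mul_left h1 (by positivity)
    have hfin : Real.sqrt (2 / (Real.pi * (e + 1 / 2 + η + η))) ≤ G * (1 - u) := by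
      have h1 : t * (Q - ε) ≤ G * (t - t * u) := by
        rw [htu]
        exact hsum.trans hsum2
      have h2 : t * (Q - ε) ≤ t * (G * (1 - u)) := by
        refine h1.trans (le_of_eq ?_)
        ring
      have h3 : Q - ε ≤ G * (1 - u) := le_of_mul_le_mul_left h2 (by linarith)
      linarith
    have hres := wab_final A (e + 1 / 2 + η + η) u hA1p (by positivity) hu0 hu1 hfin
    have h5 : t * (A * (1 + 2 * u)) ≤ t * (e + 1 / 2 + η + η) :=
      mul_le_mul_of_nonneg_left hres (by linarith)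
    have h6 : t * (A * (1 + 2 * u)) = t * A + (1 - η) * X := by
      rw [← hAu]
      ring
    have h7 : X = t * sB z J + ∑ i ∈ T, (2 * (z i : ℝ) + ∑ j ∈ J, (z j : ℝ)) ^ 2 := by
      rw [hXdef, Finset.sum_add_distrib, Finset.sum_const, nsmul_eq_mul]
    rw [h6, h7] at h5
    linarith

end H31Y
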