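import Pool.Agent.Lib.H31Y.WG
import Pool.Agent.Lib.H31Y.WA
import Pool.Agent.Lib.H31Y.PI
import Pool.Agent.Lib.H31Y.HAb

/-!
Chunk UCa: the heavy case
-/

namespace H31Y

open Finset H31Z

/-- comparison of square roots -/
theorem uca_sqrt (η N e : ℝ) (hη : 0 < η) (hη' : η ≤ 1 / 10) (hN : 0 < N) (he : 0 ≤ e)
    (h : (1 - η) * (e - 2) ≤ N) (hl : 3 ≤ 2 * η * e) :
    (1 / 2 - η) * Real.sqrt (2 / (Real.pi * N)) ≤
      1 / 2 * Real.sqrt (2 / (Real.pi * (e + 1 / 2 + 1 / 1000))) := by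
  have hpi := Real.pi_pos
  have h0 : 0 ≤ 1 - 2 * η := by linarith
  have e1 : (1 / 2 - η) * Real.sqrt (2 / (Real.pi * N)) =
      1 / 2 * Real.sqrt ((1 - 2 * η) ^ 2 * (2 / (Real.pi * N))) := by
    rw [Real.sqrt_mul (by positivity), Real.sqrt_sq h0]
    ring
  rw [e1]
  apply mul_le_mul_of_nonneg_left _ (by norm_num)
  apply Real.sqrt_le_sqrt
  rw [mul_div_assoc', div_le_div_iff₀ (by positivity) (by positivity)]
  have h1 : (1 - 2 * η) ^ 2 * (e + 1 / 2 + 1 / 1000) ≤ N := by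
    have h2 : (1 - 2 * η) ^ 2 ≤ 1 - 3 * η := by nlinarith
    have h3 : (1 - 2 * η) ^ 2 * (e + 1 / 2 + 1 / 1000) ≤ (1 - 3 * η) * (e + 1 / 2 + 1 / 1000) :=
      mul_le_mul_of_nonneg_right h2 (by linarith)
    nlinarith
  calc (1 - 2 * η) ^ 2 * 2 * (Real.pi * (e + 1 / 2 + 1 / 1000)) =
      2 * Real.pi * ((1 - 2 * η) ^ 2 * (e + 1 / 2 + 1 / 1000)) := by ring
    _ ≤ 2 * Real.pi * N := by
        apply mul_le_mul_of_nonneg_left h1 (by positivity)
    _ = 2 * (Real.pi * N) := by ring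

/-- the numbers of zero sums agree -/
theorem uca_cz {n : ℕ} (y z : Fin n → ℤ) (I : Finset (Fin n))
    (h : ∀ B ⊆ I, (∑ i ∈ B, y i = 0 ↔ ∑ i ∈ B, z i = 0)) : pz y I 0 = pz z I 0 := by
  unfold pz cz
  have : I.powerset.filter (fun B => ∑ i ∈ B, y i = 0) = I.powerset.filter (fun B => ∑ i ∈ B, z i = 0) := by
    apply Finset.filter_congr
    intro B hB
    rw [Finset.mem_powerset] at hB
    exact h B hB
  rw [this]

/-- zeros do not change the proportion -/
theorem uca_univ {n : ℕ} (z : Fin n → ℤ) (I : Finset (Fin n)) (h : ∀ i, i ∉ I → z i = 0) :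
    pz z Finset.univ 0 = pz z I 0 := by
  have h1 := F2_zeros (fun i => (z i : ℝ)) I (Finset.univ \ I) Finset.disjoint_sdiff
    (fun j hj => by
      rw [Finset.mem_sdiff] at hj
      rw [h j hj.2]
      simp) 0
  rw [Finset.union_sdiff_of_subset (Finset.subset_univ I)] at h1
  have h2 := F2_cast (fun i => (z i : ℝ)) z Finset.univ (fun _ _ => rfl) 0
  have h3 := F2_cast (fun i => (z i : ℝ)) z I (fun _ _ => rfl) 0
  rw [Int.cast_zero] at h2 h3
  rw [← h2, ← h3, h1]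

theorem uca_n1 {ι : Type*} (z : ι → ℤ) (J : Finset ι) : n1 z J = nv z J 1 + nv z J (-1) := by
  classical
  unfold n1 nv
  rw [← Finset.card_union_of_disjoint]
  · congr 1
    ext i
    rw [Finset.mem_union, Finset.mem_filter, Finset.mem_filter, Finset.mem_filter, ← and_or_left]
    refine and_congr_right fun _ => ?_
    rw [abs_eq (by norm_num)]
  · rw [Finset.disjoint_filter]
    intro i _ h1 h2
    omega

/-- admissibility -/
theorem uca_adm {n r : ℕ} (y z : Fin n → ℤ) (I : Finset (Fin n)) (hz : ∀ i, i ∉ I → z i = 0)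
    (h : ∀ B ⊆ I, (∑ i ∈ B, y i = 0 ↔ ∑ i ∈ B, z i = 0)) (hs : Star y I (n - I.card) r)
    (S : Finset (Fin n)) (hS : S.card = r) : ∑ i ∈ S, z i ≠ 0 := by
  classical
  intro h0
  have h1 : ∑ i ∈ S ∩ I, z i = 0 := by
    rw [← h0]
    symm
    rw [← Finset.sum_inter_add_sum_sdiff S I]
    have : ∑ i ∈ S \ I, z i = 0 := by
      apply Finset.sum_eq_zero
      intro i hi
      rw [Finset.mem_sdiff] at hi
      exact hz i hi.2
    rw [this, add_zero]
  have h2 := (h _ Finset.inter_subset_right).2 h1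
  have h3 := hs _ Finset.inter_subset_right h2
  have h4 : (S ∩ I).card + (S \ I).card = S.card := Finset.card_inter_add_card_sdiff S I
  have h5 : (S \ I).card ≤ n - I.card := by
    have h6 : S \ I ⊆ Finset.univ \ I := Finset.sdiff_subset_sdiff (Finset.subset_univ _) le_rfl
    have h7 := Finset.card_le_card h6
    rw [Finset.card_sdiff_of_subset (Finset.subset_univ _), Finset.card_univ, Fintype.card_fin] at h7
    exact h7
  omega

/-- PROOF. `κ` from `WA_star (1/1000)`, `ηH = min (κ/5) (κ/4)`.. (`≤ 1/2000`), `C = (100 CR)² + 2`, `n0` large. Let `e = est n r`,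
`P = pz y I 0`, `N = |I|`. `e + 0.501 ≤ (1+1.01η) N + 2.6 ≤ (1 + 1.5η) N`, so `P ≥ (1/2) sqrt (2/(π(1+1.5η)N)) ≥
(1/2 - η) sqrt (2/(πN))`. `PI_asm`: `z, J, T`, `HT (5η) C z J T`, hence `HT κ C z J T`; `|J| ≥ N - 2`, so `e ≤ (1+κ)|J|`.
`pz z (J ∪ T) 0 = P` (the same zero sums). `HA_M`: `n/10 ≤ e ≤ 2n`. `WA_star` gives the fields of `WS` with
`a = nv z J 1`, `b = nv z J (-1)`, `n1 z J = a + b`, `c = n - |I|`: `hv`: `sqrt (n/1000) ≤ n/1000`; `adm`: as in `SD_red` from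
`Star`. The crossing set is a crossing set for `z`. `WG_main`: `cz z univ 0 ≤ max V H`, and
`cz z univ 0 = 2^n P` (`F2_zeros`). -/
theorem UC_heavy : ∃ ηH : ℝ, 0 < ηH ∧ ηH ≤ 1 / 2000 ∧ ∀ η : ℝ, 0 < η → η ≤ ηH → ∀ CR : ℝ, 1 ≤ CR →
    ∃ n0 : ℕ, ∀ (n r : ℕ), n0 ≤ n → 1 ≤ r → 6 ∣ r → 9 * r ≤ 8 * n →
      (r % 4 = 0 ∨ 2 * r + 3 ≤ n ∨ n + 3 ≤ 2 * r) →
      ∀ (I : Finset (Fin n)) (y : Fin n → ℤ), (∀ j ∈ I, y j ≠ 0) →
      Star y I (n - I.card) r → n < I.card + r →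
      ∀ (L : Finset (Fin n)) (g : ℤ) (w : Fin n → ℤ), HV η CR I y L g w →
      (hvy CR I y L g).Nonempty →
      (1 - η) * ((est n r : ℝ) - 2) ≤ I.card →
      1 / 2 * Real.sqrt (2 / (Real.pi * ((est n r : ℝ) + 1 / 2 + 1 / 1000))) ≤ pz y I 0 →
      (∃ B ⊆ I, ∑ i ∈ B, y i = 0 ∧ r < B.card) →
      2 ^ n * pz y I 0 ≤ (max (Vval n r) (Hval n r) : ℕ) := by
  classical
  obtain ⟨κ, hκ0, hκ1, hκ⟩ := WA_star (1 / 1000) (by norm_num) (by norm_num)
  refine ⟨κ / 5, by positivity, by linarith, fun η hη0 hη1 CR hCR => ?_⟩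
  obtain ⟨n1', hn1⟩ := hκ ((100 * CR) ^ 2 + 2) (by nlinarith [sq_nonneg (100 * CR)])
  obtain ⟨n2', hn2⟩ := PI_asm η CR hη0 (by linarith) hCR
  obtain ⟨n3', hn3⟩ := exists_nat_gt (100 / η)
  obtain ⟨n4', hn4⟩ := exists_nat_gt (100 / κ)
  refine ⟨n1' + n2' + n3' + n4' + 1000, fun n r hn hr1 hr6 hr9 hw I y hy hstar hNr L g w hHV hne hcard hP hX => ?_⟩
  have hn1000 : 1000 ≤ n := by omega
  have hn3n : (n3' : ℝ) ≤ n := by exact_mod_cast (by omega : n3' ≤ n)
  have hn4n : (n4' : ℝ) ≤ n := by exact_mod_cast (by omega : n4' ≤ n)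
  have hr6' : 6 ≤ r := Nat.le_of_dvd (by omega) hr6
  have hreven : Even r := by
    obtain ⟨t, rfl⟩ := hr6
    exact ⟨3 * t, by ring⟩
  obtain ⟨-, hM2, hM3, -, -⟩ := HA_M n r (by omega) hr6' hreven hr9
  obtain ⟨e, he⟩ : ∃ e, e = est n r := ⟨_, rfl⟩
  rw [← he] at hM2 hM3 hcard hP
  have he10 : (n : ℝ) / 10 ≤ e := by
    have : (n : ℝ) ≤ 10 * e := by exact_mod_cast hM2
    linarith
  have heη : 10 ≤ η * e := by
    have h1 : 100 / η < n := hn3.trans_le hn3n
    rw [div_lt_iff₀ hη0] at h1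
    nlinarith
  have heκ : 10 ≤ κ * e := by
    have h1 : 100 / κ < n := hn4.trans_le hn4n
    rw [div_lt_iff₀ hκ0] at h1
    nlinarith
  have hηs : η ≤ 1 / 10000 := by linarith
  have hN0 : (0 : ℝ) < I.card := by
    have h1 : I.Nonempty := by
      rw [Finset.nonempty_iff_ne_empty]
      rintro rfl
      rw [Finset.card_empty] at hNr
      omega
    exact_mod_cast h1.card_pos
  have he0 : (0 : ℝ) ≤ e := Nat.cast_nonneg e
  have hP' := (uca_sqrt η I.card e hη0 (by linarith) hN0 he0 hcard (by linarith)).trans hP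
  obtain ⟨z, J, T, hHT, hJT, hzs⟩ := hn2 n r (by omega) hr1 hreven hr9 I y L g w hy hstar hNr hHV hne hP'
  have hHT' : HT κ ((100 * CR) ^ 2 + 2) z J T :=
    { disj := hHT.disj
      nz := hHT.nz
      t1 := hHT.t1
      t2 := hHT.t2
      ones := by
        refine le_trans ?_ hHT.ones
        apply mul_le_mul_of_nonneg_right (by linarith) (Nat.cast_nonneg _)
      mean := hHT.mean
      hv := fun i hi => (hHT.hv i hi).trans (by
        apply mul_le_mul_of_nonneg_right (by linarith) (Nat.cast_nonneg _))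
      sq := hHT.sq }
  have hJc : J.card + T.card = I.card := by
    rw [← hJT, Finset.card_union_of_disjoint hHT.disj]
  have hIn : I.card ≤ n := by
    have := Finset.card_le_univ I
    rwa [Fintype.card_fin] at this
  have hJ2 : (I.card : ℝ) - 2 ≤ J.card := by
    have h1 := hHT.t2
    have h2 : I.card ≤ J.card + 2 := by omega
    have h3 : (I.card : ℝ) ≤ J.card + 2 := by exact_mod_cast h2
    linarith
  have heJ : (e : ℝ) ≤ (1 + κ) * (J.card : ℝ) := by
    have h1 : (1 - η) * ((e : ℝ) - 2) - 2 ≤ J.card := by linarith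
    have h2 : (1 + κ) * ((1 - η) * ((e : ℝ) - 2) - 2) ≤ (1 + κ) * J.card :=
      mul_le_mul_of_nonneg_left h1 (by linarith)
    refine le_trans ?_ h2
    have h3 : (1 + κ) * (1 - η) ≥ 1 + κ / 2 := by nlinarith
    nlinarith
  have hpzI : pz y I 0 = pz z I 0 := uca_cz y z I hzs
  have hPz : 1 / 2 * Real.sqrt (2 / (Real.pi * (e + 1 / 2 + 1 / 1000))) ≤ pz z (J ∪ T) 0 := by
    rw [hJT, ← hpzI]
    exact hP
  obtain ⟨w1, w2, w3⟩ := hn1 n (by omega) z J T hHT' e he10 hM3 heJ hPz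
  have hzI : ∀ i, i ∉ I → z i = 0 := by
    intro i hi
    by_contra h
    exact hi (hJT ▸ (hHT.nz i).1 h)
  have hnR : (1000 : ℝ) ≤ n := by exact_mod_cast hn1000
  have hWS : WS n r z J T (nv z J 1) (nv z J (-1)) (n - I.card) (est n r) :=
    { disj := hHT.disj
      nz := hHT.nz
      t1 := hHT.t1
      t2 := hHT.t2
      ha := rfl
      hb := rfl
      hc := by omega
      adm := fun S hS => uca_adm y z I hzI hzs hstar S hS
      se := by linarith
      mean := hHT.mean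
      hv := fun i hi => by
        have h1 := w2 i hi
        apply abs_le_of_sq_le_sq _ (by positivity)
        nlinarith
      star := by
        rw [← he]
        rw [uca_n1] at w3
        push_cast at w3
        linarith }
  have hmain := WG_main (by omega) hr6' hr6 hr9 hw hWS (by
    obtain ⟨B, hB, hB0, hBr⟩ := hX
    exact ⟨B, fun i hi => (hHT.nz i).2 (hJT ▸ hB hi), (hzs B hB).1 hB0, hBr⟩)
  have h5 : 2 ^ n * pz y I 0 = (cz z Finset.univ 0 : ℝ) := by
    rw [hpzI, ← uca_univ z I hzI]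
    unfold pz
    rw [Finset.card_univ, Fintype.card_fin]
    field_simp
  rw [h5]
  exact_mod_cast hmain

end H31Y
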