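import Pool.Agent.Lib.H31Y.WG
import Pool.Agent.Lib.H31Y.WA
import Pool.Agent.Lib.H31Y.PI
import Pool.Agent.Lib.H31Y.UCa

/-!
Chunk UCb: half bound
-/

namespace H31Y

open Finset H31Z

theorem ucb_sg {ι : Type*} (w : ι → ℤ) (L : Finset ι) (h : ∀ j ∈ L, w j ≠ 0) :
    (L.card : ℝ) ≤ sg w L := by
  unfold sg
  have h1 : ∑ _i ∈ L, (1 : ℝ) ≤ ∑ i ∈ L, (w i : ℝ) ^ 2 := by
    refine Finset.sum_le_sum fun i hi => ?_
    have h2 : (1 : ℤ) ≤ w i ^ 2 := by
      have := sq_nonneg (w i)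
      have h3 : w i ^ 2 ≠ 0 := pow_ne_zero _ (h i hi)
      omega
    exact_mod_cast h2
  simpa using h1

theorem ucb_num (N S η : ℝ) (hN : 1 ≤ N) (hη : 0 < η) (hη2 : η ≤ 1 / 100) (hS : (1 - η) * N ≤ S) :
    (Real.sqrt (2 / (Real.pi * S)) + η / Real.sqrt N + η / Real.sqrt N) / 2 ≤
      (1 / 2 + 3 * η) * Real.sqrt (2 / (Real.pi * N)) := by
  have hπ : 0 < Real.pi := Real.pi_pos
  have hr : 0 < Real.sqrt N := Real.sqrt_pos.2 (by linarith)
  have hS0 : 0 < S := by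
    have : 0 < (1 - η) * N := mul_pos (by linarith) (by linarith)
    linarith
  have hrS : 0 < Real.sqrt S := Real.sqrt_pos.2 hS0
  have h1 : Real.sqrt N ≤ (1 + η) * Real.sqrt S := by
    rw [Real.sqrt_le_left (by positivity), mul_pow, Real.sq_sqrt hS0.le]
    have h2 : N ≤ (1 + η) ^ 2 * ((1 - η) * N) := by
      have h3 : 0 ≤ (1 + η) ^ 2 * (1 - η) - 1 := by
        have : (1 + η) ^ 2 * (1 - η) - 1 = η * (1 - η - η ^ 2) := by ring
        rw [this]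
        apply mul_nonneg hη.le
        nlinarith
      nlinarith
    exact h2.trans (mul_le_mul_of_nonneg_left hS (by positivity))
  have h2 : 1 / Real.sqrt S ≤ (1 + η) / Real.sqrt N := by
    rw [div_le_div_iff₀ hrS hr]
    linarith
  have hsq : ∀ X : ℝ, Real.sqrt (2 / (Real.pi * X)) = Real.sqrt (2 / Real.pi) / Real.sqrt X := by
    intro X
    rw [← div_div, Real.sqrt_div (by positivity)]
  have hc : (79 / 100 : ℝ) ≤ Real.sqrt (2 / Real.pi) := by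
    have h2 : Real.pi < 3.15 := Real.pi_lt_d2
    apply Real.le_sqrt_of_sq_le
    rw [le_div_iff₀ hπ]
    nlinarith
  rw [hsq, hsq]
  obtain ⟨c, hcd⟩ : ∃ c, c = Real.sqrt (2 / Real.pi) := ⟨_, rfl⟩
  rw [← hcd] at hc ⊢
  have h3 : c / Real.sqrt S ≤ c * ((1 + η) / Real.sqrt N) := by
    calc c / Real.sqrt S = c * (1 / Real.sqrt S) := by ring
      _ ≤ _ := mul_le_mul_of_nonneg_left h2 (by linarith)
  have h5 : (1 / 2 + 3 * η) * (c / Real.sqrt N) = ((1 / 2 + 3 * η) * c) / Real.sqrt N := by ring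
  rw [h5]
  calc _ ≤ (c * ((1 + η) / Real.sqrt N) + η / Real.sqrt N + η / Real.sqrt N) / 2 := by
        linarith
    _ = (c * (1 + η) / 2 + η) / Real.sqrt N := by ring
    _ ≤ _ := by
        apply div_le_div_of_nonneg_right _ hr.le
        nlinarith

/-- PROOF. `F2_cast`, `F2_scale`, `H1_heavy` with `sg ≥ |L| ≥ (1-η)N`:
`P ≤ (1/2) (sqrt (2/(π(1-η)N)) + 2η/√N) ≤ (1/2 + 3η) sqrt (2/(πN))`. -/
theorem UC_half {ι : Type*} [DecidableEq ι] (η CR : ℝ) (hη : 0 < η) (hη' : η ≤ 1 / 100)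
    (hCR : 1 ≤ CR) (I : Finset ι) (y : ι → ℤ) (L : Finset ι) (g : ℤ) (w : ι → ℤ) (hI : 1 ≤ I.card)
    (hV : HV η CR I y L g w) (hT : (hvy CR I y L g).Nonempty) :
    pz y I 0 ≤ (1 / 2 + 3 * η) * Real.sqrt (2 / (Real.pi * (I.card : ℝ))) := by
  obtain ⟨hLI, hg, hw, hLc, hsg, hA, hB, -⟩ := hV
  have hN4 : (1 : ℝ) ≤ I.card := by exact_mod_cast hI
  obtain ⟨e, he⟩ := hT
  have he' : e ∈ I \ L ∧ 2 * (CR * Real.sqrt (I.card : ℝ)) * |(g : ℝ)| < |(y e : ℝ)| := by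
    unfold hvy at he
    rw [Finset.mem_filter] at he
    exact ⟨Finset.mem_sdiff.2
      ((@Finset.mem_sdiff ι (fun a b => Classical.propDecidable (a = b)) I L e).1 he.1), he.2⟩
  obtain ⟨heE, hye⟩ := he'
  obtain ⟨N, hNd⟩ : ∃ N : ℝ, N = (I.card : ℝ) := ⟨_, rfl⟩
  rw [← hNd] at hN4 hLc hsg hA hB hye ⊢
  have hr : 0 < Real.sqrt N := Real.sqrt_pos.2 (by linarith)
  have hSL : (L.card : ℝ) ≤ sg w L := ucb_sg w L fun j hj => (hw j hj).2
  have hS1 : (1 - η) * N ≤ sg w L := hLc.trans hSL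
  obtain ⟨A, hAd⟩ : ∃ A, A = Real.sqrt (2 / (Real.pi * sg w L)) + η / Real.sqrt N := ⟨_, rfl⟩
  rw [← hAd] at hA
  have hA0 : 0 ≤ A := by rw [hAd]; positivity
  have hB0 : 0 ≤ η / Real.sqrt N := by positivity
  have hgR : (g : ℝ) ≠ 0 := by exact_mod_cast hg
  obtain ⟨x, hx⟩ : ∃ x : ι → ℝ, x = fun j => (y j : ℝ) / g := ⟨_, rfl⟩
  have hxL : ∀ j ∈ L, x j = (w j : ℝ) := fun j hj => by
    rw [hx]
    simp only
    rw [(hw j hj).1, Int.cast_mul]
    field_simp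
  have hAr : ∀ s : ℝ, pn x L s ≤ A := by
    intro s
    by_cases hs : ∃ k : ℤ, s = k
    · obtain ⟨k, rfl⟩ := hs
      rw [F2_cast _ w L hxL k]
      exact hA k
    · push Not at hs
      rw [F2_zero _ w L hxL s hs]
      exact hA0
  have hBr : ∀ s : ℝ, CR * Real.sqrt N < |s - mn w L| → pn x L s ≤ η / Real.sqrt N := by
    intro s hs1
    by_cases hs : ∃ k : ℤ, s = k
    · obtain ⟨k, rfl⟩ := hs
      rw [F2_cast _ w L hxL k]
      exact hB k hs1
    · push Not at hs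
      rw [F2_zero _ w L hxL s hs]
      exact hB0
  obtain ⟨E, hE⟩ : ∃ E, E = I \ L := ⟨_, rfl⟩
  rw [← hE] at heE
  have hd : Disjoint L E := by rw [hE]; exact Finset.disjoint_sdiff
  have hLE : L ∪ E = I := by rw [hE]; exact Finset.union_sdiff_of_subset hLI
  have hpn : pn x (L ∪ E) 0 = pz y I 0 := by
    rw [hLE]
    have h1 : pn (fun j => (y j : ℝ)) I 0 = pn x I 0 := by
      apply F2_scale x (fun j => (y j : ℝ)) I g hgR
      intro j _
      rw [hx]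
      simp only
      field_simp
    rw [← h1]
    have h2 := F2_cast (fun j => (y j : ℝ)) y I (fun _ _ => rfl) 0
    rw [Int.cast_zero] at h2
    exact h2
  have hxe : 2 * (CR * Real.sqrt N) < |x e| := by
    rw [hx]
    simp only
    rw [abs_div, lt_div_iff₀ (abs_pos.2 hgR)]
    exact hye
  have h1 := H1_heavy x L E hd A (η / Real.sqrt N) (CR * Real.sqrt N) (mn w L) hAr hBr e heE hxe
  rw [hpn, hAd] at h1
  exact h1.trans (ucb_num N (sg w L) η hN4 hη hη' hS1)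

end H31Y
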