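import Pool.Agent.Lib.H31Y.Defs
import Pool.Agent.Lib.H31Y.HA
import Pool.Agent.Lib.H31Y.KC
import Pool.Agent.Lib.H31Y.YF
import Pool.Agent.Lib.H31Z.U3
import Pool.Agent.Lib.H31Z.U5
import Pool.Agent.Lib.H31Z.R1
import Pool.Agent.Lib.H31Z.CB

/-!
Chunk UDa: lower bound for P
-/

namespace H31Y

open Finset H31Z

/-- `est` is even -/
theorem uda_even (n r : ℕ) (hr : r % 2 = 0) (h1 : r ≤ n) : 2 * (est n r / 2) = est n r := by
  unfold est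
  split_ifs <;> omega

/-- lower bound for `P` from `Z > max V H`. PROOF. `HA_ge` and `KC_cb (1/1000)` with `h = est n r/2` (`2h = est n r`,
large as `n ≤ 10 est`): `P ≥ (1/2) C(e,e/2)/2^e`. -/
theorem UD_low : ∃ n0 : ℕ, ∀ (n r : ℕ), n0 ≤ n → 6 ≤ r → 6 ∣ r → 9 * r ≤ 8 * n →
    (r % 4 = 0 ∨ 2 * r + 3 ≤ n ∨ n + 3 ≤ 2 * r) → ∀ P : ℝ,
    (max (Vval n r) (Hval n r) : ℕ) ≤ 2 ^ n * P →
    1 / 2 * Real.sqrt (2 / (Real.pi * ((est n r : ℝ) + 1 / 2 + 1 / 1000))) ≤ P := by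
  obtain ⟨h0, hh0⟩ := KC_cb (1 / 1000) (by norm_num)
  refine ⟨20 * h0 + 100, fun n r hn hr6 h6 h9 hw P hP => ?_⟩
  have hev : Even r := Nat.even_iff.2 (by omega)
  have h1 := HA_ge n r (by omega) hr6 hev h9 hw
  obtain ⟨-, h2, -, -, -⟩ := HA_M n r (by omega) hr6 hev h9
  have h3 := uda_even n r (by omega) (by omega)
  obtain ⟨h, hh⟩ : ∃ h, h = est n r / 2 := ⟨_, rfl⟩
  rw [← hh] at h1 h3
  rw [← h3] at h1 h2 ⊢
  have h4 := hh0 h (by omega)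
  have h5 : ((2 * h : ℕ) : ℝ) = 2 * (h : ℝ) := by push_cast; ring
  rw [h5]
  have h6' : (2 : ℝ) ^ n * ((2 * h).choose h : ℝ) ≤ 2 * 2 ^ (2 * h) * (max (Vval n r) (Hval n r) : ℕ) := by
    exact_mod_cast h1
  have h7 : (0 : ℝ) < 2 ^ n := by positivity
  have h8 : (0 : ℝ) < 2 ^ (2 * h) := by positivity
  have h9' : (2 : ℝ) ^ n * ((2 * h).choose h : ℝ) ≤ 2 ^ n * (2 * 2 ^ (2 * h) * P) := by
    calc (2 : ℝ) ^ n * ((2 * h).choose h : ℝ) ≤ 2 * 2 ^ (2 * h) * (max (Vval n r) (Hval n r) : ℕ) := h6'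
      _ ≤ 2 * 2 ^ (2 * h) * (2 ^ n * P) := mul_le_mul_of_nonneg_left hP (by positivity)
      _ = _ := by ring
  have h10 := le_of_mul_le_mul_left h9' h7
  have h11 : ((2 * h).choose h : ℝ) / 4 ^ h ≤ 2 * P := by
    rw [div_le_iff₀ (by positivity)]
    rw [pow_mul] at h10
    norm_num at h10
    linarith
  linarith

end H31Y
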