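import Pool.Agent.Lib.H31Y.Defs
import Pool.Agent.Lib.H31Y.HA
import Pool.Agent.Lib.H31Y.KC
import Pool.Agent.Lib.H31Y.YF
import Pool.Agent.Lib.H31Z.U3
import Pool.Agent.Lib.H31Z.U5
import Pool.Agent.Lib.H31Z.R1
import Pool.Agent.Lib.H31Z.CB
import Pool.Agent.Lib.H31Y.UDa

/-!
Chunk UDb: size of the support
-/

namespace H31Y

open Finset H31Z

/-- `a/√N ≤ (1/2) sqrt (2/(πX))` -/
theorem udb_root (a N X : ℝ) (ha : 0 ≤ a) (hN : 0 < N) (hX : 0 < X)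
    (h : 2 * a ^ 2 * (Real.pi * X) ≤ N) :
    a / Real.sqrt N ≤ 1 / 2 * Real.sqrt (2 / (Real.pi * X)) := by
  have hpi := Real.pi_pos
  have h1 : (2 * a) / Real.sqrt N = Real.sqrt ((2 * a) ^ 2 / N) := by
    rw [Real.sqrt_div (sq_nonneg _), Real.sqrt_sq (by positivity)]
  have h2 : Real.sqrt ((2 * a) ^ 2 / N) ≤ Real.sqrt (2 / (Real.pi * X)) := by
    apply Real.sqrt_le_sqrt
    rw [div_le_div_iff₀ hN (by positivity)]
    linarith
  have h3 : a / Real.sqrt N = 1 / 2 * ((2 * a) / Real.sqrt N) := by ring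
  rw [h3, h1]
  linarith

/-- size of the support. PROOF. `N = |I| ≥ n - r + 1`, `e = est n r ≤ M + 2` (`HA_M`), `M = Mval n r ≤ 2(n-r)`, so `P ≥
(1/2) sqrt (2/(π(2N + 2.6))) ≥ (1/4)/√N`. `R1_conc` (`c = n - |I|`): `N ≥ (1-η) min (2r) (2(n-r))`, and `N ≥ n - r`; so
`N ≥ (1-η) M ≥ (1-η)(e - 2)`. Then `P ≥ (1/2) sqrt (2/(π(N/(1-η) + 2.6))) ≥ (39/100)/√N`. -/
theorem UD_size (η : ℝ) (hη : 0 < η) (hη1 : η ≤ 1 / 2000) : ∃ n0 : ℕ, ∀ (n r : ℕ), n0 ≤ n →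
    6 ≤ r → Even r → 9 * r ≤ 8 * n → ∀ (I : Finset (Fin n)) (y : Fin n → ℤ),
    (∀ j ∈ I, y j ≠ 0) → Star y I (n - I.card) r → n < I.card + r →
    1 / 2 * Real.sqrt (2 / (Real.pi * ((est n r : ℝ) + 1 / 2 + 1 / 1000))) ≤ pz y I 0 →
    (1 - η) * ((est n r : ℝ) - 2) ≤ I.card ∧ (39 / 100) / Real.sqrt (I.card : ℝ) ≤ pz y I 0 := by
  obtain ⟨N0, hN0⟩ := R1_conc η hη (by linarith)
  refine ⟨9 * N0 + 1000, fun n r hn hr6 hev h9 I y hy0 hstar hIr hP => ?_⟩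
  have hpi := Real.pi_pos
  have hpi2 := Real.pi_lt_d4
  obtain ⟨hM1, -, -, -, -⟩ := HA_M n r (by omega) hr6 hev h9
  have hIn : I.card ≤ n := by
    have := Finset.card_le_univ I
    rwa [Fintype.card_fin] at this
  have hMle : Mval n r ≤ 2 * (n - r) := by
    unfold Mval
    omega
  have hMcase : Mval n r ≤ n - r ∨ (Mval n r ≤ 2 * r ∧ Mval n r ≤ 2 * (n - r)) := by
    unfold Mval
    omega
  have he2N : est n r ≤ 2 * I.card := by omega
  obtain ⟨N, hN⟩ : ∃ N : ℝ, N = (I.card : ℝ) := ⟨_, rfl⟩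
  obtain ⟨e, he⟩ : ∃ e : ℝ, e = (est n r : ℝ) := ⟨_, rfl⟩
  have hN100 : 100 ≤ N := by
    rw [hN]
    exact_mod_cast (by omega : 100 ≤ I.card)
  have he2N' : e ≤ 2 * N := by
    rw [he, hN]
    exact_mod_cast he2N
  have he0 : 0 ≤ e := by
    rw [he]
    exact Nat.cast_nonneg _
  rw [← he] at hP ⊢
  rw [← hN]
  have h14 : (1 / 4) / Real.sqrt I.card ≤ pz y I 0 := by
    refine le_trans ?_ hP
    rw [← hN]
    apply udb_root _ _ _ (by norm_num) (by linarith) (by linarith)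
    nlinarith
  have hconc := hN0 (Fin n) I y (n - I.card) r (by omega) hstar (by omega) h14
  have hc : ((n - I.card : ℕ) : ℝ) = (n : ℝ) - N := by
    rw [hN, Nat.cast_sub hIn]
  rw [hc, ← hN, show N + ((n : ℝ) - N) - r = n - r by ring] at hconc
  have hNr : (n : ℝ) - r ≤ N := by
    have : (n : ℝ) < (I.card : ℝ) + r := by exact_mod_cast hIr
    rw [hN]
    linarith
  have hrn : r ≤ n := by omega
  have hM : (1 - η) * (Mval n r : ℝ) ≤ N := by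
    rcases hMcase with h1 | ⟨h1, h2⟩
    · have h3 : (Mval n r : ℝ) ≤ (n : ℝ) - r := by
        have : ((Mval n r : ℕ) : ℝ) ≤ ((n - r : ℕ) : ℝ) := by exact_mod_cast h1
        rwa [Nat.cast_sub hrn] at this
      have h4 : (0 : ℝ) ≤ (Mval n r : ℝ) := Nat.cast_nonneg _
      nlinarith
    · have h3 : (Mval n r : ℝ) ≤ 2 * (r : ℝ) := by exact_mod_cast h1
      have h4 : (Mval n r : ℝ) ≤ 2 * ((n : ℝ) - r) := by
        have : ((Mval n r : ℕ) : ℝ) ≤ ((2 * (n - r) : ℕ) : ℝ) := by exact_mod_cast h2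
        rwa [Nat.cast_mul, Nat.cast_sub hrn] at this
      have h5 : (Mval n r : ℝ) ≤ min (2 * (r : ℝ)) (2 * ((n : ℝ) - r)) := le_min h3 h4
      exact le_trans (mul_le_mul_of_nonneg_left h5 (by linarith)) hconc
  have hM1' : e ≤ (Mval n r : ℝ) + 2 := by
    rw [he]
    exact_mod_cast hM1
  have h1 : (1 - η) * (e - 2) ≤ N := by
    refine le_trans (mul_le_mul_of_nonneg_left ?_ (by linarith)) hM
    linarith
  refine ⟨h1, le_trans ?_ hP⟩
  apply udb_root _ _ _ (by norm_num) (by linarith) (by linarith)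
  have h2 : (1999 / 2000) * (e - 2) ≤ N := by nlinarith
  have h3 : Real.pi * (e + 1 / 2 + 1 / 1000) ≤ 3.1416 * (e + 1 / 2 + 1 / 1000) :=
    mul_le_mul_of_nonneg_right hpi2.le (by linarith)
  nlinarith

end H31Y
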