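import Pool.Agent.Lib.H31Y.Defs
import Pool.Agent.Lib.H31Y.HA
import Pool.Agent.Lib.H31Y.KC
import Pool.Agent.Lib.H31Y.YF
import Pool.Agent.Lib.H31Z.U3
import Pool.Agent.Lib.H31Z.U5
import Pool.Agent.Lib.H31Z.R1
import Pool.Agent.Lib.H31Z.CB
import Pool.Agent.Lib.H31Y.UDb

/-!
Chunk UDc: window, r = 6 mod 12
-/

namespace H31Y

open Finset H31Z

theorem udc_low (n : ℕ) (hn : 10000 ≤ n) (q : ℤ) (hq : (q : ℝ) ≤ -3) (P : ℝ)
    (h : Real.sqrt (2 / (Real.pi * (3 : ℕ) * n)) *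
      (1 - ((q : ℝ) + phi 3 + 1) / (2 * (3 : ℕ) * n)) ≤ P) :
    (455 / 1000) / Real.sqrt (n : ℝ) ≤ P := by
  have hnR : (10000 : ℝ) ≤ n := by exact_mod_cast hn
  have hn0 : (0 : ℝ) < n := by linarith
  have hπ : 0 < Real.pi := Real.pi_pos
  have hπ4 : Real.pi < 3.15 := Real.pi_lt_d2
  have h2 : phi 3 = 7 / 2 := by
    unfold phi
    norm_num
  have h1 : ((q : ℝ) + phi 3 + 1) / (2 * (3 : ℕ) * n) ≤ 1 / 1000 := by
    rw [h2, div_le_iff₀ (by positivity)]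
    push_cast
    linarith
  have hr : 0 < Real.sqrt (n : ℝ) := Real.sqrt_pos.2 hn0
  have hr2 : Real.sqrt (n : ℝ) ^ 2 = n := Real.sq_sqrt hn0.le
  have h3 : (459 / 1000) / Real.sqrt (n : ℝ) ≤ Real.sqrt (2 / (Real.pi * (3 : ℕ) * n)) := by
    apply Real.le_sqrt_of_sq_le
    rw [div_pow, hr2, div_le_div_iff₀ hn0 (by positivity)]
    push_cast
    nlinarith
  refine le_trans ?_ h
  have h4 : (459 / 1000) / Real.sqrt (n : ℝ) * (999 / 1000) ≤ Real.sqrt (2 / (Real.pi * (3 : ℕ) * n)) *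
      (1 - ((q : ℝ) + phi 3 + 1) / (2 * (3 : ℕ) * n)) :=
    mul_le_mul h3 (by linarith) (by norm_num) (Real.sqrt_nonneg _)
  refine le_trans ?_ h4
  rw [div_mul_eq_mul_div]
  apply div_le_div_of_nonneg_right _ hr.le
  norm_num

/-- the window for `r = 6 mod 12`. PROOF. `P ≥ pz (vec3 n) univ 0 ≥ 0.577 · 0.79 /√n ≥ 0.455/√n` (`YF_three`). `|I| > n - r ≥
(n-2)/2`, so `P ≥ (1/4)/√|I|`, `R1_conc`: `N ≥ (1-η) min (2r) (2(n-r)) ≥ (1-η)(n-2)`; so `P ≥ 0.455/√n ≥ 0.45/√N`,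
and `0.45 > (1/2 + 3η) 0.798`. -/
theorem UD_win (η : ℝ) (hη : 0 < η) (hη1 : η ≤ 1 / 2000) : ∃ n0 : ℕ, ∀ (n r : ℕ), n0 ≤ n →
    2 * r ≤ n + 2 → n ≤ 2 * r + 2 → ∀ (I : Finset (Fin n)) (y : Fin n → ℤ),
    (∀ j ∈ I, y j ≠ 0) → Star y I (n - I.card) r → n < I.card + r →
    pz (vec3 n) Finset.univ 0 ≤ pz y I 0 →
    (39 / 100) / Real.sqrt (I.card : ℝ) ≤ pz y I 0 ∧
      (1 / 2 + 3 * η) * Real.sqrt (2 / (Real.pi * (I.card : ℝ))) < pz y I 0 := by
  obtain ⟨n3, hF⟩ := YF_three 1 one_pos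
  obtain ⟨N0, hR⟩ := R1_conc η hη (by linarith)
  refine ⟨n3 + 4 * N0 + 10000, ?_⟩
  intro n r hn hr1 hr2 I y hy hS hI hP
  have hIn : I.card ≤ n := by simpa using Finset.card_le_univ I
  have hcc : I.card + (n - I.card) = n := by omega
  have hn1 : 10000 ≤ n := by omega
  have hnR : (10000 : ℝ) ≤ n := by exact_mod_cast hn1
  have hn0 : (0 : ℝ) < n := by linarith
  have hq : (q3 n : ℝ) ≤ -3 := by
    have : q3 n ≤ -3 := by
      unfold q3
      split_ifs <;> norm_num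
    exact_mod_cast this
  have hlow := udc_low n hn1 (q3 n) hq _ ((hF n (by omega)).trans hP)
  obtain ⟨N, hNd⟩ : ∃ N : ℝ, N = (I.card : ℝ) := ⟨_, rfl⟩
  have hcR : (I.card : ℝ) + ((n - I.card : ℕ) : ℝ) = n := by exact_mod_cast hcc
  have hr1R : 2 * (r : ℝ) ≤ n + 2 := by exact_mod_cast hr1
  have hr2R : (n : ℝ) ≤ 2 * r + 2 := by exact_mod_cast hr2
  have hIR : (n : ℝ) < I.card + r := by exact_mod_cast hI
  have hπ : 0 < Real.pi := Real.pi_pos
  have hπ3 : 3.14 < Real.pi := Real.pi_gt_d2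
  have hrn : 0 < Real.sqrt (n : ℝ) := Real.sqrt_pos.2 hn0
  have hrn2 : Real.sqrt (n : ℝ) ^ 2 = n := Real.sq_sqrt hn0.le
  have hN1 : (n : ℝ) / 2 - 1 ≤ N := by rw [hNd]; linarith
  have hN0 : 0 < N := by linarith
  have hrN : 0 < Real.sqrt N := Real.sqrt_pos.2 hN0
  have hrN2 : Real.sqrt N ^ 2 = N := Real.sq_sqrt hN0.le
  have hquart : (1 / 4) / Real.sqrt (I.card : ℝ) ≤ pz y I 0 := by
    refine le_trans ?_ hlow
    rw [← hNd, div_le_div_iff₀ hrN hrn]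
    have h1 : Real.sqrt (n : ℝ) ≤ (3 / 2) * Real.sqrt N := by
      rw [Real.sqrt_le_left (by positivity), mul_pow, hrN2]
      linarith
    linarith
  have hconc := hR (Fin n) I y (n - I.card) r (by omega) hS (by omega) hquart
  have h3 : (I.card : ℝ) + ((n - I.card : ℕ) : ℝ) - r = n - r := by rw [hcR]
  rw [h3, ← hNd] at hconc
  have hmin : (n : ℝ) - 2 ≤ min (2 * (r : ℝ)) (2 * ((n : ℝ) - r)) :=
    le_min (by linarith) (by linarith)
  have hN2 : (1 - η) * ((n : ℝ) - 2) ≤ N :=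
    (mul_le_mul_of_nonneg_left hmin (by linarith)).trans hconc
  have h45 : (45 / 100) / Real.sqrt N ≤ pz y I 0 := by
    refine le_trans ?_ hlow
    rw [div_le_div_iff₀ hrN hrn]
    have h1 : Real.sqrt (n : ℝ) ≤ (455 / 450) * Real.sqrt N := by
      rw [Real.sqrt_le_left (by positivity), mul_pow, hrN2]
      nlinarith
    linarith
  rw [← hNd]
  constructor
  · refine le_trans ?_ h45
    apply div_le_div_of_nonneg_right _ hrN.le
    norm_num
  · refine lt_of_lt_of_le ?_ h45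
    have h1 : Real.sqrt (2 / (Real.pi * N)) ≤ (8 / 10) / Real.sqrt N := by
      rw [Real.sqrt_le_left (by positivity), div_pow, hrN2, div_le_div_iff₀ (by positivity) hN0]
      nlinarith
    have h2 : (1 / 2 + 3 * η) * Real.sqrt (2 / (Real.pi * N)) ≤
        (503 / 1000) * ((8 / 10) / Real.sqrt N) :=
      mul_le_mul (by linarith) h1 (Real.sqrt_nonneg _) (by norm_num)
    refine lt_of_le_of_lt h2 ?_
    rw [mul_div_assoc']
    apply div_lt_div_of_pos_right _ hrN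
    norm_num

end H31Y
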