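import Pool.Agent.Lib.H31Y.Defs
import Pool.Agent.Lib.H31Y.HA
import Pool.Agent.Lib.H31Y.KC
import Pool.Agent.Lib.H31Y.YF
import Pool.Agent.Lib.H31Z.U3
import Pool.Agent.Lib.H31Z.U5
import Pool.Agent.Lib.H31Z.R1
import Pool.Agent.Lib.H31Z.CB
import Pool.Agent.Lib.H31Y.UDc

/-!
Chunk UDd: noncrossing in the window
-/

namespace H31Y

open Finset H31Z

private lemma udd_pow (n k : ℕ) (hn : 4 ≤ n) (hk : n < 2 * k) :
    1 / (4 : ℝ) ^ k ≤ 1 / (n : ℝ) ^ 2 := by
  have hn0 : (0 : ℝ) < n := by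
    have : 0 < n := by omega
    exact_mod_cast this
  have h1 : n ^ 2 ≤ 2 ^ n := by
    clear hk
    induction n, hn using Nat.le_induction with
    | base => norm_num
    | succ m hm ih =>
      have hm0 : (0 : ℝ) < m := by
        have : 0 < m := by omega
        exact_mod_cast this
      have h2 := ih hm0
      have h3 : (m + 1) ^ 2 ≤ 2 * m ^ 2 := by nlinarith
      calc (m + 1) ^ 2 ≤ 2 * m ^ 2 := h3
        _ ≤ 2 * 2 ^ m := Nat.mul_le_mul_left _ h2
        _ = 2 ^ (m + 1) := by ring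
  have h2 : 2 ^ n ≤ 4 ^ k := by
    rw [show (4 : ℕ) = 2 ^ 2 by norm_num, ← pow_mul]
    exact Nat.pow_le_pow_right (by norm_num) hk.le
  have h3 : (n : ℝ) ^ 2 ≤ (4 : ℝ) ^ k := by exact_mod_cast h1.trans h2
  exact one_div_le_one_div_of_le (by positivity) h3

private lemma udd_choose (k : ℕ) (hk : 1 ≤ k) :
    ((2 * k - 1).choose k : ℝ) = (Nat.centralBinom k : ℝ) / 2 := by
  have h : 2 * (2 * k - 1).choose k = Nat.centralBinom k := by
    obtain ⟨m, rfl⟩ : ∃ m, k = m + 1 := ⟨k - 1, by omega⟩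
    rw [Nat.centralBinom_eq_two_mul_choose]
    have e1 : 2 * (m + 1) - 1 = 2 * m + 1 := by omega
    have e2 : 2 * (m + 1) = (2 * m + 1) + 1 := by ring
    rw [e1, e2, Nat.choose_succ_succ (2 * m + 1) m, Nat.succ_eq_add_one, Nat.choose_symm_half m]
    ring
  rw [← h]
  push_cast
  ring

private lemma udd_up (n k : ℕ) (hn : 20 ≤ n) (hk : n < 2 * k) :
    (1 + ((2 * k - 1).choose k : ℝ)) / 4 ^ k ≤ 11 / 20 * Real.sqrt (2 / (Real.pi * n)) := by
  have hpi := Real.pi_pos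
  have hn0 : (20 : ℝ) ≤ n := by exact_mod_cast hn
  have hk0 : (n : ℝ) < 2 * k := by exact_mod_cast hk
  obtain ⟨G, hG⟩ : ∃ G, G = Real.sqrt (2 / (Real.pi * n)) := ⟨_, rfl⟩
  rw [← hG]
  have hG0 : 0 ≤ G := by rw [hG]; exact Real.sqrt_nonneg _
  have h1 : CB_u k ≤ G := by
    rw [hG]
    apply Real.le_sqrt_of_sq_le
    have h := CB_le k
    rw [le_div_iff₀ (by positivity)]
    have h2 : 0 ≤ CB_u k ^ 2 := by positivity
    have h3 : CB_u k ^ 2 * (Real.pi * n) ≤ CB_u k ^ 2 * (Real.pi * (2 * k)) := by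
      apply mul_le_mul_of_nonneg_left _ h2
      exact mul_le_mul_of_nonneg_left hk0.le hpi.le
    linarith
  have h2 : 1 / (n : ℝ) ≤ G := by
    rw [hG]
    apply Real.le_sqrt_of_sq_le
    rw [div_pow, one_pow, div_le_div_iff₀ (by positivity) (by positivity)]
    nlinarith [Real.pi_le_four]
  have h3 := udd_pow n k (by omega) hk
  have h4 : 1 / (n : ℝ) ^ 2 ≤ 1 / 20 * G := by
    have e : 1 / (n : ℝ) ^ 2 = 1 / n * (1 / n) := by
      field_simp
    rw [e]
    apply mul_le_mul _ h2 (by positivity) (by norm_num)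
    exact one_div_le_one_div_of_le (by norm_num) hn0
  have e : (1 + ((2 * k - 1).choose k : ℝ)) / 4 ^ k = 1 / (4 : ℝ) ^ k + CB_u k / 2 := by
    rw [udd_choose k (by omega)]
    unfold CB_u
    ring
  rw [e]
  linarith

/-- noncrossing in the window for `r = 6 mod 12`. PROOF. `CB_upper`: `N/2^n ≤ 4^(-k) + 1/(2 sqrt (πk)) ≤
4^(-k) + 0.5 sqrt (2/(πn)) < 0.57 sqrt (2/(πn)) ≤ pz (vec3 n) univ 0 = A3val n/2^n` (`2k > n`, `n` large; `YF_three`,
`YD3_count`). -/
theorem UD_non : ∃ n0 : ℕ, ∀ (n k N : ℕ), n0 ≤ n → n < 2 * k →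
    4 ^ k * N ≤ 2 ^ n * (1 + (2 * k - 1).choose k) → N ≤ A3val n := by
  obtain ⟨n1, h1⟩ := YF_three 1 one_pos
  refine ⟨max n1 100, fun n k N hn hk h => ?_⟩
  have hn1 : n1 ≤ n := (le_max_left _ _).trans hn
  have hn2 : 100 ≤ n := (le_max_right _ _).trans hn
  have hpi := Real.pi_pos
  have hn0 : (100 : ℝ) ≤ n := by exact_mod_cast hn2
  have h2 := h1 n hn1
  have h3 : pz (vec3 n) Finset.univ 0 = (A3val n : ℝ) / 2 ^ n := by
    unfold pz
    rw [YD3_count n (by omega), Finset.card_univ, Fintype.card_fin]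
  rw [h3] at h2
  have h4 := udd_up n k (by omega) hk
  obtain ⟨G, hG⟩ : ∃ G, G = Real.sqrt (2 / (Real.pi * n)) := ⟨_, rfl⟩
  rw [← hG] at h4
  have hG0 : 0 ≤ G := by rw [hG]; exact Real.sqrt_nonneg _
  have h5 : 577 / 1000 * G ≤ Real.sqrt (2 / (Real.pi * (3 : ℕ) * n)) := by
    apply Real.le_sqrt_of_sq_le
    rw [mul_pow, hG, Real.sq_sqrt (by positivity)]
    rw [mul_div_assoc', div_le_div_iff₀ (by positivity) (by positivity)]
    push_cast
    have : 0 < Real.pi * n := by positivity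
    nlinarith
  have h6 : (99 / 100 : ℝ) ≤ 1 - ((q3 n : ℝ) + phi 3 + 1) / (2 * (3 : ℕ) * n) := by
    have hq : (q3 n : ℝ) ≤ -3 := by
      have : q3 n ≤ -3 := by
        unfold q3
        split_ifs <;> norm_num
      exact_mod_cast this
    have hp : phi 3 = 7 / 2 := by
      unfold phi
      norm_num
    rw [hp]
    have h7 : ((q3 n : ℝ) + 7 / 2 + 1) / (2 * (3 : ℕ) * n) ≤ 1 / 100 := by
      rw [div_le_iff₀ (by push_cast; positivity)]
      push_cast
      linarith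
    linarith
  have h7 : 11 / 20 * G ≤ (A3val n : ℝ) / 2 ^ n := by
    refine le_trans ?_ h2
    calc 11 / 20 * G ≤ 577 / 1000 * G * (99 / 100) := by nlinarith
      _ ≤ _ := mul_le_mul h5 h6 (by norm_num) (Real.sqrt_nonneg _)
  have h8 : (1 + ((2 * k - 1).choose k : ℝ)) / 4 ^ k ≤ (A3val n : ℝ) / 2 ^ n := h4.trans h7
  rw [div_le_div_iff₀ (by positivity) (by positivity)] at h8
  have h9 : (4 ^ k * N : ℝ) ≤ 2 ^ n * (1 + ((2 * k - 1).choose k : ℝ)) := by exact_mod_cast h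
  have h10 : (4 ^ k * N : ℝ) ≤ 4 ^ k * (A3val n : ℝ) := by linarith
  have h11 : (N : ℝ) ≤ A3val n := le_of_mul_le_mul_left h10 (by positivity)
  exact_mod_cast h11

end H31Y
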