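import Pool.Agent.Lib.H31Y.UA
import Pool.Agent.Lib.H31Y.UC
import Pool.Agent.Lib.H31Y.UD
import Pool.Agent.Lib.H31Y.EB

/-!
Chunk UE: the upper bound for `6 ∣ r`.
-/

namespace H31Y

open Finset H31Z

/-- PROOF. `η` = the least of `ηB` (`UA_three`, `UA_four`) and `ηH` (`UC_heavy`), `≤ 1/2000`; `K1, δ, CR, N0` from `EB_dich η`;
`n0` the maximum of everything. Let `9r ≤ 8n` (otherwise `U5_near`: `8(n-r+1)+1 ≤ n`), `x` admissible, `k = n-r+1`.
`U5_dich`: (non crossing) `2k ≤ n`: `U5_exact`: `ZZ ≤ Vval`. `2k > n`: `HA_non` (`ZZ ≤ Hval`) unless `r % 4 = 2` and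
`|n-2r| ≤ 2`: `UD_non`: `ZZ ≤ A3val = Lval`. (crossing) `U3_prep`: `I, y`; the crossing set is a subset of `I` with
`∑ y = 0`. Suppose `ZZ > max`. `P = pz y I 0 = ZZ/2^n`. If `r % 4 = 2`: `P > A3val/2^n = pz (vec3 n) univ 0`
(`YD3_count`, `pz = cz/2^n`); if `r % 4 = 0`, `r % 5 ≠ 0`: `P > pz (vec4 n r) univ 0` (`YE4_count`).
`39/100/√|I| ≤ P`: by `UD_low`, `UD_size`, or (`r % 4 = 2`, window) `UD_win`. `EB_dich`: Bal: `UA_three` / `UA_four` /
`UA_five` (`60 ∣ r`), contradiction. HV: window and `r % 4 = 2`: `UC_half` against `UD_win`; otherwise `UC_heavy`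
with `UD_low`, `UD_size`: `ZZ ≤ max V H`, contradiction. (`DecidableEq (Fin n)`: use `convert` or `classical` with
care; `EB_dich` is stated for any instance.) -/
theorem UE_upper : ∃ n0 : ℕ, ∀ (n r : ℕ), n0 ≤ n → 1 ≤ r → r ≤ n → 6 ∣ r →
    ∀ x : Fin n → ℝ, Adm n r x →
      ZZ n x ≤ max (Vval n r) (max (Hval n r) (Lval n r)) := by
  obtain ⟨ηB3, hηB3, hηB3', hB3⟩ := UA_three
  obtain ⟨ηB4, hηB4, hηB4', hB4⟩ := UA_four
  obtain ⟨ηH, hηH, hηH', hH⟩ := UC_heavy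
  obtain ⟨η, hη, hη3, hη4, hηh⟩ : ∃ η : ℝ, 0 < η ∧ η ≤ ηB3 ∧ η ≤ ηB4 ∧ η ≤ ηH :=
    ⟨min ηB3 (min ηB4 ηH), lt_min hηB3 (lt_min hηB4 hηH), min_le_left _ _,
      le_trans (min_le_right _ _) (min_le_left _ _), le_trans (min_le_right _ _) (min_le_right _ _)⟩
  have hη2 : η ≤ 1 / 2000 := le_trans hη3 hηB3'
  obtain ⟨K1, δ, CR, N0, hK1, hδ, hCR, hE⟩ := EB_dich η hη (by linarith)
  obtain ⟨n3, hn3⟩ := hB3 η hη hη3 K1 δ
  obtain ⟨n4, hn4⟩ := hB4 η hη hη4 K1 δ
  obtain ⟨n5, hn5⟩ := UA_five η hη hη2 K1 δ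
  obtain ⟨nH, hnH⟩ := hH η hη hηh CR hCR
  obtain ⟨nL, hnL⟩ := UD_low
  obtain ⟨nS, hnS⟩ := UD_size η hη hη2
  obtain ⟨nW, hnW⟩ := UD_win η hη hη2
  obtain ⟨nN, hnN⟩ := UD_non
  refine ⟨n3 + n4 + n5 + nH + nL + nS + nW + nN + 9 * N0 + 1000, ?_⟩
  intro n r hn hr hrn h6 x hx
  obtain ⟨q, hq⟩ := h6
  have h6 : 6 ∣ r := ⟨q, hq⟩
  have hr6 : 6 ≤ r := by omega
  have hev : Even r := by
    rw [Nat.even_iff]
    omega
  by_cases h9 : 9 * r ≤ 8 * n
  swap
  · exact le_trans (U5_near n r hr hrn (by omega) x hx) (le_max_left _ _)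
  rcases U5_dich n (n - r + 1) r (by omega) (by omega) x hx with hc | hnc
  swap
  · -- non crossing
    by_cases h2k : 2 * (n - r + 1) ≤ n
    · refine le_trans (U5_exact n (n - r + 1) _ h2k hnc) (le_trans (le_of_eq ?_) (le_max_left _ _))
      unfold Vval
      rw [if_pos h2k]
    · by_cases hw : r % 4 = 0 ∨ 2 * r + 3 ≤ n
      · exact le_trans (HA_non n r (n - r + 1) _ (by omega) hr6 hev h9 hw (by omega) (by omega) hnc)
          (le_trans (le_max_left _ _) (le_max_right _ _))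
      · have h4 : r % 4 = 2 := by omega
        refine le_trans (hnN n (n - r + 1) _ (by omega) (by omega) hnc) ?_
        refine le_trans (le_of_eq ?_) (le_trans (le_max_right _ _) (le_max_right _ _))
        unfold Lval
        rw [if_pos h4]
  -- crossing
  obtain ⟨B, hB0, hBs, hBr⟩ := hc
  obtain ⟨I, y, hI, hiff, hy0, hstar, hZ, hIr⟩ := U3_prep n r hr hrn x hx
  have hBI : B ⊆ I := fun i hi => (hI i).2 (hB0 i hi)
  have hcross : ∃ B ⊆ I, ∑ i ∈ B, y i = 0 ∧ r < B.card := ⟨B, hBI, (hiff B hBI).1 hBs, hBr⟩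
  by_contra hcon
  have hlt := not_le.1 hcon
  have hV : Vval n r < ZZ n x := lt_of_le_of_lt (le_max_left _ _) hlt
  have hHv : Hval n r < ZZ n x :=
    lt_of_le_of_lt (le_trans (le_max_left _ _) (le_max_right _ _)) hlt
  have hL : Lval n r < ZZ n x :=
    lt_of_le_of_lt (le_trans (le_max_right _ _) (le_max_right _ _)) hlt
  have hVH : max (Vval n r) (Hval n r) < ZZ n x := max_lt hV hHv
  have hVH' : ((max (Vval n r) (Hval n r) : ℕ) : ℝ) < 2 ^ n * pz y I 0 := by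
    rw [← hZ]
    exact_mod_cast hVH
  have h2n : (0 : ℝ) < 2 ^ n := by positivity
  -- comparison with the champions
  have h3c : r % 4 = 2 → pz (vec3 n) Finset.univ 0 < pz y I 0 := by
    intro h4
    have h5 : A3val n < ZZ n x := by
      have := hL
      unfold Lval at this
      rwa [if_pos h4] at this
    have h7 := YD3_count n (by omega)
    have h8 : pz (vec3 n) Finset.univ 0 = (A3val n : ℝ) / 2 ^ n := by
      unfold pz
      rw [h7, Finset.card_univ, Fintype.card_fin]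
    rw [h8, div_lt_iff₀ h2n, mul_comm, ← hZ]
    exact_mod_cast h5
  have h4c : r % 4 = 0 → r % 5 ≠ 0 → pz (vec4 n r) Finset.univ 0 < pz y I 0 := by
    intro h4 h45
    have h5 : A4val n r < ZZ n x := by
      have := hL
      unfold Lval at this
      rwa [if_neg (by omega), if_neg h45] at this
    have h7 := YE4_count n r (by omega) h45
    have h8 : pz (vec4 n r) Finset.univ 0 = (A4val n r : ℝ) / 2 ^ n := by
      unfold pz
      rw [h7, Finset.card_univ, Fintype.card_fin]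
    rw [h8, div_lt_iff₀ h2n, mul_comm, ← hZ]
    exact_mod_cast h5
  have hNI : N0 ≤ I.card := by omega
  -- balanced case
  have hbal : (∃ (L : Finset (Fin n)) (g : ℤ) (w : Fin n → ℤ), Bal η K1 δ I y L g w) →
      (39 / 100) / Real.sqrt (I.card : ℝ) ≤ pz y I 0 → False := by
    rintro ⟨L, g, w, hb⟩ h39
    by_cases h4 : r % 4 = 2
    · have h5 := hn3 n r (by omega) hr h6 h4 h9 I y hy0 hstar hIr L g w hb
      exact absurd (h3c h4) (not_lt.2 h5)
    · have h40 : r % 4 = 0 := by omega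
      by_cases h45 : r % 5 = 0
      · have h5 := hn5 n r (by omega) hr (by omega) h9 I y hy0 hstar hIr L g w hb
        exact absurd h39 (not_le.2 h5)
      · have h5 := hn4 n r (by omega) hr (by omega) h45 h9 I y hy0 hstar hIr L g w hb
        exact absurd (h4c h40 h45) (not_lt.2 h5)
  by_cases hw2 : r % 4 = 0 ∨ 2 * r + 3 ≤ n ∨ n + 3 ≤ 2 * r
  · have hlow := hnL n r (by omega) hr6 h6 h9 hw2 (pz y I 0) hVH'.le
    obtain ⟨hsize, h39⟩ := hnS n r (by omega) hr6 hev h9 I y hy0 hstar hIr hlow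
    rcases hE (Fin n) I y hNI hy0 h39 with hb | ⟨L, g, w, hHV, hne⟩
    · exact hbal hb h39
    · have h5 := hnH n r (by omega) hr h6 h9 hw2 I y hy0 hstar hIr L g w hHV hne hsize hlow hcross
      exact absurd hVH' (not_lt.2 h5)
  · have h4 : r % 4 = 2 := by omega
    obtain ⟨h39, hhalf⟩ := hnW n r (by omega) (by omega) (by omega) I y hy0 hstar hIr (h3c h4).le
    rcases hE (Fin n) I y hNI hy0 h39 with hb | ⟨L, g, w, hHV, hne⟩
    · exact hbal hb h39
    · have h5 := UC_half η CR hη (by linarith) hCR I y L g w (by omega) hHV hne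
      exact absurd hhalf (not_lt.2 h5)

end H31Y
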