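import Pool.Agent.Lib.H31Y.ZV

/-!
Chunk ZHa: Hval attained, n >= 2r+3
-/

namespace H31Y

open Finset H31Z

/-- PROOF. `ZV_real` (`6 ∣ r`; parities by `omega`). `3r < n`, `n` odd: `c = r-1`, `a = n-r-1`, `b = 0`, `t = 2`,
`m = (n-r-1)/2 ≥ r`. `n` even: `c = r-1`, `a = n-r-1`, `b = 0`, `t = 2`, `m = (n-r)/2 - 1 ≥ r`, `a = 2m + 1`:
`1 + 2 C(2m+1, m) + C(2m+1, 2m) = C(2m+2,m+1) + 2m + 2`. `n = 3r`: `c = r-1`, `a = 2r`, `t = 1`, `m = r`.
`2r+3 ≤ n < 3r`: `c = n-2r`, `a = 2r-1`, `t = 1`, `m = r`. -/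
theorem ZH_one (n r : ℕ) (hn : 100 ≤ n) (hr6 : 6 ≤ r) (hr : Even r) (h : 2 * r + 3 ≤ n) :
    ∃ x : Fin n → ℝ, Adm n r x ∧ ZZ n x = Hval n r := by
  obtain ⟨s, hs⟩ := hr
  by_cases c1 : 3 * r < n
  · by_cases c2 : n % 2 = 1
    · obtain ⟨m, hm⟩ : ∃ m, n - r - 1 = 2 * m := ⟨(n - r - 1) / 2, by omega⟩
      obtain ⟨x, hx1, hx2⟩ := ZV_real n r (r - 1) (n - r - 1) 0 m 2 (by omega) (by
        intro j hj i hi _ q hq
        have hi0 : i = 0 := by omega
        subst hi0
        have hj3 : j = 0 ∨ j = 1 ∨ j = 2 := by omega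
        rcases hj3 with rfl | rfl | rfl <;> omega)
      refine ⟨x, hx1, ?_⟩
      rw [hx2]
      unfold Hval
      rw [if_pos c1, if_pos c2, hm]
      have h2 : 2 * m / 2 = m := by omega
      rw [h2]
      simp only [Finset.sum_range_succ, Finset.sum_range_zero, add_zero, zero_add, zero_mul,
        one_mul, Nat.choose_zero_right, Nat.choose_self, Nat.choose_one_right]
      ring
    · obtain ⟨m, hm⟩ : ∃ m, n - r - 1 = 2 * m + 1 := ⟨(n - r - 1) / 2, by omega⟩
      obtain ⟨x, hx1, hx2⟩ := ZV_real n r (r - 1) (n - r - 1) 0 m 2 (by omega) (by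
        intro j hj i hi _ q hq
        have hi0 : i = 0 := by omega
        subst hi0
        have hj3 : j = 0 ∨ j = 1 ∨ j = 2 := by omega
        rcases hj3 with rfl | rfl | rfl <;> omega)
      refine ⟨x, hx1, ?_⟩
      rw [hx2]
      unfold Hval
      have h0 : n - r = 2 * m + 2 := by omega
      have h2 : (2 * m + 2) / 2 = m + 1 := by omega
      rw [if_pos c1, if_neg c2, hm, h0, h2]
      have e1 : (2 * m + 2).choose (m + 1) = 2 * (2 * m + 1).choose m := by
        have : 2 * m + 2 = (2 * m + 1) + 1 := by omega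
        rw [this, Nat.choose_succ_succ, Nat.choose_symm_half]
        ring
      have e2 : (2 * m + 1).choose (2 * m) = 2 * m + 1 := Nat.choose_succ_self_right (2 * m)
      simp only [Finset.sum_range_succ, Finset.sum_range_zero, add_zero, zero_add, zero_mul,
        one_mul, Nat.choose_zero_right, Nat.choose_self, Nat.choose_one_right, e2]
      rw [e1]
      ring
  by_cases c3 : n = 3 * r
  · obtain ⟨x, hx1, hx2⟩ := ZV_real n r (r - 1) (2 * r) 0 r 1 (by omega) (by
      intro j hj i hi _ q hq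
      have hi0 : i = 0 := by omega
      subst hi0
      have hj3 : j = 0 ∨ j = 1 := by omega
      rcases hj3 with rfl | rfl <;> omega)
    refine ⟨x, hx1, ?_⟩
    rw [hx2]
    unfold Hval
    rw [if_neg c1, if_pos c3]
    simp only [Finset.sum_range_succ, Finset.sum_range_zero, add_zero, zero_add, zero_mul,
      one_mul, Nat.choose_zero_right, Nat.choose_self]
  · obtain ⟨x, hx1, hx2⟩ := ZV_real n r (n - 2 * r) (2 * r - 1) 0 r 1 (by omega) (by
      intro j hj i hi _ q hq
      have hi0 : i = 0 := by omega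
      subst hi0
      have hj3 : j = 0 ∨ j = 1 := by omega
      rcases hj3 with rfl | rfl <;> omega)
    refine ⟨x, hx1, ?_⟩
    rw [hx2]
    unfold Hval
    rw [if_neg c1, if_neg c3, if_pos h]
    simp only [Finset.sum_range_succ, Finset.sum_range_zero, add_zero, zero_add, zero_mul,
      one_mul, Nat.choose_zero_right, Nat.choose_self]

end H31Y
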