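import Pool.Agent.Lib.H31Y.ZV
import Pool.Agent.Lib.H31Y.ZHa

/-!
Chunk ZHb: Hval attained, window
-/

namespace H31Y

open Finset H31Z

private lemma zhb_real (n r a b m t v : ℕ) (h : a + b + t = n)
    (h0 : 2 * b < r) (h1 : r % 2 = 0) (h2 : m % 2 = 0) (h3 : r < 2 + 2 * m) (ht : t ≤ 2)
    (hv : ∑ j ∈ Finset.range (t + 1), t.choose j * (a + b).choose (b + j * m) = v) :
    ∃ x : Fin n → ℝ, Adm n r x ∧ ZZ n x = v := by
  obtain ⟨x, hx, hz⟩ := ZV_real n r 0 a b m t (by omega) (by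
    intro j hj i hi _ q hq
    have hj2 : j ≤ 2 := hj.trans ht
    interval_cases j <;> omega)
  refine ⟨x, hx, ?_⟩
  rw [hz, hv, pow_zero, one_mul]

/-- PROOF. `ZV_real` with `c = 0`. `n = 2r+2`: `t = 2`, `b = r/2-2`, `m = r/2+2`, `a = 2r - b`; `n = 2r`: `t = 2`, `b = r/2-1`,
`m = r/2`, `a = 2r-2-b`; `n = 2r-2`: `t = 2`, `b = r/2-2`, `m = r/2`, `a = 2r-4-b`; `n = 2r+1`: `t = 2`, `b = r/2-1`, `m = r/2`,
`a = 2r-1-b`: `C(2r-1,b) + 2 C(2r-1,r-1) + C(2r-1,2r-2-b) = C(2r,r) + C(2r,b+1)`; `n = 2r-1`: `t = 1`, `b = r/2-1`,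
`m = r/2`, `a = 2r-2-b`. Sizes: `2i ≤ 2b < r`; `1 + m + 2i` is odd (`m` is even as `4 ∣ r`); `2 + 2m + 2i ≥ r + 2`. -/
theorem ZH_win (n r : ℕ) (hr6 : 12 ≤ r) (hr : r % 4 = 0) (h1 : 2 * r ≤ n + 2) (h2 : n ≤ 2 * r + 2) :
    ∃ x : Fin n → ℝ, Adm n r x ∧ ZZ n x = Hval n r := by
  obtain ⟨s, rfl⟩ : ∃ s, r = 4 * s := ⟨r / 4, by omega⟩
  have hs : 3 ≤ s := by omega
  have hH : Hval n (4 * s) =
    (if n = 2 * (4 * s) + 2 then 2 * (2 * (4 * s)).choose (4 * s) + 2 * (2 * (4 * s)).choose (4 * s / 2 - 2)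
    else if n = 2 * (4 * s) + 1 then (2 * (4 * s)).choose (4 * s) + (2 * (4 * s)).choose (4 * s / 2)
    else if n = 2 * (4 * s) then 2 * (2 * (4 * s) - 2).choose (4 * s - 1) + 2 * (2 * (4 * s) - 2).choose (4 * s / 2 - 1)
    else if n + 1 = 2 * (4 * s) then (2 * (4 * s) - 2).choose (4 * s - 1) + (2 * (4 * s) - 2).choose (4 * s / 2 - 1)
    else 2 * (2 * (4 * s) - 4).choose (4 * s - 2) + 2 * (2 * (4 * s) - 4).choose (4 * s / 2 - 2)) := by
    unfold Hval
    rw [if_neg (by omega), if_neg (by omega), if_neg (by omega), if_pos (by omega),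
      if_neg (by omega)]
  rw [hH]
  have e0 : 4 * s / 2 = 2 * s := by omega
  rw [e0]
  split_ifs with c1 c2 c3 c4
  · refine zhb_real n (4 * s) (6 * s + 2) (2 * s - 2) (2 * s + 2) 2 _ (by omega) (by omega) (by omega)
      (by omega) (by omega) le_rfl ?_
    rw [Finset.sum_range_succ, Finset.sum_range_succ, Finset.sum_range_one]
    have e1 : 6 * s + 2 + (2 * s - 2) = 2 * (4 * s) := by omega
    have e2 : 2 * s - 2 + 1 * (2 * s + 2) = 4 * s := by omega
    have e3 : 2 * s - 2 + 2 * (2 * s + 2) = 2 * (4 * s) - (2 * s - 2) := by omega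
    rw [e1, e2, e3, Nat.choose_symm (by omega)]
    simp only [zero_mul, add_zero, Nat.choose_zero_right, one_mul, Nat.choose_self,
      Nat.choose_one_right]
    ring
  · refine zhb_real n (4 * s) (6 * s) (2 * s - 1) (2 * s) 2 _ (by omega) (by omega) (by omega)
      (by omega) (by omega) le_rfl ?_
    rw [Finset.sum_range_succ, Finset.sum_range_succ, Finset.sum_range_one]
    have e1 : 6 * s + (2 * s - 1) = 8 * s - 1 := by omega
    have e2 : 2 * s - 1 + 1 * (2 * s) = 4 * s - 1 := by omega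
    have e3 : 2 * s - 1 + 2 * (2 * s) = (8 * s - 1) - 2 * s := by omega
    rw [e1, e2, e3, Nat.choose_symm (by omega)]
    have f1 : (2 * (4 * s)).choose (4 * s) = 2 * (8 * s - 1).choose (4 * s - 1) := by
      obtain ⟨u, hu⟩ : ∃ u, 4 * s = u + 1 := ⟨4 * s - 1, by omega⟩
      have e5 : 8 * s - 1 = 2 * u + 1 := by omega
      rw [e5, hu, Nat.add_sub_cancel, show 2 * (u + 1) = (2 * u + 1) + 1 by ring,
        Nat.choose_succ_succ (2 * u + 1) u, Nat.succ_eq_add_one, Nat.choose_symm_half u]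
      ring
    have f2 : (2 * (4 * s)).choose (2 * s) = (8 * s - 1).choose (2 * s - 1) +
        (8 * s - 1).choose (2 * s) := by
      obtain ⟨u, hu⟩ : ∃ u, 2 * s = u + 1 := ⟨2 * s - 1, by omega⟩
      have e5 : 2 * (4 * s) = (8 * s - 1) + 1 := by omega
      rw [e5, hu, Nat.add_sub_cancel, Nat.choose_succ_succ]
    rw [f1, f2]
    simp only [zero_mul, add_zero, Nat.choose_zero_right, one_mul, Nat.choose_self,
      Nat.choose_one_right]
    ring
  · refine zhb_real n (4 * s) (6 * s - 1) (2 * s - 1) (2 * s) 2 _ (by omega) (by omega) (by omega)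
      (by omega) (by omega) le_rfl ?_
    rw [Finset.sum_range_succ, Finset.sum_range_succ, Finset.sum_range_one]
    have e1 : 6 * s - 1 + (2 * s - 1) = 2 * (4 * s) - 2 := by omega
    have e2 : 2 * s - 1 + 1 * (2 * s) = 4 * s - 1 := by omega
    have e3 : 2 * s - 1 + 2 * (2 * s) = 2 * (4 * s) - 2 - (2 * s - 1) := by omega
    rw [e1, e2, e3, Nat.choose_symm (by omega)]
    simp only [zero_mul, add_zero, Nat.choose_zero_right, one_mul, Nat.choose_self,
      Nat.choose_one_right]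
    ring
  · refine zhb_real n (4 * s) (6 * s - 1) (2 * s - 1) (2 * s) 1 _ (by omega) (by omega) (by omega)
      (by omega) (by omega) (by norm_num) ?_
    rw [Finset.sum_range_succ, Finset.sum_range_one]
    have e1 : 6 * s - 1 + (2 * s - 1) = 2 * (4 * s) - 2 := by omega
    have e2 : 2 * s - 1 + 1 * (2 * s) = 4 * s - 1 := by omega
    rw [e1, e2]
    simp only [zero_mul, add_zero, Nat.choose_zero_right, one_mul, Nat.choose_self]
    ring
  · refine zhb_real n (4 * s) (6 * s - 2) (2 * s - 2) (2 * s) 2 _ (by omega) (by omega) (by omega)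
      (by omega) (by omega) le_rfl ?_
    rw [Finset.sum_range_succ, Finset.sum_range_succ, Finset.sum_range_one]
    have e1 : 6 * s - 2 + (2 * s - 2) = 2 * (4 * s) - 4 := by omega
    have e2 : 2 * s - 2 + 1 * (2 * s) = 4 * s - 2 := by omega
    have e3 : 2 * s - 2 + 2 * (2 * s) = 2 * (4 * s) - 4 - (2 * s - 2) := by omega
    rw [e1, e2, e3, Nat.choose_symm (by omega)]
    simp only [zero_mul, add_zero, Nat.choose_zero_right, one_mul, Nat.choose_self,
      Nat.choose_one_right]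
    ring

end H31Y
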