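import Pool.Agent.Lib.H31Y.ZV
import Pool.Agent.Lib.H31Y.ZHb

/-!
Chunk ZHc: Hval attained, n+3 <= 2r
-/

namespace H31Y

open Finset H31Z

/-- PROOF. `ZV_real` with `b = 0`, `t = 2`, `s = n - r`. `3r < 2n`: `c = 2r-n-1`, `a = 2s-1`, `m = s-1`; sizes `≤ c < r`;
`1 + m + q ≤ 1 + s - 1 + 2r - n - 1 = r - 1`; `2 + 2m = 2s > r`. `3r = 2n`: `c = 2r-n-2`, `a = 2s`, `m = s`; `1 + s + c = r - 1`;
`2 + 2s > r`. -/
theorem ZH_three (n r : ℕ) (hn : 100 ≤ n) (hr : Even r) (hr6 : 6 ≤ r) (h1 : n + 3 ≤ 2 * r)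
    (h2 : 3 * r ≤ 2 * n) : ∃ x : Fin n → ℝ, Adm n r x ∧ ZZ n x = Hval n r := by
  obtain ⟨s, hs⟩ : ∃ s, s = n - r := ⟨_, rfl⟩
  have hsn : n = s + r := by omega
  have hs1 : 1 ≤ s := by omega
  rcases h2.lt_or_eq with h3 | h3
  · obtain ⟨x, hx, hc⟩ := ZV_real n r (2 * r - n - 1) (2 * s - 1) 0 (s - 1) 2 (by omega) (by
      intro j hj i hi _ q hq
      have hi0 : i = 0 := by omega
      have hj' : j = 0 ∨ j = 1 ∨ j = 2 := by omega
      rcases hj' with rfl | rfl | rfl <;> omega)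
    refine ⟨x, hx, ?_⟩
    rw [hc]
    have e : Hval n r = 2 ^ (2 * r - n - 1) * ((2 * (n - r)).choose (n - r) + 2 * (n - r)) := by
      unfold Hval
      rw [if_neg (by omega), if_neg (by omega), if_neg (by omega), if_neg (by omega), if_pos h3]
    rw [e, ← hs]
    congr 1
    obtain ⟨k, rfl⟩ : ∃ k, s = k + 1 := ⟨s - 1, by omega⟩
    have e1 : 2 * (k + 1) - 1 = 2 * k + 1 := by omega
    have e2 : k + 1 - 1 = k := by omega
    rw [e1, e2]
    simp only [Finset.sum_range_succ, Finset.sum_range_zero, Nat.choose_zero_right, zero_mul,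
      Nat.choose_one_right, Nat.choose_self, one_mul, zero_add, add_zero]
    have e3 : (2 * (k + 1)).choose (k + 1) = 2 * (2 * k + 1).choose k := by
      rw [show 2 * (k + 1) = (2 * k + 1) + 1 by ring, Nat.choose_succ_succ,
        ← Nat.choose_symm (show k + 1 ≤ 2 * k + 1 by omega),
        show 2 * k + 1 - (k + 1) = k by omega]
      ring
    have e4 : (2 * k + 1).choose (2 * k) = 2 * k + 1 := by
      rw [Nat.choose_succ_self_right]
    rw [e3, e4]
    ring
  · obtain ⟨x, hx, hc⟩ := ZV_real n r (2 * r - n - 2) (2 * s) 0 s 2 (by omega) (by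
      intro j hj i hi _ q hq
      have hi0 : i = 0 := by omega
      have hj' : j = 0 ∨ j = 1 ∨ j = 2 := by omega
      rcases hj' with rfl | rfl | rfl <;> omega)
    refine ⟨x, hx, ?_⟩
    rw [hc]
    have e : Hval n r = 2 ^ (2 * r - n - 1) * ((2 * (n - r)).choose (n - r) + 1) := by
      unfold Hval
      rw [if_neg (by omega), if_neg (by omega), if_neg (by omega), if_neg (by omega),
        if_neg (by omega), if_pos h3]
    rw [e, ← hs, show 2 * r - n - 1 = (2 * r - n - 2) + 1 by omega, pow_succ, mul_assoc]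
    congr 1
    simp only [Finset.sum_range_succ, Finset.sum_range_zero, Nat.choose_zero_right, zero_mul,
      Nat.choose_one_right, Nat.choose_self, one_mul, zero_add, add_zero]
    ring

end H31Y
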