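import Pool.Agent.Lib.H31Y.UE
import Pool.Agent.Lib.H31Y.ZH
import Pool.Agent.Lib.H31Z.TA
import Pool.Agent.Lib.H31Z.F2
import Pool.Agent.Lib.H31Z.U5

/-!
Chunk UFa: attained for 6 | r
-/

namespace H31Y

open Finset H31Z

/-- an integer vector as a real vector -/
theorem ufa_real (n r v : ℕ) (z : Fin n → ℤ) (hcz : cz z Finset.univ 0 = v)
    (hadm : ∀ S : Finset (Fin n), S.card = r → ∑ i ∈ S, z i ≠ 0) :
    ∃ x : Fin n → ℝ, Adm n r x ∧ ZZ n x = v := by
  refine ⟨fun i => (z i : ℝ), ?_, ?_⟩
  · intro S hS h0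
    apply hadm S hS
    have : ((∑ i ∈ S, z i : ℤ) : ℝ) = 0 := by
      push_cast
      exact h0
    exact_mod_cast this
  · have h1 := F2_ZZ n (fun i => (z i : ℝ))
    have h2 := F2_cast (fun i => (z i : ℝ)) z Finset.univ (fun j _ => rfl) 0
    rw [Int.cast_zero] at h2
    rw [h2] at h1
    unfold pz at h1
    rw [hcz, Finset.card_univ, Fintype.card_fin, mul_div_cancel₀ _ (by positivity)] at h1
    exact_mod_cast h1

/-- positivity of `latp` -/
theorem ufa_latp (p a b : ℕ) : 0 < latp p a b 0 := by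
  unfold latp
  have h : (fun j => a.choose (p * j + 0) * b.choose j) 0 ≤
      ∑ j ∈ Finset.range (b + 1), a.choose (p * j + 0) * b.choose j :=
    Finset.single_le_sum (f := fun j => a.choose (p * j + 0) * b.choose j)
      (fun i _ => Nat.zero_le _) (Finset.mem_range.2 (by omega))
  simp only [mul_zero, add_zero, Nat.choose_zero_right, mul_one] at h
  simp only [add_zero]
  omega

/-- positivity of `Lval` -/
theorem ufa_L (n r : ℕ) (h : r % 4 = 2 ∨ r % 5 ≠ 0) : 0 < Lval n r := by
  unfold Lval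
  split_ifs with h1 h2
  · unfold A3val
    have := ufa_latp 3 (n - 1 - n / 4) (n / 4 - 1)
    omega
  · omega
  · unfold A4val
    have := ufa_latp 4 (n - 3 - (n - uE r) / 5) ((n - uE r) / 5)
    simp only
    split_ifs <;> omega

/-- positivity of `Hval` -/
theorem ufa_H (n r : ℕ) (hn : 100 ≤ n) (h6 : 6 ∣ r) (hr : 1 ≤ r)
    (h : r % 4 = 0) (h3 : 3 * r ≤ 2 * n) : 0 < Hval n r := by
  have hr12 : 12 ≤ r := by omega
  have hc1 : 0 < (2 * r).choose r := Nat.choose_pos (by omega)
  have hc2 : 0 < (2 * r - 2).choose (r - 1) := Nat.choose_pos (by omega)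
  have hc3 : 0 < (2 * r - 4).choose (r - 2) := Nat.choose_pos (by omega)
  have hc4 : 0 < (n - r).choose ((n - r) / 2) := Nat.choose_pos (by omega)
  have hp : ∀ e : ℕ, 0 < 2 ^ e := fun e => by positivity
  unfold Hval
  split_ifs with h4 h5 h7 h8 h9 h10 h11 h12 h13 h14 h15 h16
  · exact Nat.mul_pos (hp _) (by omega)
  · exact Nat.mul_pos (hp _) (by omega)
  · exact Nat.mul_pos (hp _) (by omega)
  · exact Nat.mul_pos (hp _) (by omega)
  · omega
  · omega
  · omega
  · omega
  · omega
  · omega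
  · exact Nat.mul_pos (hp _) (by
      have : 0 < (2 * (n - r)).choose (n - r) := Nat.choose_pos (by omega)
      omega)
  · exact Nat.mul_pos (hp _) (by omega)
  · omega

/-- PROOF. `Lval`: `r % 4 = 2`: `vec3` (`YD3_count`, `YD3_adm`); `r % 5 ≠ 0`: `vec4` (`YE4_count`, `YE4_adm`), otherwise `Lval = 0`.
`Hval`: `ZH_one`, `ZH_win`, `ZH_three` (`6 ∣ r`, so `r ≥ 12` if `4 ∣ r`), `0` in the window with `r % 4 = 2` and for
`3r > 2n`. `Vval`: `U5_lower` if `2k ≤ n`, otherwise `0`. The maximum is positive: in the window with `r % 4 = 2`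
`Lval > 0`; for `3r > 2n` `2k ≤ n`, `Vval > 0`; otherwise `Hval > 0`. -/
theorem UF_lower (n r : ℕ) (hn : 100 ≤ n) (hr : 1 ≤ r) (hrn : r ≤ n) (h6 : 6 ∣ r) :
    ∃ x : Fin n → ℝ, Adm n r x ∧ ZZ n x = max (Vval n r) (max (Hval n r) (Lval n r)) := by
  have hr6 : 6 ≤ r := by omega
  have hev : Even r := Nat.even_iff.2 (by omega)
  have hL : Lval n r = 0 ∨ ∃ x : Fin n → ℝ, Adm n r x ∧ ZZ n x = Lval n r := by
    by_cases h4 : r % 4 = 2
    · right
      refine ufa_real n r _ (vec3 n) ?_ (YD3_adm n r h4)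
      rw [YD3_count n (by omega)]
      unfold Lval
      rw [if_pos h4]
    · by_cases h5 : r % 5 = 0
      · left
        unfold Lval
        rw [if_neg h4, if_pos h5]
      · right
        refine ufa_real n r _ (vec4 n r) ?_ (YE4_adm n r h5)
        rw [YE4_count n r (by omega) h5]
        unfold Lval
        rw [if_neg h4, if_neg h5]
  have hH : Hval n r = 0 ∨ ∃ x : Fin n → ℝ, Adm n r x ∧ ZZ n x = Hval n r := by
    by_cases h1 : 2 * r + 3 ≤ n
    · exact Or.inr (ZH_one n r hn hr6 hev h1)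
    · by_cases h2 : 2 * r ≤ n + 2
      · by_cases h4 : r % 4 = 0
        · exact Or.inr (ZH_win n r (by omega) h4 h2 (by omega))
        · left
          unfold Hval
          rw [if_neg (by omega), if_neg (by omega), if_neg h1, if_pos h2, if_pos h4]
      · by_cases h3 : 3 * r ≤ 2 * n
        · exact Or.inr (ZH_three n r hn hev hr6 (by omega) h3)
        · left
          unfold Hval
          rw [if_neg (by omega), if_neg (by omega), if_neg h1, if_neg h2, if_neg (by omega),
            if_neg (by omega)]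
  have hV : Vval n r = 0 ∨ ∃ x : Fin n → ℝ, Adm n r x ∧ ZZ n x = Vval n r := by
    by_cases h2k : 2 * (n - r + 1) ≤ n
    · exact Or.inr (U5_lower n r hr hrn h2k)
    · left
      unfold Vval
      rw [if_neg h2k]
  have hpos : 0 < max (Vval n r) (max (Hval n r) (Lval n r)) := by
    by_cases h4 : r % 4 = 2 ∨ r % 5 ≠ 0
    · exact lt_of_lt_of_le (ufa_L n r h4) (le_trans (le_max_right _ _) (le_max_right _ _))
    · by_cases h3 : 3 * r ≤ 2 * n
      · exact lt_of_lt_of_le (ufa_H n r hn h6 hr (by omega) h3)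
          (le_trans (le_max_left _ _) (le_max_right _ _))
      · refine lt_of_lt_of_le ?_ (le_max_left _ _)
        unfold Vval
        rw [if_pos (by omega)]
        positivity
  rcases max_choice (Vval n r) (max (Hval n r) (Lval n r)) with h | h
  · rw [h] at hpos ⊢
    rcases hV with h1 | h1
    · omega
    · exact h1
  · rw [h] at hpos ⊢
    rcases max_choice (Hval n r) (Lval n r) with h7 | h7
    · rw [h7] at hpos ⊢
      rcases hH with h1 | h1
      · omega
      · exact h1
    · rw [h7] at hpos ⊢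
      rcases hL with h1 | h1
      · omega
      · exact h1

end H31Y
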