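import Pool.Agent.Lib.H31Y.UE
import Pool.Agent.Lib.H31Y.ZH
import Pool.Agent.Lib.H31Z.TA
import Pool.Agent.Lib.H31Z.U5
import Pool.Agent.Lib.H31Y.UFa

/-!
Chunk UFb: the final theorem
-/

namespace H31Y

open Finset H31Z

open Pool.Agent.Helper14.ZeroSum in
/-- for `2k > n` the second bound is weaker than the first. -/
theorem ufb_upper_weak (n k N : ℕ) (hk : 1 ≤ k) (hkn : n < 2 * k)
    (h : 4 ^ k * N ≤ 2 ^ n * (1 + (2 * k - 1).choose k)) : N ≤ n.choose (n / 2) := by
  have h1 : 1 ≤ (2 * k - 1).choose k := Nat.choose_pos (by omega)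
  have h2 : (4 : ℝ) ^ k * N ≤ 2 ^ n * (lam k * 4 ^ k) := by
    rw [lam_four_pow hk]
    have h3 : ((4 ^ k * N : ℕ) : ℝ) ≤ ((2 ^ n * (1 + (2 * k - 1).choose k) : ℕ) : ℝ) := by
      exact_mod_cast h
    push_cast at h3
    have h4 : (1 : ℝ) ≤ ((2 * k - 1).choose k : ℝ) := by exact_mod_cast h1
    have h5 : (0 : ℝ) < 2 ^ n := by positivity
    nlinarith
  have h6 : (N : ℝ) ≤ 2 ^ n * lam k := by
    have h7 : (0 : ℝ) < 4 ^ k := by positivity
    have h8 : (4 : ℝ) ^ k * N ≤ 4 ^ k * (2 ^ n * lam k) := by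
      calc (4 : ℝ) ^ k * N ≤ 2 ^ n * (lam k * 4 ^ k) := h2
        _ = _ := by ring
    exact le_of_mul_le_mul_left h8 h7
  have h9 : lam k ≤ lam ((n + 1) / 2) := lam_antitone (by omega)
  have h10 : (N : ℝ) ≤ (n.choose (n / 2) : ℝ) := by
    rw [middle_eq_lam]
    exact h6.trans (mul_le_mul_of_nonneg_left h9 (by positivity))
  exact_mod_cast h10

open Pool.Agent.Helper14.ZeroSum in
/-- the vector with `⌊n/2⌋` entries `-1` and `⌈n/2⌉` entries `1` -/
theorem ufb_lower_odd (n r : ℕ) (hr : Odd r) :
    ∃ x : Fin n → ℝ, Adm n r x ∧ ZZ n x = n.choose (n / 2) := by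
  classical
  obtain ⟨N, _, hN⟩ := Finset.exists_subset_card_eq
    (show n / 2 ≤ (Finset.univ : Finset (Fin n)).card by simp; omega)
  have hsum : ∀ B : Finset (Fin n), ∑ i ∈ B, (if i ∈ N then (-1 : ℝ) else 1) =
      ((B \ N).card : ℝ) - ((B ∩ N).card : ℝ) := by
    intro B
    rw [Finset.sum_ite, Finset.sum_const, Finset.sum_const, Finset.filter_mem_eq_inter,
      Finset.filter_notMem_eq_sdiff]
    simp
    ring
  refine ⟨fun i => if i ∈ N then -1 else 1, ?_, ?_⟩
  · intro S hS h0
    rw [hsum, sub_eq_zero] at h0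
    have h1 : (S \ N).card = (S ∩ N).card := by exact_mod_cast h0
    have h2 := Finset.card_sdiff_add_card_inter S N
    obtain ⟨m, hm⟩ := hr
    omega
  · rw [u5_Z_eq_cnt]
    unfold cnt
    have hcard : (Finset.univ.powersetCard (n / 2) : Finset (Finset (Fin n))).card =
        n.choose (n / 2) := by
      rw [Finset.card_powersetCard, Finset.card_univ, Fintype.card_fin]
    rw [← hcard]
    have hkey : ∀ B : Finset (Fin n), (symmDiff B N).card + (B ∩ N).card =
        (B \ N).card + N.card := by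
      intro B
      have h1 : symmDiff B N = (B \ N) ∪ (N \ B) := rfl
      have h2 : Disjoint (B \ N) (N \ B) := by
        rw [Finset.disjoint_left]
        intro i hi hi2
        exact (Finset.mem_sdiff.mp hi).2 (Finset.mem_sdiff.mp hi2).1
      rw [h1, Finset.card_union_of_disjoint h2]
      have h3 := Finset.card_sdiff_add_card_inter N B
      rw [Finset.inter_comm] at h3
      omega
    apply Finset.card_nbij' (fun B => symmDiff B N) (fun B => symmDiff B N)
    · intro B hB
      simp only [Finset.coe_filter, Finset.mem_powerset, Finset.mem_singleton,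
        Set.mem_ofPred_eq, Finset.mem_coe, Finset.mem_powersetCard] at hB ⊢
      rw [hsum] at hB
      have h0 := hB.2
      rw [sub_eq_zero] at h0
      have h1 : (B \ N).card = (B ∩ N).card := by exact_mod_cast h0
      have := hkey B
      refine ⟨Finset.subset_univ _, ?_⟩
      omega
    · intro B hB
      simp only [Finset.coe_filter, Finset.mem_powerset, Finset.mem_singleton,
        Set.mem_ofPred_eq, Finset.mem_coe, Finset.mem_powersetCard] at hB ⊢
      rw [hsum]
      have := hkey (symmDiff B N)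
      rw [symmDiff_symmDiff_cancel_right] at this
      have h1 : (symmDiff B N \ N).card = (symmDiff B N ∩ N).card := by omega
      refine ⟨Finset.subset_univ _, ?_⟩
      rw [h1, sub_self]
    · intro B _
      exact symmDiff_symmDiff_cancel_right _ _
    · intro B _
      exact symmDiff_symmDiff_cancel_right _ _

/-- the closed form -/
def Phi (n r : ℕ) : ℕ :=
  if r % 2 = 1 then max (n.choose (n / 2)) (Vval n r)
  else if r % 3 ≠ 0 then max (Vval n r) (Aval n r)
  else max (Vval n r) (max (Hval n r) (Lval n r))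

/-- PROOF. `r` odd: the theorem `result` of `AllOddWeights` (helper14; port or `U5`: `U5_dich`, `u5_...`); `3 ∤ r`:
`TA_exact (1/10)`; `6 ∣ r`: `UE_upper`, `UF_lower`. -/
theorem UF_main : ∃ n0 : ℕ, ∀ (n r : ℕ), n0 ≤ n → 1 ≤ r → r ≤ n →
    (∀ x : Fin n → ℝ, Adm n r x → ZZ n x ≤ Phi n r) ∧
      ∃ x : Fin n → ℝ, Adm n r x ∧ ZZ n x = Phi n r := by
  obtain ⟨n1, h1⟩ := TA_exact 1 one_pos
  obtain ⟨n2, h2⟩ := UE_upper
  refine ⟨n1 + n2 + 100, fun n r hn hr hrn => ?_⟩
  unfold Phi
  by_cases hodd : r % 2 = 1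
  · rw [if_pos hodd]
    constructor
    · intro x hx
      rcases u5_upper_dichotomy n (n - r + 1) r (by omega) (by omega) x hx with h3 | h3
      · exact h3.trans (le_max_left _ _)
      · by_cases h2k : 2 * (n - r + 1) ≤ n
        · refine le_trans ?_ (le_max_right _ _)
          unfold Vval
          rw [if_pos h2k]
          exact U5_exact n (n - r + 1) _ h2k h3
        · exact (ufb_upper_weak n (n - r + 1) _ (by omega) (by omega) h3).trans (le_max_left _ _)
    · rcases le_or_gt (Vval n r) (n.choose (n / 2)) with h4 | h4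
      · rw [max_eq_left h4]
        exact ufb_lower_odd n r (Nat.odd_iff.2 hodd)
      · rw [max_eq_right h4.le]
        have h2k : 2 * (n - r + 1) ≤ n := by
          by_contra hcon
          unfold Vval at h4
          rw [if_neg hcon] at h4
          omega
        exact U5_lower n r hr hrn h2k
  · rw [if_neg hodd]
    by_cases h3 : r % 3 ≠ 0
    · rw [if_pos h3]
      exact h1 n r (by omega) hr hrn (Nat.even_iff.2 (by omega))
        (Or.inl (fun h4 => h3 (Nat.mod_eq_zero_of_dvd h4)))
    · rw [if_neg h3]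
      have h6 : 6 ∣ r := by omega
      exact ⟨h2 n r (by omega) hr hrn h6, UF_lower n r (by omega) hr hrn h6⟩

end H31Y
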