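import Pool.Agent.Lib.H31Y.Defs

/-!
Chunk WBa: building zero-sum sets
-/

namespace H31Y

open Finset H31Z

/-- PROOF. `S = U ∪ F ∪ (v + j indices of J of value 1) ∪ (j indices of J of value -1) ∪ (q zeros)`;
the zeros are the indices outside `J ∪ T`, `n - |J| - |T| ≥ q` of them. All parts are disjoint
(`|z| ≥ 2` on `F`). -/
theorem WB_build {n : ℕ} (z : Fin n → ℤ) (J T : Finset (Fin n)) (hd : Disjoint J T)
    (hnz : ∀ i, z i ≠ 0 ↔ i ∈ J ∪ T) (U F : Finset (Fin n)) (hU : U ⊆ T) (hF : F ⊆ bigs z J)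
    (v j q : ℕ) (hv : ∑ i ∈ U, z i + ∑ i ∈ F, z i = -(v : ℤ)) (ha : v + j ≤ nv z J 1)
    (hb : j ≤ nv z J (-1)) (hq : q + J.card + T.card ≤ n) :
    ∃ S : Finset (Fin n), ∑ i ∈ S, z i = 0 ∧ S.card = U.card + F.card + v + 2 * j + q := by
  classical
  obtain ⟨P1, hP1, hc1⟩ := Finset.exists_subset_card_eq ha
  obtain ⟨P2, hP2, hc2⟩ := Finset.exists_subset_card_eq hb
  have hJT : (J ∪ T).card = J.card + T.card := Finset.card_union_of_disjoint hd
  have hcc : q ≤ ((J ∪ T)ᶜ).card := by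
    rw [Finset.card_compl, Fintype.card_fin, hJT]
    omega
  obtain ⟨Q, hQ, hc3⟩ := Finset.exists_subset_card_eq hcc
  have m1 : ∀ i ∈ P1, i ∈ J ∧ z i = 1 := fun i hi => Finset.mem_filter.1 (hP1 hi)
  have m2 : ∀ i ∈ P2, i ∈ J ∧ z i = -1 := fun i hi => Finset.mem_filter.1 (hP2 hi)
  have mF : ∀ i ∈ F, i ∈ J ∧ 2 ≤ |z i| := fun i hi => Finset.mem_filter.1 (hF hi)
  have mQ : ∀ i ∈ Q, i ∉ J ∪ T := fun i hi => Finset.mem_compl.1 (hQ hi)
  have mQz : ∀ i ∈ Q, z i = 0 := by
    intro i hi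
    by_contra h0
    exact mQ i hi ((hnz i).1 h0)
  have d12 : Disjoint P1 P2 := by
    rw [Finset.disjoint_left]
    intro i h1 h2
    have e1 := (m1 i h1).2
    have e2 := (m2 i h2).2
    omega
  have dF : Disjoint F (P1 ∪ P2) := by
    rw [Finset.disjoint_left]
    intro i h1 h2
    have e1 := (mF i h1).2
    rcases Finset.mem_union.1 h2 with h2 | h2
    · rw [(m1 i h2).2] at e1
      norm_num at e1
    · rw [(m2 i h2).2] at e1
      norm_num at e1
  have dU : Disjoint U (F ∪ (P1 ∪ P2)) := by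
    rw [Finset.disjoint_left]
    intro i h1 h2
    refine Finset.disjoint_left.1 hd ?_ (hU h1)
    rcases Finset.mem_union.1 h2 with h2 | h2
    · exact (mF i h2).1
    · rcases Finset.mem_union.1 h2 with h2 | h2
      · exact (m1 i h2).1
      · exact (m2 i h2).1
  have dQ : Disjoint (U ∪ (F ∪ (P1 ∪ P2))) Q := by
    rw [Finset.disjoint_left]
    intro i h1 h2
    apply mQ i h2
    rw [Finset.mem_union]
    rcases Finset.mem_union.1 h1 with h1 | h1
    · exact Or.inr (hU h1)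
    · left
      rcases Finset.mem_union.1 h1 with h1 | h1
      · exact (mF i h1).1
      · rcases Finset.mem_union.1 h1 with h1 | h1
        · exact (m1 i h1).1
        · exact (m2 i h1).1
  refine ⟨(U ∪ (F ∪ (P1 ∪ P2))) ∪ Q, ?_, ?_⟩
  · rw [Finset.sum_union dQ, Finset.sum_union dU, Finset.sum_union dF, Finset.sum_union d12,
      Finset.sum_eq_zero mQz, Finset.sum_congr rfl (fun i hi => (m1 i hi).2),
      Finset.sum_congr rfl (fun i hi => (m2 i hi).2), Finset.sum_const, Finset.sum_const, hc1, hc2]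
    simp only [nsmul_eq_mul]
    push_cast
    linarith
  · rw [Finset.card_union_of_disjoint dQ, Finset.card_union_of_disjoint dU,
      Finset.card_union_of_disjoint dF, Finset.card_union_of_disjoint d12, hc1, hc2, hc3]
    omega

end H31Y
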