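import Pool.Agent.Lib.H31Y.Defs
import Pool.Agent.Lib.H31Y.WBa

/-!
Chunk WBb: arithmetic of the working structure
-/

namespace H31Y

open Finset H31Z

/-- arithmetic of the working structure: `J` splits into the ones, the minus ones and `bigs`.
PROOF. All `z i ≠ 0` on `J` (`nz`). -/
theorem WB_sum {n r : ℕ} {z : Fin n → ℤ} {J T : Finset (Fin n)} {a b c e : ℕ}
    (h : WS n r z J T a b c e) :
    J.card = a + b + (bigs z J).card ∧
      ∑ i ∈ J, z i = (a : ℤ) - b + ∑ i ∈ bigs z J, z i ∧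
      4 * ((bigs z J).card : ℝ) ≤ sB z J ∧
      2 * ∑ i ∈ bigs z J, |(z i : ℝ)| ≤ sB z J := by
  classical
  have hnz : ∀ i ∈ J, z i ≠ 0 := fun i hi => (h.nz i).2 (Finset.mem_union_left _ hi)
  have h1 := h.ha
  have h2 := h.hb
  unfold nv at h1 h2
  have e1 : J.filter (fun i => ¬ 2 ≤ |z i|) = J.filter (fun i => z i = 1) ∪ J.filter (fun i => z i = -1) := by
    ext i
    simp only [Finset.mem_filter, Finset.mem_union]
    constructor
    · rintro ⟨hi, h3⟩
      have h4 := hnz i hi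
      have h5 : |z i| ≤ 1 := by omega
      have h6 := abs_le.1 h5
      rcases (by omega : z i = 1 ∨ z i = -1) with h7 | h7
      · exact Or.inl ⟨hi, h7⟩
      · exact Or.inr ⟨hi, h7⟩
    · rintro (⟨hi, h3⟩ | ⟨hi, h3⟩)
      · rw [h3]
        exact ⟨hi, by norm_num⟩
      · rw [h3]
        exact ⟨hi, by norm_num⟩
  have e2 : Disjoint (J.filter (fun i => z i = 1)) (J.filter (fun i => z i = -1)) := by
    rw [Finset.disjoint_left]
    intro i h3 h4
    have h5 := (Finset.mem_filter.1 h3).2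
    have h6 := (Finset.mem_filter.1 h4).2
    omega
  have hb : ∀ f ∈ bigs z J, (2 : ℝ) ≤ |(z f : ℝ)| := by
    intro f hf
    have h3 : 2 ≤ |z f| := (Finset.mem_filter.1 hf).2
    exact_mod_cast h3
  refine ⟨?_, ?_, ?_, ?_⟩
  · have h3 := Finset.card_filter_add_card_filter_not (s := J) (fun i => 2 ≤ |z i|)
    rw [e1, Finset.card_union_of_disjoint e2, h1, h2] at h3
    unfold bigs
    omega
  · have h3 := Finset.sum_filter_add_sum_filter_not J (fun i => 2 ≤ |z i|) z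
    rw [e1, Finset.sum_union e2, Finset.sum_congr rfl (fun i hi => (Finset.mem_filter.1 hi).2),
      Finset.sum_congr rfl (fun i hi => (Finset.mem_filter.1 hi).2)] at h3
    · rw [Finset.sum_const, Finset.sum_const, h1, h2] at h3
      unfold bigs
      rw [← h3]
      simp only [nsmul_eq_mul]
      ring
  · unfold sB
    rw [show ((bigs z J).card : ℝ) = ∑ f ∈ bigs z J, (1 : ℝ) by simp, Finset.mul_sum]
    refine Finset.sum_le_sum fun f hf => ?_
    have h3 := hb f hf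
    rw [← sq_abs (z f : ℝ)]
    nlinarith
  · unfold sB
    rw [Finset.mul_sum]
    refine Finset.sum_le_sum fun f hf => ?_
    have h3 := hb f hf
    rw [← sq_abs (z f : ℝ)]
    nlinarith

/-- PROOF. `WB_sum`: `|∑_{bigs} z| ≤ sB/2 ≤ n/2000`, so `a - b ≥ ∑_J z - n/2000 ≥ n/20 - n/2000`. For `i ∈ T`:
`2 z_i ≤ -∑_J z + n/1000 < 0`. With `m = -z_i`: `2m ≤ ∑_J z + n/1000 ≤ a - b + 3n/2000`; so
`m + b + ∑_{bigs} |z| ≤ (a+b)/2 + 3n/4000 + n/2000 ≤ a`. -/
theorem WB_room {n r : ℕ} {z : Fin n → ℤ} {J T : Finset (Fin n)} {a b c e : ℕ} (hn : 1 ≤ n)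
    (h : WS n r z J T a b c e) :
    b ≤ a ∧ ∀ i ∈ T, ∃ m : ℕ, 1 ≤ m ∧ z i = -(m : ℤ) ∧
      (m : ℤ) + b + ∑ f ∈ bigs z J, |z f| ≤ a := by
  obtain ⟨h1, h2, h3, h4⟩ := WB_sum h
  have hn0 : (1 : ℝ) ≤ n := by exact_mod_cast hn
  have h5 := h.se
  have h6 := h.mean
  have h7 : ∑ j ∈ J, (z j : ℝ) = (a : ℝ) - b + ∑ f ∈ bigs z J, (z f : ℝ) := by
    exact_mod_cast h2
  have h8 : ∑ f ∈ bigs z J, (z f : ℝ) ≤ ∑ f ∈ bigs z J, |(z f : ℝ)| :=
    Finset.sum_le_sum fun f _ => le_abs_self _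
  constructor
  · have h9 : (b : ℝ) ≤ a := by linarith
    exact_mod_cast h9
  · intro i hi
    have h9 := h.hv i hi
    have h10 := (abs_le.1 h9).2
    have h11 : (z i : ℝ) < 0 := by linarith
    have h12 : z i < 0 := by exact_mod_cast h11
    refine ⟨(z i).natAbs, by omega, by omega, ?_⟩
    have h13 : (((z i).natAbs : ℕ) : ℤ) = -z i := by omega
    have h14 := (abs_le.1 h9).1
    have h15 : (-(z i : ℝ)) + b + ∑ f ∈ bigs z J, |(z f : ℝ)| ≤ a := by linarith
    rw [h13]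
    exact_mod_cast h15

end H31Y
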