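import Pool.Agent.Lib.H31Y.WB

/-!
Chunk WCa: constraints C1, C2 (odd), C3
-/

namespace H31Y

open Finset H31Z

/-- (C1). PROOF. `WB_build` with `U = F = ∅`, `v = 0`: sizes `2j + q`, `j ≤ b` (`≤ a`), `q ≤ c`. If `2b + c ≥ r`:
`j = min b (r/2)`, `q = r - 2j ≤ c` (`r` even). -/
theorem WC_one {n r : ℕ} {z : Fin n → ℤ} {J T : Finset (Fin n)} {a b c e : ℕ} (hn : 1 ≤ n)
    (h : WS n r z J T a b c e) (hr : Even r) : 2 * b + c < r := by
  by_contra hcon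
  have hba := (WB_room hn h).1
  have hr2 := Nat.even_iff.1 hr
  have hc := h.hc
  obtain ⟨j, hj⟩ : ∃ j, j = min b (r / 2) := ⟨_, rfl⟩
  obtain ⟨S, hS, hSc⟩ := WB_build z J T h.disj h.nz ∅ ∅ (Finset.empty_subset _)
    (Finset.empty_subset _) 0 j (r - 2 * j) (by simp) (by rw [h.ha]; omega) (by rw [h.hb]; omega)
    (by omega)
  refine h.adm S ?_ hS
  rw [hSc]
  simp only [Finset.card_empty]
  omega

/-- (C2) for odd `m`. PROOF. `WB_build` with `U = {i}`, `F = ∅`, `q = 0`: sizes `1 + m + 2j`, `j ≤ b`;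
`r - 1 - m` is even. -/
theorem WC_odd {n r : ℕ} {z : Fin n → ℤ} {J T : Finset (Fin n)} {a b c e : ℕ} (hn : 1 ≤ n)
    (h : WS n r z J T a b c e) (hr : Even r)
    (i : Fin n) (hi : i ∈ T) (m : ℕ) (hm : z i = -(m : ℤ)) (hodd : Odd m) :
    r ≤ m ∨ m + 3 + 2 * b ≤ r := by
  by_contra hcon
  obtain ⟨m', -, hm', hroom⟩ := (WB_room hn h).2 i hi
  have hmm : m' = m := by omega
  have h0 : 0 ≤ ∑ f ∈ bigs z J, |z f| := Finset.sum_nonneg fun _ _ => abs_nonneg _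
  have hr2 := Nat.even_iff.1 hr
  have hm2 := Nat.odd_iff.1 hodd
  have hc := h.hc
  obtain ⟨j, hj⟩ : ∃ j, j = (r - 1 - m) / 2 := ⟨_, rfl⟩
  obtain ⟨S, hS, hSc⟩ := WB_build z J T h.disj h.nz {i} ∅ (Finset.singleton_subset_iff.2 hi)
    (Finset.empty_subset _) m j 0 (by rw [Finset.sum_singleton, Finset.sum_empty, hm, add_zero])
    (by rw [h.ha]; omega) (by rw [h.hb]; omega) (by omega)
  refine h.adm S ?_ hS
  rw [hSc]
  simp only [Finset.card_empty, Finset.card_singleton]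
  omega

/-- (C3). PROOF. `WB_build` with `U = {i1, i2} = T`, `F = ∅`, `v = m1 + m2`. -/
theorem WC_three {n r : ℕ} {z : Fin n → ℤ} {J T : Finset (Fin n)} {a b c e : ℕ}
    (h : WS n r z J T a b c e) (i1 i2 : Fin n) (hT : T = {i1, i2}) (hne : i1 ≠ i2) (m1 m2 : ℕ)
    (h1 : z i1 = -(m1 : ℤ)) (h2 : z i2 = -(m2 : ℤ)) (j q : ℕ) (hj : j ≤ b) (hq : q ≤ c)
    (hv : m1 + m2 + j ≤ a) : m1 + m2 + 2 + 2 * j + q ≠ r := by
  intro hcon
  have hc := h.hc
  obtain ⟨S, hS, hSc⟩ := WB_build z J T h.disj h.nz {i1, i2} ∅ (by rw [hT])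
    (Finset.empty_subset _) (m1 + m2) j q
    (by rw [Finset.sum_pair hne, Finset.sum_empty, h1, h2]; push_cast; ring)
    (by rw [h.ha]; omega) (by rw [h.hb]; omega) (by omega)
  refine h.adm S ?_ hS
  rw [hSc, Finset.card_pair hne]
  simp only [Finset.card_empty]
  omega

end H31Y
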