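import Pool.Agent.Lib.H31Y.WB
import Pool.Agent.Lib.H31Y.WCa

/-!
Chunk WCb: constraint C2, contiguous windows
-/

namespace H31Y

open Finset H31Z

/-- contiguous windows -/
theorem wcb_win {ι : Type*} [DecidableEq ι] (z : ι → ℤ) (c b m : ℤ) (hb : 0 ≤ 2 * b)
    (F : Finset ι) (hF : ∀ f ∈ F, z f < 0 ∧ -z f ≤ c) (s : ℤ) (h1 : 1 + m ≤ s)
    (h2 : s ≤ 1 + m + ∑ f ∈ F, (1 - z f) + 2 * b + c) :
    ∃ F' ⊆ F, 1 + m + ∑ f ∈ F', (1 - z f) ≤ s ∧ s ≤ 1 + m + ∑ f ∈ F', (1 - z f) + 2 * b + c := by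
  induction F using Finset.induction_on generalizing s with
  | empty =>
    refine ⟨∅, Finset.Subset.refl _, ?_, ?_⟩
    · rw [Finset.sum_empty, add_zero]
      exact h1
    · exact h2
  | insert f F hf ih =>
    rw [Finset.sum_insert hf] at h2
    have hff := hF f (Finset.mem_insert_self f F)
    have hF' : ∀ g ∈ F, z g < 0 ∧ -z g ≤ c := fun g hg => hF g (Finset.mem_insert_of_mem hg)
    rcases le_or_gt s (1 + m + ∑ f ∈ F, (1 - z f) + 2 * b + c) with h3 | h3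
    · obtain ⟨F', hF1, h4, h5⟩ := ih hF' s h1 h3
      exact ⟨F', hF1.trans (Finset.subset_insert _ _), h4, h5⟩
    · refine ⟨insert f F, Finset.Subset.refl _, ?_, ?_⟩
      · rw [Finset.sum_insert hf]
        linarith [hff.2]
      · rw [Finset.sum_insert hf]
        linarith

/-- (C2) and (C2'). PROOF. Let `F0` be the set of the negative elements of `bigs z J`. CLAIM: for every
`F ⊆ F0` and every `s` with `1 + m ≤ s ≤ 1 + m + ∑_F (1 - z) + 2b + c` there is `F' ⊆ F` with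
`1 + m + ∑_{F'} (1-z) ≤ s ≤ 1 + m + ∑_{F'} (1-z) + 2b + c` (induction on `F`: adding `f` moves the upper
end by `1 - z_f ≤ c + 1`, so the windows of `F` and `F ∪ {f}` overlap or are adjacent). If
`m < r < m + 2 + 2b + c + U` then `s = r` is in the range; `WB_build` with `U = {i}`, `F = F'`,
`v = m + ∑_{F'} |z|`, `2j + q = r - (1 + m + ∑_{F'} (1-z)) ∈ [0, 2b+c]` with `j ≤ b`, `q ≤ c` (possible as `c ≥ 1`),
`v + j ≤ a` by `WB_room`; the size is `1 + |F'| + v + 2j + q = r`. -/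
theorem WC_two {n r : ℕ} {z : Fin n → ℤ} {J T : Finset (Fin n)} {a b c e : ℕ} (hn : 1 ≤ n)
    (h : WS n r z J T a b c e) (hc : 1 ≤ c) (hbig : ∀ f ∈ bigs z J, z f < 0 → -z f ≤ (c : ℤ))
    (i : Fin n) (hi : i ∈ T) (m : ℕ) (hm : z i = -(m : ℤ)) :
    (r : ℤ) ≤ m ∨
      (m : ℤ) + 2 + 2 * b + c + ∑ f ∈ (bigs z J).filter (fun f => z f < 0), (1 - z f) ≤ r := by
  by_contra hcon
  push Not at hcon
  obtain ⟨hc1, hc2⟩ := hcon
  have hbig' : ∀ f ∈ (bigs z J).filter (fun f => z f < 0), z f < 0 ∧ -z f ≤ (c : ℤ) := by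
    intro f hf
    rw [Finset.mem_filter] at hf
    exact ⟨hf.2, hbig f hf.1 hf.2⟩
  obtain ⟨F', hF', h3, h4⟩ := wcb_win z c b m (by positivity) _ hbig' (r : ℤ) (by omega) (by omega)
  obtain ⟨m', -, hm', hroom⟩ := (WB_room hn h).2 i hi
  have hmm : m' = m := by omega
  have hF2 : F' ⊆ bigs z J := hF'.trans (Finset.filter_subset _ _)
  have hneg : ∀ f ∈ F', z f < 0 := fun f hf => (Finset.mem_filter.1 (hF' hf)).2
  -- the numbers
  have e1 : ∑ f ∈ F', (1 - z f) = (F'.card : ℤ) + ∑ f ∈ F', |z f| := by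
    rw [Finset.card_eq_sum_ones]
    push_cast
    rw [← Finset.sum_add_distrib]
    refine Finset.sum_congr rfl fun f hf => ?_
    rw [abs_of_neg (hneg f hf)]
    ring
  have e2 : ∑ f ∈ F', |z f| ≤ ∑ f ∈ bigs z J, |z f| :=
    Finset.sum_le_sum_of_subset_of_nonneg hF2 fun _ _ _ => abs_nonneg _
  have e3 : 0 ≤ ∑ f ∈ F', |z f| := Finset.sum_nonneg fun _ _ => abs_nonneg _
  have e4 : ∑ f ∈ F', z f = -∑ f ∈ F', |z f| := by
    rw [← Finset.sum_neg_distrib]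
    refine Finset.sum_congr rfl fun f hf => ?_
    rw [abs_of_neg (hneg f hf)]
    ring
  obtain ⟨w, hw⟩ := Int.eq_ofNat_of_zero_le e3
  rw [hw] at e1 e2 e4
  rw [e1] at h3 h4
  have hcc := h.hc
  obtain ⟨x, hx⟩ : ∃ x : ℕ, x = r - (1 + m + F'.card + w) := ⟨_, rfl⟩
  have hx2 : x ≤ 2 * b + c := by omega
  obtain ⟨j, q, hj, hq, hjq⟩ : ∃ j q : ℕ, j ≤ b ∧ q ≤ c ∧ 2 * j + q = x := by
    rcases Nat.lt_or_ge (x / 2) b with h5 | h5
    · exact ⟨x / 2, x - 2 * (x / 2), h5.le, by omega, by omega⟩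
    · exact ⟨b, x - 2 * b, le_rfl, by omega, by omega⟩
  obtain ⟨S, hS, hSc⟩ := WB_build z J T h.disj h.nz {i} F' (Finset.singleton_subset_iff.2 hi)
    hF2 (m + w) j q (by rw [Finset.sum_singleton, e4, hm]; push_cast; ring)
    (by rw [h.ha]; omega) (by rw [h.hb]; omega) (by omega)
  refine h.adm S ?_ hS
  rw [hSc, Finset.card_singleton]
  omega

end H31Y
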