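import Pool.Agent.Lib.H31Y.WC

/-!
Chunk WDa: facts on est, sums over bigs
-/

namespace H31Y

open Finset H31Z

/-- facts on `est`. PROOF. `unfold est`, `split_ifs`, `omega`. -/
theorem WD_est (n r : ℕ) (hn : 100 ≤ n) (hr : 6 ≤ r) (hr2 : Even r) (hr9 : 9 * r ≤ 8 * n) :
    Even (est n r) ∧ (3 * r < n → est n r ≤ n - r) ∧
      (n ≤ 3 * r → est n r + 1 ≤ n ∧ est n r ≤ 2 * r ∧ est n r ≤ 2 * (n - r) + 2) := by
  have hr3 : r % 2 = 0 := Nat.even_iff.1 hr2
  rw [Nat.even_iff]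
  unfold est
  split_ifs <;> omega

/-- sums over `E = bigs z J`, `k = |E|`: for `|v| ≥ 2`: `(1-1/1000) v² - v ≥ 1.99`,
`|v - 1| + (1-1/1000) v² - 1 ≥ 3.9`. PROOF. `v ≥ 2` or `v ≤ -2`; sum over `E`, and
`∑ |v - 1| = ∑ (v - 1) + 2 ∑_{v < 0} (1 - v)`. -/
theorem WD_sums {n : ℕ} (z : Fin n → ℤ) (J : Finset (Fin n)) :
    (199 / 100) * ((bigs z J).card : ℝ) ≤
      (1 - 1 / 1000) * sB z J - ∑ f ∈ bigs z J, (z f : ℝ) ∧
    (39 / 10) * ((bigs z J).card : ℝ) ≤
      (∑ f ∈ bigs z J, ((z f : ℝ) - 1) +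
        2 * ∑ f ∈ (bigs z J).filter (fun f => z f < 0), (1 - (z f : ℝ))) +
      ((1 - 1 / 1000) * sB z J - (bigs z J).card) ∧
    (399 / 100) * ((bigs z J).card : ℝ) ≤ (1 - 1 / 1000) * sB z J := by
  have hb : ∀ f ∈ bigs z J, (z f : ℝ) ≤ -2 ∨ (2 : ℝ) ≤ z f := by
    intro f hf
    have h1 : 2 ≤ |z f| := (Finset.mem_filter.1 hf).2
    rcases le_abs.1 h1 with h | h
    · right
      exact_mod_cast h
    · left
      have : z f ≤ -2 := by omega
      exact_mod_cast this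
  have hs : sB z J = ∑ f ∈ bigs z J, (z f : ℝ) ^ 2 := rfl
  have hc : ((bigs z J).card : ℝ) = ∑ f ∈ bigs z J, (1 : ℝ) := by simp
  have hf : ∑ f ∈ (bigs z J).filter (fun f => z f < 0), (1 - (z f : ℝ)) =
      ∑ f ∈ bigs z J, if z f < 0 then (1 - (z f : ℝ)) else 0 := Finset.sum_filter _ _
  refine ⟨?_, ?_, ?_⟩
  · rw [hs, hc, Finset.mul_sum, Finset.mul_sum, ← Finset.sum_sub_distrib]
    refine Finset.sum_le_sum fun f hfm => ?_
    rcases hb f hfm with h | h <;> nlinarith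
  · rw [hs, hc, hf, Finset.mul_sum, Finset.mul_sum, Finset.mul_sum, ← Finset.sum_add_distrib,
      ← Finset.sum_sub_distrib, ← Finset.sum_add_distrib]
    refine Finset.sum_le_sum fun f hfm => ?_
    rcases hb f hfm with h | h
    · have h0 : z f < 0 := by
        have : (z f : ℝ) < 0 := by linarith
        exact_mod_cast this
      rw [if_pos h0]
      nlinarith
    · have h0 : ¬ z f < 0 := by
        intro h0
        have : (z f : ℝ) < 0 := by exact_mod_cast h0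
        linarith
      rw [if_neg h0]
      nlinarith
  · rw [hs, hc, Finset.mul_sum, Finset.mul_sum]
    refine Finset.sum_le_sum fun f hfm => ?_
    rcases hb f hfm with h | h <;> nlinarith

end H31Y
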