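import Pool.Agent.Lib.H31Y.WC
import Pool.Agent.Lib.H31Y.WDa

/-!
Chunk WDb: bigs is empty
-/

namespace H31Y

open Finset H31Z

/-- `0.999 D² - D ≥ -0.001` for integers -/
theorem wdb_int (D : ℤ) : -(1 / 1000 : ℝ) ≤ (1 - 1 / 1000) * (D : ℝ) ^ 2 - D := by
  rcases le_or_gt D 0 with h | h
  · have h1 : (D : ℝ) ≤ 0 := by exact_mod_cast h
    nlinarith [sq_nonneg (D : ℝ)]
  · rcases (by omega : D = 1 ∨ 2 ≤ D) with h2 | h2
    · rw [h2]
      norm_num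
    · have h1 : (2 : ℝ) ≤ D := by exact_mod_cast h2
      nlinarith

/-- a lower bound for the square sum with one large entry -/
theorem wdb_one {n : ℕ} (z : Fin n → ℤ) (J : Finset (Fin n)) (c : ℕ) (f : Fin n)
    (hf : f ∈ bigs z J) (hc : (c : ℤ) + 1 ≤ |z f|) :
    ((c : ℝ) + 1) ^ 2 + 4 * ((bigs z J).card - 1) ≤ sB z J := by
  classical
  have h1 : sB z J = (z f : ℝ) ^ 2 + ∑ i ∈ (bigs z J).erase f, (z i : ℝ) ^ 2 := by
    unfold sB
    exact (Finset.add_sum_erase _ (fun i => (z i : ℝ) ^ 2) hf).symm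
  have h2 : ((bigs z J).card : ℝ) - 1 = ∑ i ∈ (bigs z J).erase f, (1 : ℝ) := by
    rw [Finset.sum_const, nsmul_eq_mul, mul_one, Finset.card_erase_of_mem hf,
      Nat.cast_sub (Finset.card_pos.2 ⟨f, hf⟩), Nat.cast_one]
  have h3 : ((c : ℝ) + 1) ^ 2 ≤ (z f : ℝ) ^ 2 := by
    rw [← sq_abs (z f : ℝ)]
    have h4 : (c : ℝ) + 1 ≤ |(z f : ℝ)| := by exact_mod_cast hc
    have h5 : (0 : ℝ) ≤ (c : ℝ) + 1 := by positivity
    nlinarith
  have h6 : 4 * (((bigs z J).card : ℝ) - 1) ≤ ∑ i ∈ (bigs z J).erase f, (z i : ℝ) ^ 2 := by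
    rw [h2, Finset.mul_sum]
    refine Finset.sum_le_sum fun i hi => ?_
    have h7 : 2 ≤ |z i| := (Finset.mem_filter.1 (Finset.mem_of_mem_erase hi)).2
    have h8 : (2 : ℝ) ≤ |(z i : ℝ)| := by exact_mod_cast h7
    rw [← sq_abs (z i : ℝ)]
    nlinarith
  linarith

/-- PROOF. Let `η = 1/1000`, `k = |bigs|`, `S1 = ∑_bigs z`, `t = |T|`, `Σ = ∑_J z = a - b + S1`, `a + b = n - c - t - k`
(`WB_sum`), `D_i = 2 m_i - Σ` (integers), `avg` over `T`. `star`: (★) `a + b + (1-η)(sB + avg D²) ≤ e + 1/2 + 1/500`.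
Suppose `k ≥ 1`.
(1) `3r < n`: `WC_one`: `c ≤ r - 1 - 2b`, so (★) gives `n - t - (r-1) - k + 3.99 k ≤ n - r + 0.502`, so
`2.99 k ≤ t - 1 + 0.502 ≤ 1.502`, contradiction.
(2) `n ≤ 3r`, `c ≤ 1`: (★): `n - c - t - k + 3.99 k ≤ n - 1 + 0.502`: `2.99 ≤ c + t - 0.498 ≤ 2.502`, contradiction.
(3) `c ≥ 2` and `|z_f| ≥ c+1` for some `f`: `sB ≥ (c+1)² + 4(k-1)`, so (★): `n - c - t - k + (1-η)((c+1)² + 4(k-1)) ≤
n - 0.498`; as `(1-η)(c+1)² ≥ c + 5` for `c ≥ 2`..: `≥ n - t - 1 + 5 > n`, contradiction.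
(4) So all `|z_f| ≤ c`, `WC_two` for every `i ∈ T` (`U = ∑_{z<0} (1 - z)`).
 (α) all `m_i ≥ r`: `a + b = 2b + S1 + 2 m_i - D_i ≥ 2b + S1 ... `: precisely `a - b + S1 = Σ = 2m_i - D_i`, so
  `a + b ≥ 2r + 2b - S1 - D_i`; averaging, (★): `2r + 2b + ((1-η) sB - S1) + avg ((1-η) D² - D) ≤ e + 0.502`, and
  `(1-η) D² - D ≥ -η` for integers `D`: `2r + 1.99 k - η ≤ 2r + 0.502`, contradiction.
 (β) all `m_i + 2 + 2b + c + U ≤ r`: `-D_i = Σ - 2m_i ≥ a - b + S1 - 2r + 4 + 4b + 2c + 2U` with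
  `2c = 2(n - t - k - a - b)`: `a + b ≥ 2(n-r) + 4 - 2t - 2k + 2b + S1 + 2U + D_i`; (★):
  `2(n-r) + 4 - 2t + 2b + (S1 - k + 2U) + ((1-η) sB - k) + avg ((1-η) D² + D) ≤ e + 0.502`, `S1 - k = ∑ (z-1)`; by
  `WD_sums`: `2(n-r) + 3.9 k - η ≤ 2(n-r) + 2.502`, contradiction (`t ≤ 2`).
 (mixed, `t = 2`) `m_1 ≥ r`, `m_2 + 2 + c ≤ r`: `D_1 - D_2 = 2(m_1 - m_2) ≥ 2(2+c)`, `avg D² ≥ (2+c)²`, (★):
  `n - c - 2 - k + 3.99 k + (1-η)(2+c)² ≤ n - 0.498`, contradiction. -/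
theorem WD_empty {n r : ℕ} {z : Fin n → ℤ} {J T : Finset (Fin n)} {a b c : ℕ} (hn : 100 ≤ n)
    (hr6 : 6 ≤ r) (hr : Even r) (hr9 : 9 * r ≤ 8 * n)
    (h : WS n r z J T a b c (est n r)) : bigs z J = ∅ := by
  classical
  by_contra hne
  have hk1 : 1 ≤ (bigs z J).card := Finset.card_pos.2 (Finset.nonempty_iff_ne_empty.2 hne)
  obtain ⟨hJ, hsum, -, -⟩ := WB_sum h
  obtain ⟨s1, s2, s3⟩ := WD_sums z J
  have hc1 := WC_one (by omega) h hr
  obtain ⟨-, he1, he2⟩ := WD_est n r hn hr6 hr hr9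
  have hT0 : (0 : ℝ) < T.card := by
    have := h.t1
    exact_mod_cast this
  have hT2 : (T.card : ℝ) ≤ 2 := by exact_mod_cast h.t2
  have hT1 : (1 : ℝ) ≤ T.card := by exact_mod_cast h.t1
  have hk : (1 : ℝ) ≤ (bigs z J).card := by exact_mod_cast hk1
  have hstar := h.star
  obtain ⟨e, he⟩ : ∃ e, e = est n r := ⟨_, rfl⟩
  rw [← he] at he1 he2 hstar
  have hnc : (c : ℝ) + (a + b + (bigs z J).card) + T.card = n := by
    have h1 := h.hc
    rw [hJ] at h1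
    exact_mod_cast h1
  set k : ℝ := ((bigs z J).card : ℝ) with hkdef
  set t : ℝ := (T.card : ℝ) with htdef
  have hD0 : 0 ≤ ∑ i ∈ T, (2 * (z i : ℝ) + ∑ j ∈ J, (z j : ℝ)) ^ 2 :=
    Finset.sum_nonneg fun _ _ => sq_nonneg _
  -- the basic consequence of star
  have hst1 : (a : ℝ) + b + (1 - 1 / 1000) * sB z J ≤ e + 1 / 2 + 1 / 500 := by
    have h1 : t * ((a : ℝ) + b + (1 - 1 / 1000) * sB z J) ≤ t * (e + 1 / 2 + 1 / 500) := by
      nlinarith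
    exact le_of_mul_le_mul_left h1 hT0
  have hcr : (2 * b + c : ℝ) + 1 ≤ r := by exact_mod_cast hc1
  have hb0 : (0 : ℝ) ≤ b := Nat.cast_nonneg b
  have hc0 : (0 : ℝ) ≤ c := Nat.cast_nonneg c
  have hrn : r ≤ n := by omega
  rcases Nat.lt_or_ge (3 * r) n with h3 | h3
  · have h4 := he1 h3
    have h5 : (e : ℝ) ≤ n - r := by
      have h6 : e + r ≤ n := by omega
      have h7 : (e : ℝ) + r ≤ n := by exact_mod_cast h6
      linarith
    linarith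
  obtain ⟨h4, h5, h6⟩ := he2 h3
  have h4' : (e : ℝ) + 1 ≤ n := by exact_mod_cast h4
  have h5' : (e : ℝ) ≤ 2 * r := by exact_mod_cast h5
  have h6' : (e : ℝ) ≤ 2 * (n - r) + 2 := by
    have h7 : e + 2 * r ≤ 2 * n + 2 := by omega
    have h8 : (e : ℝ) + 2 * r ≤ 2 * n + 2 := by exact_mod_cast h7
    linarith
  have hc2 : 2 ≤ c := by
    by_contra hcon
    have h7 : c ≤ 1 := by omega
    have h8 : (c : ℝ) ≤ 1 := by exact_mod_cast h7
    linarith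
  have hc2' : (2 : ℝ) ≤ c := by exact_mod_cast hc2
  have hbig : ∀ f ∈ bigs z J, |z f| ≤ (c : ℤ) := by
    intro f hf
    by_contra hcon
    have h7 := wdb_one z J c f hf (by omega)
    rw [← hkdef] at h7
    nlinarith
  -- the inequality for every heavy index
  have hkey : ∀ i ∈ T, (e : ℝ) + 18 / 10 ≤ (a : ℝ) + b + (1 - 1 / 1000) * sB z J +
      (1 - 1 / 1000) * (2 * (z i : ℝ) + ∑ j ∈ J, (z j : ℝ)) ^ 2 := by
    intro i hi
    obtain ⟨m, -, hm, -⟩ := (WB_room (by omega) h).2 i hi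
    have hw := WC_two (by omega) h (by omega) (fun f hf hf0 => by
      have := hbig f hf
      rw [abs_of_neg hf0] at this
      exact this) i hi m hm
    have hSg : ∑ j ∈ J, (z j : ℝ) = (a : ℝ) - b + ∑ f ∈ bigs z J, (z f : ℝ) := by
      exact_mod_cast hsum
    have hzi : (z i : ℝ) = -(m : ℝ) := by
      rw [hm]
      push_cast
      ring
    obtain ⟨D, hD⟩ : ∃ D : ℤ, D = 2 * (m : ℤ) - ∑ j ∈ J, z j := ⟨_, rfl⟩
    have hDr : (D : ℝ) = 2 * (m : ℝ) - ∑ j ∈ J, (z j : ℝ) := by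
      rw [hD]
      push_cast
      ring
    have hsq : (2 * (z i : ℝ) + ∑ j ∈ J, (z j : ℝ)) ^ 2 = (D : ℝ) ^ 2 := by
      rw [hDr, hzi]
      ring
    rw [hsq]
    set S1 : ℝ := ∑ f ∈ bigs z J, (z f : ℝ) with hS1
    have hs2 : ∑ f ∈ bigs z J, ((z f : ℝ) - 1) = S1 - k := by
      rw [Finset.sum_sub_distrib, Finset.sum_const, nsmul_eq_mul, mul_one]
    rw [hs2] at s2
    rcases hw with hw | hw
    · have hmr : (r : ℝ) ≤ m := by exact_mod_cast hw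
      have h7 := wdb_int D
      rw [hSg] at hDr
      nlinarith
    · set U : ℝ := ∑ f ∈ (bigs z J).filter (fun f => z f < 0), (1 - (z f : ℝ)) with hU
      have hmr : (m : ℝ) + 2 + 2 * b + c + U ≤ r := by
        rw [hU]
        exact_mod_cast hw
      have h7 := wdb_int (-D)
      push_cast at h7
      rw [hSg] at hDr
      nlinarith
  have hfin : t * ((e : ℝ) + 18 / 10) ≤ t * ((a : ℝ) + b + (1 - 1 / 1000) * sB z J) +
      (1 - 1 / 1000) * ∑ i ∈ T, (2 * (z i : ℝ) + ∑ j ∈ J, (z j : ℝ)) ^ 2 := by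
    have h7 := Finset.sum_le_sum hkey
    rw [Finset.sum_const, nsmul_eq_mul, Finset.sum_add_distrib, Finset.sum_const, nsmul_eq_mul,
      ← Finset.mul_sum] at h7
    exact h7
  nlinarith

end H31Y
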