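import Pool.Agent.Lib.H31Y.WB
import Pool.Agent.Lib.H31Z.A9

/-!
Chunk WEa: count for plus and minus ones
-/

namespace H31Y

open Finset H31Z

/-- Vandermonde in the form needed. -/
theorem wea_vdm (a b s : ℕ) :
    ∑ j ∈ range (b + 1), b.choose j * a.choose (s + j) = (a + b).choose (b + s) := by
  rw [Nat.add_choose_eq, Finset.Nat.sum_antidiagonal_eq_sum_range_succ_mk,
    ← Finset.sum_range_reflect (fun j => a.choose j * b.choose (b + s - j)) (b + s + 1)]
  have h1 : ∀ j ∈ range (b + s + 1), a.choose (b + s + 1 - 1 - j) * b.choose (b + s - (b + s + 1 - 1 - j)) =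
      a.choose (b + s - j) * b.choose j := by
    intro j hj
    rw [Finset.mem_range] at hj
    congr 2
    omega
  rw [Finset.sum_congr rfl h1]
  have h2 : ∑ j ∈ range (b + s + 1), a.choose (b + s - j) * b.choose j =
      ∑ j ∈ range (b + 1), a.choose (b + s - j) * b.choose j := by
    symm
    apply Finset.sum_subset
    · intro j hj
      rw [Finset.mem_range] at hj ⊢
      omega
    · intro j _ hj
      rw [Finset.mem_range] at hj
      rw [Nat.choose_eq_zero_of_lt (show b < j by omega), mul_zero]
  rw [h2, ← Finset.sum_range_reflect]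
  refine Finset.sum_congr rfl fun j hj => ?_
  rw [Finset.mem_range] at hj
  have h3 : b + 1 - 1 - j = b - j := by omega
  rw [h3, Nat.choose_symm (show j ≤ b by omega)]
  have h4 : b + s - j = s + (b - j) := by omega
  rw [h4]
  ring

/-- PROOF. The number of subsets of a set with `a` ones and `b` minus ones with sum `s` is `C(a+b, b+s)`:
choose which elements: `B ↦ (B ∩ ones) ∪ (minus ones \ B)` is a bijection to the subsets of size `b + s`. -/
theorem WE_pm {ι : Type*} [DecidableEq ι] (z : ι → ℤ) (J : Finset ι) (a b : ℕ)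
    (ha : nv z J 1 = a) (hb : nv z J (-1) = b) (h : ∀ i ∈ J, z i = 1 ∨ z i = -1) (s : ℕ) :
    cz z J s = (a + b).choose (b + s) := by
  have hJ : J = J.filter (fun i => z i = 1) ∪ J.filter (fun i => z i = -1) := by
    ext i
    rw [Finset.mem_union, Finset.mem_filter, Finset.mem_filter]
    constructor
    · intro hi
      rcases h i hi with h1 | h1
      · exact Or.inl ⟨hi, h1⟩
      · exact Or.inr ⟨hi, h1⟩
    · rintro (⟨hi, -⟩ | ⟨hi, -⟩) <;> exact hi
  have hd : Disjoint (J.filter (fun i => z i = 1)) (J.filter (fun i => z i = -1)) := by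
    rw [Finset.disjoint_left]
    intro i h3 h4
    have h5 := (Finset.mem_filter.1 h3).2
    have h6 := (Finset.mem_filter.1 h4).2
    omega
  unfold nv at ha hb
  rw [hJ, A9_const z _ _ hd (-1) (fun i hi => (Finset.mem_filter.1 hi).2), hb, ← wea_vdm]
  refine Finset.sum_congr rfl fun j _ => ?_
  have e : (s : ℤ) - j * (-1) = ((s + j : ℕ) : ℤ) := by
    push_cast
    ring
  rw [e, A9_ones z _ (fun i hi => (Finset.mem_filter.1 hi).2), ha]

end H31Y
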