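import Pool.Agent.Lib.H31Y.WB
import Pool.Agent.Lib.H31Y.WEa

/-!
Chunk WEb: exact counts
-/

namespace H31Y

open Finset H31Z

/-- the zeros contribute a power of two -/
theorem web_zero {n r : ℕ} {z : Fin n → ℤ} {J T : Finset (Fin n)} {a b c e : ℕ}
    (h : WS n r z J T a b c e) : cz z Finset.univ 0 = 2 ^ c * cz z (J ∪ T) 0 := by
  classical
  have h1 : (Finset.univ : Finset (Fin n)) = (J ∪ T) ∪ (J ∪ T)ᶜ := (Finset.union_compl _).symm
  have h2 : ((J ∪ T)ᶜ).card = c := by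
    rw [Finset.card_compl, Fintype.card_fin, Finset.card_union_of_disjoint h.disj]
    have := h.hc
    omega
  rw [h1, A9_const z (J ∪ T) (J ∪ T)ᶜ disjoint_compl_right 0 (fun i hi => by
    by_contra h0
    exact Finset.mem_compl.1 hi ((h.nz i).1 h0)), h2]
  simp only [mul_zero, sub_zero]
  rw [← Finset.sum_mul, Nat.sum_range_choose]

/-- the values on `J` -/
theorem web_pm {n r : ℕ} {z : Fin n → ℤ} {J T : Finset (Fin n)} {a b c e : ℕ}
    (h : WS n r z J T a b c e) (hE : bigs z J = ∅) (i : Fin n) (hi : i ∈ J) : z i = 1 ∨ z i = -1 := by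
  have h1 : i ∉ bigs z J := by
    rw [hE]
    exact Finset.notMem_empty i
  have h2 : ¬ 2 ≤ |z i| := fun h3 => h1 (Finset.mem_filter.2 ⟨hi, h3⟩)
  have h4 : z i ≠ 0 := (h.nz i).2 (Finset.mem_union_left _ hi)
  have h5 := abs_le.1 (show |z i| ≤ 1 by omega)
  omega

/-- PROOF. The zeros contribute `2^c`; `T = {i}`: subsets with and without `i`, `WE_pm` with `s = 0`, `s = m`. -/
theorem WE_one {n r : ℕ} {z : Fin n → ℤ} {J T : Finset (Fin n)} {a b c e : ℕ}
    (h : WS n r z J T a b c e) (hE : bigs z J = ∅) (i : Fin n) (hT : T = {i}) (m : ℕ)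
    (hm : z i = -(m : ℤ)) :
    cz z Finset.univ 0 = Z1 a b c m := by
  classical
  have hi : i ∉ J := by
    intro h1
    refine Finset.disjoint_left.1 h.disj h1 ?_
    rw [hT]
    exact Finset.mem_singleton_self i
  have hpm := web_pm h hE
  have e0 := WE_pm z J a b h.ha h.hb hpm 0
  have e1 := WE_pm z J a b h.ha h.hb hpm m
  have h2 : J ∪ T = insert i J := by
    rw [hT, Finset.union_comm]
    rfl
  have h3 : (0 : ℤ) - z i = (m : ℤ) := by
    rw [hm]
    ring
  rw [web_zero h, h2, A9_ins z J hi, h3, e1]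
  rw [show ((0 : ℕ) : ℤ) = (0 : ℤ) from rfl] at e0
  rw [e0, add_zero]
  rfl

/-- PROOF. Same with `T = {i1, i2}`, values `0, m1, m2, m1 + m2`. -/
theorem WE_two {n r : ℕ} {z : Fin n → ℤ} {J T : Finset (Fin n)} {a b c e : ℕ}
    (h : WS n r z J T a b c e) (hE : bigs z J = ∅) (i1 i2 : Fin n) (hT : T = {i1, i2})
    (hne : i1 ≠ i2) (m1 m2 : ℕ) (h1 : z i1 = -(m1 : ℤ)) (h2 : z i2 = -(m2 : ℤ)) :
    cz z Finset.univ 0 = Z2 a b c m1 m2 := by
  classical
  have hi2 : i2 ∉ J := by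
    intro h3
    refine Finset.disjoint_left.1 h.disj h3 ?_
    rw [hT]
    simp
  have hi1 : i1 ∉ insert i2 J := by
    rw [Finset.mem_insert, not_or]
    refine ⟨hne, fun h3 => Finset.disjoint_left.1 h.disj h3 ?_⟩
    rw [hT]
    simp
  have hpm := web_pm h hE
  have e0 := WE_pm z J a b h.ha h.hb hpm 0
  have e1 := WE_pm z J a b h.ha h.hb hpm m1
  have e2 := WE_pm z J a b h.ha h.hb hpm m2
  have e3 := WE_pm z J a b h.ha h.hb hpm (m1 + m2)
  have h3 : J ∪ T = insert i1 (insert i2 J) := by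
    rw [hT]
    ext x
    simp only [Finset.mem_union, Finset.mem_insert, Finset.mem_singleton]
    tauto
  have h4 : (0 : ℤ) - z i1 = (m1 : ℤ) := by
    rw [h1]
    ring
  have h5 : (0 : ℤ) - z i2 = (m2 : ℤ) := by
    rw [h2]
    ring
  have h6 : (m1 : ℤ) - z i2 = ((m1 + m2 : ℕ) : ℤ) := by
    rw [h2]
    push_cast
    ring
  rw [web_zero h, h3, A9_ins z _ hi1, A9_ins z J hi2, A9_ins z J hi2, h4, h5, h6, e1, e2, e3]
  rw [show ((0 : ℕ) : ℤ) = (0 : ℤ) from rfl] at e0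
  rw [e0, add_zero]
  unfold Z2
  ring

end H31Y
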