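import Pool.Agent.Lib.H31Y.Defs

/-!
Chunk WF1a: classification, 3r < n, one heavy entry
-/

namespace H31Y

open Finset H31Z

/-- `star` as an inequality of integers -/
theorem wf1a_star1 {n r a b c m : ℕ} (h : Ar1 n r a b c m) :
    1000 * ((a : ℤ) + b) + 999 * (2 * (m : ℤ) - ((a : ℤ) - b)) ^ 2 ≤ 1000 * (est n r : ℤ) + 502 := by
  have h1 := h.star
  have h2 : (1000 * ((a : ℝ) + b) + 999 * (2 * (m : ℝ) - ((a : ℝ) - b)) ^ 2) ≤
      1000 * (est n r : ℝ) + 502 := by linarith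
  exact_mod_cast h2

/-- `star` as an inequality of integers -/
theorem wf1a_star2 {n r a b c m1 m2 : ℕ} (h : Ar2 n r a b c m1 m2) :
    2000 * ((a : ℤ) + b) + 999 * ((2 * (m1 : ℤ) - ((a : ℤ) - b)) ^ 2 +
      (2 * (m2 : ℤ) - ((a : ℤ) - b)) ^ 2) ≤ 2000 * (est n r : ℤ) + 1004 := by
  have h1 := h.star
  have h2 : (2000 * ((a : ℝ) + b) + 999 * ((2 * (m1 : ℝ) - ((a : ℝ) - b)) ^ 2 +
      (2 * (m2 : ℝ) - ((a : ℝ) - b)) ^ 2)) ≤ 2000 * (est n r : ℝ) + 1004 := by linarith
  exact_mod_cast h2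

/-- squares of integers -/
theorem wf1a_sq (D : ℤ) : D = 0 ∨ (D ^ 2 = 1 ∧ (D = 1 ∨ D = -1)) ∨ 4 ≤ D ^ 2 := by
  rcases (by omega : D = 0 ∨ D = 1 ∨ D = -1 ∨ 2 ≤ D ∨ D ≤ -2) with h | h | h | h | h
  · exact Or.inl h
  · right; left
    rw [h]
    exact ⟨by norm_num, Or.inl rfl⟩
  · right; left
    rw [h]
    exact ⟨by norm_num, Or.inr rfl⟩
  · right; right
    nlinarith
  · right; right
    nlinarith

/-- `2 C(2k+1,k+1) = C(2k+2,k+1)` -/
theorem wf1a_cb (k : ℕ) : 2 * (2 * k + 1).choose (k + 1) = (2 * k + 2).choose (k + 1) := by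
  rw [Nat.choose_succ_succ' (2 * k + 1) k, Nat.choose_symm_half]
  ring

/-- PROOF. `a + b = n - 1 - c ≥ n - r + 2b` (`c1`). `n` odd: `est = n - r - 1`, so `star` fails. `n` even:
`est = n - r`, so `a + b ≤ n - r + 0.502`, hence `b = 0`, `c = r - 1`, `a = n - r` and
`0.999 (2m - a)² ≤ 0.502`: `a = 2m`. `Z1 = 2^(r-1) (1 + C(n-r, (n-r)/2)) ≤ Hval`. -/
theorem WF1_one (n r a b c m : ℕ) (hr : Even r) (hr6 : 6 ≤ r) (h3 : 3 * r < n)
    (h : Ar1 n r a b c m) : Z1 a b c m ≤ Hval n r := by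
  have hs := wf1a_star1 h
  have hsum := h.sum
  have hc1 := h.c1
  have hr2 := Nat.even_iff.1 hr
  rcases wf1a_sq (2 * (m : ℤ) - ((a : ℤ) - b)) with hD | hD
  · have hest : est n r = if n % 2 = 0 then n - r else n - r - 1 := by
      unfold est
      rw [if_pos h3]
    have hX := sq_nonneg (2 * (m : ℤ) - ((a : ℤ) - b))
    rcases Nat.mod_two_eq_zero_or_one n with hn | hn
    · rw [hest, if_pos hn] at hs
      have hb : b = 0 := by omega
      have ha : a = n - r := by omega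
      have hc : c = r - 1 := by omega
      have hm : m = (n - r) / 2 := by omega
      subst hb ha hc hm
      unfold Z1 Hval
      rw [if_pos h3, if_neg (by omega), add_zero, Nat.choose_zero_right, zero_add]
      apply Nat.mul_le_mul_left
      omega
    · rw [hest, if_neg (by omega)] at hs
      omega
  · exfalso
    have hX : 1 ≤ (2 * (m : ℤ) - ((a : ℤ) - b)) ^ 2 := by
      rcases hD with hD | hD
      · rw [hD.1]
      · linarith
    have hest : est n r ≤ n - r := by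
      unfold est
      rw [if_pos h3]
      split_ifs <;> omega
    omega

end H31Y
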