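import Pool.Agent.Lib.H31Y.Defs
import Pool.Agent.Lib.H31Y.WF1a

/-!
Chunk WF1b: classification, 3r < n, two heavy entries
-/

namespace H31Y

open Finset H31Z

/-- PROOF. `a + b = n - 2 - c = n - r - 1 + 2b + q`, `q = r - 1 - 2b - c ≥ 0`. Put `D_i = 2m_i - (a - b)` (integers
of the parity of `a - b`). `n` odd (`est = n - r - 1`): `b = q = 0`, `a = n - r - 1` even,
`D_1² + D_2² ≤ 1.005`, so `D_i = 0`: `Z2 = 2^(r-1) (1 + 2 C(a, a/2) + 1) = Hval`. `n` even
(`est = n - r`): `2b + q ≤ 1`, so `b = 0`. `q = 0`: `a = n - r - 1` odd, `D_1² + D_2² ≤ 3.01`, so `D_i = ±1`,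
`m_i ∈ {h-1, h}`, `2h = n - r`, `a = 2h - 1`; `2 C(2h-1, h) = C(2h, h)`, `C(2h-1, h-1) = C(2h-1, h)`,
`C(2h-1, 2h-2) = 2h-1`, `C(2h-1,2h-1) = 1`, `C(2h-1, 2h) = 0`: `Z2 ≤ 2^(r-1) (C(2h,h) + 2h) = Hval`. `q = 1`:
`a = n - r`, `c = r - 2`, `D_i = 0`: `Z2 = 2^(r-2) (2 + 2 C(2h,h)) ≤ Hval`. -/
theorem WF1_two (n r a b c m1 m2 : ℕ) (hr : Even r) (hr6 : 6 ≤ r) (h3 : 3 * r < n)
    (h : Ar2 n r a b c m1 m2) : Z2 a b c m1 m2 ≤ Hval n r := by
  have hs := wf1a_star2 h
  have hsum := h.sum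
  have hc1 := h.c1
  have hr2 := Nat.even_iff.1 hr
  have hest : est n r = if n % 2 = 0 then n - r else n - r - 1 := by
    unfold est
    rw [if_pos h3]
  have hX1 := sq_nonneg (2 * (m1 : ℤ) - ((a : ℤ) - b))
  have hX2 := sq_nonneg (2 * (m2 : ℤ) - ((a : ℤ) - b))
  have q1 := wf1a_sq (2 * (m1 : ℤ) - ((a : ℤ) - b))
  have q2 := wf1a_sq (2 * (m2 : ℤ) - ((a : ℤ) - b))
  obtain ⟨D1, hD1⟩ : ∃ D, D = 2 * (m1 : ℤ) - ((a : ℤ) - b) := ⟨_, rfl⟩
  obtain ⟨D2, hD2⟩ : ∃ D, D = 2 * (m2 : ℤ) - ((a : ℤ) - b) := ⟨_, rfl⟩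
  rw [← hD1] at hs hX1 q1
  rw [← hD2] at hs hX2 q2
  obtain ⟨X1, hx1⟩ : ∃ X, X = D1 ^ 2 := ⟨_, rfl⟩
  obtain ⟨X2, hx2⟩ : ∃ X, X = D2 ^ 2 := ⟨_, rfl⟩
  rw [← hx1] at hs hX1 q1
  rw [← hx2] at hs hX2 q2
  rcases Nat.mod_two_eq_zero_or_one n with hn | hn
  · -- n even
    rw [hest, if_pos hn] at hs
    have hb : b = 0 := by omega
    subst hb
    have hq : c = r - 1 ∨ c = r - 2 := by omega
    obtain ⟨k, hk⟩ : ∃ k, n - r = 2 * k + 2 := ⟨(n - r - 2) / 2, by omega⟩
    have hH : Hval n r = 2 ^ (r - 1) * ((2 * k + 2).choose (k + 1) + (2 * k + 2)) := by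
      unfold Hval
      rw [if_pos h3, if_neg (by omega), hk]
      congr 3
      omega
    have hcb := wf1a_cb k
    have hsymm : (2 * k + 1).choose (k + 1) = (2 * k + 1).choose k := Nat.choose_symm_half k
    rw [hH]
    rcases hq with hq | hq
    · -- c = r - 1, a = 2k+1
      have ha : a = 2 * k + 1 := by omega
      subst ha hq
      have hm1 : m1 = k ∨ m1 = k + 1 := by omega
      have hm2 : m2 = k ∨ m2 = k + 1 := by omega
      unfold Z2
      apply Nat.mul_le_mul_left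
      simp only [add_zero, zero_add, Nat.choose_zero_right]
      have hc2 : (2 * k + 1).choose (k + k) = 2 * k + 1 := by
        have e : (2 * k + 1).choose (k + k) = (2 * k + 1).choose 1 := by
          rw [← Nat.choose_symm (show 1 ≤ 2 * k + 1 by omega)]
          congr 1
          omega
        rw [e, Nat.choose_one_right]
      have hc3 : (2 * k + 1).choose (k + (k + 1)) = 1 := by
        rw [show k + (k + 1) = 2 * k + 1 by omega, Nat.choose_self]
      have hc3' : (2 * k + 1).choose (k + 1 + k) = 1 := by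
        rw [show k + 1 + k = 2 * k + 1 by omega, Nat.choose_self]
      have hc4 : (2 * k + 1).choose (k + 1 + (k + 1)) = 0 := by
        rw [Nat.choose_eq_zero_of_lt]
        omega
      rcases hm1 with e1 | e1 <;> rcases hm2 with e2 | e2 <;> subst e1 <;> subst e2
      · omega
      · omega
      · omega
      · omega
    · -- c = r - 2, a = 2k + 2
      have ha : a = 2 * k + 2 := by omega
      subst ha hq
      have hm1 : m1 = k + 1 := by omega
      have hm2 : m2 = k + 1 := by omega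
      subst hm1 hm2
      unfold Z2
      simp only [add_zero, zero_add, Nat.choose_zero_right]
      rw [show k + 1 + (k + 1) = 2 * k + 2 by omega, Nat.choose_self,
        show r - 1 = (r - 2) + 1 by omega, pow_succ, Nat.mul_assoc]
      apply Nat.mul_le_mul_left
      omega
  · -- n odd
    rw [hest, if_neg (by omega)] at hs
    have hb : b = 0 := by omega
    subst hb
    have hc : c = r - 1 := by omega
    obtain ⟨k, hk⟩ : ∃ k, n - r - 1 = 2 * k := ⟨(n - r - 1) / 2, by omega⟩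
    have ha : a = 2 * k := by omega
    subst ha hc
    have hm1 : m1 = k := by omega
    have hm2 : m2 = k := by omega
    subst hm1 hm2
    unfold Z2 Hval
    rw [if_pos h3, if_pos hn, hk]
    apply Nat.mul_le_mul_left
    simp only [add_zero, zero_add, Nat.choose_zero_right]
    rw [show 2 * m2 / 2 = m2 by omega, show m2 + m2 = 2 * m2 by omega, Nat.choose_self]
    omega

end H31Y
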