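import Pool.Agent.Lib.H31Y.Defs
import Pool.Agent.Lib.H31Y.WF1a

/-!
Chunk WF2a: classification, 2r+3 <= n <= 3r, one heavy entry
-/

namespace H31Y

open Finset H31Z

/-- `999 D² - 1000 D` for integers -/
theorem wf2a_D (D : ℤ) : (D = 0 ∧ D ^ 2 = 0) ∨ (D = 1 ∧ D ^ 2 = 1) ∨ 1996 ≤ 999 * D ^ 2 - 1000 * D := by
  rcases (by omega : D = 0 ∨ D = 1 ∨ 2 ≤ D ∨ D ≤ -1) with h | h | h | h
  · left
    rw [h]
    exact ⟨rfl, by norm_num⟩
  · right; left
    rw [h]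
    exact ⟨rfl, by norm_num⟩
  · right; right
    nlinarith
  · right; right
    nlinarith

/-- PROOF. `D = 2m - (a - b)`. `star`: `a + b ≤ 2r + 0.502`, so `c = n - 1 - (a+b) ≥ 2`. `c2`:
(α) `m = r + μ`: `a + b = 2m + 2b - D`, so `star` reads `2μ + 2b + (0.999 D² - D) ≤ 0.502`; for an integer `D`
`0.999 D² - D ≥ -0.001`, and `≥ 1.9` unless `D ∈ {0, 1}`: so `μ = b = 0`, `D ∈ {0,1}`, `a = 2r - D`, `m = r`,
`c = n - 1 - 2r + D`. `D = 0`: `Z1 = 2^(n-2r-1) (1 + C(2r,r))`. `D = 1`: `Z1 = 2^(n-2r) (1 + C(2r-1,r))`, and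
`n = 3r` is impossible (`c = r`, against `c1`). As `2 C(2r-1,r) = C(2r,r)`: `Z1 ≤ Hval`.
(β) `m + 2 + 2b + c ≤ r`: `a + b ≥ 2(n-r) + 2 + 2b + D`, `star`: `2(n-r) + 2 + (0.999 D² + D) ≤ 2r + 0.502`,
impossible as `n - r ≥ r + 3`. -/
theorem WF2_one (n r a b c m : ℕ) (hr : Even r) (hr6 : 6 ≤ r) (h3 : n ≤ 3 * r) (h2 : 2 * r + 3 ≤ n)
    (h : Ar1 n r a b c m) : Z1 a b c m ≤ Hval n r := by
  have hs := wf1a_star1 h
  have hsum := h.sum
  have hc1 := h.c1
  have hr2 := Nat.even_iff.1 hr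
  have hest : est n r = 2 * r := by
    unfold est
    rw [if_neg (by omega), if_pos h2]
  rw [hest] at hs
  obtain ⟨D, hD⟩ : ∃ D, D = 2 * (m : ℤ) - ((a : ℤ) - b) := ⟨_, rfl⟩
  rw [← hD] at hs
  have q1 := wf2a_D D
  have q2 := wf2a_D (-D)
  have hX := sq_nonneg D
  rw [neg_sq] at q2
  obtain ⟨X, hx⟩ : ∃ X, X = D ^ 2 := ⟨_, rfl⟩
  rw [← hx] at hs hX q1 q2
  have hc2 := h.c2 (by omega)
  have hmr : r ≤ m := by
    rcases hc2 with h4 | h4
    · exact h4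
    · exfalso
      omega
  have hb : b = 0 := by omega
  have hm : m = r := by omega
  have hDD : D = 0 ∨ D = 1 := by omega
  subst hb hm
  obtain ⟨k, rfl⟩ : ∃ k, m = k + 1 := ⟨m - 1, by omega⟩
  have hcb := wf1a_cb k
  have hH : (n = 3 * (k + 1) → Hval n (k + 1) = 2 ^ k * (1 + (2 * k + 2).choose (k + 1))) ∧
      (n ≠ 3 * (k + 1) → Hval n (k + 1) = 2 ^ (n - 2 * (k + 1)) * (1 + (2 * k + 1).choose (k + 1))) := by
    constructor
    · intro h5
      unfold Hval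
      rw [if_neg (by omega), if_pos h5]
      rfl
    · intro h5
      unfold Hval
      rw [if_neg (by omega), if_neg h5, if_pos h2]
      rfl
  unfold Z1
  simp only [add_zero, zero_add, Nat.choose_zero_right]
  rcases hDD with h5 | h5
  · have ha : a = 2 * k + 2 := by omega
    have hc : c = n - 2 * (k + 1) - 1 := by omega
    subst ha hc
    by_cases h6 : n = 3 * (k + 1)
    · rw [hH.1 h6]
      have h7 : n - 2 * (k + 1) - 1 = k := by omega
      rw [h7]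
    · rw [hH.2 h6, show n - 2 * (k + 1) = (n - 2 * (k + 1) - 1) + 1 by omega, pow_succ,
        Nat.mul_assoc]
      apply Nat.mul_le_mul_left
      omega
  · have ha : a = 2 * k + 1 := by omega
    have hc : c = n - 2 * (k + 1) := by omega
    subst ha hc
    have h6 : n ≠ 3 * (k + 1) := by omega
    rw [hH.2 h6]

end H31Y
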