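import Pool.Agent.Lib.H31Y.Defs
import Pool.Agent.Lib.H31Y.WF2a

/-!
Chunk WF2b: classification, 2r+3 <= n <= 3r, two heavy entries
-/

namespace H31Y

open Finset H31Z

/-- PROOF. `D_i = 2m_i - (a - b)`; `c = n - 2 - (a+b) ≥ 1` as `a + b ≤ 2r + 0.502`.
(α, α) `m_i = r + μ_i`: `2(a+b) = ∑ (2m_i - D_i) + 4b`; `star`: `2μ_1 + 2μ_2 + 4b + ∑ (0.999 D_i² - D_i) ≤ 1.004`, so
`μ_i = b = 0`, `D_i ∈ {0,1}` (`D² - D` is `0` or at least `2`), `D_1 = D_2 = D = 2r - a`. `D = 0`: `a = 2r`,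
`c = n - 2r - 2`: `Z2 = 2^(n-2r-2) (2 + 2 C(2r,r))`. `D = 1`: `a = 2r-1`, `c = n - 2r - 1`:
`Z2 = 2^(n-2r-1) (1 + 2 C(2r-1,r) + 0)`. Both are `2^(n-2r-1) (1 + C(2r,r)) ≤ Hval`.
(β, β) `a + b ≥ 2(n-r) + 2b + D_i`: `2(n-r) + avg (0.999 D² + D) ≤ 2r + 0.502`, impossible.
(α, β): `D_1 - D_2 = 2(m_1 - m_2) ≥ 2(2 + c)`, so `avg D² ≥ (2+c)²`, `n - c - 2 + 0.999 (2+c)² ≤ 2r + 0.502 < n`,
impossible for `c ≥ 1`. -/
theorem WF2_two (n r a b c m1 m2 : ℕ) (hr : Even r) (hr6 : 6 ≤ r) (h3 : n ≤ 3 * r)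
    (h2 : 2 * r + 3 ≤ n) (h : Ar2 n r a b c m1 m2) : Z2 a b c m1 m2 ≤ Hval n r := by
  have hs := wf1a_star2 h
  have hsum := h.sum
  have hc1 := h.c1
  have hr2 := Nat.even_iff.1 hr
  have hest : est n r = 2 * r := by
    unfold est
    rw [if_neg (by omega), if_pos h2]
  rw [hest] at hs
  obtain ⟨D1, hD1⟩ : ∃ D, D = 2 * (m1 : ℤ) - ((a : ℤ) - b) := ⟨_, rfl⟩
  obtain ⟨D2, hD2⟩ : ∃ D, D = 2 * (m2 : ℤ) - ((a : ℤ) - b) := ⟨_, rfl⟩
  rw [← hD1, ← hD2] at hs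
  have p1 := wf2a_D D1
  have p2 := wf2a_D (-D1)
  have p3 := wf2a_D D2
  have p4 := wf2a_D (-D2)
  have hX1 := sq_nonneg D1
  have hX2 := sq_nonneg D2
  rw [neg_sq] at p2 p4
  obtain ⟨X1, hx1⟩ : ∃ X, X = D1 ^ 2 := ⟨_, rfl⟩
  obtain ⟨X2, hx2⟩ : ∃ X, X = D2 ^ 2 := ⟨_, rfl⟩
  rw [← hx1] at hs hX1 p1 p2
  rw [← hx2] at hs hX2 p3 p4
  have hc2a := h.c2a (by omega)
  have hc2b := h.c2b (by omega)
  -- lower bounds for each index
  have k1 : r ≤ m1 ∧ 2000 * (m1 : ℤ) + 2000 * b - 1 ≤ 1000 * ((a : ℤ) + b) + 999 * X1 ∨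
      2000 * (n : ℤ) - 2000 * r - 1 ≤ 1000 * ((a : ℤ) + b) + 999 * X1 := by
    rcases hc2a with h4 | h4
    · left
      exact ⟨h4, by omega⟩
    · right
      omega
  have k2 : r ≤ m2 ∧ 2000 * (m2 : ℤ) + 2000 * b - 1 ≤ 1000 * ((a : ℤ) + b) + 999 * X2 ∨
      2000 * (n : ℤ) - 2000 * r - 1 ≤ 1000 * ((a : ℤ) + b) + 999 * X2 := by
    rcases hc2b with h4 | h4
    · left
      exact ⟨h4, by omega⟩
    · right
      omega
  have hm1r : r ≤ m1 := by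
    rcases k1 with h4 | h4
    · exact h4.1
    · exfalso
      rcases k2 with h5 | h5 <;> omega
  have hm2r : r ≤ m2 := by
    rcases k2 with h4 | h4
    · exact h4.1
    · exfalso
      rcases k1 with h5 | h5 <;> omega
  have hb : b = 0 := by omega
  have hm1 : m1 = r := by omega
  have hm2 : m2 = r := by omega
  subst hb hm1 hm2
  have hDD : D1 = 0 ∨ D1 = 1 := by omega
  obtain ⟨k, rfl⟩ : ∃ k, m2 = k + 1 := ⟨m2 - 1, by omega⟩
  have hcb := wf1a_cb k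
  have hH : 2 ^ (n - 2 * (k + 1) - 1) * (1 + (2 * k + 2).choose (k + 1)) ≤ Hval n (k + 1) := by
    by_cases h5 : n = 3 * (k + 1)
    · unfold Hval
      rw [if_neg (by omega), if_pos h5, show n - 2 * (k + 1) - 1 = k + 1 - 1 by omega]
      exact le_rfl
    · unfold Hval
      rw [if_neg (by omega), if_neg h5, if_pos h2,
        show n - 2 * (k + 1) = (n - 2 * (k + 1) - 1) + 1 by omega, pow_succ, Nat.mul_assoc]
      apply Nat.mul_le_mul_left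
      have h6 : (2 * (k + 1) - 1).choose (k + 1) = (2 * k + 1).choose (k + 1) := rfl
      rw [h6]
      omega
  refine le_trans ?_ hH
  unfold Z2
  simp only [add_zero, zero_add, Nat.choose_zero_right]
  rcases hDD with h5 | h5
  · have ha : a = 2 * k + 2 := by omega
    have hc : c = n - 2 * (k + 1) - 2 := by omega
    subst ha hc
    rw [show n - 2 * (k + 1) - 1 = (n - 2 * (k + 1) - 2) + 1 by omega, pow_succ, Nat.mul_assoc,
      show k + 1 + (k + 1) = 2 * k + 2 by omega, Nat.choose_self]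
    apply Nat.mul_le_mul_left
    omega
  · have ha : a = 2 * k + 1 := by omega
    have hc : c = n - 2 * (k + 1) - 1 := by omega
    subst ha hc
    rw [Nat.choose_eq_zero_of_lt (show 2 * k + 1 < k + 1 + (k + 1) by omega)]
    apply Nat.mul_le_mul_left
    omega

end H31Y
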