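import Pool.Agent.Lib.H31Y.Defs
import Pool.Agent.Lib.H31Y.WF1a
import Pool.Agent.Lib.H31Y.WF2a

/-!
Chunk WF3a: classification, n+3 <= 2r, 3r <= 2n, one heavy entry
-/

namespace H31Y

open Finset H31Z

/-- PROOF. `s = n - r`, `e = 2s ≤ n - 3`. `a + b ≤ 2s + 0.502`, so `c = n - 1 - (a+b) ≥ 2`. (α) `m ≥ r`:
`star`: `2r + 2b + (0.999D² - D) ≤ 2s + 0.502`, impossible (`s ≤ r - 3`). (β): `a + b ≥ 2s + 2 + 2b + D`, `star`:
`2s + 2 + (0.999 D² + D) ≤ 2s + 0.502`, impossible. -/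
theorem WF3_one (n r a b c m : ℕ) (hr : Even r) (hr6 : 6 ≤ r) (h2 : n + 3 ≤ 2 * r)
    (h3 : 3 * r ≤ 2 * n) (h : Ar1 n r a b c m) : False := by
  have hs := wf1a_star1 h
  have hsum := h.sum
  have hc1 := h.c1
  have hr2 := Nat.even_iff.1 hr
  have hest : est n r = 2 * (n - r) := by
    unfold est
    rw [if_neg (by omega), if_neg (by omega), if_neg (by omega), if_pos h3]
  rw [hest] at hs
  obtain ⟨D, hD⟩ : ∃ D, D = 2 * (m : ℤ) - ((a : ℤ) - b) := ⟨_, rfl⟩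
  rw [← hD] at hs
  have q1 := wf2a_D D
  have q2 := wf2a_D (-D)
  have hX := sq_nonneg D
  rw [neg_sq] at q2
  obtain ⟨X, hx⟩ : ∃ X, X = D ^ 2 := ⟨_, rfl⟩
  rw [← hx] at hs hX q1 q2
  have hc2 := h.c2 (by omega)
  rcases hc2 with h4 | h4
  · omega
  · omega

end H31Y
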