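import Pool.Agent.Lib.H31Y.Defs
import Pool.Agent.Lib.H31Y.WF3a

/-!
Chunk WF3b: classification, n+3 <= 2r, 3r <= 2n, two heavy entries
-/

namespace H31Y

open Finset H31Z

/-- PROOF. `s = n - r`, `c = n - 2 - (a+b) ≥ 1`. (α,α) and (α,β) impossible as before (`e + 0.502 ≤ n - 2.4`). (β,β):
`m_i = r - 2 - 2b - c - ν_i`, `c = n - 2 - (a+b)`: `a + b = 2s + 2b + 2ν_i + D_i`; `star`:
`4b + 2ν_1 + 2ν_2 + ∑ (0.999 D_i² + D_i) ≤ 1.004`: `b = ν_i = 0`, `D_i ∈ {0,-1}`, `D_i = a - 2s = D`.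
`D = 0`: `a = 2s`, `m_i = s`, `c = 2r - n - 2`: `Z2 = 2^(2r-n-2) (2 + 2 C(2s,s))`. `D = -1`: `a = 2s - 1`,
`m_i = s - 1`, `c = 2r - n - 1`: `Z2 = 2^(2r-n-1) (1 + 2 C(2s-1,s-1) + C(2s-1,2s-2)) =
2^(2r-n-1) (C(2s,s) + 2s)`; if `3r = 2n`, then `m_1 + m_2 + 2 = 2s = r`, against `c3` with `j = q = 0`. -/
theorem WF3_two (n r a b c m1 m2 : ℕ) (hr : Even r) (hr6 : 6 ≤ r) (h2 : n + 3 ≤ 2 * r)
    (h3 : 3 * r ≤ 2 * n) (h : Ar2 n r a b c m1 m2) : Z2 a b c m1 m2 ≤ Hval n r := by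
  have hs := wf1a_star2 h
  have hsum := h.sum
  have hc1 := h.c1
  have hr2 := Nat.even_iff.1 hr
  have hest : est n r = 2 * (n - r) := by
    unfold est
    rw [if_neg (by omega), if_neg (by omega), if_neg (by omega), if_pos h3]
  rw [hest] at hs
  obtain ⟨D1, hD1⟩ : ∃ D, D = 2 * (m1 : ℤ) - ((a : ℤ) - b) := ⟨_, rfl⟩
  obtain ⟨D2, hD2⟩ : ∃ D, D = 2 * (m2 : ℤ) - ((a : ℤ) - b) := ⟨_, rfl⟩
  rw [← hD1, ← hD2] at hs
  have p1 := wf2a_D D1
  have p2 := wf2a_D (-D1)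
  have p3 := wf2a_D D2
  have p4 := wf2a_D (-D2)
  have hX1 := sq_nonneg D1
  have hX2 := sq_nonneg D2
  rw [neg_sq] at p2 p4
  obtain ⟨X1, hx1⟩ : ∃ X, X = D1 ^ 2 := ⟨_, rfl⟩
  obtain ⟨X2, hx2⟩ : ∃ X, X = D2 ^ 2 := ⟨_, rfl⟩
  rw [← hx1] at hs hX1 p1 p2
  rw [← hx2] at hs hX2 p3 p4
  have hc2a := h.c2a (by omega)
  have hc2b := h.c2b (by omega)
  have k1 : 2000 * (r : ℤ) - 1 ≤ 1000 * ((a : ℤ) + b) + 999 * X1 ∨
      (m1 + 2 + 2 * b + c ≤ r ∧ 2000 * (n : ℤ) - 2000 * r - 1 ≤ 1000 * ((a : ℤ) + b) + 999 * X1) := by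
    rcases hc2a with h4 | h4
    · left
      omega
    · right
      exact ⟨h4, by omega⟩
  have k2 : 2000 * (r : ℤ) - 1 ≤ 1000 * ((a : ℤ) + b) + 999 * X2 ∨
      (m2 + 2 + 2 * b + c ≤ r ∧ 2000 * (n : ℤ) - 2000 * r - 1 ≤ 1000 * ((a : ℤ) + b) + 999 * X2) := by
    rcases hc2b with h4 | h4
    · left
      omega
    · right
      exact ⟨h4, by omega⟩
  have hm1r : m1 + 2 + 2 * b + c ≤ r := by
    rcases k1 with h4 | h4
    · exfalso
      rcases k2 with h5 | h5 <;> omega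
    · exact h4.1
  have hm2r : m2 + 2 + 2 * b + c ≤ r := by
    rcases k2 with h4 | h4
    · exfalso
      rcases k1 with h5 | h5 <;> omega
    · exact h4.1
  have hb : b = 0 := by omega
  subst hb
  have hm1 : m1 = r - 2 - c := by omega
  have hm2 : m2 = r - 2 - c := by omega
  have hDD : D1 = 0 ∨ D1 = -1 := by omega
  obtain ⟨k, hk⟩ : ∃ k, n - r = k + 1 := ⟨n - r - 1, by omega⟩
  have hcb := wf1a_cb k
  have hk2 : 2 * (n - r) = 2 * k + 2 := by omega
  have hH : (3 * r < 2 * n → Hval n r = 2 ^ (2 * r - n - 1) * ((2 * k + 2).choose (k + 1) + (2 * k + 2))) ∧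
      (3 * r = 2 * n → Hval n r = 2 ^ (2 * r - n - 1) * ((2 * k + 2).choose (k + 1) + 1)) := by
    constructor
    · intro h5
      unfold Hval
      rw [if_neg (by omega), if_neg (by omega), if_neg (by omega), if_neg (by omega), if_pos h5, hk2, hk]
    · intro h5
      unfold Hval
      rw [if_neg (by omega), if_neg (by omega), if_neg (by omega), if_neg (by omega),
        if_neg (by omega), if_pos h5, hk2, hk]
  rcases hDD with h5 | h5
  · have ha : a = 2 * k + 2 := by omega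
    have hc : c = 2 * r - n - 2 := by omega
    have e1 : m1 = k + 1 := by omega
    have e2 : m2 = k + 1 := by omega
    have hge : 2 ^ (2 * r - n - 1) * ((2 * k + 2).choose (k + 1) + 1) ≤ Hval n r := by
      by_cases h6 : 3 * r < 2 * n
      · rw [hH.1 h6]
        apply Nat.mul_le_mul_left
        omega
      · rw [hH.2 (by omega)]
    refine le_trans ?_ hge
    unfold Z2
    rw [ha, e1, e2, hc]
    simp only [add_zero, zero_add, Nat.choose_zero_right]
    rw [show k + 1 + (k + 1) = 2 * k + 2 by omega, Nat.choose_self,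
      show 2 * r - n - 1 = (2 * r - n - 2) + 1 by omega, pow_succ, Nat.mul_assoc]
    apply Nat.mul_le_mul_left
    omega
  · have ha : a = 2 * k + 1 := by omega
    have hc : c = 2 * r - n - 1 := by omega
    have e1 : m1 = k := by omega
    have e2 : m2 = k := by omega
    have h6 : 3 * r < 2 * n := by
      by_contra h7
      have h8 := h.c3 0 0 (by omega) (by omega) (by omega)
      omega
    rw [hH.1 h6]
    unfold Z2
    rw [ha, e1, e2, hc]
    simp only [add_zero, zero_add, Nat.choose_zero_right]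
    have hc2 : (2 * k + 1).choose (k + k) = 2 * k + 1 := by
      have e : (2 * k + 1).choose (k + k) = (2 * k + 1).choose 1 := by
        rw [← Nat.choose_symm (show 1 ≤ 2 * k + 1 by omega)]
        congr 1
        omega
      rw [e, Nat.choose_one_right]
    have hsymm : (2 * k + 1).choose (k + 1) = (2 * k + 1).choose k := Nat.choose_symm_half k
    rw [hc2]
    apply Nat.mul_le_mul_left
    omega

end H31Y
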