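import Pool.Agent.Lib.H31Y.Defs
import Pool.Agent.Lib.H31Y.WF2a

/-!
Chunk WF4a: classification, 3r > 2n, no crossing with one heavy entry
-/

namespace H31Y

open Finset H31Z

/-- PROOF. `s = n - r ≥ 11`, `r ≥ 2s + 2`. `a + b ≤ 2s + 2.502`, `c = n - 1 - (a+b) ≥ 1`. (α) `m ≥ r`: `star`:
`2r + (0.999D² - D) ≤ 2s + 2.502`, impossible. (β): `m + 2 + 2b + c ≤ r`, so `1 + m + 2b < r`: no crossing. -/
theorem WF4_one (n r a b c m : ℕ) (hn : 100 ≤ n) (hr : Even r) (h3 : 2 * n < 3 * r)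
    (h9 : 9 * r ≤ 8 * n) (h : Ar1 n r a b c m) : 1 + m + 2 * b < r := by
  have hs := wf1a_star1 h
  have hsum := h.sum
  have hc1 := h.c1
  have hr2 := Nat.even_iff.1 hr
  have hest : est n r = 2 * (n - r) + 2 := by
    unfold est
    rw [if_neg (by omega), if_neg (by omega), if_neg (by omega), if_neg (by omega)]
  rw [hest] at hs
  obtain ⟨D, hD⟩ : ∃ D, D = 2 * (m : ℤ) - ((a : ℤ) - b) := ⟨_, rfl⟩
  rw [← hD] at hs
  have q1 := wf2a_D D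
  have hX := sq_nonneg D
  obtain ⟨X, hx⟩ : ∃ X, X = D ^ 2 := ⟨_, rfl⟩
  rw [← hx] at hs hX q1
  have hc2 := h.c2 (by omega)
  rcases hc2 with h4 | h4
  · exfalso
    omega
  · omega

/-- no crossing with at most one heavy entry. PROOF. As in `WF4_two`, (β,β): `m_i + 2 + 2b + c ≤ r`. -/
theorem WF4_single (n r a b c m1 m2 : ℕ) (hn : 100 ≤ n) (hr : Even r) (h3 : 2 * n < 3 * r)
    (h9 : 9 * r ≤ 8 * n) (h : Ar2 n r a b c m1 m2) :
    1 + m1 + 2 * b < r ∧ 1 + m2 + 2 * b < r := by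
  have hs := wf1a_star2 h
  have hsum := h.sum
  have hc1 := h.c1
  have hr2 := Nat.even_iff.1 hr
  have hest : est n r = 2 * (n - r) + 2 := by
    unfold est
    rw [if_neg (by omega), if_neg (by omega), if_neg (by omega), if_neg (by omega)]
  rw [hest] at hs
  obtain ⟨D1, hD1⟩ : ∃ D, D = 2 * (m1 : ℤ) - ((a : ℤ) - b) := ⟨_, rfl⟩
  obtain ⟨D2, hD2⟩ : ∃ D, D = 2 * (m2 : ℤ) - ((a : ℤ) - b) := ⟨_, rfl⟩
  rw [← hD1, ← hD2] at hs
  have p1 := wf2a_D D1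
  have p2 := wf2a_D (-D1)
  have p3 := wf2a_D D2
  have p4 := wf2a_D (-D2)
  have hX1 := sq_nonneg D1
  have hX2 := sq_nonneg D2
  rw [neg_sq] at p2 p4
  obtain ⟨X1, hx1⟩ : ∃ X, X = D1 ^ 2 := ⟨_, rfl⟩
  obtain ⟨X2, hx2⟩ : ∃ X, X = D2 ^ 2 := ⟨_, rfl⟩
  rw [← hx1] at hs hX1 p1 p2
  rw [← hx2] at hs hX2 p3 p4
  have hc2a := h.c2a (by omega)
  have hc2b := h.c2b (by omega)
  have k1 : 2000 * (r : ℤ) - 1 ≤ 1000 * ((a : ℤ) + b) + 999 * X1 ∨
      (m1 + 2 + 2 * b + c ≤ r ∧ 2000 * (n : ℤ) - 2000 * r - 1 ≤ 1000 * ((a : ℤ) + b) + 999 * X1) := by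
    rcases hc2a with h4 | h4
    · left
      omega
    · right
      exact ⟨h4, by omega⟩
  have k2 : 2000 * (r : ℤ) - 1 ≤ 1000 * ((a : ℤ) + b) + 999 * X2 ∨
      (m2 + 2 + 2 * b + c ≤ r ∧ 2000 * (n : ℤ) - 2000 * r - 1 ≤ 1000 * ((a : ℤ) + b) + 999 * X2) := by
    rcases hc2b with h4 | h4
    · left
      omega
    · right
      exact ⟨h4, by omega⟩
  have hm1r : m1 + 2 + 2 * b + c ≤ r := by
    rcases k1 with h4 | h4
    · exfalso
      rcases k2 with h5 | h5 <;> omega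
    · exact h4.1
  have hm2r : m2 + 2 + 2 * b + c ≤ r := by
    rcases k2 with h4 | h4
    · exfalso
      rcases k1 with h5 | h5 <;> omega
    · exact h4.1
  omega

end H31Y
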