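import Pool.Agent.Lib.H31Y.Defs
import Pool.Agent.Lib.H31Y.WF4a

/-!
Chunk WF4b: classification, 3r > 2n, two heavy entries
-/

namespace H31Y

open Finset H31Z

/-- PROOF. `s = n - r ≥ 11`, `r ≥ 2s + 2`, `a + b ≤ 2s + 2.502`, `c = n - 2 - (a+b) ≥ 1`. (α,α), (α,β) impossible.
(β,β): `m_i = r - 2 - 2b - c - ν_i`; with `K = a - b - 2s` (an integer) `D_i = K - 2ν_i`, `m_i = s + K - ν_i`. By the
hypothesis `hX` (crossing) and `c3` (all the sizes `m_1+m_2+2+2j'+q` with `j' ≤ j`, `q ≤ 1` are `≠ r`):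
`m_1 + m_2 + 2 > r ≥ 2s + 2`, so `2K - ν_1 - ν_2 ≥ r - 2s - 1 ≥ 1`, `K ≥ 1`. `star`:
`4b + 2K + 0.999 (D_1² + D_2²) ≤ 5.004`. `K = 1`: `D_i = ±1`, `b = 0`, `ν_i ∈ {0,1}`, `ν_1 + ν_2 ≤ 1`, `r = 2s+2`;
`ν = (0,0)`: `m_1 + m_2 = 2s+2 > a = 2s+1`, against `hX`; `ν = (0,1)`: `c = s - 1`,
`Z2 = 2^(s-1) (2 + C(2s+2,s+1)) = Vval` (`k = s+1`, `n = 3s+2`). `K = 2`: `D_i = 0`, `b = 0`, `ν_i = 1`, `r = 2s+2`,
`a = 2s+2`, `c = s-2`: `Z2 = 2^(s-1) (1 + C(2s+2,s+1)) ≤ Vval`. `K ≥ 3` impossible. -/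
theorem WF4_two (n r a b c m1 m2 : ℕ) (hn : 100 ≤ n) (hr : Even r) (h3 : 2 * n < 3 * r)
    (h9 : 9 * r ≤ 8 * n) (h : Ar2 n r a b c m1 m2)
    (hX : ∃ j ≤ b, m1 + m2 + j ≤ a ∧ r < m1 + m2 + 2 + 2 * j) :
    Z2 a b c m1 m2 ≤ Vval n r := by
  have hs := wf1a_star2 h
  have hsum := h.sum
  have hc1 := h.c1
  have hr2 := Nat.even_iff.1 hr
  have hest : est n r = 2 * (n - r) + 2 := by
    unfold est
    rw [if_neg (by omega), if_neg (by omega), if_neg (by omega), if_neg (by omega)]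
  rw [hest] at hs
  obtain ⟨D1, hD1⟩ : ∃ D, D = 2 * (m1 : ℤ) - ((a : ℤ) - b) := ⟨_, rfl⟩
  obtain ⟨D2, hD2⟩ : ∃ D, D = 2 * (m2 : ℤ) - ((a : ℤ) - b) := ⟨_, rfl⟩
  rw [← hD1, ← hD2] at hs
  have p1 := wf2a_D D1
  have p2 := wf2a_D (-D1)
  have p3 := wf2a_D D2
  have p4 := wf2a_D (-D2)
  have p5 := wf1a_sq D1
  have p6 := wf1a_sq D2
  have hX1 := sq_nonneg D1
  have hX2 := sq_nonneg D2
  rw [neg_sq] at p2 p4
  obtain ⟨X1, hx1⟩ : ∃ X, X = D1 ^ 2 := ⟨_, rfl⟩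
  obtain ⟨X2, hx2⟩ : ∃ X, X = D2 ^ 2 := ⟨_, rfl⟩
  rw [← hx1] at hs hX1 p1 p2 p5
  rw [← hx2] at hs hX2 p3 p4 p6
  have hc2a := h.c2a (by omega)
  have hc2b := h.c2b (by omega)
  have k1 : 2000 * (r : ℤ) - 1 ≤ 1000 * ((a : ℤ) + b) + 999 * X1 ∨
      (m1 + 2 + 2 * b + c ≤ r ∧ 2000 * (n : ℤ) - 2000 * r - 1 ≤ 1000 * ((a : ℤ) + b) + 999 * X1) := by
    rcases hc2a with h4 | h4
    · left
      omega
    · right
      exact ⟨h4, by omega⟩
  have k2 : 2000 * (r : ℤ) - 1 ≤ 1000 * ((a : ℤ) + b) + 999 * X2 ∨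
      (m2 + 2 + 2 * b + c ≤ r ∧ 2000 * (n : ℤ) - 2000 * r - 1 ≤ 1000 * ((a : ℤ) + b) + 999 * X2) := by
    rcases hc2b with h4 | h4
    · left
      omega
    · right
      exact ⟨h4, by omega⟩
  have hm1r : m1 + 2 + 2 * b + c ≤ r := by
    rcases k1 with h4 | h4
    · exfalso
      rcases k2 with h5 | h5 <;> omega
    · exact h4.1
  have hm2r : m2 + 2 + 2 * b + c ≤ r := by
    rcases k2 with h4 | h4
    · exfalso
      rcases k1 with h5 | h5 <;> omega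
    · exact h4.1
  clear k1 k2 hc2a hc2b p1 p2 p3 p4
  -- crossing
  have hcross : r < m1 + m2 + 2 := by
    by_contra h5
    obtain ⟨j, hj, hj1, hj2⟩ := hX
    have h6 := h.c3 ((r - (m1 + m2 + 2)) / 2) ((r - (m1 + m2 + 2)) % 2) (by omega) (by omega)
      (by omega)
    omega
  have hroom : m1 + m2 ≤ a := by
    obtain ⟨j, hj, hj1, hj2⟩ := hX
    omega
  obtain ⟨s, hsd⟩ : ∃ s, s = n - r := ⟨_, rfl⟩
  have hns : n = r + s := by omega
  rw [← hsd] at hs hest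
  have hrs : 2 * s + 2 ≤ r := by omega
  obtain ⟨K, hK⟩ : ∃ K : ℤ, K = (a : ℤ) - b - 2 * s := ⟨_, rfl⟩
  obtain ⟨ν1, hν1⟩ : ∃ x, m1 + 2 + 2 * b + c + x = r := ⟨r - (m1 + 2 + 2 * b + c), by omega⟩
  obtain ⟨ν2, hν2⟩ : ∃ x, m2 + 2 + 2 * b + c + x = r := ⟨r - (m2 + 2 + 2 * b + c), by omega⟩
  have hm1 : (m1 : ℤ) = s + K - ν1 := by omega
  have hm2 : (m2 : ℤ) = s + K - ν2 := by omega
  have hK1 : 1 ≤ K := by omega
  have hstar : 4000 * (b : ℤ) + 2000 * K + 999 * (X1 + X2) ≤ 5004 := by omega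
  have hD1' : D1 = K - 2 * ν1 := by omega
  have hD2' : D2 = K - 2 * ν2 := by omega
  have hb : b = 0 := by omega
  have hKK : K = 1 ∨ K = 2 := by omega
  have hcase : (r = 2 * s + 2 ∧ a = 2 * s + 1 ∧ m1 = s + 1 ∧ m2 = s) ∨
      (r = 2 * s + 2 ∧ a = 2 * s + 1 ∧ m1 = s ∧ m2 = s + 1) ∨
      (r = 2 * s + 2 ∧ a = 2 * s + 2 ∧ m1 = s + 1 ∧ m2 = s + 1) := by
    rcases hKK with h5 | h5
    · have e1 : ν1 = 0 ∨ ν1 = 1 := by omega
      have e2 : ν2 = 0 ∨ ν2 = 1 := by omega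
      rcases e1 with e1 | e1
      · rcases e2 with e2 | e2
        · exfalso
          omega
        · left
          omega
      · rcases e2 with e2 | e2
        · right; left
          omega
        · exfalso
          omega
    · right; right
      have e1 : ν1 = 1 := by omega
      have e2 : ν2 = 1 := by omega
      omega
  have hcb := wf1a_cb s
  have hsymm : (2 * s + 1).choose (s + 1) = (2 * s + 1).choose s := Nat.choose_symm_half s
  have hV : r = 2 * s + 2 → Vval n r = 2 ^ s * (1 + (2 * s + 1).choose (s + 1)) := by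
    intro h5
    unfold Vval
    rw [if_pos (by omega), show n - 2 * (n - r + 1) = s by omega,
      show 2 * (n - r + 1) - 1 = 2 * s + 1 by omega, show n - r + 1 = s + 1 by omega]
  have hs1 : 11 ≤ s := by omega
  have hps : (2 : ℕ) ^ s = 2 ^ (s - 1) * 2 := by
    rw [← pow_succ]
    congr 1
    omega
  subst hb
  rcases hcase with ⟨e1, e2, e3, e4⟩ | ⟨e1, e2, e3, e4⟩ | ⟨e1, e2, e3, e4⟩
  · rw [hV e1]
    have hc : c = s - 1 := by omega
    unfold Z2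
    rw [e2, e3, e4, hc]
    simp only [add_zero, zero_add, Nat.choose_zero_right]
    rw [show s + 1 + s = 2 * s + 1 by omega, Nat.choose_self, hps, Nat.mul_assoc]
    apply Nat.mul_le_mul_left
    omega
  · rw [hV e1]
    have hc : c = s - 1 := by omega
    unfold Z2
    rw [e2, e3, e4, hc]
    simp only [add_zero, zero_add, Nat.choose_zero_right]
    rw [show s + (s + 1) = 2 * s + 1 by omega, Nat.choose_self, hps, Nat.mul_assoc]
    apply Nat.mul_le_mul_left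
    omega
  · rw [hV e1]
    have hc : c = s - 2 := by omega
    unfold Z2
    rw [e2, e3, e4, hc]
    simp only [add_zero, zero_add, Nat.choose_zero_right]
    have hps2 : (2 : ℕ) ^ s = 2 ^ (s - 2) * 4 := by
      rw [show (4 : ℕ) = 2 ^ 2 by norm_num, ← pow_add]
      congr 1
      omega
    rw [show s + 1 + (s + 1) = 2 * s + 2 by omega, Nat.choose_self, hps2, Nat.mul_assoc]
    apply Nat.mul_le_mul_left
    omega

end H31Y
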