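import Pool.Agent.Lib.H31Y.Defs
import Pool.Agent.Lib.H31Y.WF2a

/-!
Chunk WF5a: classification, window, c >= 1, one heavy entry
-/

namespace H31Y

open Finset H31Z

/-- `C(N,j) ≥ N` for `1 ≤ j ≤ N - 1` -/
theorem wf5a_ch (N : ℕ) : ∀ j, 1 ≤ j → j + 1 ≤ N → N ≤ N.choose j := by
  induction N with
  | zero => intro j h1 h2; omega
  | succ N ih =>
    intro j h1 h2
    obtain ⟨i, rfl⟩ : ∃ i, j = i + 1 := ⟨j - 1, by omega⟩
    rcases Nat.eq_zero_or_pos i with h3 | h3
    · rw [h3]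
      simp
    · rcases Nat.lt_or_ge (i + 1) N with h4 | h4
      · have h5 := ih (i + 1) (by omega) (by omega)
        have h6 : 0 < N.choose i := Nat.choose_pos (by omega)
        rw [Nat.choose_succ_succ']
        omega
      · have h5 : i + 1 = N := by omega
        rw [h5, Nat.choose_succ_self_right]

/-- the values of `Hval` in the window -/
theorem wf5a_H (r : ℕ) (hr4 : r % 4 = 0) (hr6 : 12 ≤ r) :
    Hval (2 * r + 2) r = 2 * (2 * r).choose r + 2 * (2 * r).choose (r / 2 - 2) ∧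
    Hval (2 * r + 1) r = (2 * r).choose r + (2 * r).choose (r / 2) ∧
    Hval (2 * r) r = 2 * (2 * r - 2).choose (r - 1) + 2 * (2 * r - 2).choose (r / 2 - 1) ∧
    Hval (2 * r - 1) r = (2 * r - 2).choose (r - 1) + (2 * r - 2).choose (r / 2 - 1) ∧
    Hval (2 * r - 2) r = 2 * (2 * r - 4).choose (r - 2) + 2 * (2 * r - 4).choose (r / 2 - 2) := by
  refine ⟨?_, ?_, ?_, ?_, ?_⟩
  · unfold Hval
    rw [if_neg (by omega), if_neg (by omega), if_neg (by omega), if_pos (by omega),
      if_neg (by omega), if_pos (by omega)]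
  · unfold Hval
    rw [if_neg (by omega), if_neg (by omega), if_neg (by omega), if_pos (by omega),
      if_neg (by omega), if_neg (by omega), if_pos (by omega)]
  · unfold Hval
    rw [if_neg (by omega), if_neg (by omega), if_neg (by omega), if_pos (by omega),
      if_neg (by omega), if_neg (by omega), if_neg (by omega), if_pos (by omega)]
  · unfold Hval
    rw [if_neg (by omega), if_neg (by omega), if_neg (by omega), if_pos (by omega),
      if_neg (by omega), if_neg (by omega), if_neg (by omega), if_neg (by omega),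
      if_pos (by omega)]
  · unfold Hval
    rw [if_neg (by omega), if_neg (by omega), if_neg (by omega), if_pos (by omega),
      if_neg (by omega), if_neg (by omega), if_neg (by omega), if_neg (by omega),
      if_neg (by omega)]

/-- `est` in the window -/
theorem wf5a_est (n r : ℕ) (hr6 : 12 ≤ r) (h1 : 2 * r ≤ n + 2) (h2 : n ≤ 2 * r + 2) :
    (n % 2 = 0 → est n r = n - 2) ∧ (n % 2 = 1 → est n r = n - 1) := by
  constructor
  · intro h3
    unfold est
    rw [if_neg (by omega), if_neg (by omega), if_pos h1, if_pos h3]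
  · intro h3
    unfold est
    rw [if_neg (by omega), if_neg (by omega), if_pos h1, if_neg (by omega)]

/-- PROOF. Let `d = n - 2r ∈ [-2, 2]`; `est = 2r` for `d = 1, 2`, `est = 2r - 2` for `d = 0, -1`, `est = 2r - 4` for
`d = -2` (and `est ≤ n - 1`). `D = 2m - (a - b)`. (β): `a + b ≥ 2(n-r) + 2 + 2b + D = n + d + 2 + 2b + D`; `star`:
`n + d + 2 + (0.999D² + D) ≤ n - 0.498`, so `d ≤ -2.4`, impossible. (α) `m = r + μ`: `star`:
`2r + 2μ + 2b + (0.999D²-D) ≤ est + 0.502`: `est = 2r`, `μ = b = 0`, `D ∈ {0,1}`, `a = 2r - D`, `c = d - 1 + D ≥ 1`: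
`d = 2`: `Z1 = 2 (1 + C(2r,r))` (`D = 0`) or `4 (1 + C(2r-1,r)) = 4 + 2 C(2r,r)` (`D = 1`), at most
`Hval = 2 C(2r,r) + 2 C(2r, r/2-2)`; `d = 1`: `D = 1`, `c = 1`: `Z1 = 2 + C(2r,r) ≤ C(2r,r) + C(2r,r/2) = Hval`. -/
theorem WF5_one (n r a b c m : ℕ) (hr4 : r % 4 = 0) (hr6 : 12 ≤ r) (h1 : 2 * r ≤ n + 2)
    (h2 : n ≤ 2 * r + 2) (hc : 1 ≤ c) (h : Ar1 n r a b c m) : Z1 a b c m ≤ Hval n r := by
  have hs := wf1a_star1 h
  have hsum := h.sum
  have hc1 := h.c1
  obtain ⟨he0, he1⟩ := wf5a_est n r hr6 h1 h2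
  obtain ⟨H2, H1, -, -, -⟩ := wf5a_H r hr4 hr6
  obtain ⟨e, hest⟩ : ∃ e, e = est n r := ⟨_, rfl⟩
  rw [← hest] at hs he0 he1
  obtain ⟨D, hD⟩ : ∃ D, D = 2 * (m : ℤ) - ((a : ℤ) - b) := ⟨_, rfl⟩
  rw [← hD] at hs
  have q1 := wf2a_D D
  have q2 := wf2a_D (-D)
  have hX := sq_nonneg D
  rw [neg_sq] at q2
  obtain ⟨X, hx⟩ : ∃ X, X = D ^ 2 := ⟨_, rfl⟩
  rw [← hx] at hs hX q1 q2
  have hc2 := h.c2 hc
  have hmr : r ≤ m := by
    rcases hc2 with h4 | h4
    · exact h4
    · exfalso
      omega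
  have hb : b = 0 := by omega
  have hm : m = r := by omega
  have hDD : D = 0 ∨ D = 1 := by omega
  subst hb hm
  have hn : n = 2 * m + 2 ∨ n = 2 * m + 1 := by omega
  obtain ⟨k, rfl⟩ : ∃ k, m = k + 1 := ⟨m - 1, by omega⟩
  have hcb := wf1a_cb k
  unfold Z1
  simp only [add_zero, zero_add, Nat.choose_zero_right]
  rcases hn with hn | hn
  · have hch := wf5a_ch (2 * (k + 1)) ((k + 1) / 2 - 2) (by omega) (by omega)
    subst hn
    rw [H2]
    rcases hDD with h5 | h5
    · have ha : a = 2 * (k + 1) := by omega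
      have hc' : c = 1 := by omega
      rw [ha, hc', pow_one]
      omega
    · have ha : a = 2 * k + 1 := by omega
      have hc' : c = 2 := by omega
      rw [ha, hc', show 2 * (k + 1) = 2 * k + 2 by ring]
      rw [show 2 * (k + 1) = 2 * k + 2 by ring] at hch
      omega
  · have hch := wf5a_ch (2 * (k + 1)) ((k + 1) / 2) (by omega) (by omega)
    subst hn
    rw [H1]
    rcases hDD with h5 | h5
    · exfalso
      omega
    · have ha : a = 2 * k + 1 := by omega
      have hc' : c = 1 := by omega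
      rw [ha, hc', show 2 * (k + 1) = 2 * k + 2 by ring]
      rw [show 2 * (k + 1) = 2 * k + 2 by ring] at hch
      omega

end H31Y
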