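import Pool.Agent.Lib.H31Y.Defs
import Pool.Agent.Lib.H31Y.WF5a

/-!
Chunk WF5b: classification, window, c >= 1, two heavy entries
-/

namespace H31Y

open Finset H31Z

/-- PROOF. As in `WF5_one`. (α,β): `avg D² ≥ (2+c)²`, `n - 2 - c + 0.999 (2+c)² ≤ n - 0.498`, impossible. (α,α):
`est = 2r`, `b = μ_i = 0`, `D_1 = D_2 = D ∈ {0,1}`, `a = 2r - D`, `c = d - 2 + D ≥ 1`: `d = 2`, `D = 1`, `c = 1`:
`Z2 = 2 (1 + 2 C(2r-1,r) + 0) = 2 + 2 C(2r,r) ≤ Hval`. (β,β): `s = n - r`, `m_i = s + K - ν_i` as in `WF3_two`: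
`a + b = 2s + 2b + 2ν_i + D_i`, `2s = n + d`: `star`: `2(n+d) + 4b + 2ν_1 + 2ν_2 + ∑ (0.999D²+D) ≤ 2 est + 1.004`; so
`d ≤ -1`. `d = -1` (`est = n - 1`): `b = ν = 0`, `D ∈ {0,-1}`, `c = -1 - D ≤ 0`, impossible. `d = -2` (`est = n-2`):
`b = ν = 0`, `D_i = D ∈ {0,-1}`, `c = -D`, so `D = -1`, `c = 1`, `a = 2r - 5`, `m_i = r - 3`:
`Z2 = 2 (1 + 2 C(2r-5,r-3) + C(2r-5,2r-6)) = 2 (1 + C(2r-4,r-2) + (2r-5)) ≤ 2 C(2r-4,r-2) + 2 C(2r-4,r/2-2) = Hval`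
(`r/2 - 2 ≥ 4` and `C(N,j) ≥ N` for `1 ≤ j ≤ N-1`). -/
theorem WF5_two (n r a b c m1 m2 : ℕ) (hr4 : r % 4 = 0) (hr6 : 12 ≤ r) (h1 : 2 * r ≤ n + 2)
    (h2 : n ≤ 2 * r + 2) (hc : 1 ≤ c) (h : Ar2 n r a b c m1 m2) : Z2 a b c m1 m2 ≤ Hval n r := by
  have hs := wf1a_star2 h
  have hsum := h.sum
  have hc1 := h.c1
  obtain ⟨he0, he1⟩ := wf5a_est n r hr6 h1 h2
  obtain ⟨H2, -, -, -, Hm2⟩ := wf5a_H r hr4 hr6
  obtain ⟨e, hest⟩ : ∃ e, e = est n r := ⟨_, rfl⟩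
  rw [← hest] at hs he0 he1
  obtain ⟨D1, hD1⟩ : ∃ D, D = 2 * (m1 : ℤ) - ((a : ℤ) - b) := ⟨_, rfl⟩
  obtain ⟨D2, hD2⟩ : ∃ D, D = 2 * (m2 : ℤ) - ((a : ℤ) - b) := ⟨_, rfl⟩
  rw [← hD1, ← hD2] at hs
  have p1 := wf2a_D D1
  have p2 := wf2a_D (-D1)
  have p3 := wf2a_D D2
  have p4 := wf2a_D (-D2)
  have hX1 := sq_nonneg D1
  have hX2 := sq_nonneg D2
  have hfar : ∀ x y : ℤ, 2 * (2 + c) ≤ x - y → 6 * (2 + (c : ℤ)) ≤ x ^ 2 + y ^ 2 := by
    intro x y hxy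
    nlinarith [sq_nonneg (x + y), mul_le_mul hxy hxy (by positivity) (by linarith)]
  have f1 := hfar D1 D2
  have f2 := hfar D2 D1
  rw [neg_sq] at p2 p4
  obtain ⟨X1, hx1⟩ : ∃ X, X = D1 ^ 2 := ⟨_, rfl⟩
  obtain ⟨X2, hx2⟩ : ∃ X, X = D2 ^ 2 := ⟨_, rfl⟩
  rw [← hx1] at hs hX1 p1 p2 f1 f2
  rw [← hx2] at hs hX2 p3 p4 f1 f2
  have hc2a := h.c2a hc
  have hc2b := h.c2b hc
  have hen : e + 1 ≤ n := by omega
  have hcase : (r ≤ m1 ∧ r ≤ m2) ∨ (m1 + 2 + 2 * b + c ≤ r ∧ m2 + 2 + 2 * b + c ≤ r) := by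
    rcases hc2a with h4 | h4
    · rcases hc2b with h5 | h5
      · exact Or.inl ⟨h4, h5⟩
      · exfalso
        have := f1 (by omega)
        omega
    · rcases hc2b with h5 | h5
      · exfalso
        have := f2 (by omega)
        omega
      · exact Or.inr ⟨h4, h5⟩
  clear f1 f2 hfar
  rcases hcase with ⟨h4, h5⟩ | ⟨h4, h5⟩
  · have hn : n = 2 * r + 2 := by omega
    have hb : b = 0 := by omega
    have e1 : m1 = r := by omega
    have e2 : m2 = r := by omega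
    have ha : a = 2 * r - 1 := by omega
    have hc' : c = 1 := by omega
    have hch := wf5a_ch (2 * r) (r / 2 - 2) (by omega) (by omega)
    subst hn
    rw [H2]
    unfold Z2
    obtain ⟨k, rfl⟩ : ∃ k, r = k + 1 := ⟨r - 1, by omega⟩
    have hcb := wf1a_cb k
    rw [hb, ha, hc', e1, e2]
    simp only [add_zero, zero_add, Nat.choose_zero_right]
    rw [show 2 * (k + 1) - 1 = 2 * k + 1 by omega, show k + 1 + (k + 1) = 2 * k + 1 + 1 by omega,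
      Nat.choose_succ_self, show 2 * (k + 1) = 2 * k + 2 by ring]
    rw [show 2 * (k + 1) = 2 * k + 2 by ring] at hch
    omega
  · have hn : n = 2 * r - 2 := by omega
    have hb : b = 0 := by omega
    have e1 : m1 = r - 3 := by omega
    have e2 : m2 = r - 3 := by omega
    have ha : a = 2 * r - 5 := by omega
    have hc' : c = 1 := by omega
    have hch := wf5a_ch (2 * r - 4) (r / 2 - 2) (by omega) (by omega)
    subst hn
    rw [Hm2]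
    unfold Z2
    obtain ⟨k, rfl⟩ : ∃ k, r = k + 3 := ⟨r - 3, by omega⟩
    have hcb := wf1a_cb k
    rw [hb, ha, hc', e1, e2]
    simp only [add_zero, zero_add, Nat.choose_zero_right]
    rw [show 2 * (k + 3) - 4 = 2 * k + 2 by omega] at hch ⊢
    rw [show 2 * (k + 3) - 5 = 2 * k + 1 by omega, show k + 3 - 3 = k by omega,
      show k + 3 - 2 = k + 1 by omega]
    have hc2 : (2 * k + 1).choose (k + k) = 2 * k + 1 := by
      have e : (2 * k + 1).choose (k + k) = (2 * k + 1).choose 1 := by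
        rw [← Nat.choose_symm (show 1 ≤ 2 * k + 1 by omega)]
        congr 1
        omega
      rw [e, Nat.choose_one_right]
    have hsymm : (2 * k + 1).choose (k + 1) = (2 * k + 1).choose k := Nat.choose_symm_half k
    rw [hc2]
    omega

end H31Y
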