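import Pool.Agent.Lib.H31Y.Defs
import Pool.Agent.Lib.H31Y.WF5a

/-!
Chunk WF6a: classification, window, c = 0, one heavy entry
-/

namespace H31Y

open Finset H31Z

/-- binomial coefficients increase up to the middle -/
theorem wf6a_mono (N i j : ℕ) (hij : i ≤ j) (hj : 2 * j ≤ N) : N.choose i ≤ N.choose j := by
  induction j, hij using Nat.le_induction with
  | base => exact le_rfl
  | succ j hij ih =>
    exact le_trans (ih (by omega)) (Nat.choose_le_succ_of_lt_half_left (by omega))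

/-- PROOF. `a + b = n - 1`, `star`: `n - 1 + 0.999 D² ≤ est + 0.502`. `n` even: `est = n - 2`, impossible. `n` odd:
`est = n - 1`, `D = 0`, `m = (n-1)/2 - b`. `n = 2r+1`: `m = r - b`; if `m` is odd then `b ≥ 1`, against `odd`; so `b`
is even, `2b < r`, `4 ∣ r`: `b ≤ r/2 - 2`; `Z1 = C(2r,b) + C(2r,r) ≤ Hval`. `n = 2r-1`: `m = r - 1 - b`, odd
is impossible by `odd`, so `b` is odd, `b ≤ r/2 - 1`, `Z1 = C(2r-2,b) + C(2r-2,r-1) ≤ Hval` (binomial
coefficients increase up to the middle). -/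
theorem WF6_one (n r a b m : ℕ) (hr4 : r % 4 = 0) (hr6 : 12 ≤ r) (h1 : 2 * r ≤ n + 2)
    (h2 : n ≤ 2 * r + 2) (h : Ar1 n r a b 0 m) : Z1 a b 0 m ≤ Hval n r := by
  have hs := wf1a_star1 h
  have hsum := h.sum
  have hc1 := h.c1
  have hroom := h.room
  obtain ⟨he0, he1⟩ := wf5a_est n r hr6 h1 h2
  obtain ⟨-, H1, -, Hm1, -⟩ := wf5a_H r hr4 hr6
  obtain ⟨e, hest⟩ : ∃ e, e = est n r := ⟨_, rfl⟩
  rw [← hest] at hs he0 he1
  have q0 := wf1a_sq (2 * (m : ℤ) - ((a : ℤ) - b))
  obtain ⟨D, hD⟩ : ∃ D, D = 2 * (m : ℤ) - ((a : ℤ) - b) := ⟨_, rfl⟩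
  rw [← hD] at hs q0
  have hX := sq_nonneg D
  obtain ⟨X, hx⟩ : ∃ X, X = D ^ 2 := ⟨_, rfl⟩
  rw [← hx] at hs hX q0
  have hn : n % 2 = 1 := by
    by_contra h3
    have := he0 (by omega)
    omega
  have he := he1 hn
  have hD0 : D = 0 := by omega
  have hodd : m % 2 = 1 → r ≤ m ∨ m + 3 + 2 * b ≤ r := fun h3 => h.odd (Nat.odd_iff.2 h3)
  rcases (by omega : n = 2 * r + 1 ∨ n = 2 * r - 1) with h3 | h3
  · have hm : m = r - b := by omega
    have hb : b % 2 = 0 := by
      by_contra h4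
      have := hodd (by omega)
      omega
    have hb2 : b ≤ r / 2 := by omega
    have hmono := wf6a_mono (2 * r) b (r / 2) hb2 (by omega)
    subst h3
    rw [H1]
    unfold Z1
    rw [show a + b = 2 * r by omega, show b + m = r by omega, pow_zero, one_mul]
    omega
  · have hm : m = r - 1 - b := by omega
    have hb : b % 2 = 1 := by
      by_contra h4
      have := hodd (by omega)
      omega
    have hb2 : b ≤ r / 2 - 1 := by omega
    have hmono := wf6a_mono (2 * r - 2) b (r / 2 - 1) hb2 (by omega)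
    subst h3
    rw [Hm1]
    unfold Z1
    rw [show a + b = 2 * r - 2 by omega, show b + m = r - 1 by omega, pow_zero, one_mul]
    omega

end H31Y
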