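import Pool.Agent.Lib.H31Y.Defs
import Pool.Agent.Lib.H31Y.WF6a

/-!
Chunk WF6b: classification, window, c = 0, two heavy entries
-/

namespace H31Y

open Finset H31Z

/-- the value for an even total -/
theorem wf6b_even (a b m k : ℕ) (hab : a + b = 2 * k) (hm : m + b = k) :
    Z2 a b 0 m m = 2 * (2 * k).choose k + 2 * (2 * k).choose b := by
  unfold Z2
  rw [hab, pow_zero, one_mul, show b + m = k by omega]
  have e : (2 * k).choose (b + (m + m)) = (2 * k).choose b := by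
    rw [← Nat.choose_symm (show b ≤ 2 * k by omega)]
    congr 1
    omega
  rw [e]
  ring

/-- the value for an odd total, `D = -1` -/
theorem wf6b_oddm (a b m k : ℕ) (hab : a + b = 2 * k + 1) (hm : m + b = k) :
    Z2 a b 0 m m = (2 * k + 2).choose (k + 1) + (2 * k + 2).choose (b + 1) := by
  unfold Z2
  rw [hab, pow_zero, one_mul, show b + m = k by omega]
  have e : (2 * k + 1).choose (b + (m + m)) = (2 * k + 1).choose (b + 1) := by
    rw [← Nat.choose_symm (show b + 1 ≤ 2 * k + 1 by omega)]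
    congr 1
    omega
  have hcb := wf1a_cb k
  have hsymm : (2 * k + 1).choose (k + 1) = (2 * k + 1).choose k := Nat.choose_symm_half k
  have h2 : (2 * k + 2).choose (b + 1) = (2 * k + 1).choose b + (2 * k + 1).choose (b + 1) :=
    Nat.choose_succ_succ' _ _
  rw [e, h2]
  omega

/-- the value for an odd total, `D = 1` -/
theorem wf6b_oddp (a b m k : ℕ) (hab : a + b = 2 * k + 1) (hm : m + b = k + 1) (hb : b ≤ k) :
    Z2 a b 0 m m = (2 * k + 2).choose (k + 1) + (2 * k + 2).choose b := by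
  unfold Z2
  rw [hab, pow_zero, one_mul, show b + m = k + 1 by omega]
  have hcb := wf1a_cb k
  have h2 : (2 * k + 1).choose b + (2 * k + 1).choose (b + (m + m)) = (2 * k + 2).choose b := by
    rcases Nat.eq_zero_or_pos b with h3 | h3
    · rw [h3, Nat.choose_eq_zero_of_lt (show 2 * k + 1 < 0 + (m + m) by omega)]
      simp
    · obtain ⟨i, rfl⟩ : ∃ i, b = i + 1 := ⟨b - 1, by omega⟩
      have e : (2 * k + 1).choose (i + 1 + (m + m)) = (2 * k + 1).choose i := by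
        rw [← Nat.choose_symm (show i ≤ 2 * k + 1 by omega)]
        congr 1
        omega
      rw [e, Nat.choose_succ_succ' (2 * k + 1) i]
      ring
  omega

/-- PROOF. `a + b = n - 2`, `D_i = 2m_i - (a - b)`. `n` even: `est = n - 2`, `D_1² + D_2² ≤ 1.005`, `D_i` even: `D_i = 0`,
`m_i = (n-2)/2 - b`. `n` odd: `est = n - 1`, `D_1² + D_2² ≤ 3.01`, `D_i` odd: `D_i = ±1`. In all cases
`m_i ∈ {r - b, r - 1 - b, r - 2 - b}`; `m_i` odd contradicts `odd1`, `odd2` (`m_i + 3 + 2b > r`, and `r ≤ m_i` only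
for `m_i = r`, even). So `m_i` are even, hence `D_1 = D_2` and `m_1 = m_2 = m`.
`n = 2r+2`: `m = r - b`, `b` even, `≤ r/2 - 2`; `Z2 = 2 C(2r,r) + 2 C(2r,b)` (`C(2r, 2r-b) = C(2r,b)`).
`n = 2r`: `m = r-1-b`, `b` odd `≤ r/2-1`: `Z2 = 2 C(2r-2,r-1) + 2 C(2r-2,b)`. `n = 2r-2`: `m = r-2-b`, `b` even
`≤ r/2-2`: `Z2 = 2C(2r-4,r-2) + 2C(2r-4,b)`. `n = 2r+1`, `D = -1`: `m = r-1-b`, `b` odd `≤ r/2-1`:
`Z2 = C(2r-1,b) + 2C(2r-1,r-1) + C(2r-1,2r-2-b) = C(2r,r) + C(2r,b+1)`; `D = 1`: `m = r - b`, `b` even `≤ r/2-2`: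
`Z2 = C(2r,r) + C(2r,b)` (`b = 0`: `C(2r-1,2r) = 0`). `n = 2r-1`, `D = -1`: `m = r-2-b`, `b` even `≤ r/2-2`:
`Z2 = C(2r-2,r-1) + C(2r-2,b+1)`; `D = 1`: `m = r-1-b`, `b` odd `≤ r/2-1`: `Z2 = C(2r-2,r-1) + C(2r-2,b)`. All are at
most `Hval` (monotonicity of binomial coefficients up to the middle). -/
theorem WF6_two (n r a b m1 m2 : ℕ) (hr4 : r % 4 = 0) (hr6 : 12 ≤ r) (h1 : 2 * r ≤ n + 2)
    (h2 : n ≤ 2 * r + 2) (h : Ar2 n r a b 0 m1 m2) : Z2 a b 0 m1 m2 ≤ Hval n r := by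
  have hs := wf1a_star2 h
  have hsum := h.sum
  have hc1 := h.c1
  have hroom1 := h.room1
  have hroom2 := h.room2
  obtain ⟨he0, he1⟩ := wf5a_est n r hr6 h1 h2
  obtain ⟨H2, H1, H0, Hm1, Hm2⟩ := wf5a_H r hr4 hr6
  obtain ⟨e, hest⟩ : ∃ e, e = est n r := ⟨_, rfl⟩
  rw [← hest] at hs he0 he1
  have p5 := wf1a_sq (2 * (m1 : ℤ) - ((a : ℤ) - b))
  have p6 := wf1a_sq (2 * (m2 : ℤ) - ((a : ℤ) - b))
  obtain ⟨D1, hD1⟩ : ∃ D, D = 2 * (m1 : ℤ) - ((a : ℤ) - b) := ⟨_, rfl⟩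
  obtain ⟨D2, hD2⟩ : ∃ D, D = 2 * (m2 : ℤ) - ((a : ℤ) - b) := ⟨_, rfl⟩
  rw [← hD1] at hs p5
  rw [← hD2] at hs p6
  have hX1 := sq_nonneg D1
  have hX2 := sq_nonneg D2
  obtain ⟨X1, hx1⟩ : ∃ X, X = D1 ^ 2 := ⟨_, rfl⟩
  obtain ⟨X2, hx2⟩ : ∃ X, X = D2 ^ 2 := ⟨_, rfl⟩
  rw [← hx1] at hs hX1 p5
  rw [← hx2] at hs hX2 p6
  have hodd1 : m1 % 2 = 1 → r ≤ m1 ∨ m1 + 3 + 2 * b ≤ r := fun h3 => h.odd1 (Nat.odd_iff.2 h3)
  have hodd2 : m2 % 2 = 1 → r ≤ m2 ∨ m2 + 3 + 2 * b ≤ r := fun h3 => h.odd2 (Nat.odd_iff.2 h3)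
  have hne : 4 ≤ n := by omega
  have hD : (n % 2 = 0 ∧ D1 = 0 ∧ D2 = 0) ∨
      (n % 2 = 1 ∧ (D1 = 1 ∨ D1 = -1) ∧ (D2 = 1 ∨ D2 = -1)) := by
    rcases Nat.mod_two_eq_zero_or_one n with h3 | h3
    · left
      have h4 := he0 h3
      refine ⟨h3, ?_, ?_⟩ <;> omega
    · right
      have h4 := he1 h3
      have h5 : D1 ≠ 0 := by omega
      have h6 : D2 ≠ 0 := by omega
      refine ⟨h3, ?_, ?_⟩
      · rcases p5 with h7 | h7 | h7
        · exact absurd h7 h5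
        · exact h7.2
        · exfalso
          rcases p6 with h8 | h8 | h8 <;> omega
      · rcases p6 with h7 | h7 | h7
        · exact absurd h7 h6
        · exact h7.2
        · exfalso
          rcases p5 with h8 | h8 | h8 <;> omega
  clear hs p5 p6 he0 he1 hx1 hx2 hX1 hX2 hest
  have hm1 : m1 % 2 = 0 := by
    by_contra h3
    have h4 := hodd1 (by omega)
    omega
  have hm2 : m2 % 2 = 0 := by
    by_contra h3
    have h4 := hodd2 (by omega)
    omega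
  have hmm : m1 = m2 := by omega
  subst hmm
  rcases (by omega : n = 2 * r + 2 ∨ n = 2 * r + 1 ∨ n = 2 * r ∨ n = 2 * r - 1 ∨ n = 2 * r - 2) with
    h3 | h3 | h3 | h3 | h3
  · have hmono := wf6a_mono (2 * r) b (r / 2 - 2) (by omega) (by omega)
    rw [wf6b_even a b m1 r (by omega) (by omega)]
    subst h3
    rw [H2]
    omega
  · rcases (by omega : D1 = 1 ∨ D1 = -1) with h4 | h4
    · have hmono := wf6a_mono (2 * r) b (r / 2) (by omega) (by omega)
      rw [wf6b_oddp a b m1 (r - 1) (by omega) (by omega) (by omega)]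
      subst h3
      rw [H1, show 2 * (r - 1) + 2 = 2 * r by omega, show r - 1 + 1 = r by omega]
      omega
    · have hmono := wf6a_mono (2 * r) (b + 1) (r / 2) (by omega) (by omega)
      rw [wf6b_oddm a b m1 (r - 1) (by omega) (by omega)]
      subst h3
      rw [H1, show 2 * (r - 1) + 2 = 2 * r by omega, show r - 1 + 1 = r by omega]
      omega
  · have hmono := wf6a_mono (2 * r - 2) b (r / 2 - 1) (by omega) (by omega)
    rw [wf6b_even a b m1 (r - 1) (by omega) (by omega)]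
    subst h3
    rw [H0, show 2 * (r - 1) = 2 * r - 2 by omega]
    omega
  · rcases (by omega : D1 = 1 ∨ D1 = -1) with h4 | h4
    · have hmono := wf6a_mono (2 * r - 2) b (r / 2 - 1) (by omega) (by omega)
      rw [wf6b_oddp a b m1 (r - 2) (by omega) (by omega) (by omega)]
      subst h3
      rw [Hm1, show 2 * (r - 2) + 2 = 2 * r - 2 by omega, show r - 2 + 1 = r - 1 by omega]
      omega
    · have hmono := wf6a_mono (2 * r - 2) (b + 1) (r / 2 - 1) (by omega) (by omega)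
      rw [wf6b_oddm a b m1 (r - 2) (by omega) (by omega)]
      subst h3
      rw [Hm1, show 2 * (r - 2) + 2 = 2 * r - 2 by omega, show r - 2 + 1 = r - 1 by omega]
      omega
  · have hmono := wf6a_mono (2 * r - 4) b (r / 2 - 2) (by omega) (by omega)
    rw [wf6b_even a b m1 (r - 2) (by omega) (by omega)]
    subst h3
    rw [Hm2, show 2 * (r - 2) = 2 * r - 4 by omega]
    omega

end H31Y
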