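import Pool.Agent.Lib.H31Y.WD
import Pool.Agent.Lib.H31Y.WE
import Pool.Agent.Lib.H31Y.WF1
import Pool.Agent.Lib.H31Y.WF2
import Pool.Agent.Lib.H31Y.WF3
import Pool.Agent.Lib.H31Y.WF4
import Pool.Agent.Lib.H31Y.WF5
import Pool.Agent.Lib.H31Y.WF6

/-!
Chunk WGa: from the working structure to arithmetic
-/

namespace H31Y

open Finset H31Z

/-- common facts -/
theorem wga_basic {n r : ℕ} {z : Fin n → ℤ} {J T : Finset (Fin n)} {a b c : ℕ} (hn : 100 ≤ n)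
    (hr6 : 6 ≤ r) (hr : Even r) (hr9 : 9 * r ≤ 8 * n) (h : WS n r z J T a b c (est n r)) :
    bigs z J = ∅ ∧ c + (a + b) + T.card = n ∧ sB z J = 0 ∧
      ∑ j ∈ J, (z j : ℝ) = (a : ℝ) - b ∧ 2 * b + c < r ∧
      ∀ i ∈ T, ∃ m : ℕ, z i = -(m : ℤ) ∧ m + b ≤ a ∧
        (1 ≤ c → r ≤ m ∨ m + 2 + 2 * b + c ≤ r) ∧ (Odd m → r ≤ m ∨ m + 3 + 2 * b ≤ r) := by
  have hE := WD_empty hn hr6 hr hr9 h
  obtain ⟨h1, h2, -, -⟩ := WB_sum h
  have hc := h.hc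
  rw [hE, Finset.card_empty] at h1
  rw [hE, Finset.sum_empty, add_zero] at h2
  refine ⟨hE, by omega, ?_, ?_, WC_one (by omega) h hr, ?_⟩
  · unfold sB
    rw [hE, Finset.sum_empty]
  · exact_mod_cast h2
  · intro i hi
    obtain ⟨m, -, hm, hroom⟩ := (WB_room (by omega) h).2 i hi
    rw [hE, Finset.sum_empty, add_zero] at hroom
    refine ⟨m, hm, by exact_mod_cast hroom, fun hc1 => ?_, fun hodd => WC_odd (by omega) h hr i hi m hm hodd⟩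
    have h3 := WC_two (by omega) h hc1 (fun f hf => by
      rw [hE] at hf
      exact absurd hf (Finset.notMem_empty f)) i hi m hm
    rw [hE, Finset.filter_empty, Finset.sum_empty, add_zero] at h3
    rcases h3 with h3 | h3
    · left
      exact_mod_cast h3
    · right
      exact_mod_cast h3

/-- PROOF. `bigs z J = ∅` (`WD_empty`). Fields: `sum` from `WB_sum` and `hc`; `room` from `WB_room`; `c1`: `WC_one`;
`c2`: `WC_two` (empty sum); `odd`: `WC_odd`; `star`: `h.star` with `sB = 0`, `∑_J z = a - b`. -/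
theorem WG_ar1 {n r : ℕ} {z : Fin n → ℤ} {J T : Finset (Fin n)} {a b c : ℕ} (hn : 100 ≤ n)
    (hr6 : 6 ≤ r) (hr : Even r) (hr9 : 9 * r ≤ 8 * n) (h : WS n r z J T a b c (est n r))
    (i : Fin n) (hT : T = {i}) : ∃ m : ℕ, z i = -(m : ℤ) ∧ Ar1 n r a b c m ∧
      cz z Finset.univ 0 = Z1 a b c m := by
  obtain ⟨hE, hs, hsB, hsum, hc1, hall⟩ := wga_basic hn hr6 hr hr9 h
  obtain ⟨m, hm, hroom, hc2, hodd⟩ := hall i (by rw [hT]; exact Finset.mem_singleton_self i)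
  refine ⟨m, hm, ⟨?_, hroom, hc1, hc2, hodd, ?_⟩, WE_one h hE i hT m hm⟩
  · rw [hT, Finset.card_singleton] at hs
    exact hs
  · have h1 := h.star
    rw [hT, Finset.card_singleton, Finset.sum_singleton, hsB, hsum, hm] at h1
    push_cast at h1
    have e : (2 * (-(m : ℝ)) + ((a : ℝ) - b)) ^ 2 = (2 * (m : ℝ) - ((a : ℝ) - b)) ^ 2 := by ring
    rw [e] at h1
    linarith

/-- PROOF. The same, `c3`: `WC_three`. -/
theorem WG_ar2 {n r : ℕ} {z : Fin n → ℤ} {J T : Finset (Fin n)} {a b c : ℕ} (hn : 100 ≤ n)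
    (hr6 : 6 ≤ r) (hr : Even r) (hr9 : 9 * r ≤ 8 * n) (h : WS n r z J T a b c (est n r))
    (i1 i2 : Fin n) (hT : T = {i1, i2}) (hne : i1 ≠ i2) : ∃ m1 m2 : ℕ, z i1 = -(m1 : ℤ) ∧
      z i2 = -(m2 : ℤ) ∧ Ar2 n r a b c m1 m2 ∧ cz z Finset.univ 0 = Z2 a b c m1 m2 := by
  obtain ⟨hE, hs, hsB, hsum, hc1, hall⟩ := wga_basic hn hr6 hr hr9 h
  obtain ⟨m1, hm1, hroom1, hc21, hodd1⟩ := hall i1 (by rw [hT]; simp)
  obtain ⟨m2, hm2, hroom2, hc22, hodd2⟩ := hall i2 (by rw [hT]; simp)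
  refine ⟨m1, m2, hm1, hm2, ⟨?_, hroom1, hroom2, hc1, hc21, hc22, hodd1, hodd2, ?_, ?_⟩,
    WE_two h hE i1 i2 hT hne m1 m2 hm1 hm2⟩
  · rw [hT, Finset.card_pair hne] at hs
    exact hs
  · intro j q hj hq hv
    exact WC_three h i1 i2 hT hne m1 m2 hm1 hm2 j q hj hq hv
  · have h1 := h.star
    rw [hT, Finset.card_pair hne, Finset.sum_pair hne, hsB, hsum, hm1, hm2] at h1
    push_cast at h1
    have e : (2 * (-(m1 : ℝ)) + ((a : ℝ) - b)) ^ 2 = (2 * (m1 : ℝ) - ((a : ℝ) - b)) ^ 2 := by ring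
    have e2 : (2 * (-(m2 : ℝ)) + ((a : ℝ) - b)) ^ 2 = (2 * (m2 : ℝ) - ((a : ℝ) - b)) ^ 2 := by ring
    rw [e, e2] at h1
    linarith

end H31Y
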