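import Pool.Agent.Lib.H31Y.WD
import Pool.Agent.Lib.H31Y.WE
import Pool.Agent.Lib.H31Y.WF1
import Pool.Agent.Lib.H31Y.WF2
import Pool.Agent.Lib.H31Y.WF3
import Pool.Agent.Lib.H31Y.WF4
import Pool.Agent.Lib.H31Y.WF5
import Pool.Agent.Lib.H31Y.WF6
import Pool.Agent.Lib.H31Y.WGa

/-!
Chunk WGb: the working structure is at most max V H
-/

namespace H31Y

open Finset H31Z

/-- the shape of a crossing set -/
theorem wgb_cross {n r : ℕ} {z : Fin n → ℤ} {J T : Finset (Fin n)} {a b c e : ℕ}
    (h : WS n r z J T a b c e) (hE : bigs z J = ∅) (B : Finset (Fin n))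
    (hB : ∀ i ∈ B, z i ≠ 0) (hs : ∑ i ∈ B, z i = 0) :
    ∃ U ⊆ T, ∃ p q : ℕ, p ≤ a ∧ q ≤ b ∧ ∑ i ∈ U, z i + p - q = 0 ∧ B.card = U.card + (p + q) := by
  classical
  have hBJT : B ⊆ J ∪ T := fun i hi => (h.nz i).1 (hB i hi)
  have hpm := web_pm h hE
  have e1 : B = (B ∩ T) ∪ ((B ∩ J).filter (fun i => z i = 1) ∪ (B ∩ J).filter (fun i => z i = -1)) := by
    ext i
    simp only [Finset.mem_union, Finset.mem_inter, Finset.mem_filter]
    constructor
    · intro hi
      rcases Finset.mem_union.1 (hBJT hi) with h1 | h1
      · rcases hpm i h1 with h2 | h2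
        · exact Or.inr (Or.inl ⟨⟨hi, h1⟩, h2⟩)
        · exact Or.inr (Or.inr ⟨⟨hi, h1⟩, h2⟩)
      · exact Or.inl ⟨hi, h1⟩
    · rintro (⟨hi, -⟩ | ⟨⟨hi, -⟩, -⟩ | ⟨⟨hi, -⟩, -⟩) <;> exact hi
  have d1 : Disjoint ((B ∩ J).filter (fun i => z i = 1)) ((B ∩ J).filter (fun i => z i = -1)) := by
    rw [Finset.disjoint_left]
    intro i h3 h4
    have h5 := (Finset.mem_filter.1 h3).2
    have h6 := (Finset.mem_filter.1 h4).2
    omega
  have d2 : Disjoint (B ∩ T)
      ((B ∩ J).filter (fun i => z i = 1) ∪ (B ∩ J).filter (fun i => z i = -1)) := by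
    rw [Finset.disjoint_left]
    intro i h3 h4
    have h5 := (Finset.mem_inter.1 h3).2
    have h6 : i ∈ J := by
      rcases Finset.mem_union.1 h4 with h4 | h4
      · exact (Finset.mem_inter.1 (Finset.mem_filter.1 h4).1).2
      · exact (Finset.mem_inter.1 (Finset.mem_filter.1 h4).1).2
    exact Finset.disjoint_left.1 h.disj h6 h5
  refine ⟨B ∩ T, Finset.inter_subset_right, ((B ∩ J).filter (fun i => z i = 1)).card,
    ((B ∩ J).filter (fun i => z i = -1)).card, ?_, ?_, ?_, ?_⟩
  · rw [← h.ha]
    exact Finset.card_le_card (Finset.filter_subset_filter _ Finset.inter_subset_right)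
  · rw [← h.hb]
    exact Finset.card_le_card (Finset.filter_subset_filter _ Finset.inter_subset_right)
  · rw [e1, Finset.sum_union d2, Finset.sum_union d1,
      Finset.sum_congr rfl (g := fun _ => (1 : ℤ)) (fun i hi => (Finset.mem_filter.1 hi).2),
      Finset.sum_congr (s₁ := (B ∩ J).filter (fun i => z i = -1)) rfl (g := fun _ => (-1 : ℤ))
        (fun i hi => (Finset.mem_filter.1 hi).2), Finset.sum_const, Finset.sum_const] at hs
    simp only [nsmul_eq_mul, mul_one, mul_neg] at hs
    linarith
  · conv_lhs => rw [e1]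
    rw [Finset.card_union_of_disjoint d2, Finset.card_union_of_disjoint d1]

/-- PROOF. `WG_ar1`, `WG_ar2` and `WF1`..`WF6` by cases (`3r < n`; `2r+3 ≤ n ≤ 3r`; window; `n+3 ≤ 2r`, `3r ≤ 2n`;
`3r > 2n`). In the last case use the crossing set `B`: all `z ≠ 0` on `B`, so `B ⊆ J ∪ T`; with
`v = -∑_{B ∩ T} z` (`0`, `m_i` or `m_1 + m_2`) and `j` the number of `-1` in `B`, `B` has `v + j` ones
(`bigs = ∅`), `v + j ≤ a`, `j ≤ b`, `|B| = |B ∩ T| + v + 2j > r`. `B ∩ T = ∅`: `2j ≤ 2b < r`, impossible; `|B ∩ T| = 1`:
impossible by `WF4_one`, `WF4_single`; `B ∩ T = T`, `|T| = 2`: `WF4_two`. -/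
theorem WG_main {n r : ℕ} {z : Fin n → ℤ} {J T : Finset (Fin n)} {a b c : ℕ} (hn : 100 ≤ n)
    (hr6 : 6 ≤ r) (hr : 6 ∣ r) (hr9 : 9 * r ≤ 8 * n)
    (hw : r % 4 = 0 ∨ 2 * r + 3 ≤ n ∨ n + 3 ≤ 2 * r)
    (h : WS n r z J T a b c (est n r))
    (hX : ∃ B : Finset (Fin n), (∀ i ∈ B, z i ≠ 0) ∧ ∑ i ∈ B, z i = 0 ∧ r < B.card) :
    cz z Finset.univ 0 ≤ max (Vval n r) (Hval n r) := by
  classical
  have hre : Even r := by
    rw [Nat.even_iff]
    omega
  have hE := WD_empty hn hr6 hre hr9 h
  obtain ⟨B, hB0, hBs, hBr⟩ := hX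
  obtain ⟨U, hU, p, q, hp, hq, hpq, hBc⟩ := wgb_cross h hE B hB0 hBs
  rcases (by have := h.t1; have := h.t2; omega : T.card = 1 ∨ T.card = 2) with ht | ht
  · obtain ⟨i, hT⟩ := Finset.card_eq_one.1 ht
    obtain ⟨m, hm, har, hcount⟩ := WG_ar1 hn hr6 hre hr9 h i hT
    rw [hcount]
    rcases Nat.lt_or_ge (3 * r) n with c1 | c1
    · exact (WF1_one n r a b c m hre hr6 c1 har).trans (le_max_right _ _)
    rcases Nat.lt_or_ge n (2 * r + 3) with c2 | c2
    swap
    · exact (WF2_one n r a b c m hre hr6 c1 c2 har).trans (le_max_right _ _)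
    rcases Nat.lt_or_ge n (2 * r - 2) with c3 | c3
    · rcases Nat.lt_or_ge (2 * n) (3 * r) with c4 | c4
      · exfalso
        have h1 := WF4_one n r a b c m hn hre c4 hr9 har
        have h2 := har.c1
        rw [hT] at hU
        rcases Finset.subset_singleton_iff.1 hU with h3 | h3
        · rw [h3, Finset.sum_empty] at hpq
          rw [h3, Finset.card_empty] at hBc
          omega
        · rw [h3, Finset.sum_singleton, hm] at hpq
          rw [h3, Finset.card_singleton] at hBc
          omega
      · exact absurd har (fun har => WF3_one n r a b c m hre hr6 (by omega) c4 har)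
    · have h12 : 12 ≤ r := by omega
      have h4 : r % 4 = 0 := by omega
      rcases Nat.eq_zero_or_pos c with h5 | h5
      · subst h5
        exact (WF6_one n r a b m h4 h12 (by omega) (by omega) har).trans (le_max_right _ _)
      · exact (WF5_one n r a b c m h4 h12 (by omega) (by omega) h5 har).trans (le_max_right _ _)
  · obtain ⟨i1, i2, hne, hT⟩ := Finset.card_eq_two.1 ht
    obtain ⟨m1, m2, hm1, hm2, har, hcount⟩ := WG_ar2 hn hr6 hre hr9 h i1 i2 hT hne
    rw [hcount]
    rcases Nat.lt_or_ge (3 * r) n with c1 | c1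
    · exact (WF1_two n r a b c m1 m2 hre hr6 c1 har).trans (le_max_right _ _)
    rcases Nat.lt_or_ge n (2 * r + 3) with c2 | c2
    swap
    · exact (WF2_two n r a b c m1 m2 hre hr6 c1 c2 har).trans (le_max_right _ _)
    rcases Nat.lt_or_ge n (2 * r - 2) with c3 | c3
    · rcases Nat.lt_or_ge (2 * n) (3 * r) with c4 | c4
      · obtain ⟨h1, h1'⟩ := WF4_single n r a b c m1 m2 hn hre c4 hr9 har
        have h2 := har.c1
        refine (WF4_two n r a b c m1 m2 hn hre c4 hr9 har ?_).trans (le_max_left _ _)
        by_cases hi1 : i1 ∈ U <;> by_cases hi2 : i2 ∈ U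
        · have h3 : U = {i1, i2} := by
            apply Finset.Subset.antisymm (by rw [← hT]; exact hU)
            intro x hx
            rcases Finset.mem_insert.1 hx with hx | hx
            · rw [hx]
              exact hi1
            · rw [Finset.mem_singleton.1 hx]
              exact hi2
          rw [h3, Finset.sum_pair hne, hm1, hm2] at hpq
          rw [h3, Finset.card_pair hne] at hBc
          exact ⟨q, hq, by omega, by omega⟩
        · exfalso
          have h3 : U = {i1} := by
            apply Finset.Subset.antisymm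
            · intro x hx
              have h4 := hU hx
              rw [hT, Finset.mem_insert, Finset.mem_singleton] at h4
              rcases h4 with h4 | h4
              · rw [h4]
                exact Finset.mem_singleton_self _
              · rw [h4] at hx
                exact absurd hx hi2
            · exact Finset.singleton_subset_iff.2 hi1
          rw [h3, Finset.sum_singleton, hm1] at hpq
          rw [h3, Finset.card_singleton] at hBc
          omega
        · exfalso
          have h3 : U = {i2} := by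
            apply Finset.Subset.antisymm
            · intro x hx
              have h4 := hU hx
              rw [hT, Finset.mem_insert, Finset.mem_singleton] at h4
              rcases h4 with h4 | h4
              · rw [h4] at hx
                exact absurd hx hi1
              · rw [h4]
                exact Finset.mem_singleton_self _
            · exact Finset.singleton_subset_iff.2 hi2
          rw [h3, Finset.sum_singleton, hm2] at hpq
          rw [h3, Finset.card_singleton] at hBc
          omega
        · exfalso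
          have h3 : U = ∅ := by
            rw [Finset.eq_empty_iff_forall_notMem]
            intro x hx
            have h4 := hU hx
            rw [hT, Finset.mem_insert, Finset.mem_singleton] at h4
            rcases h4 with h4 | h4
            · rw [h4] at hx
              exact hi1 hx
            · rw [h4] at hx
              exact hi2 hx
          rw [h3, Finset.sum_empty] at hpq
          rw [h3, Finset.card_empty] at hBc
          omega
      · exact (WF3_two n r a b c m1 m2 hre hr6 (by omega) c4 har).trans (le_max_right _ _)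
    · have h12 : 12 ≤ r := by omega
      have h4 : r % 4 = 0 := by omega
      rcases Nat.eq_zero_or_pos c with h5 | h5
      · subst h5
        exact (WF6_two n r a b m1 m2 h4 h12 (by omega) (by omega) har).trans (le_max_right _ _)
      · exact (WF5_two n r a b c m1 m2 h4 h12 (by omega) (by omega) h5 har).trans (le_max_right _ _)

end H31Y
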