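import Pool.Agent.Lib.H31Y.GE
import Pool.Agent.Lib.H31Y.FA

/-!
Chunk YAa: sum of squares
-/

namespace H31Y

open Finset H31Z

/-- PROOF. All entries other than `0, 1, -p` are in `ExP`; `v² = p - (p-1) v` for `v ∈ {1,-p}`; sum. -/
theorem YA_sL (p : ℕ) (hp : 2 ≤ p) {n : ℕ} (z : Fin n → ℤ) :
    (ca z 1 : ℝ) + (p : ℝ) ^ 2 * ca z (-(p : ℤ)) = p * n -
      (p * (ca z 0 : ℝ) + (p - 1) * DD z + ∑ e ∈ ExP p z, (p - (p - 1) * (z e : ℝ))) := by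
  have hn : (n : ℝ) = ∑ _i : Fin n, (1 : ℝ) := by simp
  have hca : ∀ v : ℤ, (ca z v : ℝ) = ∑ i, if z i = v then (1 : ℝ) else 0 := by
    intro v
    unfold ca
    rw [Finset.card_filter]
    push_cast
    rfl
  have hp0 : (p : ℤ) ≠ 0 := by omega
  have hp1 : -(p : ℤ) ≠ 1 := by omega
  have hp2 : -(p : ℤ) ≠ 0 := by omega
  unfold DD ExP
  rw [hca, hca, hca, hn, Finset.sum_filter, Finset.mul_sum, Finset.mul_sum, Finset.mul_sum,
    Finset.mul_sum, ← Finset.sum_add_distrib, ← Finset.sum_add_distrib, ← Finset.sum_add_distrib,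
    ← Finset.sum_sub_distrib]
  refine Finset.sum_congr rfl fun i _ => ?_
  by_cases h0 : z i = 0
  · rw [h0]
    rw [if_neg (show ¬ (0 : ℤ) = 1 by norm_num), if_neg hp2.symm, if_pos rfl,
      if_neg (show ¬ ((0 : ℤ) ≠ 0 ∧ (0 : ℤ) ≠ 1 ∧ (0 : ℤ) ≠ -(p : ℤ)) by simp)]
    push_cast
    ring
  · by_cases h1 : z i = 1
    · rw [h1]
      rw [if_pos rfl, if_neg hp1.symm, if_neg (show ¬ (1 : ℤ) = 0 by norm_num),
        if_neg (show ¬ ((1 : ℤ) ≠ 0 ∧ (1 : ℤ) ≠ 1 ∧ (1 : ℤ) ≠ -(p : ℤ)) by simp)]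
      push_cast
      ring
    · by_cases h2 : z i = -(p : ℤ)
      · rw [if_neg h1, if_pos h2, if_neg h0, if_neg (show ¬ (z i ≠ 0 ∧ z i ≠ 1 ∧ z i ≠ -(p : ℤ)) by
          simp [h2]), h2]
        push_cast
        ring
      · rw [if_neg h1, if_neg h2, if_neg h0, if_pos ⟨h0, h1, h2⟩]
        ring

end H31Y
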