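import Pool.Agent.Lib.H31Y.GE
import Pool.Agent.Lib.H31Y.FA
import Pool.Agent.Lib.H31Y.YAa
import Pool.Agent.Lib.H31Z.A5

/-!
Chunk YAb: second order inequality with fourth order term
-/

namespace H31Y

open Finset H31Z

/-- Elementary consequences of near balance. -/
theorem yab_near (P a b n s : ℝ) (hP : P = 3 ∨ P = 4) (hn : 0 ≤ n)
    (hs : 0 ≤ s) (hs1 : s ≤ 1 / 100) (h1 : (1 - s) * n ≤ a + b) (h2 : a + b ≤ n)
    (h3 : |a - P * b| ≤ s * n) :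
    n / 2 ≤ a ∧ |P * n - (a + P ^ 2 * b)| ≤ 7 * (s * n) ∧
      2 * P * ((P ^ 2 - P + 1) / 2) * n - 103 * (s * n) ≤ a + P ^ 4 * b := by
  obtain ⟨h4, h5⟩ := abs_le.1 h3
  have hsn : s * n ≤ 1 / 100 * n := mul_le_mul_of_nonneg_right hs1 hn
  have hsn0 : 0 ≤ s * n := mul_nonneg hs hn
  rcases hP with rfl | rfl
  · refine ⟨by linarith, abs_le.2 ⟨by linarith, by linarith⟩, by linarith⟩
  · refine ⟨by linarith, abs_le.2 ⟨by linarith, by linarith⟩, by linarith⟩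

/-- The fourth order term. -/
theorem yab_four (P σ τ n s η : ℝ) (hP : P = 3 ∨ P = 4) (hn : 0 < n) (hη : 0 < η) (hη1 : η ≤ 1)
    (hs : 0 ≤ s) (hs1 : s ≤ η / 1000) (hσ : |P * n - σ| ≤ 7 * (s * n))
    (hτ : 2 * P * ((P ^ 2 - P + 1) / 2) * n - 103 * (s * n) ≤ τ) :
    ((P ^ 2 - P + 1) / 2 - η / 8) / (2 * P * n) ≤ τ / (4 * σ ^ 2) := by
  obtain ⟨h4, h5⟩ := abs_le.1 hσ
  have hsn : s * n ≤ η / 1000 * n := mul_le_mul_of_nonneg_right hs1 hn.le
  have hηn : η * n ≤ n := by nlinarith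
  have hsn0 : 0 ≤ s * n := mul_nonneg hs hn.le
  have hP0 : 3 ≤ P := by rcases hP with rfl | rfl <;> norm_num
  have hσ0 : 0 < σ := by nlinarith
  have hσ1 : σ ≤ P * n + 7 * (s * n) := by linarith
  rw [div_le_div_iff₀ (by positivity) (by positivity)]
  have hσ2 : σ ^ 2 ≤ (P * n + 7 * (s * n)) ^ 2 := pow_le_pow_left₀ hσ0.le hσ1 2
  have hφ : 0 ≤ (P ^ 2 - P + 1) / 2 - η / 8 := by nlinarith
  have h6 : ((P ^ 2 - P + 1) / 2 - η / 8) * (4 * σ ^ 2) ≤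
      ((P ^ 2 - P + 1) / 2 - η / 8) * (4 * (P * n + 7 * (s * n)) ^ 2) := by
    apply mul_le_mul_of_nonneg_left _ hφ
    linarith
  refine h6.trans ?_
  have h7 : (2 * P * ((P ^ 2 - P + 1) / 2) * n - 103 * (s * n)) * (2 * P * n) ≤ τ * (2 * P * n) :=
    mul_le_mul_of_nonneg_right hτ (by positivity)
  refine le_trans ?_ h7
  have hsη : s * n * n ≤ η / 1000 * n * n := mul_le_mul_of_nonneg_right hsn hn.le
  have hss : (s * n) * (s * n) ≤ (η / 1000 * n) * (1 / 1000 * n) := by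
    apply mul_le_mul hsn _ hsn0 (by positivity)
    refine hsn.trans ?_
    nlinarith
  have hηnn : 0 ≤ η * (s * n * n) := by positivity
  have hηss : 0 ≤ η * ((s * n) * (s * n)) := by positivity
  rcases hP with rfl | rfl
  · nlinarith
  · nlinarith

/-- the elementary inequality -/
theorem yab_calc {η η1 u ω m δ T : ℝ} (hη : 0 < η) (hη1 : η ≤ 1) (hω : 0 ≤ ω) (hω1 : ω ≤ 1 / 4)
    (hu : |u| ≤ η / 8) (h : u ^ 2 + δ ≤ m + η / 2 * ω) (hT : 0 ≤ T)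
    (h2 : η1 ≤ η / 4) :
    Real.sqrt (1 / (1 - u)) * (1 - (1 - η1) * (ω / (1 - u) + T)) + δ ≤
      1 + u / 2 + m - (1 - η) * ω - (1 - |u|) * ((1 - η1) * T) := by
  obtain ⟨hu1, hu2⟩ := abs_le.1 hu
  have h3 : 0 < 1 - u := by linarith
  have h4 := A5_calc hη hη1 hω hω1 hu h
  have hs0 : 0 ≤ Real.sqrt (1 / (1 - u)) := Real.sqrt_nonneg _
  have h5 : 1 - |u| ≤ Real.sqrt (1 / (1 - u)) := by
    apply Real.le_sqrt_of_sq_le
    rw [le_div_iff₀ h3]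
    have h6 := abs_nonneg u
    have h7 : 1 - u ≤ 1 + |u| := by linarith [neg_abs_le u]
    have h8 : |u| ≤ 1 := by linarith
    calc (1 - |u|) ^ 2 * (1 - u) ≤ (1 - |u|) ^ 2 * (1 + |u|) :=
          mul_le_mul_of_nonneg_left h7 (sq_nonneg _)
      _ ≤ 1 := by nlinarith [mul_nonneg h6 h6]
  have h6 : 0 ≤ ω / (1 - u) := by positivity
  have h7 : (1 - η / 4) * (ω / (1 - u)) ≤ (1 - η1) * (ω / (1 - u)) :=
    mul_le_mul_of_nonneg_right (by linarith) h6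
  have h8 : 0 ≤ (1 - η1) * T := mul_nonneg (by linarith) hT
  have h9 : (1 - |u|) * ((1 - η1) * T) ≤ Real.sqrt (1 / (1 - u)) * ((1 - η1) * T) :=
    mul_le_mul_of_nonneg_right h5 h8
  have h10 : Real.sqrt (1 / (1 - u)) * ((1 - η / 4) * (ω / (1 - u))) ≤
      Real.sqrt (1 / (1 - u)) * ((1 - η1) * (ω / (1 - u))) := mul_le_mul_of_nonneg_left h7 hs0
  have h11 : Real.sqrt (1 / (1 - u)) * (1 - (1 - η1) * (ω / (1 - u) + T)) =
      Real.sqrt (1 / (1 - u)) - Real.sqrt (1 / (1 - u)) * ((1 - η1) * (ω / (1 - u))) -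
        Real.sqrt (1 / (1 - u)) * ((1 - η1) * T) := by ring
  have h12 : Real.sqrt (1 / (1 - u)) * (1 - (1 - η / 4) * (ω / (1 - u))) =
      Real.sqrt (1 / (1 - u)) - Real.sqrt (1 / (1 - u)) * ((1 - η / 4) * (ω / (1 - u))) := by ring
  rw [h11]
  rw [h12] at h4
  linarith

/-- smallness of the exponential -/
theorem yab_exp {ε a n P : ℝ} (hP : P = 3 ∨ P = 4) (hε : 0 < ε) (hn : 1 ≤ n)
    (hn2 : 2 * 10 ^ 9 / ε ≤ n) (ha : n / 2 ≤ a) :
    Real.exp (-a / 13) ≤ ε / (8 * P * n) * Real.sqrt (2 / (Real.pi * P * n)) := by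
  have hn0 : 0 < n := by linarith
  have hpi := Real.pi_pos
  have hP3 : 3 ≤ P := by rcases hP with rfl | rfl <;> norm_num
  have hP4 : P ≤ 4 := by rcases hP with rfl | rfl <;> norm_num
  have h1 : Real.exp (-a / 13) ≤ 10967424 / n ^ 4 := by
    have h2 : Real.exp (-a / 13) ≤ Real.exp (-(n / 26)) := by
      rw [Real.exp_le_exp]
      linarith
    have h3 := Real.pow_div_factorial_le_exp (n / 26) (by positivity) 4
    have h4 : (n / 26) ^ 4 / ((4 : ℕ).factorial : ℝ) = n ^ 4 / 10967424 := by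
      norm_num [Nat.factorial]
      ring
    rw [h4] at h3
    refine h2.trans ?_
    rw [Real.exp_neg, inv_le_comm₀ (Real.exp_pos _) (by positivity), inv_div]
    exact h3
  have h5 : 1 / (3 * n) ≤ Real.sqrt (2 / (Real.pi * P * n)) := by
    apply Real.le_sqrt_of_sq_le
    rw [div_pow, div_le_div_iff₀ (by positivity) (by positivity)]
    have h6 : Real.pi * P ≤ 4 * 4 := mul_le_mul Real.pi_le_four hP4 (by linarith) (by norm_num)
    nlinarith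
  calc Real.exp (-a / 13) ≤ 10967424 / n ^ 4 := h1
    _ ≤ ε / (32 * n) * (1 / (3 * n)) := by
        rw [div_mul_div_comm, div_le_div_iff₀ (by positivity) (by positivity)]
        rw [div_le_iff₀ hε] at hn2
        have h7 : 2 * 10 ^ 9 * n ^ 2 ≤ ε * n ^ 4 := by
          have h8 : (2 * 10 ^ 9 : ℝ) * 1 ≤ n * ε * n := mul_le_mul hn2 hn (by norm_num) (by positivity)
          calc (2 * 10 ^ 9 : ℝ) * n ^ 2 = 2 * 10 ^ 9 * 1 * n ^ 2 := by ring
            _ ≤ n * ε * n * n ^ 2 := mul_le_mul_of_nonneg_right h8 (by positivity)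
            _ = ε * n ^ 4 := by ring
        have h9 : 0 ≤ n ^ 2 := by positivity
        nlinarith
    _ ≤ ε / (8 * P * n) * Real.sqrt (2 / (Real.pi * P * n)) := by
        apply mul_le_mul _ h5 (by positivity) (by positivity)
        apply div_le_div_of_nonneg_left hε.le (by positivity)
        nlinarith

theorem yab_card (p : ℕ) (hp : 2 ≤ p) {n : ℕ} (z : Fin n → ℤ) :
    (ca z 1 : ℝ) + (ca z (-(p : ℤ)) : ℝ) ≤ n := by
  unfold ca
  have h1 : Disjoint (Finset.univ.filter (fun i => z i = 1))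
      (Finset.univ.filter (fun i => z i = -(p : ℤ))) := by
    rw [Finset.disjoint_filter]
    intro i _ h1 h2
    rw [h1] at h2
    omega
  have h2 := Finset.card_union_of_disjoint h1
  have h3 := Finset.card_le_univ (Finset.univ.filter (fun i => z i = 1) ∪
    Finset.univ.filter (fun i => z i = -(p : ℤ)))
  rw [h2, Fintype.card_fin] at h3
  exact_mod_cast h3

theorem yab_t1 {P a b : ℝ} (hP3 : 3 ≤ P) (hP4 : P ≤ 4) (ha : 0 ≤ a) (hb : 0 ≤ b) :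
    a + P ^ 4 * b ≤ 16 * (a + P ^ 2 * b) := by
  have h1 : P ^ 2 ≤ 16 := by nlinarith
  have h2 : P ^ 2 * (P ^ 2 * b) ≤ 16 * (P ^ 2 * b) := mul_le_mul_of_nonneg_right h1 (by positivity)
  have h3 : P ^ 4 * b = P ^ 2 * (P ^ 2 * b) := by ring
  linarith

theorem yab_t2 {P σ n s η : ℝ} (hP3 : 3 ≤ P) (hP4 : P ≤ 4) (hn : 0 < n) (hη1 : η ≤ 1)
    (hs : s ≤ η / 1000) (h : |P * n - σ| ≤ 7 * (s * n)) : n ≤ σ ∧ σ ≤ 5 * n := by
  obtain ⟨h1, h2⟩ := abs_le.1 h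
  have h3 : s * n ≤ 1 / 1000 * n := mul_le_mul_of_nonneg_right (by linarith) hn.le
  have h4 : 3 * n ≤ P * n := mul_le_mul_of_nonneg_right hP3 hn.le
  have h5 : P * n ≤ 4 * n := mul_le_mul_of_nonneg_right hP4 hn.le
  constructor <;> linarith

theorem yab_low {κ s δ u G0 J : ℝ} (hG : 0 < G0) (hs : 0 ≤ s) (hsκ : s ≤ κ / 8) (hδ : 0 ≤ δ)
    (hδκ : δ ≤ κ / 2) (hκ : κ ≤ 1 / 10) (hu : |u| ≤ 3 * s) (h : (1 - s - δ) * G0 ≤ J) :
    (1 - κ) * (G0 * Real.sqrt (1 / (1 - u))) ≤ J := by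
  obtain ⟨hu2, hu3⟩ := abs_le.1 hu
  have hu4 : 0 < 1 - u := by linarith
  have h3 : 0 < 1 - |u| := by linarith
  have h5 := abs_nonneg u
  have h2 : Real.sqrt (1 / (1 - u)) ≤ 1 / (1 - |u|) := by
    rw [Real.sqrt_le_left (by positivity), div_pow, one_pow,
      div_le_div_iff₀ hu4 (by positivity)]
    have h6 := le_abs_self u
    have h7 : (1 - |u|) ^ 2 ≤ 1 - |u| := by
      have : (1 - |u|) * (1 - |u|) ≤ 1 * (1 - |u|) :=
        mul_le_mul_of_nonneg_right (by linarith) h3.le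
      linarith [sq (1 - |u|)]
    linarith
  refine le_trans ?_ h
  calc (1 - κ) * (G0 * Real.sqrt (1 / (1 - u))) ≤ (1 - κ) * (G0 * (1 / (1 - |u|))) := by
        apply mul_le_mul_of_nonneg_left _ (by linarith)
        exact mul_le_mul_of_nonneg_left h2 hG.le
    _ = ((1 - κ) / (1 - |u|)) * G0 := by ring
    _ ≤ (1 - s - δ) * G0 := by
        apply mul_le_mul_of_nonneg_right _ hG.le
        rw [div_le_iff₀ h3]
        have h6 : 0 ≤ (s + δ) * |u| := by positivity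
        have h7 : (1 - s - δ) * (1 - |u|) = 1 - s - δ - |u| + (s + δ) * |u| := by ring
        linarith

theorem yab_v {v : ℝ} (h : 1 ≤ v) : 4 + 3 * v ≤ 7 * v ^ 2 := by nlinarith

theorem yab_W2 {W D E S η n : ℝ} (h : |W| ≤ 16 + 3 * |D| + 7 * E) (hE0 : 0 ≤ E)
    (hE5 : E ≤ η / 400 * n) (hES : E ≤ S) (hDS : D ^ 2 ≤ S) :
    W ^ 2 ≤ 768 + (27 + 147 / 400 * (η * n)) * S := by
  rw [← sq_abs W]
  have h2 : |W| ^ 2 ≤ (16 + 3 * |D| + 7 * E) ^ 2 := pow_le_pow_left₀ (abs_nonneg _) h 2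
  have h3 : (16 + 3 * |D| + 7 * E) ^ 2 ≤ 3 * (256 + 9 * D ^ 2 + 49 * E ^ 2) := by
    rw [← sq_abs D]
    nlinarith [sq_nonneg (16 - 3 * |D|), sq_nonneg (16 - 7 * E), sq_nonneg (3 * |D| - 7 * E)]
  have h4 : E ^ 2 ≤ η / 400 * n * S := by
    rw [sq]
    exact mul_le_mul hE5 hES hE0 (by linarith)
  have h5 : (27 + 147 / 400 * (η * n)) * S = 27 * S + 147 * (η / 400 * n * S) := by ring
  rw [h5]
  linarith

theorem yab_key {W P n η S u ω δ : ℝ} (hP3 : 3 ≤ P) (hn : 0 < n) (hη : 0 < η)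
    (hW2 : W ^ 2 ≤ 768 + (27 + 147 / 400 * (η * n)) * S) (hWu : W = P * n * u)
    (hSω : S = 2 * P * n * ω) (hω0 : 0 ≤ ω) (hnη : 2 * 10 ^ 9 ≤ η * n)
    (hδ1 : δ ≤ η / (8 * P * n)) : u ^ 2 + δ ≤ η / (4 * P * n) + η / 2 * ω := by
  have hP0 : 0 < P := by linarith
  have hpn : 0 < P * n := by positivity
  have h1 : u ^ 2 ≤ 768 / (P * n) ^ 2 + (18 / n + 98 / 400 * η) * ω := by
    have e1 : u ^ 2 = W ^ 2 / (P * n) ^ 2 := by
      rw [hWu]
      field_simp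
    have e2 : u ^ 2 ≤ (768 + (27 + 147 / 400 * (η * n)) * S) / (P * n) ^ 2 := by
      rw [e1]
      exact div_le_div_of_nonneg_right hW2 (by positivity)
    have e3 : (768 + (27 + 147 / 400 * (η * n)) * S) / (P * n) ^ 2 =
        768 / (P * n) ^ 2 + ((54 / n + 294 / 400 * η) * ω) / P := by
      rw [hSω]
      field_simp
      ring
    rw [e3] at e2
    have e4 : ((54 / n + 294 / 400 * η) * ω) / P ≤ ((54 / n + 294 / 400 * η) * ω) / 3 :=
      div_le_div_of_nonneg_left (by positivity) (by norm_num) hP3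
    have e5 : ((54 / n + 294 / 400 * η) * ω) / 3 = (18 / n + 98 / 400 * η) * ω := by ring
    linarith
  have h2 : 768 / (P * n) ^ 2 ≤ η / (8 * P * n) := by
    rw [div_le_div_iff₀ (by positivity) (by positivity)]
    have h3 : 768 * 8 ≤ η * (P * n) := by
      have h4 : η * n * 1 ≤ η * n * P := mul_le_mul_of_nonneg_left (by linarith) (by positivity)
      linarith
    have h4 := mul_le_mul_of_nonneg_right h3 hpn.le
    calc 768 * (8 * P * n) = 768 * 8 * (P * n) := by ring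
      _ ≤ η * (P * n) * (P * n) := h4
      _ = η * (P * n) ^ 2 := by ring
  have h3 : 18 / n ≤ η / 4 := by
    rw [div_le_div_iff₀ hn (by norm_num)]
    linarith
  have h4 : (18 / n + 98 / 400 * η) * ω ≤ η / 2 * ω :=
    mul_le_mul_of_nonneg_right (by linarith) hω0
  have h5 : η / (8 * P * n) + η / (8 * P * n) = η / (4 * P * n) := by
    field_simp
    norm_num
  linarith

theorem yab_fin {P n η S W u ω T φ : ℝ} (hP3 : 3 ≤ P) (hn : 0 < n) (hη : 0 < η)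
    (hη1 : η ≤ 1) (hSω : S = 2 * P * n * ω) (hWu : W = P * n * u) (hu : |u| ≤ 3 * η / 1000)
    (hT0 : 0 ≤ T) (hT : (φ - η / 8) / (2 * P * n) ≤ T) (hφ1 : φ ≤ 13 / 2) :
    1 + u / 2 + η / (4 * P * n) - (1 - η) * ω - (1 - |u|) * ((1 - η / 2000) * T) ≤
      1 - ((1 - η) * S - W + φ - η) / (2 * P * n) := by
  have hP0 : 0 < P := by linarith
  have h1 : (φ - η / 4) / (2 * P * n) ≤ (1 - |u|) * ((1 - η / 2000) * T) := by
    have h2 : (1 - η / 200) * T ≤ (1 - |u|) * ((1 - η / 2000) * T) := by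
      have h3 : 1 - η / 200 ≤ (1 - |u|) * (1 - η / 2000) := by
        have h4 := abs_nonneg u
        have h5 : 0 ≤ |u| * (η / 2000) := by positivity
        have h6 : (1 - |u|) * (1 - η / 2000) = 1 - |u| - η / 2000 + |u| * (η / 2000) := by ring
        linarith
      calc (1 - η / 200) * T ≤ (1 - |u|) * (1 - η / 2000) * T := mul_le_mul_of_nonneg_right h3 hT0
        _ = _ := by ring
    refine le_trans ?_ h2
    refine le_trans ?_ (mul_le_mul_of_nonneg_left hT (by linarith : 0 ≤ 1 - η / 200))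
    rw [← mul_div_assoc]
    apply div_le_div_of_nonneg_right _ (by positivity)
    nlinarith
  have h2 : ((1 - η) * S - W + φ - η) / (2 * P * n) = (1 - η) * ω - u / 2 +
      (φ - η / 4) / (2 * P * n) - 3 / 2 * (η / (4 * P * n)) := by
    rw [hSω, hWu]
    field_simp
    ring
  have h3 : 0 ≤ η / (4 * P * n) := by positivity
  rw [h2]
  linarith

/-- PROOF (compare `A5_so`). Let `σ = a + p²b`, `τ = a + p⁴b` (`a = ca z 1`, `b = ca z (-p)`), `W = pn - σ` (`YA_sL`),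
`G = sqrt (2/(πσ))`, `G0 = sqrt (2/(πpn))`. By `NearP` `σ ∈ [(p-1/10)n, (p+1/10)n]`, `τ ≤ 16σ`, `a ≥ n/2`.
`FA_lat`: `pz ≤ JJ + exp (-a/13)`, so `JJ ≥ (1-κ) G` for small `ηS` and large `n` and `GE_final η' 16` (`η'` small, e.g.
`η' = η/10^6`) gives `S := sE + D² ≤ η' σ` and `JJ ≤ G (1 - (1-η')(S/(2σ) + τ/(4σ²)))`. On `ExP`: `|p - (p-1)v| ≤ 7|v| ≤ 7v²`,
so `|W| ≤ 16 + 3|D| + 7 sE`, `u = W/(pn)` is small, `G = G0 (1-u)^(-1/2) ≤ G0 (1 + u/2 + u²)` (`A5_sqrt`), and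
`u² ≤ (768 + 27 D² + 147 sE²)/(pn)² ≤ (η/8)(1 + S)/(pn)` for `n` large and `η'` small. `τ/(4σ²) ≥ (phi p - η/8)/(2pn)` by
`NearP` (`b` is within `2ηS n` of `n/(p+1)`, `a` of `pn/(p+1)`; `τ ≈ p (p²-p+1) n`). Multiply out; `exp (-a/13)` is
negligible. -/
theorem YA_so (p : ℕ) (hp3 : 3 ≤ p) (hp4 : p ≤ 4) (η : ℝ) (hη : 0 < η) (hη1 : η ≤ 1) :
    ∃ ηS : ℝ, 0 < ηS ∧ ηS ≤ 1 / 100 ∧ ∃ n0 : ℕ, ∀ n : ℕ, n0 ≤ n → ∀ z : Fin n → ℤ, NearP p ηS z →
      ca z 0 ≤ 4 → (1 - ηS) * Real.sqrt (2 / (Real.pi * p * n)) ≤ pz z Finset.univ 0 →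
      pz z Finset.univ 0 ≤ Real.sqrt (2 / (Real.pi * p * n)) *
        (1 - (QQ p η z + phi p - η) / (2 * p * n)) := by
  have hpi := Real.pi_pos
  have hP : (p : ℝ) = 3 ∨ (p : ℝ) = 4 := by
    have h1 : p = 3 ∨ p = 4 := by omega
    rcases h1 with rfl | rfl
    · left; norm_num
    · right; norm_num
  have hP3 : (3 : ℝ) ≤ p := by exact_mod_cast hp3
  have hP4 : (p : ℝ) ≤ 4 := by exact_mod_cast hp4
  obtain ⟨κ, hκ, hκ1, σ0, hσ0, hGE⟩ := GE_final (η / 2000) 16 (by positivity) (by linarith)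
    (by norm_num)
  obtain ⟨s, hs⟩ : ∃ s, s = min (κ / 8) (η / 1000) := ⟨_, rfl⟩
  have hs0 : 0 < s := by rw [hs]; positivity
  have hsκ : s ≤ κ / 8 := by rw [hs]; exact min_le_left _ _
  have hsη : s ≤ η / 1000 := by rw [hs]; exact min_le_right _ _
  refine ⟨s, hs0, by linarith, ⌈2 * 10 ^ 9 / η⌉₊ + ⌈1 / κ⌉₊ + ⌈σ0⌉₊ + 1, ?_⟩
  intro n hn z hz hc0 hpz
  have hn1 : (1 : ℝ) ≤ n := by
    have : 1 ≤ n := by omega
    exact_mod_cast this
  have hn0 : (0 : ℝ) < n := by linarith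
  have hnη : 2 * 10 ^ 9 / η ≤ n := by
    refine (Nat.le_ceil _).trans ?_
    have : ⌈2 * 10 ^ 9 / η⌉₊ ≤ n := by omega
    exact_mod_cast this
  have hnκ : 1 / κ ≤ n := by
    refine (Nat.le_ceil _).trans ?_
    have : ⌈1 / κ⌉₊ ≤ n := by omega
    exact_mod_cast this
  have hnσ : σ0 ≤ n := by
    refine (Nat.le_ceil _).trans ?_
    have : ⌈σ0⌉₊ ≤ n := by omega
    exact_mod_cast this
  -- the parameters
  obtain ⟨a, ha⟩ : ∃ a, a = (ca z 1 : ℝ) := ⟨_, rfl⟩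
  obtain ⟨b, hb⟩ : ∃ b, b = (ca z (-(p : ℤ)) : ℝ) := ⟨_, rfl⟩
  have ha0 : 0 ≤ a := by rw [ha]; positivity
  have hb0 : 0 ≤ b := by rw [hb]; positivity
  obtain ⟨hz1, hz2⟩ := hz
  rw [← ha, ← hb] at hz1 hz2
  have habn := yab_card p (by omega) z
  rw [← ha, ← hb] at habn
  obtain ⟨q1, q2, q3⟩ := yab_near p a b n s hP hn0.le hs0.le (by linarith) hz1 habn hz2
  obtain ⟨σ, hσ⟩ : ∃ σ, σ = a + (p : ℝ) ^ 2 * b := ⟨_, rfl⟩
  obtain ⟨τ, hτ⟩ : ∃ τ, τ = a + (p : ℝ) ^ 4 * b := ⟨_, rfl⟩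
  rw [← hσ] at q2
  rw [← hτ] at q3
  have hτ0 : 0 ≤ τ := by rw [hτ]; positivity
  have hτσ : τ ≤ 16 * σ := by
    rw [hτ, hσ]
    exact yab_t1 hP3 hP4 ha0 hb0
  have hT := yab_four p σ τ n s η hP hn0 hη hη1 hs0.le hsη q2 q3
  obtain ⟨hσn, hσ5⟩ := yab_t2 hP3 hP4 hn0 hη1 hsη q2
  have hσpos : 0 < σ := by linarith
  -- the Fourier majorant
  have hFA := FA_lat p (by omega) hp4 z
  rw [← ha, ← hb, ← hσ, ← hτ] at hFA
  obtain ⟨G0, hG0⟩ : ∃ G0, G0 = Real.sqrt (2 / (Real.pi * p * n)) := ⟨_, rfl⟩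
  have hG0pos : 0 < G0 := by rw [hG0]; exact Real.sqrt_pos.2 (by positivity)
  obtain ⟨u, hu⟩ : ∃ u, u = (p * n - σ) / (p * n) := ⟨_, rfl⟩
  have hpn : (0 : ℝ) < p * n := by positivity
  have hσu : σ = p * n * (1 - u) := by rw [hu]; field_simp; ring
  have hu1 : |u| ≤ 3 * s := by
    rw [hu, abs_div, abs_of_pos hpn, div_le_iff₀ hpn]
    refine q2.trans ?_
    have h1 : 3 * (s * n) ≤ p * (s * n) := mul_le_mul_of_nonneg_right hP3 (by positivity)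
    have h2 : 3 * s * (p * n) = 3 * (p * (s * n)) := by ring
    have h3 : 0 ≤ s * n := by positivity
    rw [h2]
    linarith
  obtain ⟨hu2, hu3⟩ := abs_le.1 hu1
  have hu4 : 0 < 1 - u := by linarith
  have hGG : Real.sqrt (2 / (Real.pi * σ)) = G0 * Real.sqrt (1 / (1 - u)) := by
    rw [hG0, ← Real.sqrt_mul (by positivity), hσu]
    congr 1
    field_simp
  obtain ⟨δ, hδ⟩ : ∃ δ, δ = Real.exp (-a / 13) / G0 := ⟨_, rfl⟩
  have hδ0 : 0 < δ := by rw [hδ]; exact div_pos (Real.exp_pos _) hG0pos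
  have hδG : Real.exp (-a / 13) = G0 * δ := by rw [hδ]; field_simp
  have hδ1 : δ ≤ η / (8 * p * n) := by
    rw [hδ, div_le_iff₀ hG0pos, hG0]
    exact yab_exp hP hη hn1 hnη q1
  have hδ2 : δ ≤ κ / 2 := by
    refine hδ1.trans ?_
    rw [div_le_div_iff₀ (by positivity) (by norm_num)]
    rw [div_le_iff₀ hκ] at hnκ
    have h1 : 24 * (n * κ) ≤ 8 * p * (n * κ) := by
      apply mul_le_mul_of_nonneg_right (by linarith) (by positivity)
    have h2 : κ * (8 * p * n) = 8 * p * (n * κ) := by ring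
    rw [h2]
    linarith
  obtain ⟨J, hJ⟩ : ∃ J, J = JJ σ τ (ExP p z) (fun e => (z e : ℝ)) (DD z) := ⟨_, rfl⟩
  rw [← hJ, hδG] at hFA
  rw [← hG0] at hpz ⊢
  have hJlow : (1 - κ) * Real.sqrt (2 / (Real.pi * σ)) ≤ J := by
    rw [hGG]
    refine yab_low hG0pos hs0.le hsκ hδ0.le hδ2 hκ1 hu1 ?_
    have h1 : (1 - s - δ) * G0 = (1 - s) * G0 - G0 * δ := by ring
    rw [h1]
    linarith
  obtain ⟨g1, g2⟩ := hGE σ τ (hnσ.trans hσn) hτ0 hτσ (Fin n) (ExP p z) (fun e => (z e : ℝ)) (DD z)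
    (by rw [← hJ]; exact hJlow)
  rw [← hJ] at g2
  obtain ⟨E, hE⟩ : ∃ E, E = ∑ e ∈ ExP p z, (z e : ℝ) ^ 2 := ⟨_, rfl⟩
  rw [← hE] at g1 g2
  have hE0 : 0 ≤ E := by rw [hE]; exact Finset.sum_nonneg fun e _ => sq_nonneg _
  obtain ⟨S, hS⟩ : ∃ S, S = E + DD z ^ 2 := ⟨_, rfl⟩
  rw [← hS] at g1 g2
  have hS0 : 0 ≤ S := by rw [hS]; positivity
  have hES : E ≤ S := by rw [hS]; linarith [sq_nonneg (DD z)]
  have hDS : DD z ^ 2 ≤ S := by rw [hS]; linarith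
  -- the sum of squares
  have hYA := YA_sL p (by omega) z
  rw [← ha, ← hb, ← hσ] at hYA
  obtain ⟨W, hW⟩ : ∃ W, W = p * (ca z 0 : ℝ) + (p - 1) * DD z +
    ∑ e ∈ ExP p z, (p - (p - 1) * (z e : ℝ)) := ⟨_, rfl⟩
  rw [← hW] at hYA
  have hWu : W = p * n * u := by
    rw [hu]
    field_simp
    linarith
  have hQQ : QQ p η z = (1 - η) * S - W := by
    unfold QQ
    rw [← hE, ← hS, ← hW]
  have hsumE : |∑ e ∈ ExP p z, (p - (p - 1) * (z e : ℝ))| ≤ 7 * E := by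
    refine (Finset.abs_sum_le_sum_abs _ _).trans ?_
    rw [hE, Finset.mul_sum]
    refine Finset.sum_le_sum fun e he => ?_
    have h0 : z e ≠ 0 := by
      unfold ExP at he
      exact (Finset.mem_filter.1 he).2.1
    have h2 : (1 : ℤ) ≤ |z e| := Int.one_le_abs h0
    have h3 : (1 : ℝ) ≤ |(z e : ℝ)| := by exact_mod_cast h2
    have h4 : |(p : ℝ) - (p - 1) * (z e : ℝ)| ≤ p + (p - 1) * |(z e : ℝ)| := by
      refine (abs_sub _ _).trans ?_
      rw [abs_mul, abs_of_pos (by linarith : (0 : ℝ) < p),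
        abs_of_pos (by linarith : (0 : ℝ) < (p : ℝ) - 1)]
    have h5 : (z e : ℝ) ^ 2 = |(z e : ℝ)| ^ 2 := (sq_abs _).symm
    rw [h5]
    have h6 : ((p : ℝ) - 1) * |(z e : ℝ)| ≤ 3 * |(z e : ℝ)| :=
      mul_le_mul_of_nonneg_right (by linarith) (abs_nonneg _)
    have h7 := yab_v h3
    linarith
  have hc : (ca z 0 : ℝ) ≤ 4 := by exact_mod_cast hc0
  have hc' : (0 : ℝ) ≤ (ca z 0 : ℝ) := Nat.cast_nonneg _
  have hWabs : |W| ≤ 16 + 3 * |DD z| + 7 * E := by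
    rw [hW]
    refine (abs_add_le _ _).trans (add_le_add ((abs_add_le _ _).trans (add_le_add ?_ ?_)) hsumE)
    · rw [abs_of_nonneg (by positivity)]
      calc (p : ℝ) * (ca z 0 : ℝ) ≤ 4 * 4 := mul_le_mul hP4 hc hc' (by norm_num)
        _ = 16 := by norm_num
    · rw [abs_mul, abs_of_pos (by linarith : (0 : ℝ) < (p : ℝ) - 1)]
      exact mul_le_mul_of_nonneg_right (by linarith) (abs_nonneg _)
  have hE5 : E ≤ η / 400 * n := by
    calc E ≤ S := hES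
      _ ≤ η / 2000 * σ := g1
      _ ≤ η / 2000 * (5 * n) := mul_le_mul_of_nonneg_left hσ5 (by positivity)
      _ = _ := by ring
  have hW2 : W ^ 2 ≤ 768 + (27 + 147 / 400 * (η * n)) * S := by
    exact yab_W2 hWabs hE0 hE5 hES hDS
  obtain ⟨ω, hω⟩ : ∃ ω, ω = S / (2 * p * n) := ⟨_, rfl⟩
  have hω0 : 0 ≤ ω := by rw [hω]; positivity
  have hSω : S = 2 * p * n * ω := by rw [hω]; field_simp
  have hω1 : ω ≤ 1 / 4 := by
    rw [hω, div_le_iff₀ (by positivity)]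
    have h1 : S ≤ η / 400 * n := by
      calc S ≤ η / 2000 * σ := g1
        _ ≤ η / 2000 * (5 * n) := mul_le_mul_of_nonneg_left hσ5 (by positivity)
        _ = _ := by ring
    have h2 : η / 400 * n ≤ 1 * n := mul_le_mul_of_nonneg_right (by linarith) hn0.le
    have h3 : 1 / 4 * (2 * (p : ℝ) * n) = 1 / 2 * (p * n) := by ring
    have h4 : 3 * (n : ℝ) ≤ p * n := mul_le_mul_of_nonneg_right hP3 hn0.le
    rw [h3]
    linarith
  have hnη2 : 2 * 10 ^ 9 ≤ η * n := by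
    rw [div_le_iff₀ hη] at hnη
    linarith
  have hkey : u ^ 2 + δ ≤ η / (4 * p * n) + η / 2 * ω := by
    exact yab_key hP3 hn0 hη hW2 hWu hSω hω0 hnη2 hδ1
  obtain ⟨T, hTd⟩ : ∃ T, T = τ / (4 * σ ^ 2) := ⟨_, rfl⟩
  have hT0 : 0 ≤ T := by rw [hTd]; positivity
  rw [← hTd] at hT g2
  have hcalc := yab_calc (η1 := η / 2000) (m := η / (4 * p * n)) (T := T) hη hη1 hω0 hω1
    (by linarith : |u| ≤ η / 8) hkey hT0 (by linarith)
  -- translate
  have e1 : S / (2 * σ) = ω / (1 - u) := by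
    rw [hσu, hSω]
    field_simp
  rw [hGG, e1] at g2
  have hfin : pz z Finset.univ 0 ≤ G0 * (1 + u / 2 + η / (4 * p * n) - (1 - η) * ω -
      (1 - |u|) * ((1 - η / 2000) * T)) := by
    refine hFA.trans ?_
    calc J + G0 * δ ≤ G0 * Real.sqrt (1 / (1 - u)) * (1 - (1 - η / 2000) * (ω / (1 - u) + T)) +
          G0 * δ := by linarith
      _ = G0 * (Real.sqrt (1 / (1 - u)) * (1 - (1 - η / 2000) * (ω / (1 - u) + T)) + δ) := by ring
      _ ≤ _ := mul_le_mul_of_nonneg_left hcalc hG0pos.le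
  refine hfin.trans (mul_le_mul_of_nonneg_left ?_ hG0pos.le)
  rw [hQQ]
  have hφ : phi p = ((p : ℝ) ^ 2 - p + 1) / 2 := rfl
  rw [← hφ] at hT
  have hφ1 : phi p ≤ 13 / 2 := by
    rw [hφ]
    have : ((p : ℝ) - 4) * (p + 3) ≤ 0 := mul_nonpos_of_nonpos_of_nonneg (by linarith) (by linarith)
    linarith [show ((p : ℝ) - 4) * (p + 3) = p ^ 2 - p - 12 by ring]
  exact yab_fin hP3 hn0 hη hη1 hSω hWu (by linarith) hT0 hT hφ1

end H31Y
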