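import Pool.Agent.Lib.H31Y.Defs
import Pool.Agent.Lib.H31Z.F1

/-!
Chunk YC: the probability as a Fourier product.
-/

namespace H31Y

open Finset H31Z MeasureTheory

private lemma yc_pow {n : ℕ} (z : Fin n → ℤ) (v : ℤ) (x : ℝ) :
    ∏ i, x ^ (if z i = v then 1 else 0) = x ^ ca z v := by
  rw [Finset.prod_pow_eq_pow_sum]
  congr 1
  unfold ca
  rw [Finset.card_filter]

private lemma yc_one (t : ℝ) (z : ℤ) (h : z = 0 ∨ z = 1 ∨ z = -1 ∨ z = -2 ∨ z = -3 ∨ z = -4) :
    Real.cos (t * z / 2) =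
      Real.cos (t / 2) ^ (if z = 1 then 1 else 0) * Real.cos (t / 2) ^ (if z = -1 then 1 else 0) *
      Real.cos t ^ (if z = -2 then 1 else 0) * Real.cos (3 * t / 2) ^ (if z = -3 then 1 else 0) *
      Real.cos (2 * t) ^ (if z = -4 then 1 else 0) := by
  rcases h with rfl | rfl | rfl | rfl | rfl | rfl
  · simp
  · simp
  · have : t * ((-1 : ℤ) : ℝ) / 2 = -(t / 2) := by push_cast; ring
    rw [this, Real.cos_neg]
    simp
  · have : t * ((-2 : ℤ) : ℝ) / 2 = -t := by push_cast; ring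
    rw [this, Real.cos_neg]
    simp
  · have : t * ((-3 : ℤ) : ℝ) / 2 = -(3 * t / 2) := by push_cast; ring
    rw [this, Real.cos_neg]
    simp
  · have : t * ((-4 : ℤ) : ℝ) / 2 = -(2 * t) := by push_cast; ring
    rw [this, Real.cos_neg]
    simp

private lemma yc_D (t : ℝ) (D : ℤ) (h : |D| ≤ 4) :
    Real.cos (t * D / 2) =
      Real.cos (t / 2) ^ (if |D| = 1 then 1 else 0) *
      Real.cos t ^ (if |D| = 2 then 1 else 0) * Real.cos (3 * t / 2) ^ (if |D| = 3 then 1 else 0) *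
      Real.cos (2 * t) ^ (if |D| = 4 then 1 else 0) := by
  have e : Real.cos (t * D / 2) = Real.cos (t * (|D| : ℤ) / 2) := by
    rcases abs_choice D with h' | h'
    · rw [h']
    · rw [h']
      push_cast
      rw [← Real.cos_neg]
      congr 1
      ring
  rw [e]
  obtain ⟨m, hm⟩ : ∃ m : ℕ, |D| = m := ⟨D.natAbs, Int.abs_eq_natAbs D⟩
  rw [hm] at h ⊢
  have h4 : m ≤ 4 := by exact_mod_cast h
  interval_cases m
  · simp
  · simp
  · have : t * ((2 : ℤ) : ℝ) / 2 = t := by push_cast; ring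
    simp
  · have : t * ((3 : ℤ) : ℝ) / 2 = 3 * t / 2 := by push_cast; ring
    simp [mul_comm]
  · have : t * ((4 : ℤ) : ℝ) / 2 = 2 * t := by push_cast; ring
    simpa using congrArg Real.cos this

/-- PROOF. `F1_inv` with `s = 0`; `cos (t z/2)` is `1, cos (t/2), cos t, cos (3t/2), cos (2t)` for
`|z| = 0, 1, 2, 3, 4`, and `cos (t (0 - mn)) = cos (t D/2)`, `D = ∑ z`, is one more factor. -/
theorem YC_gk {n : ℕ} (z : Fin n → ℤ)
    (h : ∀ i, z i = 0 ∨ z i = 1 ∨ z i = -1 ∨ z i = -2 ∨ z i = -3 ∨ z i = -4)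
    (hD : |∑ i, z i| ≤ 4) :
    pz z Finset.univ 0 = GK
      (ca z 1 + ca z (-1) + if |∑ i, z i| = 1 then 1 else 0)
      (ca z (-2) + if |∑ i, z i| = 2 then 1 else 0)
      (ca z (-3) + if |∑ i, z i| = 3 then 1 else 0)
      (ca z (-4) + if |∑ i, z i| = 4 then 1 else 0) := by
  rw [F1_inv]
  unfold GK
  congr 1
  apply intervalIntegral.integral_congr
  intro t _
  simp only []
  have hm : Real.cos (t * (((0 : ℤ) : ℝ) - mn z Finset.univ)) = Real.cos (t * (∑ i, z i : ℤ) / 2) := by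
    unfold mn
    push_cast
    rw [← Real.cos_neg]
    congr 1
    ring
  rw [hm, yc_D t _ hD, Finset.prod_congr rfl fun i _ => yc_one t (z i) (h i)]
  simp only [Finset.prod_mul_distrib, yc_pow, pow_add]
  ring

end H31Y
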