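import Pool.Agent.Lib.H31Y.Defs
import Pool.Agent.Lib.H31Z.A9
import Pool.Agent.Lib.H31Y.ZVa

/-!
Chunk ZVb: admissibility of the heavy vectors
-/

namespace H31Y

open Finset H31Z

theorem zvb_le (n l u : ℕ) (hu : u ≤ n) (hl : l ≤ u) (S : Finset (Fin n)) :
    (S.filter (fun i : Fin n => l ≤ (i : ℕ) ∧ (i : ℕ) < u)).card ≤ u - l := by
  rw [← zva_card n l u hu hl]
  exact Finset.card_le_card (Finset.filter_subset_filter _ (Finset.subset_univ S))

/-- PROOF. A zero-sum set contains `q ≤ c` zeros, `j ≤ t` entries `-m`, `i ≤ b` entries `-1`, and so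
`j m + i ≤ a` ones; its size is `q + j + j m + 2 i`. -/
theorem ZV_adm (n r c a b m t : ℕ) (h : c + a + b + t = n)
    (hr : ∀ j ≤ t, ∀ i ≤ b, j * m + i ≤ a → ∀ q ≤ c, q + j + j * m + 2 * i ≠ r) :
    ∀ S : Finset (Fin n), S.card = r → ∑ i ∈ S, hvec n c a b m i ≠ 0 := by
  intro S hS h0
  obtain ⟨q, hq⟩ : ∃ q, q = (S.filter (fun i : Fin n => 0 ≤ (i : ℕ) ∧ (i : ℕ) < c)).card := ⟨_, rfl⟩
  obtain ⟨k, hk⟩ : ∃ k, k = (S.filter (fun i : Fin n => c ≤ (i : ℕ) ∧ (i : ℕ) < c + a)).card :=
    ⟨_, rfl⟩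
  obtain ⟨p, hp⟩ : ∃ p, p = (S.filter (fun i : Fin n => c + a ≤ (i : ℕ) ∧ (i : ℕ) < c + a + b)).card :=
    ⟨_, rfl⟩
  obtain ⟨j, hj⟩ : ∃ j, j = (S.filter (fun i : Fin n => c + a + b ≤ (i : ℕ) ∧ (i : ℕ) < n)).card :=
    ⟨_, rfl⟩
  have b1 : q ≤ c := by
    have := zvb_le n 0 c (by omega) (by omega) S
    omega
  have b2 : k ≤ a := by
    have := zvb_le n c (c + a) (by omega) (by omega) S
    omega
  have b3 : p ≤ b := by
    have := zvb_le n (c + a) (c + a + b) (by omega) (by omega) S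
    omega
  have b4 : j ≤ t := by
    have := zvb_le n (c + a + b) n (by omega) (by omega) S
    omega
  have hc : q + k + p + j = r := by
    rw [← hS, hq, hk, hp, hj, Finset.card_filter, Finset.card_filter, Finset.card_filter,
      Finset.card_filter, ← Finset.sum_add_distrib, ← Finset.sum_add_distrib,
      ← Finset.sum_add_distrib, Finset.card_eq_sum_ones]
    refine Finset.sum_congr rfl fun i _ => ?_
    have hi := i.2
    split_ifs <;> omega
  have hs : (0 : ℤ) = (k : ℤ) - p - j * m := by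
    rw [← h0, hk, hp, hj, Finset.card_filter, Finset.card_filter, Finset.card_filter]
    push_cast
    rw [Finset.sum_mul, ← Finset.sum_sub_distrib, ← Finset.sum_sub_distrib]
    refine Finset.sum_congr rfl fun i _ => ?_
    have hi := i.2
    unfold hvec
    by_cases c1 : (i : ℕ) < c
    · rw [if_pos c1, if_neg (by omega), if_neg (by omega), if_neg (by omega)]
      ring
    by_cases c2 : (i : ℕ) < c + a
    · rw [if_neg c1, if_pos c2, if_pos (by omega), if_neg (by omega), if_neg (by omega)]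
      ring
    by_cases c3 : (i : ℕ) < c + a + b
    · rw [if_neg c1, if_neg c2, if_pos c3, if_neg (by omega), if_pos (by omega), if_neg (by omega)]
      ring
    · rw [if_neg c1, if_neg c2, if_neg c3, if_neg (by omega), if_neg (by omega), if_pos (by omega)]
      ring
  have hkz : k = j * m + p := by
    have : (k : ℤ) = ((j * m + p : ℕ) : ℤ) := by push_cast; linarith
    exact_mod_cast this
  refine hr j b4 p b3 (by omega) q b1 ?_
  omega

/-- PROOF. `ZV_count`, `ZV_adm`, casts to `ℝ`, `ZZ = cz` for integer vectors (`F2_ZZ`, `F2_cast`, or directly). -/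
theorem ZV_real (n r c a b m t : ℕ) (h : c + a + b + t = n)
    (hr : ∀ j ≤ t, ∀ i ≤ b, j * m + i ≤ a → ∀ q ≤ c, q + j + j * m + 2 * i ≠ r) :
    ∃ x : Fin n → ℝ, Adm n r x ∧ ZZ n x =
      2 ^ c * ∑ j ∈ Finset.range (t + 1), t.choose j * (a + b).choose (b + j * m) := by
  refine ⟨fun i => (hvec n c a b m i : ℝ), ?_, ?_⟩
  · intro S hS h0
    refine ZV_adm n r c a b m t h hr S hS ?_
    have : ((∑ i ∈ S, hvec n c a b m i : ℤ) : ℝ) = 0 := by
      push_cast
      exact h0
    exact_mod_cast this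
  · rw [← ZV_count n c a b m t h]
    have h1 := F2_ZZ n (fun i => (hvec n c a b m i : ℝ))
    have h2 := F2_cast (fun i => (hvec n c a b m i : ℝ)) (hvec n c a b m) Finset.univ
      (fun _ _ => rfl) 0
    rw [Int.cast_zero] at h2
    rw [h2] at h1
    unfold pz at h1
    rw [Finset.card_univ, Fintype.card_fin, mul_div_cancel₀ _ (by positivity)] at h1
    exact_mod_cast h1

end H31Y
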